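import Pool.Agent.Lib.MP_9ebc94_an.TypeAB

/-!
The derivation on a finite extension of `ℂ(X)`.
-/

namespace Pool.Agent.Lib.MP_9ebc94_an

open Polynomial TensorProduct

theorem exists_derivation {L : Type*} [Field L] [Algebra ℂ[X] L] [Algebra ℂ L]
    [IsScalarTower ℂ ℂ[X] L] [Algebra.FormallyEtale ℂ[X] L] :
    ∃ D : Derivation ℂ L L, D (algebraMap ℂ[X] L X) = 1 := by
  let d : Derivation ℂ ℂ[X] L := Polynomial.mkDerivation ℂ (1 : L)
  let lin : Ω[L⁄ℂ] →ₗ[L] L := (LinearMap.liftBaseChange L d.liftKaehlerDifferential) ∘ₗ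
    (KaehlerDifferential.tensorKaehlerEquivOfFormallyEtale ℂ ℂ[X] L).symm.toLinearMap
  refine ⟨lin.compDer (KaehlerDifferential.D ℂ L), ?_⟩
  change lin (KaehlerDifferential.D ℂ L (algebraMap ℂ[X] L X)) = 1
  simp only [lin, LinearMap.comp_apply, LinearEquiv.coe_coe]
  rw [KaehlerDifferential.tensorKaehlerEquivOfFormallyEtale_symm_D_algebraMap]
  simp [d]

theorem etale {K L : Type*} [Field K] [Field L] [Algebra ℂ[X] K] [IsFractionRing ℂ[X] K]
    [Algebra K L] [Algebra ℂ[X] L] [IsScalarTower ℂ[X] K L] [FiniteDimensional K L]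
    [Algebra.IsSeparable K L] : Algebra.FormallyEtale ℂ[X] L := by
  have h1 : Algebra.FormallyEtale ℂ[X] K :=
    Algebra.FormallyEtale.of_isLocalization (nonZeroDivisors ℂ[X])
  have h2 : Algebra.FormallyEtale K L := Algebra.FormallyEtale.of_isSeparable K L
  exact Algebra.FormallyEtale.comp ℂ[X] K L

theorem algebraMap_eq_aeval {L : Type*} [Field L] [Algebra ℂ[X] L] [Algebra ℂ L]
    [IsScalarTower ℂ ℂ[X] L] (f : ℂ[X]) :
    algebraMap ℂ[X] L f = aeval (algebraMap ℂ[X] L X) f := by
  rw [aeval_algebraMap_apply, aeval_X_left_apply]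

theorem finite_adjoin {K L : Type*} [Field K] [Field L] [Algebra ℂ[X] K] [IsFractionRing ℂ[X] K]
    [Algebra K L] [Algebra ℂ[X] L] [IsScalarTower ℂ[X] K L] [FiniteDimensional K L]
    [Algebra ℂ L] [IsScalarTower ℂ ℂ[X] L] :
    FiniteDimensional (IntermediateField.adjoin ℂ {(algebraMap ℂ[X] L X)⁻¹}) L := by
  set F := IntermediateField.adjoin ℂ {(algebraMap ℂ[X] L X)⁻¹} with hF
  have hz : algebraMap ℂ[X] L X ∈ F := by
    have h1 : (algebraMap ℂ[X] L X)⁻¹ ∈ F := IntermediateField.mem_adjoin_simple_self ℂ _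
    have h2 := F.inv_mem h1
    rwa [inv_inv] at h2
  have hpoly : ∀ a : ℂ[X], algebraMap ℂ[X] L a ∈ F := by
    intro a
    rw [algebraMap_eq_aeval, aeval_eq_sum_range]
    refine sum_mem fun i _ => ?_
    exact F.smul_mem (pow_mem hz i)
  have hK : ∀ k : K, algebraMap K L k ∈ F := by
    intro k
    obtain ⟨a, b, -, rfl⟩ := IsFractionRing.div_surjective (A := ℂ[X]) k
    rw [map_div₀, ← IsScalarTower.algebraMap_apply, ← IsScalarTower.algebraMap_apply]
    exact div_mem (hpoly a) (hpoly b)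
  let φ : K →+* F := (algebraMap K L).codRestrict F.toSubring hK
  let _ : Algebra K F := φ.toAlgebra
  have : IsScalarTower K F L := IsScalarTower.of_algebraMap_eq fun x => rfl
  exact Module.Finite.of_restrictScalars_finite K F L

/-- derivative of the coefficients of a bivariate polynomial -/
noncomputable def dX (q : ℂ[X][X]) : ℂ[X][X] :=
  ∑ n ∈ Finset.range (q.natDegree + 1), monomial n (derivative (q.coeff n))

theorem coeff_dX (q : ℂ[X][X]) (n : ℕ) : (dX q).coeff n = derivative (q.coeff n) := by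
  rw [dX, finsetSum_coeff]
  simp only [coeff_monomial]
  by_cases h : n ≤ q.natDegree
  · rw [Finset.sum_ite_eq' , if_pos]
    rw [Finset.mem_range]; omega
  · rw [Finset.sum_ite_eq', if_neg]
    · rw [coeff_eq_zero_of_natDegree_lt (by omega), derivative_zero]
    · rw [Finset.mem_range]; omega

theorem dX_add (p q : ℂ[X][X]) : dX (p + q) = dX p + dX q := by
  ext1 n
  simp [coeff_dX]

theorem dX_monomial (n : ℕ) (a : ℂ[X]) : dX (monomial n a) = monomial n (derivative a) := by
  ext1 k
  rw [coeff_dX, coeff_monomial, coeff_monomial]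
  split_ifs <;> simp

theorem D_algebraMap {L : Type*} [Field L] [Algebra ℂ[X] L] [Algebra ℂ L]
    [IsScalarTower ℂ ℂ[X] L] (D : Derivation ℂ L L) (hD : D (algebraMap ℂ[X] L X) = 1) (a : ℂ[X]) :
    D (algebraMap ℂ[X] L a) = algebraMap ℂ[X] L (derivative a) := by
  rw [algebraMap_eq_aeval a, algebraMap_eq_aeval (derivative a), Derivation.map_aeval, hD]
  simp

theorem chain_rule {L : Type*} [Field L] [Algebra ℂ[X] L] [Algebra ℂ L]
    [IsScalarTower ℂ ℂ[X] L] (D : Derivation ℂ L L) (hD : D (algebraMap ℂ[X] L X) = 1)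
    (w : L) (q : ℂ[X][X]) :
    D (aeval w q) = aeval w (dX q) + aeval w (derivative q) * D w := by
  induction q using Polynomial.induction_on' with
  | add p q hp hq =>
    rw [map_add, map_add, hp, hq, dX_add, map_add, derivative_add, map_add]
    ring
  | monomial n a =>
    rw [dX_monomial, aeval_monomial, aeval_monomial, derivative_monomial, aeval_monomial,
      Derivation.leibniz, Derivation.leibniz_pow, D_algebraMap D hD]
    simp only [smul_eq_mul, nsmul_eq_mul, map_mul, map_natCast]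
    ring

end Pool.Agent.Lib.MP_9ebc94_an
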