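import Pool.Agent.Lib.MP_9ebc94_an.Compare
import Pool.Agent.Lib.MP_9ebc94_an.Field

/-!
The global algebraic argument.
-/

set_option linter.unusedSectionVars false

namespace Pool.Agent.Lib.MP_9ebc94_an

open WithZero Polynomial

/-- `f' q_w + f*' q_z` -/
noncomputable def Aq (q : ℂ[X][X]) (s : ℂ[X] × ℝ) : ℂ[X][X] :=
  C (derivative s.1) * derivative q + (derivative (conjP s.1)).map C * dX q

/-- `i σ (f(z) + f*(w))` -/
noncomputable def Hq (s : ℂ[X] × ℝ) : ℂ[X][X] :=
  C (C (Complex.I * s.2)) * (C s.1 + (conjP s.1).map C)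

/-- the algebraic data of an arc -/
structure CurveData (S : Set (ℂ[X] × ℝ)) (q : ℂ[X][X]) : Prop where
  prim : q.IsPrimitive
  irr : Irreducible (q.map (algebraMap ℂ[X] (FractionRing ℂ[X])))
  degX : ∀ i, (q.coeff i).natDegree ≤ q.natDegree
  cong : ∀ s ∈ S, ∀ s' ∈ S, q ∣ Aq q s * Aq q s' + Hq s * Hq s' * derivative q * dX q
  ndX : ¬ q ∣ dX q
  nH : ∀ s ∈ S, ¬ q ∣ Hq s

section Abstract

variable {K L : Type*} [Field K] [Field L] [Algebra ℂ[X] K] [IsFractionRing ℂ[X] K]
  [Algebra K L] [Algebra ℂ[X] L] [IsScalarTower ℂ[X] K L] [Algebra ℂ L] [IsScalarTower ℂ ℂ[X] L]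

theorem aeval_eq_map (w : L) (G : ℂ[X][X]) : aeval w G = aeval w (G.map (algebraMap ℂ[X] K)) := by
  rw [aeval_map_algebraMap]

omit [IsFractionRing ℂ[X] K] in
theorem aeval_mapC (w : L) (p : ℂ[X]) : aeval w (p.map (C : ℂ →+* ℂ[X])) = aeval w p := by
  have : (C : ℂ →+* ℂ[X]) = algebraMap ℂ ℂ[X] := rfl
  rw [this, aeval_map_algebraMap]

theorem dvd_of_aeval {q : ℂ[X][X]} (hprim : q.IsPrimitive)
    (hirr : Irreducible (q.map (algebraMap ℂ[X] K))) {w : L} (hw : aeval w q = 0) {G : ℂ[X][X]}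
    (hG : aeval w G = 0) : q ∣ G := by
  apply hprim.dvd_of_fraction_map_dvd_fraction_map (K := K)
  rw [aeval_eq_map (K := K)] at hw hG
  have h1 := minpoly.eq_of_irreducible hirr hw
  have h2 := minpoly.dvd K w hG
  rw [← h1] at h2
  exact (dvd_mul_right _ _).trans h2

theorem aeval_of_dvd {q : ℂ[X][X]} {w : L} (hw : aeval w q = 0) {G : ℂ[X][X]}
    (hG : q ∣ G) : aeval w G = 0 := by
  obtain ⟨r, rfl⟩ := hG
  rw [map_mul, hw, zero_mul]

theorem aeval_Aq (w : L) (q : ℂ[X][X]) (s : ℂ[X] × ℝ) :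
    aeval w (Aq q s) = aeval (algebraMap ℂ[X] L X) (derivative s.1) * aeval w (derivative q) +
      aeval w (derivative (conjP s.1)) * aeval w (dX q) := by
  rw [Aq, map_add, map_mul, map_mul, aeval_C, algebraMap_eq_aeval, aeval_mapC]

theorem aeval_Hq (w : L) (s : ℂ[X] × ℝ) :
    aeval w (Hq s) = algebraMap ℂ L (Complex.I * s.2) *
      (aeval (algebraMap ℂ[X] L X) s.1 + aeval w (conjP s.1)) := by
  rw [Hq, map_mul, map_add, aeval_C, aeval_C, algebraMap_eq_aeval (C (Complex.I * (s.2 : ℂ))),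
    aeval_mapC, algebraMap_eq_aeval s.1, aeval_C]

/-- the function `T` on the curve -/
noncomputable def Tq (q : ℂ[X][X]) (s : ℂ[X] × ℝ) (w : L) : L :=
  -aeval w (Aq q s) / (aeval w (Hq s) * aeval w (dX q))

/-- data attached to a root of `q` -/
structure RootData (D : Derivation ℂ L L) (S : Set (ℂ[X] × ℝ)) (q : ℂ[X][X]) (w T : L) : Prop where
  root : aeval w q = 0
  E : ∀ s ∈ S, E1 (algebraMap ℂ[X] L X) w T s.1 s.2
  DT : D w * T ^ 2 = 1
  quad : T ^ 2 * aeval w (dX q) + aeval w (derivative q) = 0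

theorem derivative_ndvd {q : ℂ[X][X]} (hdeg : q.natDegree ≠ 0) : ¬ q ∣ derivative q := by
  intro h
  have h1 : derivative q ≠ 0 := by
    intro h0
    exact hdeg (derivative_eq_zero.1 h0)
  have h2 := natDegree_le_of_dvd h h1
  have h3 := natDegree_derivative_lt hdeg
  omega

theorem natDegree_q {S : Set (ℂ[X] × ℝ)} {q : ℂ[X][X]} (hq : CurveData S q) : q.natDegree ≠ 0 := by
  intro h
  have h1 := hq.irr
  rw [eq_C_of_natDegree_eq_zero h, map_C] at h1
  have h2 : (q.coeff 0) ≠ 0 := by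
    intro h0
    rw [h0, map_zero, C_0] at h1
    exact h1.ne_zero rfl
  apply h1.not_isUnit
  rw [isUnit_C, isUnit_iff_ne_zero]
  intro h3
  exact h2 ((IsFractionRing.injective ℂ[X] (FractionRing ℂ[X])) (by rw [h3, map_zero]))

theorem root_data (D : Derivation ℂ L L) (hD : D (algebraMap ℂ[X] L X) = 1)
    {S : Set (ℂ[X] × ℝ)} {q : ℂ[X][X]} (hq : CurveData S q)
    (hirr : Irreducible (q.map (algebraMap ℂ[X] K))) {s0 : ℂ[X] × ℝ}
    (hs0 : s0 ∈ S) {w : L} (hw : aeval w q = 0) : RootData D S q w (Tq q s0 w) := by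
  have hX : aeval w (dX q) ≠ 0 := fun h => hq.ndX (dvd_of_aeval (K := K) hq.prim hirr hw h)
  have hY : aeval w (derivative q) ≠ 0 := fun h =>
    derivative_ndvd (natDegree_q hq) (dvd_of_aeval (K := K) hq.prim hirr hw h)
  have hH : aeval w (Hq s0) ≠ 0 := fun h =>
    hq.nH s0 hs0 (dvd_of_aeval (K := K) hq.prim hirr hw h)
  have hc : ∀ s ∈ S, aeval w (Aq q s0) * aeval w (Aq q s) +
      aeval w (Hq s0) * aeval w (Hq s) * aeval w (derivative q) * aeval w (dX q) = 0 := by
    intro s hs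
    have := aeval_of_dvd hw (hq.cong s0 hs0 s hs)
    simpa using this
  have hT : Tq q s0 w * (aeval w (Hq s0) * aeval w (dX q)) = -aeval w (Aq q s0) := by
    rw [Tq]
    field_simp
  set T := Tq q s0 w with hTdef
  have hquad : T ^ 2 * aeval w (dX q) + aeval w (derivative q) = 0 := by
    have h1 := hc s0 hs0
    have h2 : aeval w (Hq s0) ^ 2 * aeval w (dX q) *
        (T ^ 2 * aeval w (dX q) + aeval w (derivative q)) = 0 := by
      linear_combination h1 + (T * (aeval w (Hq s0) * aeval w (dX q)) - aeval w (Aq q s0)) * hT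
    exact (mul_eq_zero.1 h2).resolve_left (mul_ne_zero (pow_ne_zero _ hH) hX)
  have hT0 : T ≠ 0 := by
    intro h
    rw [h] at hquad
    apply hY
    linear_combination hquad
  have hchain := chain_rule D hD w q
  rw [hw, map_zero] at hchain
  refine ⟨hw, ?_, ?_, hquad⟩
  · intro s hs
    unfold E1
    rw [← aeval_Hq]
    have h1 := hc s hs
    have h2 := aeval_Aq w q s
    have h3 : aeval w (Aq q s) = aeval w (dX q) * (aeval w (derivative (conjP s.1)) -
        T ^ 2 * aeval (algebraMap ℂ[X] L X) (derivative s.1)) := by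
      linear_combination h2 + aeval (algebraMap ℂ[X] L X) (derivative s.1) * hquad
    have h4 : T * aeval w (Hq s0) * aeval w (dX q) ^ 2 *
        ((T ^ 2 * aeval (algebraMap ℂ[X] L X) (derivative s.1) -
          aeval w (derivative (conjP s.1))) - T * aeval w (Hq s)) = 0 := by
      linear_combination h1 - aeval w (Aq q s) * hT +
        aeval w (dX q) * T * aeval w (Hq s0) * h3 -
        aeval w (Hq s0) * aeval w (Hq s) * aeval w (dX q) * hquad
    have h5 := (mul_eq_zero.1 h4).resolve_left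
      (mul_ne_zero (mul_ne_zero hT0 hH) (pow_ne_zero _ hX))
    field_simp
    linear_combination h5
  · have h1 : aeval w (derivative q) * (D w * T ^ 2 - 1) = 0 := by
      linear_combination -T ^ 2 * hchain - hquad
    exact sub_eq_zero.1 ((mul_eq_zero.1 h1).resolve_left hY)

end Abstract

end Pool.Agent.Lib.MP_9ebc94_an
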