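import Pool.Agent.Lib.MP_9ebc94_an.Curve

/-!
The core theorem on an arc.
-/

namespace Pool.Agent.Lib.MP_9ebc94_an

open Polynomial Set

theorem coeff_C_mul_mapC (p r : ℂ[X]) (k : ℕ) : (C p * r.map C).coeff k = p * C (r.coeff k) := by
  rw [coeff_C_mul, coeff_map]

theorem coeff_Hq (s : ℂ[X] × ℝ) (k : ℕ) :
    (Hq s).coeff k = C (Complex.I * s.2) * ((C s.1 : ℂ[X][X]).coeff k + C ((conjP s.1).coeff k)) := by
  rw [Hq, coeff_C_mul, coeff_add, coeff_map]

/-- elimination polynomial -/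
noncomputable def elim (s1 s2 : ℂ[X] × ℝ) : ℂ[X][X] :=
  (Hq s1 * (derivative (conjP s2.1)).map C - Hq s2 * (derivative (conjP s1.1)).map C) *
    (C (derivative s2.1) * Hq s1 - C (derivative s1.1) * Hq s2) -
    (C (derivative s1.1) * (derivative (conjP s2.1)).map C -
      C (derivative s2.1) * (derivative (conjP s1.1)).map C) ^ 2

theorem elim_ne_zero {s1 s2 : ℂ[X] × ℝ} (hσ1 : s1.2 ≠ 0) (hσ2 : s2.2 ≠ 0)
    (h2 : 1 ≤ s2.1.natDegree) (h12 : s2.1.natDegree < s1.1.natDegree) : elim s1 s2 ≠ 0 := by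
  intro h0
  unfold elim at h0
  set U := Hq s1 * (derivative (conjP s2.1)).map C - Hq s2 * (derivative (conjP s1.1)).map C with hU
  set V := C (derivative s2.1) * Hq s1 - C (derivative s1.1) * Hq s2 with hV
  set M := C (derivative s1.1) * (derivative (conjP s2.1)).map C -
      C (derivative s2.1) * (derivative (conjP s1.1)).map C with hM
  set n1 := s1.1.natDegree with hn1
  set n2 := s2.1.natDegree with hn2
  have hder : ∀ f : ℂ[X], (derivative (conjP f)).natDegree ≤ f.natDegree - 1 := fun f =>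
    (natDegree_derivative_le _).trans (by rw [natDegree_conjP])
  have hMdeg : M.natDegree ≤ n1 - 1 := by
    refine (natDegree_sub_le _ _).trans (max_le ?_ ?_)
    · refine (natDegree_C_mul_le _ _).trans ((natDegree_map_le).trans ((hder _).trans ?_))
      omega
    · exact (natDegree_C_mul_le _ _).trans ((natDegree_map_le).trans (hder _))
  have hVdeg : n1 ≤ V.natDegree := by
    apply le_natDegree_of_ne_zero
    rw [hV, coeff_sub, coeff_C_mul, coeff_C_mul, coeff_Hq, coeff_Hq, coeff_C_of_ne_zero (by omega),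
      coeff_C_of_ne_zero (by omega), coeff_conjP, coeff_conjP,
      coeff_eq_zero_of_natDegree_lt (p := s2.1) (by omega)]
    simp only [map_zero, zero_add, mul_zero, sub_zero]
    refine mul_ne_zero ?_ (mul_ne_zero ?_ ?_)
    · intro h
      have := derivative_eq_zero.1 h
      omega
    · rw [C_ne_zero]
      exact mul_ne_zero Complex.I_ne_zero (by exact_mod_cast hσ1)
    · rw [C_ne_zero, _root_.map_ne_zero]
      rw [hn1, coeff_natDegree, Ne, leadingCoeff_eq_zero]
      intro h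
      rw [hn1, h, natDegree_zero] at h12
      omega
  have hUdeg : n1 - 1 ≤ U.natDegree := by
    apply le_natDegree_of_ne_zero
    intro hc
    have hHexp : ∀ s : ℂ[X] × ℝ, ∀ r : ℂ[X], Hq s * r.map C =
        C (C (Complex.I * s.2)) * (C s.1 * r.map C + ((conjP s.1) * r).map C) := by
      intro s r
      rw [Hq, Polynomial.map_mul]
      ring
    rw [hU, coeff_sub, hHexp, hHexp, coeff_C_mul, coeff_C_mul, coeff_add, coeff_add,
      coeff_C_mul_mapC, coeff_C_mul_mapC, coeff_map, coeff_map,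
      coeff_eq_zero_of_natDegree_lt (p := derivative (conjP s2.1))
        (by have := hder s2.1; omega)] at hc
    rw [C_0, mul_zero, zero_add] at hc
    -- look at the degree in the inner variable
    have hc2 := congrArg (fun p : ℂ[X] => p.coeff n2) hc
    simp only [coeff_sub, coeff_C_mul, coeff_add, coeff_mul_C, coeff_zero] at hc2
    rw [coeff_C_of_ne_zero (by omega), coeff_C_of_ne_zero (by omega)] at hc2
    simp only [zero_mul, zero_sub, add_zero, neg_eq_zero, mul_eq_zero] at hc2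
    rcases hc2 with h | h | h
    · rcases h with h | h
      · exact Complex.I_ne_zero h
      · exact hσ2 (by exact_mod_cast h)
    · rw [hn2, coeff_natDegree, leadingCoeff_eq_zero] at h
      rw [hn2, h, natDegree_zero] at h2
      omega
    · rw [coeff_derivative, Nat.sub_add_cancel (by omega), coeff_conjP, mul_eq_zero] at h
      rcases h with h | h
      · rw [map_eq_zero, hn1, coeff_natDegree, leadingCoeff_eq_zero] at h
        rw [hn1, h, natDegree_zero] at h12
        omega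
      · have h3 : (((n1 - 1 : ℕ)) : ℂ) + 1 ≠ 0 := by exact_mod_cast Nat.succ_ne_zero (n1 - 1)
        exact h3 h
  have hU0 : U ≠ 0 := by
    intro h
    rw [hU] at h
    by_cases h1 : n1 - 1 = 0
    · omega
    · rw [← hU] at h
      rw [h, natDegree_zero] at hUdeg
      omega
  have hV0 : V ≠ 0 := by
    intro h
    rw [h, natDegree_zero] at hVdeg
    omega
  have h3 : (U * V).natDegree = U.natDegree + V.natDegree := natDegree_mul hU0 hV0
  have h4 : (M ^ 2).natDegree ≤ 2 * (n1 - 1) := by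
    rw [natDegree_pow]
    omega
  rw [sub_eq_zero] at h0
  rw [h0] at h3
  omega

/-! ### bidegree -/

theorem coeff_coeff_swap (q : ℂ[X][X]) (i j : ℕ) :
    ((Bivariate.swap q).coeff j).coeff i = (q.coeff i).coeff j := by
  induction q using Polynomial.induction_on' with
  | add p q hp hq => simp only [map_add, coeff_add, hp, hq]
  | monomial n a =>
    induction a using Polynomial.induction_on' with
    | add p q hp hq => simp only [map_add, coeff_add, hp, hq]
    | monomial m r =>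
      rw [Bivariate.swap_monomial_monomial]
      simp only [coeff_monomial]
      split_ifs <;> simp_all [coeff_monomial]

theorem swap_dX (q : ℂ[X][X]) : Bivariate.swap (dX q) = derivative (Bivariate.swap q) := by
  ext j i
  have h : ((j : ℂ[X]) + 1) = C ((j : ℂ) + 1) := by simp
  rw [coeff_coeff_swap, coeff_dX, coeff_derivative, coeff_derivative, h, coeff_mul_C,
    coeff_coeff_swap]

theorem natDegree_coeff_le_swap (q : ℂ[X][X]) (i : ℕ) :
    (q.coeff i).natDegree ≤ (Bivariate.swap q).natDegree := by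
  by_cases h : q.coeff i = 0
  · rw [h, natDegree_zero]
    exact Nat.zero_le _
  · apply le_natDegree_of_ne_zero
    intro h1
    have h2 := coeff_coeff_swap q i (q.coeff i).natDegree
    rw [h1, coeff_zero] at h2
    exact h (leadingCoeff_eq_zero.1 h2.symm)

/-- conjugate and exchange the variables -/
noncomputable def cswap (q : ℂ[X][X]) : ℂ[X][X] :=
  Bivariate.swap (q.map (mapRingHom (starRingEnd ℂ)))

theorem ev_cswap (z : ℂ) (q : ℂ[X][X]) : ev z (cswap q) = starRingEnd ℂ (ev z q) := by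
  unfold ev cswap
  have h1 := Bivariate.aevalAeval_swap (R := ℂ) (A := ℂ) z (starRingEnd ℂ z)
    (q.map (mapRingHom (starRingEnd ℂ)))
  rw [coe_aevalAeval_eq_evalEval, coe_aevalAeval_eq_evalEval] at h1
  rw [h1]
  have h2 := map_mapRingHom_evalEval (starRingEnd ℂ) z (starRingEnd ℂ z) (p := q)
  rw [Complex.conj_conj] at h2
  exact h2

theorem natDegree_swap_cswap (q : ℂ[X][X]) : (Bivariate.swap (cswap q)).natDegree ≤ q.natDegree := by
  unfold cswap
  rw [Bivariate.swap_swap_apply]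
  exact natDegree_map_le

section ArcSection

variable {S : Set (ℂ[X] × ℝ)} {γ γ' T : ℝ → ℂ} {Z : Set ℝ} {a b : ℝ}

theorem Arc.restrict (A : Arc S γ γ' T Z a b) {c d : ℝ} (hc : a ≤ c) (hcd : c < d) (hd : d ≤ b) :
    Arc S γ γ' T Z c d := by
  have hsub : Ioo c d ⊆ Ioo a b := Ioo_subset_Ioo hc hd
  exact ⟨hcd, A.cont.mono hsub, A.inj.mono hsub,
    fun e f he hef hf => A.dense e f (hc.trans he) hef (hf.trans hd),
    fun t ht => A.deriv t (hsub ht), fun t ht => A.norm t (hsub ht),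
    fun t ht => A.par t (hsub ht), fun s hs t ht => A.E s hs t (hsub ht)⟩

theorem Arc.mem_of_dense (A : Arc S γ γ' T Z a b) {G : ℂ[X][X]}
    (h : ∀ t ∈ Ioo a b, t ∈ Z → ev (γ t) G = 0) : G ∈ vanI γ a b := by
  by_contra hG
  obtain ⟨c, d, hc, hcd, hd, hne⟩ := exists_sub A.cont hG
  obtain ⟨t, ht, htZ⟩ := A.dense c d hc hcd hd
  exact hne t ht (h t ⟨hc.trans_lt ht.1, ht.2.trans_le hd⟩ htZ)

theorem Arc.T_ne (A : Arc S γ γ' T Z a b) {t : ℝ} (ht : t ∈ Ioo a b) (hZ : t ∈ Z) : T t ≠ 0 := by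
  intro h
  have := A.norm t ht hZ
  rw [h, norm_zero] at this
  exact zero_ne_one this

theorem Arc.T_inv (A : Arc S γ γ' T Z a b) {t : ℝ} (ht : t ∈ Ioo a b) (hZ : t ∈ Z) :
    (T t)⁻¹ = starRingEnd ℂ (T t) := by
  rw [Complex.inv_def, Complex.normSq_eq_norm_sq, A.norm t ht hZ]
  simp

theorem Arc.E1c (A : Arc S γ γ' T Z a b) {s : ℂ[X] × ℝ} (hs : s ∈ S) {t : ℝ} (ht : t ∈ Ioo a b)
    (hZ : t ∈ Z) :
    (derivative s.1).eval (γ t) * T t - starRingEnd ℂ ((derivative s.1).eval (γ t)) * (T t)⁻¹ =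
      Complex.I * s.2 * (s.1.eval (γ t) + starRingEnd ℂ (s.1.eval (γ t))) := by
  rw [A.T_inv ht hZ, ← map_mul, Complex.sub_conj, Complex.add_conj, A.E s hs t ht hZ]
  push_cast
  ring

theorem ev_Hq (z : ℂ) (s : ℂ[X] × ℝ) :
    ev z (Hq s) = Complex.I * s.2 * (s.1.eval z + starRingEnd ℂ (s.1.eval z)) := by
  rw [Hq]
  simp [eval_conjP]

theorem ev_dconj (z : ℂ) (f : ℂ[X]) :
    ev z ((derivative (conjP f)).map C) = starRingEnd ℂ ((derivative f).eval z) := by
  rw [ev_mapC, derivative_conjP, eval_conjP]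

theorem Arc.elim_mem (A : Arc S γ γ' T Z a b) {s1 s2 : ℂ[X] × ℝ} (hs1 : s1 ∈ S) (hs2 : s2 ∈ S) :
    elim s1 s2 ∈ vanI γ a b := by
  apply A.mem_of_dense
  intro t ht hZ
  have h1 := A.E1c hs1 ht hZ
  have h2 := A.E1c hs2 ht hZ
  have hT := A.T_ne ht hZ
  unfold elim
  simp only [ev_sub, ev_mul, ev_pow, ev_C, ev_dconj]
  rw [ev_Hq, ev_Hq, ← h1, ← h2]
  field_simp
  ring

/-- the tangency relation -/
theorem Arc.tangent (A : Arc S γ γ' T Z a b) {q : ℂ[X][X]} (hq : q ∈ vanI γ a b) {t : ℝ}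
    (ht : t ∈ Ioo a b) (hZ : t ∈ Z) :
    ev (γ t) (derivative q) = -(T t) ^ 2 * ev (γ t) (dX q) := by
  have h1 := hasDerivAt_ev (A.deriv t ht hZ) q
  have h2 : (fun t => ev (γ t) q) =ᶠ[nhds t] fun _ => 0 := by
    filter_upwards [Ioo_mem_nhds ht.1 ht.2] with s hs using hq s hs
  have h3 := h1.unique ((hasDerivAt_const t (0 : ℂ)).congr_of_eventuallyEq h2)
  obtain ⟨c, hc0, hc⟩ := A.par t ht hZ
  have hT := A.T_ne ht hZ
  rw [hc, map_mul, Complex.conj_ofReal, ← A.T_inv ht hZ] at h3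
  have hc0' : (c : ℂ) ≠ 0 := by exact_mod_cast hc0
  have h4 : (c : ℂ) * (ev (γ t) (dX q) * T t + ev (γ t) (derivative q) * (T t)⁻¹) = 0 := by
    linear_combination h3
  have h5 := (mul_eq_zero.1 h4).resolve_left hc0'
  field_simp at h5
  linear_combination h5

theorem Arc.cong (A : Arc S γ γ' T Z a b) {q : ℂ[X][X]} (hq : q ∈ vanI γ a b) {s s' : ℂ[X] × ℝ}
    (hs : s ∈ S) (hs' : s' ∈ S) :
    Aq q s * Aq q s' + Hq s * Hq s' * derivative q * dX q ∈ vanI γ a b := by
  apply A.mem_of_dense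
  intro t ht hZ
  have h1 := A.E1c hs ht hZ
  have h2 := A.E1c hs' ht hZ
  have hT := A.T_ne ht hZ
  have h3 := A.tangent hq ht hZ
  simp only [Aq, ev_add, ev_mul, ev_C, ev_dconj, ev_Hq]
  rw [← h1, ← h2, h3]
  field_simp
  ring

theorem Arc.Hq_not_mem (A : Arc S γ γ' T Z a b) {s : ℂ[X] × ℝ} (hs : s ∈ S) (hσ : s.2 ≠ 0)
    (hdeg : 1 ≤ s.1.natDegree) : Hq s ∉ vanI γ a b := by
  intro h
  have hre : ∀ t ∈ Ioo a b, (s.1.eval (γ t)).re = 0 := by
    intro t ht
    have h1 := h t ht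
    rw [ev_Hq, Complex.add_conj] at h1
    have hI : Complex.I * (s.2 : ℂ) ≠ 0 := mul_ne_zero Complex.I_ne_zero (by exact_mod_cast hσ)
    have h2 := (mul_eq_zero.1 h1).resolve_left hI
    have h3 : (2 : ℝ) * (s.1.eval (γ t)).re = 0 := by exact_mod_cast h2
    linarith
  have hder : C (derivative s.1) ∈ vanI γ a b := by
    apply A.mem_of_dense
    intro t ht hZ
    rw [ev_C]
    have h1 : HasDerivAt (fun t => s.1.eval (γ t)) ((derivative s.1).eval (γ t) * γ' t) t :=
      (s.1.hasDerivAt (γ t)).comp t (A.deriv t ht hZ)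
    have h2 : HasDerivAt (fun t => (s.1.eval (γ t)).re) ((derivative s.1).eval (γ t) * γ' t).re t :=
      Complex.reCLM.hasFDerivAt.comp_hasDerivAt t h1
    have h3 : (fun t => (s.1.eval (γ t)).re) =ᶠ[nhds t] fun _ => 0 := by
      filter_upwards [Ioo_mem_nhds ht.1 ht.2] with s hs using hre s hs
    have h4 := h2.unique ((hasDerivAt_const t (0 : ℝ)).congr_of_eventuallyEq h3)
    obtain ⟨c, hc0, hc⟩ := A.par t ht hZ
    have h5 := A.E s hs t ht hZ
    rw [hre t ht, mul_zero] at h5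
    have h6 : (derivative s.1).eval (γ t) * γ' t = c * ((derivative s.1).eval (γ t) * T t) := by
      rw [hc]; ring
    rw [h6, Complex.re_ofReal_mul] at h4
    have h7 := (mul_eq_zero.1 h4).resolve_left hc0
    have h8 : (derivative s.1).eval (γ t) * T t = 0 := Complex.ext h7 h5
    exact (mul_eq_zero.1 h8).resolve_right (A.T_ne ht hZ)
  have h1 := C_mem_vanI A.hab A.inj hder
  have h2 := derivative_eq_zero.1 h1
  omega

theorem Arc.curveData (A : Arc S γ γ' T Z a b) (hdeg : ∀ s ∈ S, 1 ≤ s.1.natDegree)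
    (hσ : ∀ s ∈ S, s.2 ≠ 0) (hunb : ∀ N : ℕ, ∃ s ∈ S, N ≤ s.1.natDegree)
    (hmax : ∀ c d, a ≤ c → c < d → d ≤ b → vanI γ c d ≤ vanI γ a b) :
    ∃ q : ℂ[X][X], CurveData S q ∧ q ∈ vanI γ a b ∧ ∀ G ∈ vanI γ a b, q ∣ G := by
  have hprime := prime_vanI A.hab A.cont hmax
  have hbot : vanI γ a b ≠ ⊥ := by
    obtain ⟨s2, hs2, -⟩ := hunb 0
    obtain ⟨s1, hs1, hn⟩ := hunb (s2.1.natDegree + 1)
    intro h
    have h1 := A.elim_mem hs1 hs2
    rw [h, Ideal.mem_bot] at h1
    exact elim_ne_zero (hσ s1 hs1) (hσ s2 hs2) (hdeg s2 hs2) (by omega) h1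
  obtain ⟨q, hqI, hprim, hirr, hdvd⟩ := exists_gen hprime hbot
    (fun p hp => C_mem_vanI A.hab A.inj hp)
  refine ⟨q, ⟨hprim, hirr, ?_, ?_, ?_, ?_⟩, hqI, hdvd⟩
  · intro i
    have h1 : cswap q ∈ vanI γ a b := by
      intro t ht
      rw [ev_cswap, hqI t ht, map_zero]
    obtain ⟨r, hr⟩ := hdvd _ h1
    have hq0 : q ≠ 0 := hprim.ne_zero
    have hc0 : cswap q ≠ 0 := by
      unfold cswap
      intro h
      have h2 := (map_eq_zero_iff _ (Bivariate.swap (R := ℂ)).injective).1 h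
      apply hq0
      apply map_injective (mapRingHom (starRingEnd ℂ))
        (map_injective _ (starRingEnd ℂ).injective)
      rw [h2, Polynomial.map_zero]
    have hr0 : r ≠ 0 := by
      rintro rfl
      rw [mul_zero] at hr
      exact hc0 hr
    have h2 := natDegree_swap_cswap q
    rw [hr, map_mul, natDegree_mul
      (by rw [Ne, map_eq_zero_iff _ (Bivariate.swap (R := ℂ)).injective]; exact hq0)
      (by rw [Ne, map_eq_zero_iff _ (Bivariate.swap (R := ℂ)).injective]; exact hr0)] at h2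
    have h3 := natDegree_coeff_le_swap q i
    omega
  · intro s hs s' hs'
    exact hdvd _ (A.cong hqI hs hs')
  · intro h
    obtain ⟨r, hr⟩ := h
    have h1 : Bivariate.swap q ∣ derivative (Bivariate.swap q) := by
      refine ⟨Bivariate.swap r, ?_⟩
      rw [← swap_dX, hr, map_mul]
    refine derivative_ndvd ?_ h1
    intro h0
    have h2 := eq_C_of_natDegree_eq_zero h0
    have h3 : q = ((Bivariate.swap q).coeff 0).map C := by
      rw [← Bivariate.swap_C, ← h2, Bivariate.swap_swap_apply]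
    have h4 : (Bivariate.swap q).coeff 0 = 0 :=
      mapC_mem_vanI A.hab A.inj (by rw [← h3]; exact hqI)
    rw [h4, Polynomial.map_zero] at h3
    exact hprim.ne_zero h3
  · intro s hs h
    apply A.Hq_not_mem hs (hσ s hs) (hdeg s hs)
    intro t ht
    exact ev_dvd h (hqI t ht)

theorem arc_core (hdeg : ∀ s ∈ S, 1 ≤ s.1.natDegree)
    (hσ : ∀ s ∈ S, s.2 ≠ 0) (hunb : ∀ N : ℕ, ∃ s ∈ S, N ≤ s.1.natDegree)
    (htwo : ∃ s ∈ S, ∃ s' ∈ S, s.2 ≠ s'.2) (A : Arc S γ γ' T Z a b) :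
    (∃ ρ c, NumA S ρ c ∧ ∃ t ∈ Ioo a b, ‖ρ‖ * ‖γ t - c‖ = 1) ∨
    (∃ τ W, NumB S τ W ∧ ∃ t ∈ Ioo a b, starRingEnd ℂ (γ t) = (τ ^ 2)⁻¹ * γ t + W ∧
      ∃ u ≠ 0, starRingEnd ℂ u = (τ ^ 2)⁻¹ * u) := by
  obtain ⟨a', b', ha', hab', hb', hmax⟩ := exists_max γ A.hab
  have A' := A.restrict ha' hab' hb'
  obtain ⟨q, hq, hqI, hdvd⟩ := A'.curveData hdeg hσ hunb hmax
  have hsub : Ioo a' b' ⊆ Ioo a b := Ioo_subset_Ioo ha' hb'
  rcases alg_core hdeg hσ hunb htwo hq with ⟨ρ, c, hN, hd⟩ | ⟨τ, W, hN, hd⟩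
  · left
    refine ⟨ρ, c, hN, ?_⟩
    have h1 : ∃ t ∈ Ioo a' b', t ∈ Z ∧ ev (γ t) (dX q) ≠ 0 := by
      by_contra hcon
      push Not at hcon
      exact hq.ndX (hdvd _ (A'.mem_of_dense hcon))
    obtain ⟨t, ht, hZ, hne⟩ := h1
    refine ⟨t, hsub ht, ?_⟩
    have h2 := ev_dvd hd (hqI t ht)
    rw [ev_add, ev_mul, ev_C, A'.tangent hqI ht hZ] at h2
    simp only [eval_pow, eval_mul, eval_C, eval_sub, eval_X] at h2
    have h3 : ((Complex.I * ρ * (γ t - c)) ^ 2 - (T t) ^ 2) * ev (γ t) (dX q) = 0 := by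
      linear_combination h2
    have h4 := (mul_eq_zero.1 h3).resolve_right hne
    have h5 := congrArg norm (sub_eq_zero.1 h4)
    rw [norm_pow, norm_pow, A'.norm t ht hZ, norm_mul, norm_mul, Complex.norm_I, one_mul,
      one_pow] at h5
    exact (pow_eq_one_iff_of_nonneg (by positivity) two_ne_zero).1 h5
  · right
    obtain ⟨t, ht, hZ⟩ := A'.dense a' b' le_rfl hab' le_rfl
    have hlin : ∀ t ∈ Ioo a' b', starRingEnd ℂ (γ t) = (τ ^ 2)⁻¹ * γ t + W := by
      intro t ht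
      have h2 := ev_dvd hd (hqI t ht)
      rw [ev_sub, ev_X, ev_C] at h2
      simp only [eval_add, eval_mul, eval_C, eval_X] at h2
      exact sub_eq_zero.1 h2
    refine ⟨τ, W, hN, t, hsub ht, hlin _ ht, γ' t, ?_, ?_⟩
    · obtain ⟨c, hc0, hc⟩ := A'.par _ ht hZ
      rw [hc]
      exact mul_ne_zero (by exact_mod_cast hc0) (A'.T_ne ht hZ)
    · have h1 := A'.deriv _ ht hZ
      have h2 : HasDerivAt (fun t => starRingEnd ℂ (γ t)) (starRingEnd ℂ (γ' t)) t :=
        (Complex.conjCLE.toContinuousLinearMap.hasFDerivAt).comp_hasDerivAt _ h1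
      have h3 : HasDerivAt (fun t => (τ ^ 2)⁻¹ * γ t + W) ((τ ^ 2)⁻¹ * γ' t) t :=
        (h1.const_mul _).add_const _
      refine h2.unique (h3.congr_of_eventuallyEq ?_)
      filter_upwards [Ioo_mem_nhds ht.1 ht.2] with s hs using hlin s hs

end ArcSection

end Pool.Agent.Lib.MP_9ebc94_an
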