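import Pool.Agent.Lib.MP_9ebc94_an.Bulk

/-!
The boundary term and the pointwise equation.
-/

namespace Pool.Agent.Lib.MP_9ebc94_an

open MeasureTheory Set Filter Metric Polynomial
open scoped NNReal ENNReal ContDiff

namespace Chart

variable {Ω : Set E2} {x0 : E2} {C : Chart Ω x0}

theorem abs_sub_lt_iff_Ioo {t a δ : ℝ} : |t - a| < δ ↔ t ∈ Ioo (a - δ) (a + δ) := by
  rw [abs_lt, mem_Ioo]
  constructor
  · rintro ⟨h1, h2⟩
    constructor <;> linarith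
  · rintro ⟨h1, h2⟩
    constructor <;> linarith

/-- the boundary term -/
theorem bdry (hΩo : IsOpen Ω) (hg0 : C.g C.t0 = C.s0) {δ h : ℝ} (B : C.Box δ h)
    {φ φ' χ χ' : ℝ → ℝ} (hcut : Cut φ φ' χ χ' C.t0 C.s0 δ h) (F : E2 → ℝ) :
    ∫ y in frontier Ω, F y * C.test φ χ y ∂(Measure.hausdorffMeasure (1 : ℝ)) =
      ∫ t in Ioo (C.t0 - δ) (C.t0 + δ), speed C.g t * (F (gcur C.R C.g t) * φ t) := by
  have hsub : gcur C.R C.g '' Ioo (C.t0 - δ) (C.t0 + δ) ⊆ frontier Ω := by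
    rintro _ ⟨t, ht, rfl⟩
    exact B.cur_mem hΩo hg0 (abs_sub_lt_iff_Ioo.2 ht)
  rw [setIntegral_eq_of_subset_of_forall_sdiff_eq_zero isClosed_frontier.measurableSet hsub,
    integral_curve C.R C.hg measurableSet_Ioo (by simp)]
  · apply setIntegral_congr_fun measurableSet_Ioo
    intro t ht
    simp only [test, gcur, R_pt0, R_pt1]
    rw [(hcut.χ1 _ (B.g_bound hg0 (abs_sub_lt_iff_Ioo.2 ht)).le).1, mul_one]
  · rintro y ⟨hy1, hy2⟩
    by_contra hne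
    apply hy2
    have h1 : |C.R y 0 - C.t0| < δ := by
      by_contra hcon
      apply hne
      simp [test, (hcut.φ0 _ (not_lt.1 hcon)).1]
    have h2 : |C.R y 1 - C.s0| < 2 * h := by
      by_contra hcon
      apply hne
      simp [test, (hcut.χ0 _ (not_lt.1 hcon)).1]
    exact ⟨C.R y 0, abs_sub_lt_iff_Ioo.1 h1, (B.eq_cur hΩo hy1 h1 h2).symm⟩

/-- smooth cut-off in the normal variable -/
theorem exists_chi (s0 : ℝ) {h : ℝ} (hh : 0 < h) : ∃ χ : ℝ → ℝ, ContDiff ℝ ∞ χ ∧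
    (∀ s, |s - s0| ≤ h → χ s = 1 ∧ deriv χ s = 0) ∧
    (∀ s, 2 * h ≤ |s - s0| → χ s = 0 ∧ deriv χ s = 0) := by
  let b : ContDiffBump s0 := ⟨h, 2 * h, hh, by linarith⟩
  refine ⟨b, b.contDiff, ?_, ?_⟩
  · intro s hs
    have h1 : b s = 1 := b.one_of_mem_closedBall (by rwa [mem_closedBall, Real.dist_eq])
    refine ⟨h1, ?_⟩
    apply IsLocalMax.deriv_eq_zero
    filter_upwards with x
    rw [h1]
    exact b.le_one
  · intro s hs
    have h1 : b s = 0 := b.zero_of_le_dist (by rw [Real.dist_eq]; exact hs)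
    refine ⟨h1, ?_⟩
    apply IsLocalMin.deriv_eq_zero
    filter_upwards with x
    rw [h1]
    exact b.nonneg

theorem exists_cut (C : Chart Ω x0) {δ h : ℝ} (hh : 0 < h) {φ : ℝ → ℝ} (hφ : ContDiff ℝ ∞ φ)
    (hsupp : tsupport φ ⊆ Ioo (C.t0 - δ) (C.t0 + δ)) :
    ∃ χ : ℝ → ℝ, ContDiff ℝ ∞ χ ∧ Cut φ (deriv φ) χ (deriv χ) C.t0 C.s0 δ h := by
  obtain ⟨χ, h1, h2, h3⟩ := exists_chi C.s0 hh
  refine ⟨χ, h1, ?_, ?_, ?_, ?_, ?_, h2, h3⟩
  · intro t
    exact (hφ.differentiable (by simp) t).hasDerivAt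
  · exact hφ.continuous_deriv (by simp)
  · intro t
    exact (h1.differentiable (by simp) t).hasDerivAt
  · exact h1.continuous_deriv (by simp)
  · intro t ht
    have h4 : t ∉ tsupport φ := by
      intro h5
      have := abs_sub_lt_iff_Ioo.2 (hsupp h5)
      linarith
    refine ⟨image_eq_zero_of_notMem_tsupport h4, ?_⟩
    have h5 := notMem_tsupport_iff_eventuallyEq.1 h4
    rw [h5.deriv_eq]
    simp

/-- the weak equation on the boundary curve -/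
theorem weak_curve (hΩo : IsOpen Ω) (hg0 : C.g C.t0 = C.s0) {δ h : ℝ} (B : C.Box δ h)
    {ε : ℝ} (hε : ε = 1 ∨ ε = -1)
    (hfr : toC (pt C.R 0 1) = ε * Complex.I * toC (pt C.R 1 0)) {f : ℂ[X]} {σ : ℝ}
    (hE : EigC Ω f σ) {φ : ℝ → ℝ} (hφ : ContDiff ℝ ∞ φ)
    (hsupp : tsupport φ ⊆ Ioo (C.t0 - δ) (C.t0 + δ)) :
    - ε * ∫ t, deriv φ t * imP f (gcur C.R C.g t) =
      σ * ∫ t in Ioo (C.t0 - δ) (C.t0 + δ), speed C.g t * (reP f (gcur C.R C.g t) * φ t) := by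
  obtain ⟨χ, hχ, hcut⟩ := C.exists_cut B.hh hφ hsupp
  have h1 := hE (C.test φ χ) (C.contDiff_test (hφ.of_le (by simp)) (hχ.of_le (by simp)))
    (C.compact_test hcut)
  rw [bulk hΩo hg0 B hcut hε hfr, bdry hΩo hg0 B hcut] at h1
  exact h1

end Chart

end Pool.Agent.Lib.MP_9ebc94_an
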