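import Pool.Agent.Lib.MP_9ebc94_an.Galois

/-!
Exclusion of the two-branched curve.
-/

set_option linter.unusedSectionVars false

namespace Pool.Agent.Lib.MP_9ebc94_an

open WithZero Polynomial

theorem parity {Δ e a b : ℂ[X]} {κ : ℂ} (hκ : κ ≠ 0) (hΔ : Δ.natDegree = 2) (hb : b ≠ 0)
    (hsq : ∀ κ' z0 : ℂ, Δ ≠ C κ' * (X - C z0) ^ 2)
    (h : C κ * Δ * (b * b) = (a * a) * (4 * e ^ 2 * Δ - (derivative Δ) ^ 2)) : False := by
  have hΔ0 : Δ ≠ 0 := by
    rintro rfl
    simp at hΔ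
  obtain ⟨z0, hz0⟩ := IsAlgClosed.exists_root Δ (by
    rw [degree_eq_natDegree hΔ0, hΔ]
    norm_num)
  obtain ⟨Q, hQ⟩ := dvd_iff_isRoot.2 hz0
  have hX0 : (X - C z0 : ℂ[X]) ≠ 0 := X_sub_C_ne_zero z0
  have hQ0 : Q ≠ 0 := by
    rintro rfl
    rw [mul_zero] at hQ
    exact hΔ0 hQ
  have hQdeg : Q.natDegree = 1 := by
    rw [hQ, natDegree_mul hX0 hQ0, natDegree_X_sub_C] at hΔ
    omega
  have hder : derivative Δ = Q + (X - C z0) * derivative Q := by
    rw [hQ, derivative_mul, derivative_sub, derivative_X, derivative_C]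
    ring
  have hroot : ¬ Q.IsRoot z0 := by
    intro hr
    obtain ⟨Q2, hQ2⟩ := dvd_iff_isRoot.2 hr
    have hQ20 : Q2 ≠ 0 := by
      rintro rfl
      rw [mul_zero] at hQ2
      exact hQ0 hQ2
    have hQ2deg : Q2.natDegree = 0 := by
      rw [hQ2, natDegree_mul hX0 hQ20, natDegree_X_sub_C] at hQdeg
      omega
    obtain ⟨κ', hκ'⟩ := natDegree_eq_zero.1 hQ2deg
    apply hsq κ' z0
    rw [hQ, hQ2, ← hκ']
    ring
  have hder0 : (derivative Δ).eval z0 ≠ 0 := by
    rw [hder]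
    simpa using hroot
  have hm1 : rootMultiplicity z0 Δ = 1 := by
    have h1 : (X - C z0) * Q ≠ 0 := mul_ne_zero hX0 hQ0
    rw [hQ, rootMultiplicity_mul h1, rootMultiplicity_X_sub_C_self, rootMultiplicity_eq_zero hroot]
  have hm2 : rootMultiplicity z0 (4 * e ^ 2 * Δ - (derivative Δ) ^ 2) = 0 := by
    apply rootMultiplicity_eq_zero
    intro h1
    rw [IsRoot.def, eval_sub, eval_mul, hz0.eq_zero, mul_zero, eval_pow, zero_sub, neg_eq_zero] at h1
    exact hder0 (pow_eq_zero_iff two_ne_zero |>.1 h1)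
  have hL0 : C κ * Δ * (b * b) ≠ 0 :=
    mul_ne_zero (mul_ne_zero (C_ne_zero.2 hκ) hΔ0) (mul_ne_zero hb hb)
  have hR0 : (a * a) * (4 * e ^ 2 * Δ - (derivative Δ) ^ 2) ≠ 0 := by rw [← h]; exact hL0
  have hL : rootMultiplicity z0 (C κ * Δ * (b * b)) = 1 + (rootMultiplicity z0 b +
      rootMultiplicity z0 b) := by
    rw [rootMultiplicity_mul hL0, rootMultiplicity_mul (mul_ne_zero (C_ne_zero.2 hκ) hΔ0),
      rootMultiplicity_mul (mul_ne_zero hb hb), rootMultiplicity_C, hm1, zero_add]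
  have ha : a * a ≠ 0 := left_ne_zero_of_mul hR0
  have hR : rootMultiplicity z0 ((a * a) * (4 * e ^ 2 * Δ - (derivative Δ) ^ 2)) =
      rootMultiplicity z0 a + rootMultiplicity z0 a := by
    rw [rootMultiplicity_mul hR0, rootMultiplicity_mul ha, hm2, add_zero]
  rw [h, hR] at hL
  omega

section Abstract

variable {K L : Type*} [Field K] [Field L] [Algebra ℂ[X] K] [IsFractionRing ℂ[X] K]
  [Algebra K L] [Algebra ℂ[X] L] [IsScalarTower ℂ[X] K L] [Algebra ℂ L] [IsScalarTower ℂ ℂ[X] L]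
  {D : Derivation ℂ L L} {P : Place L D (algebraMap ℂ[X] L X)}

theorem aeval_deg_two {q : ℂ[X][X]} (hq : q.natDegree = 2) (w : L) :
    aeval w q = algebraMap ℂ[X] L (q.coeff 2) * w ^ 2 + algebraMap ℂ[X] L (q.coeff 1) * w +
      algebraMap ℂ[X] L (q.coeff 0) := by
  rw [aeval_eq_sum_range, hq, Finset.sum_range_succ, Finset.sum_range_succ, Finset.sum_range_one]
  simp only [Algebra.smul_def, pow_zero, pow_one, mul_one]
  ring

theorem two_branch {S : Set (ℂ[X] × ℝ)} {q : ℂ[X][X]} (hq : CurveData S q)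
    {w w2 T T2 : L} (hR : RootData D S q w T) (hR2 : RootData D S q w2 T2)
    {t W t2 W2 : ℂ} (hB : Place.IsB P S w T t W) (hB2 : Place.IsB P S w2 T2 t2 W2)
    (hne : (t ^ 2)⁻¹ ≠ (t2 ^ 2)⁻¹) (hd : q.natDegree = 2)
    (hr : ∃ k : K, algebraMap K L k = T * T2)
    (hnr : ∀ a : ℂ[X], ∀ κ : ℂ, κ ≠ 0 → algebraMap ℂ[X] L a ≠ algebraMap ℂ L κ * (w - w2)) :
    False := by
  set a2 := q.coeff 2 with ha2
  set a1 := q.coeff 1 with ha1
  set a0 := q.coeff 0 with ha0
  have h1 := hR.root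
  have h2 := hR2.root
  rw [aeval_deg_two hd] at h1 h2
  rw [← ha2, ← ha1, ← ha0] at h1 h2
  have hlw : P.Lead w 1 (t ^ 2)⁻¹ := by
    have h1 := (P.lead_z.const_mul (t ^ 2)⁻¹).add
      (Place.lead_mono (P := P) (x := w - algebraMap ℂ L (t ^ 2)⁻¹ * algebraMap ℂ[X] L X) (j := 0)
        (k := 1) hB.leadw.le (by norm_num))
    simpa using h1
  have hlw2 : P.Lead w2 1 (t2 ^ 2)⁻¹ := by
    have h1 := (P.lead_z.const_mul (t2 ^ 2)⁻¹).add
      (Place.lead_mono (P := P) (x := w2 - algebraMap ℂ L (t2 ^ 2)⁻¹ * algebraMap ℂ[X] L X) (j := 0)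
        (k := 1) hB2.leadw.le (by norm_num))
    simpa using h1
  have hvd : P.v (w - w2) = exp P.p := by
    have h3 := (hlw.sub hlw2).eq (sub_ne_zero.2 hne)
    simpa using h3
  have hww : w - w2 ≠ 0 := by
    intro h
    rw [h, map_zero] at hvd
    exact exp_ne_zero hvd.symm
  have ha20 : a2 ≠ 0 := by
    intro h0
    have h3 : q.leadingCoeff = 0 := by rw [leadingCoeff, hd, ← ha2, h0]
    rw [leadingCoeff_eq_zero] at h3
    rw [h3] at hd
    simp at hd
  have ha20' : algebraMap ℂ[X] L a2 ≠ 0 := fun h => ha20 (poly_injective P h)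
  have e1 : algebraMap ℂ[X] L a2 * (w + w2) = -algebraMap ℂ[X] L a1 := by
    apply mul_left_cancel₀ hww
    linear_combination h1 - h2
  have e0 : algebraMap ℂ[X] L a2 * (w * w2) = algebraMap ℂ[X] L a0 := by
    linear_combination w * e1 - h1
  have hw0 : w ≠ 0 := by
    rintro rfl
    have := hB.vw
    rw [map_zero] at this
    exact exp_ne_zero this.symm
  have hw20 : w2 ≠ 0 := by
    rintro rfl
    have := hB2.vw
    rw [map_zero] at this
    exact exp_ne_zero this.symm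
  have ha00 : a0 ≠ 0 := by
    intro h0
    rw [h0, map_zero] at e0
    exact (mul_ne_zero ha20' (mul_ne_zero hw0 hw20)) e0
  have h3 := congrArg P.v e0
  rw [map_mul, map_mul, v_poly ha20, v_poly ha00, hB.vw, hB2.vw, ← exp_add, ← exp_add,
    exp_inj] at h3
  have h4 : (a2.natDegree : ℤ) + 2 = a0.natDegree := by
    have := P.hp
    have h5 : P.p * ((a2.natDegree : ℤ) + 2) = P.p * a0.natDegree := by linarith
    exact mul_left_cancel₀ this.ne' h5
  have h5 : a0.natDegree ≤ 2 := (hq.degX 0).trans hd.le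
  have h6 : a2.natDegree = 0 := by omega
  obtain ⟨κ, hκ⟩ := natDegree_eq_zero.1 h6
  have hκ0 : κ ≠ 0 := by
    rintro rfl
    apply ha20
    rw [← hκ, C_0]
  have hκL : algebraMap ℂ[X] L a2 = algebraMap ℂ L κ := by
    rw [← hκ, algebraMap_eq_aeval (C κ), aeval_C]
  rw [hκL] at e1 e0
  have hκL0 : algebraMap ℂ L κ ≠ 0 := by simpa using hκ0
  set e := algebraMap ℂ L κ * (w - w2) with he
  have he0 : e ≠ 0 := mul_ne_zero hκL0 hww
  set Δ := a1 ^ 2 - 4 * C κ * a0 with hΔdef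
  have hCκ : algebraMap ℂ[X] L (C κ) = algebraMap ℂ L κ := by
    rw [algebraMap_eq_aeval (C κ), aeval_C]
  have heΔ : e ^ 2 = algebraMap ℂ[X] L Δ := by
    rw [hΔdef, he, map_sub, map_pow, map_mul, map_mul, hCκ, ← e0, map_ofNat]
    linear_combination (-(algebraMap ℂ[X] L a1) + algebraMap ℂ L κ * (w + w2)) * e1
  have hΔ0 : Δ ≠ 0 := by
    intro h0
    rw [h0, map_zero] at heΔ
    exact he0 (pow_eq_zero_iff two_ne_zero |>.1 heΔ)
  have hΔdeg : Δ.natDegree = 2 := by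
    have h7 := congrArg P.v heΔ
    rw [v_poly hΔ0, map_pow, he, map_mul, P.vC κ hκ0, one_mul, hvd, ← exp_nsmul, exp_inj] at h7
    have h8 : P.p * (2 : ℤ) = P.p * Δ.natDegree := by
      rw [← h7, nsmul_eq_mul]
      push_cast
      ring
    have h9 := mul_left_cancel₀ P.hp.ne' h8
    omega
  have hsq : ∀ κ' z0 : ℂ, Δ ≠ C κ' * (X - C z0) ^ 2 := by
    intro κ' z0 h0
    obtain ⟨μ, hμ⟩ := IsAlgClosed.exists_pow_nat_eq κ' (n := 2) (by norm_num)
    have h7 : e ^ 2 = (algebraMap ℂ[X] L (C μ * (X - C z0))) ^ 2 := by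
      rw [heΔ, h0, ← map_pow, mul_pow, ← C_pow, hμ]
    rcases sq_eq_sq_iff_eq_or_eq_neg.1 h7 with h | h
    · exact hnr _ κ hκ0 (h.symm)
    · exact hnr (-(C μ * (X - C z0))) κ hκ0 (by rw [map_neg]; exact h.symm)
  -- derivatives
  have hDe : 2 * e * D e = algebraMap ℂ[X] L (derivative Δ) := by
    rw [← D_algebraMap D P.Dz, ← heΔ, Derivation.leibniz_pow]
    simp only [smul_eq_mul, nsmul_eq_mul]
    push_cast
    ring
  have hDe' : D e = algebraMap ℂ L κ * (D w - D w2) := by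
    rw [he, Derivation.leibniz, Derivation.map_algebraMap, map_sub]
    simp
  have hDs : algebraMap ℂ L κ * (D w + D w2) = -algebraMap ℂ[X] L (derivative a1) := by
    have h7 := congrArg D e1
    rw [map_neg, D_algebraMap D P.Dz, Derivation.leibniz, Derivation.map_algebraMap, map_add] at h7
    simpa using h7
  have hT1 := hR.DT
  have hT2 := hR2.DT
  obtain ⟨k, hk⟩ := hr
  obtain ⟨a, b, hb, hab⟩ := IsFractionRing.div_surjective (A := ℂ[X]) k
  have hb0 : b ≠ 0 := nonZeroDivisors.ne_zero hb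
  have hbL : algebraMap ℂ[X] L b ≠ 0 := fun h => hb0 (poly_injective P h)
  have hTT : T * T2 * algebraMap ℂ[X] L b = algebraMap ℂ[X] L a := by
    rw [← hk, ← hab, map_div₀, ← IsScalarTower.algebraMap_apply, ← IsScalarTower.algebraMap_apply]
    field_simp
  clear_value Δ
  have hfinal : C (16 * κ ^ 2) * Δ * (b * b) =
      (a * a) * (4 * (derivative a1) ^ 2 * Δ - (derivative Δ) ^ 2) := by
    have h7 : algebraMap ℂ[X] L (C (16 * κ ^ 2) * Δ * (b * b) -
        (a * a) * (4 * (derivative a1) ^ 2 * Δ - (derivative Δ) ^ 2)) = 0 := by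
      have h8 : algebraMap ℂ[X] L (C (16 * κ ^ 2)) = 16 * (algebraMap ℂ L κ) ^ 2 := by
        rw [algebraMap_eq_aeval (C _), aeval_C, map_mul, map_pow, map_ofNat]
      have h9 : 4 * (algebraMap ℂ[X] L (derivative a1)) ^ 2 * e ^ 2 -
          (algebraMap ℂ[X] L (derivative Δ)) ^ 2 =
          16 * (algebraMap ℂ L κ) ^ 2 * e ^ 2 * (D w * D w2) := by
        rw [← hDe, hDe']
        linear_combination (4 * e ^ 2) * ((algebraMap ℂ[X] L (derivative a1)) -
          algebraMap ℂ L κ * (D w + D w2)) * hDs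
      generalize (C (16 * κ ^ 2) : ℂ[X]) = c16 at h8 ⊢
      simp only [map_sub, map_mul, map_pow, map_ofNat]
      rw [← heΔ, h8, h9, ← hTT]
      linear_combination (16 * (algebraMap ℂ L κ) ^ 2 * e ^ 2 * (algebraMap ℂ[X] L b) ^ 2) *
        (-(hT1) - D w * T ^ 2 * hT2)
    exact sub_eq_zero.1 (poly_injective P h7)
  exact parity (mul_ne_zero (by norm_num) (pow_ne_zero _ hκ0)) hΔdeg hb0 hsq hfinal

end Abstract

end Pool.Agent.Lib.MP_9ebc94_an
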