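import Pool.Agent.Lib.MP_9ebc94_an.Weak

/-!
The two sides of the weak equation in a box.
-/

namespace Pool.Agent.Lib.MP_9ebc94_an

open MeasureTheory Set Filter Metric Polynomial
open scoped NNReal ENNReal ContDiff

namespace Chart

variable {Ω : Set E2} {x0 : E2} {C : Chart Ω x0}

theorem int_box (hΩo : IsOpen Ω) {δ h : ℝ} (B : C.Box δ h) (G : E2 → ℝ)
    (hG : ∀ y, G y ≠ 0 → |C.R y 0 - C.t0| < δ ∧ |C.R y 1 - C.s0| < 2 * h) :
    ∫ y in Ω, G y = ∫ p : ℝ × ℝ, {p : ℝ × ℝ | C.g p.1 < p.2}.indicator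
      (fun p => G (pt C.R p.1 p.2)) p := by
  rw [← integral_indicator hΩo.measurableSet,
    ← (pt_mp C.R).integral_comp (pt_me C.R) (Ω.indicator G)]
  congr 1
  ext ⟨t, s⟩
  simp only
  by_cases hz : G (pt C.R t s) = 0
  · rw [indicator_apply_eq_zero.2 (fun _ => hz)]
    symm
    exact indicator_apply_eq_zero.2 (fun _ => hz)
  · have h1 := hG _ hz
    rw [R_pt0, R_pt1] at h1
    have h2 := B.mem_iff h1.1 h1.2
    by_cases h3 : C.g t < s
    · rw [indicator_of_mem (h2.2 h3)]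
      symm
      exact indicator_of_mem (s := {p : ℝ × ℝ | C.g p.1 < p.2}) (a := (t, s)) h3 _
    · rw [indicator_of_notMem (fun h4 => h3 (h2.1 h4))]
      symm
      exact indicator_of_notMem (s := {p : ℝ × ℝ | C.g p.1 < p.2}) (a := (t, s)) h3 _

/-- coordinate functionals -/
noncomputable def co (R : E2 ≃ₗᵢ[ℝ] E2) (i : Fin 2) : E2 →L[ℝ] ℝ :=
  (EuclideanSpace.proj i : E2 →L[ℝ] ℝ).comp (R.toContinuousLinearEquiv : E2 →L[ℝ] E2)

theorem co_apply (R : E2 ≃ₗᵢ[ℝ] E2) (i : Fin 2) (y : E2) : co R i y = R y i := rfl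

/-- test function -/
noncomputable def test (C : Chart Ω x0) (φ χ : ℝ → ℝ) (y : E2) : ℝ := φ (C.R y 0) * χ (C.R y 1)

theorem fderiv_test (C : Chart Ω x0) {φ χ : ℝ → ℝ} {a b : ℝ} {y : E2}
    (hφ : HasDerivAt φ a (C.R y 0)) (hχ : HasDerivAt χ b (C.R y 1)) (e : E2) :
    fderiv ℝ (C.test φ χ) y e = a * χ (C.R y 1) * (C.R e 0) + φ (C.R y 0) * b * (C.R e 1) := by
  have h1 : HasFDerivAt (fun y : E2 => φ (C.R y 0)) (a • co C.R 0) y :=
    hφ.comp_hasFDerivAt_of_eq y (co C.R 0).hasFDerivAt rfl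
  have h2 : HasFDerivAt (fun y : E2 => χ (C.R y 1)) (b • co C.R 1) y :=
    hχ.comp_hasFDerivAt_of_eq y (co C.R 1).hasFDerivAt rfl
  have h3 : HasFDerivAt (C.test φ χ) _ y := h1.mul h2
  rw [h3.fderiv]
  simp [co_apply]
  ring

theorem contDiff_test (C : Chart Ω x0) {φ χ : ℝ → ℝ} (hφ : ContDiff ℝ 1 φ) (hχ : ContDiff ℝ 1 χ) :
    ContDiff ℝ 1 (C.test φ χ) :=
  (hφ.comp (co C.R 0).contDiff).mul (hχ.comp (co C.R 1).contDiff)

theorem compact_test (C : Chart Ω x0) {φ φ' χ χ' : ℝ → ℝ} {δ h : ℝ}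
    (hcut : Cut φ φ' χ χ' C.t0 C.s0 δ h) : HasCompactSupport (C.test φ χ) := by
  apply HasCompactSupport.intro (isCompact_closedBall x0 (|δ| + |2 * h|))
  intro y hy
  by_contra hne
  apply hy
  have h1 : |C.R y 0 - C.t0| < δ := by
    by_contra hcon
    apply hne
    simp [test, (hcut.φ0 _ (not_lt.1 hcon)).1]
  have h2 : |C.R y 1 - C.s0| < 2 * h := by
    by_contra hcon
    apply hne
    simp [test, (hcut.χ0 _ (not_lt.1 hcon)).1]
  rw [mem_closedBall]
  have h3 := C.dist_x0 (C.R y 0) (C.R y 1)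
  rw [pt_R] at h3
  have h4 := le_abs_self δ
  have h5 := le_abs_self (2 * h)
  linarith

/-- the bulk term -/
theorem bulk (hΩo : IsOpen Ω) (hg0 : C.g C.t0 = C.s0) {δ h : ℝ} (B : C.Box δ h)
    {φ φ' χ χ' : ℝ → ℝ} (hcut : Cut φ φ' χ χ' C.t0 C.s0 δ h) {ε : ℝ} (hε : ε = 1 ∨ ε = -1)
    (hfr : toC (pt C.R 0 1) = ε * Complex.I * toC (pt C.R 1 0)) (f : ℂ[X]) :
    ∫ y in Ω, inner ℝ (gradient (reP f) y) (gradient (C.test φ χ) y) =
      - ε * ∫ t, φ' t * imP f (gcur C.R C.g t) := by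
  have hgrad : ∀ y, inner ℝ (gradient (reP f) y) (gradient (C.test φ χ) y) =
      ε * (fderiv ℝ (imP f) y (pt C.R 0 1) * φ' (C.R y 0) * χ (C.R y 1) -
        fderiv ℝ (imP f) y (pt C.R 1 0) * φ (C.R y 0) * χ' (C.R y 1)) := by
    intro y
    rw [inner_gradient C.R, C.fderiv_test (hcut.φd _) (hcut.χd _),
      C.fderiv_test (hcut.φd _) (hcut.χd _), fderiv_reP, fderiv_reP, fderiv_imP, fderiv_imP, hfr]
    simp only [R_pt0, R_pt1, mul_one, mul_zero, add_zero, zero_add]
    set A := (derivative f).eval (toC y)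
    set a := toC (pt C.R 1 0)
    have h1 : (A * (ε * Complex.I * a)).re = - ε * (A * a).im := by
      have : A * (ε * Complex.I * a) = (ε : ℂ) * (Complex.I * (A * a)) := by ring
      rw [this, Complex.re_ofReal_mul, Complex.I_mul_re]
      ring
    have h2 : (A * (ε * Complex.I * a)).im = ε * (A * a).re := by
      have : A * (ε * Complex.I * a) = (ε : ℂ) * (Complex.I * (A * a)) := by ring
      rw [this, Complex.im_ofReal_mul, Complex.I_mul_im]
    rw [h1, h2]
    have h3 : ε * ε = 1 := by rcases hε with h | h <;> rw [h] <;> norm_num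
    linear_combination (-(A * a).re * φ' (C.R y 0) * χ (C.R y 1)) * h3
  have hbox : ∀ y, inner ℝ (gradient (reP f) y) (gradient (C.test φ χ) y) ≠ 0 →
      |C.R y 0 - C.t0| < δ ∧ |C.R y 1 - C.s0| < 2 * h := by
    intro y hy
    rw [hgrad] at hy
    constructor
    · by_contra hcon
      apply hy
      have := hcut.φ0 _ (not_lt.1 hcon)
      rw [this.1, this.2]
      ring
    · by_contra hcon
      apply hy
      have := hcut.χ0 _ (not_lt.1 hcon)
      rw [this.1, this.2]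
      ring
  rw [int_box hΩo B _ hbox]
  have hline : ∀ t s, HasDerivAt (fun t => imP f (pt C.R t s))
      (fderiv ℝ (imP f) (pt C.R t s) (pt C.R 1 0)) t := by
    intro t s
    have h1 : HasDerivAt (fun t => pt C.R t s) (pt C.R 1 0) t := by
      have h2 : (fun t => pt C.R t s) = fun t : ℝ => t • pt C.R 1 0 + s • pt C.R 0 1 := by
        ext1 t; exact pt_eq _ _ _
      rw [h2]
      simpa using ((hasDerivAt_id t).smul_const (pt C.R 1 0)).add_const (s • pt C.R 0 1)
    have h3 := (hasFDerivAt_imP f (pt C.R t s)).differentiableAt.hasFDerivAt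
    exact h3.comp_hasDerivAt t h1
  have hline' : ∀ t s, HasDerivAt (fun s => imP f (pt C.R t s))
      (fderiv ℝ (imP f) (pt C.R t s) (pt C.R 0 1)) s := by
    intro t s
    have h1 : HasDerivAt (fun s => pt C.R t s) (pt C.R 0 1) s := by
      have h2 : (fun s => pt C.R t s) = fun s : ℝ => t • pt C.R 1 0 + s • pt C.R 0 1 := by
        ext1 s; exact pt_eq _ _ _
      rw [h2]
      simpa using ((hasDerivAt_id s).smul_const (pt C.R 0 1)).const_add (t • pt C.R 1 0)
    have h3 := (hasFDerivAt_imP f (pt C.R t s)).differentiableAt.hasFDerivAt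
    exact h3.comp_hasDerivAt s h1
  have hptc : Continuous fun p : ℝ × ℝ => pt C.R p.1 p.2 := by
    unfold pt
    fun_prop
  have hfc : Continuous fun y => fderiv ℝ (imP f) y :=
    (contDiff_imP f).continuous_fderiv (by simp)
  have hgreen := green (F := fun t s => imP f (pt C.R t s))
    (Ft := fun t s => fderiv ℝ (imP f) (pt C.R t s) (pt C.R 1 0))
    (Fs := fun t s => fderiv ℝ (imP f) (pt C.R t s) (pt C.R 0 1)) hline hline'
    ((contDiff_imP f).continuous.comp hptc)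
    ((hfc.comp hptc).clm_apply continuous_const) ((hfc.comp hptc).clm_apply continuous_const)
    C.cont_g B.hh hcut (fun t ht => B.g_bound hg0 ht)
  have h1 : ∀ p : ℝ × ℝ, {p : ℝ × ℝ | C.g p.1 < p.2}.indicator
      (fun p => inner ℝ (gradient (reP f) (pt C.R p.1 p.2))
        (gradient (C.test φ χ) (pt C.R p.1 p.2))) p =
      ε * {p : ℝ × ℝ | C.g p.1 < p.2}.indicator
      (fun p => fderiv ℝ (imP f) (pt C.R p.1 p.2) (pt C.R 0 1) * φ' p.1 * χ p.2 -
        fderiv ℝ (imP f) (pt C.R p.1 p.2) (pt C.R 1 0) * φ p.1 * χ' p.2) p := by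
    intro p
    by_cases hp : p ∈ {p : ℝ × ℝ | C.g p.1 < p.2}
    · rw [indicator_of_mem hp, indicator_of_mem hp, hgrad]
      simp only [R_pt0, R_pt1]
    · rw [indicator_of_notMem hp, indicator_of_notMem hp, mul_zero]
  simp_rw [h1]
  rw [integral_const_mul, hgreen]
  unfold gcur
  ring

end Chart

end Pool.Agent.Lib.MP_9ebc94_an
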