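import Pool.Agent.Lib.MP_9ebc94_an.Green

/-!
Lipschitz boundary charts in the plane.
-/

namespace Pool.Agent.Lib.MP_9ebc94_an

open MeasureTheory Set Filter Metric

/-- the Euclidean plane -/
abbrev E2 := EuclideanSpace ℝ (Fin 2)

/-- the point with coordinates `(t,s)` in the frame of `R` -/
noncomputable def pt (R : E2 ≃ₗᵢ[ℝ] E2) (t s : ℝ) : E2 := R.symm (!₂[t, s])

@[simp] theorem R_pt0 (R : E2 ≃ₗᵢ[ℝ] E2) (t s : ℝ) : R (pt R t s) 0 = t := by simp [pt]
@[simp] theorem R_pt1 (R : E2 ≃ₗᵢ[ℝ] E2) (t s : ℝ) : R (pt R t s) 1 = s := by simp [pt]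

theorem pt_R (R : E2 ≃ₗᵢ[ℝ] E2) (y : E2) : pt R (R y 0) (R y 1) = y := by
  unfold pt
  have : (!₂[R y 0, R y 1] : E2) = R y := by
    ext i
    fin_cases i <;> rfl
  rw [this, LinearIsometryEquiv.symm_apply_apply]

theorem pt_eq (R : E2 ≃ₗᵢ[ℝ] E2) (t s : ℝ) : pt R t s = t • pt R 1 0 + s • pt R 0 1 := by
  unfold pt
  rw [← map_smul, ← map_smul, ← map_add]
  congr 1
  ext i
  fin_cases i <;> simp

theorem pt_sub (R : E2 ≃ₗᵢ[ℝ] E2) (t s t' s' : ℝ) :
    pt R t s - pt R t' s' = pt R (t - t') (s - s') := by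
  unfold pt
  rw [← map_sub]
  congr 1
  ext i
  fin_cases i <;> simp

theorem norm_pt (R : E2 ≃ₗᵢ[ℝ] E2) (t s : ℝ) : ‖pt R t s‖ = Real.sqrt (t ^ 2 + s ^ 2) := by
  unfold pt
  rw [LinearIsometryEquiv.norm_map, EuclideanSpace.norm_eq]
  simp

theorem norm_pt_le (R : E2 ≃ₗᵢ[ℝ] E2) (t s : ℝ) : ‖pt R t s‖ ≤ |t| + |s| := by
  rw [norm_pt]
  apply Real.sqrt_le_iff.2
  refine ⟨by positivity, ?_⟩
  have h1 := sq_abs t
  have h2 := sq_abs s
  nlinarith [abs_nonneg t, abs_nonneg s, mul_nonneg (abs_nonneg t) (abs_nonneg s)]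

theorem abs_le_norm_pt (R : E2 ≃ₗᵢ[ℝ] E2) (t s : ℝ) : |t| ≤ ‖pt R t s‖ := by
  rw [norm_pt]
  apply Real.abs_le_sqrt
  nlinarith [sq_nonneg s]

theorem abs_le_norm_pt' (R : E2 ≃ₗᵢ[ℝ] E2) (t s : ℝ) : |s| ≤ ‖pt R t s‖ := by
  rw [norm_pt]
  apply Real.abs_le_sqrt
  nlinarith [sq_nonneg t]

theorem pt_mp (R : E2 ≃ₗᵢ[ℝ] E2) :
    MeasurePreserving (fun p : ℝ × ℝ => pt R p.1 p.2) volume volume := by
  have h1 := (volume_preserving_finTwoArrow ℝ).symm
  have h2 := PiLp.volume_preserving_toLp (Fin 2)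
  have h3 := R.symm.measurePreserving
  exact h3.comp (h2.comp h1)

theorem pt_me (R : E2 ≃ₗᵢ[ℝ] E2) : MeasurableEmbedding (fun p : ℝ × ℝ => pt R p.1 p.2) := by
  apply Continuous.measurableEmbedding
  · unfold pt
    fun_prop
  · rintro ⟨t, s⟩ ⟨t', s'⟩ h
    have h1 := congrArg (fun y => R y 0) h
    have h2 := congrArg (fun y => R y 1) h
    simp only [R_pt0, R_pt1] at h1 h2
    rw [h1, h2]

/-- a chart at a point -/
structure Chart (Ω : Set E2) (x0 : E2) where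
  R : E2 ≃ₗᵢ[ℝ] E2
  r : ℝ
  g : ℝ → ℝ
  K : NNReal
  hr : 0 < r
  hg : LipschitzWith K g
  hΩ : Ω ∩ ball x0 r = ball x0 r ∩ {y | g (R y 0) < R y 1}

namespace Chart

variable {Ω : Set E2} {x0 : E2} (C : Chart Ω x0)

/-- first coordinate of the base point -/
noncomputable def t0 : ℝ := C.R x0 0
/-- second coordinate of the base point -/
noncomputable def s0 : ℝ := C.R x0 1

/-- the boundary curve -/
noncomputable def cur (t : ℝ) : E2 := pt C.R t (C.g t)

theorem mem_iff {y : E2} (hy : y ∈ ball x0 C.r) : y ∈ Ω ↔ C.g (C.R y 0) < C.R y 1 := by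
  have h := C.hΩ
  rw [Set.ext_iff] at h
  have h1 := h y
  simp only [mem_inter_iff, hy, and_true, true_and, Set.mem_ofPred_eq] at h1
  exact h1

theorem cont_g : Continuous C.g := C.hg.continuous

theorem cont0 : Continuous fun y : E2 => C.R y 0 := by fun_prop
theorem cont1 : Continuous fun y : E2 => C.R y 1 := by fun_prop

theorem frontier_iff (hΩo : IsOpen Ω) {y : E2} (hy : y ∈ ball x0 C.r) :
    y ∈ frontier Ω ↔ C.g (C.R y 0) = C.R y 1 := by
  rw [hΩo.frontier_eq, Set.mem_sdiff, C.mem_iff hy]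
  constructor
  · rintro ⟨h1, h2⟩
    apply le_antisymm _ (not_lt.1 h2)
    by_contra hcon
    push Not at hcon
    -- a neighbourhood of `y` misses `Ω`
    have hopen : IsOpen ({z : E2 | C.R z 1 < C.g (C.R z 0)} ∩ ball x0 C.r) :=
      (isOpen_lt C.cont1 (C.cont_g.comp C.cont0)).inter isOpen_ball
    have h3 := mem_closure_iff.1 h1 _ hopen ⟨hcon, hy⟩
    obtain ⟨z, ⟨hz1, hz2⟩, hz3⟩ := h3
    rw [C.mem_iff hz2] at hz3
    exact lt_asymm hz1 hz3
  · intro h
    refine ⟨?_, by rw [h]; exact lt_irrefl _⟩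
    rw [Metric.mem_closure_iff]
    intro ε hε
    rw [mem_ball] at hy
    set η := min (ε / 2) ((C.r - dist y x0) / 2) with hη
    have hη0 : 0 < η := lt_min (by linarith) (by linarith)
    set z := pt C.R (C.R y 0) (C.R y 1 + η) with hz
    have hdist : dist y z = η := by
      rw [dist_comm, dist_eq_norm]
      conv_lhs => rw [← pt_R C.R y, hz, pt_sub]
      simp only [sub_self, add_sub_cancel_left]
      rw [norm_pt, zero_pow two_ne_zero, zero_add, Real.sqrt_sq hη0.le]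
    refine ⟨z, ?_, ?_⟩
    · have hzb : z ∈ ball x0 C.r := by
        rw [mem_ball]
        calc dist z x0 ≤ dist z y + dist y x0 := dist_triangle _ _ _
          _ < C.r := by
            rw [dist_comm z y, hdist]
            have := min_le_right (ε / 2) ((C.r - dist y x0) / 2)
            linarith
      rw [C.mem_iff hzb, hz, R_pt0, R_pt1, h]
      linarith
    · rw [hdist]
      have := min_le_left (ε / 2) ((C.r - dist y x0) / 2)
      linarith

/-- admissible box -/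
structure Box (C : Chart Ω x0) (δ h : ℝ) : Prop where
  hδ : 0 < δ
  hh : 0 < h
  hr : δ + 2 * h < C.r
  hK : C.K * δ < h

theorem g_t0 (hΩo : IsOpen Ω) (hx0 : x0 ∈ frontier Ω) : C.g C.t0 = C.s0 :=
  (C.frontier_iff hΩo (mem_ball_self C.hr)).1 hx0

theorem exists_box {ε : ℝ} (hε : 0 < ε) : ∃ δ h, C.Box δ h ∧ δ + 2 * h < ε := by
  set h := min C.r ε / 4 with hh
  have hm : 0 < min C.r ε := lt_min C.hr hε
  have hh0 : 0 < h := by positivity
  have hK1 : (0 : ℝ) < C.K + 1 := by positivity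
  refine ⟨h / (C.K + 1), h, ⟨by positivity, hh0, ?_, ?_⟩, ?_⟩
  · have h1 : h / (C.K + 1) ≤ h := by
      apply div_le_self hh0.le
      have : (0 : ℝ) ≤ C.K := C.K.2
      linarith
    have := min_le_left C.r ε
    linarith
  · rw [mul_div_assoc']
    rw [div_lt_iff₀ hK1]
    nlinarith
  · have h1 : h / (C.K + 1) ≤ h := by
      apply div_le_self hh0.le
      have : (0 : ℝ) ≤ C.K := C.K.2
      linarith
    have := min_le_right C.r ε
    linarith

variable {C}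

theorem Box.g_bound {δ h : ℝ} (B : C.Box δ h) (hg0 : C.g C.t0 = C.s0) {t : ℝ}
    (ht : |t - C.t0| < δ) : |C.g t - C.s0| < h := by
  rw [← hg0]
  have h1 := C.hg.dist_le_mul t C.t0
  rw [Real.dist_eq, Real.dist_eq] at h1
  refine h1.trans_lt (lt_of_le_of_lt ?_ B.hK)
  exact mul_le_mul_of_nonneg_left ht.le C.K.2

theorem dist_x0 (C : Chart Ω x0) (t s : ℝ) : dist (pt C.R t s) x0 ≤ |t - C.t0| + |s - C.s0| := by
  rw [dist_eq_norm]
  have h1 : pt C.R C.t0 C.s0 = x0 := pt_R C.R x0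
  have h2 : pt C.R t s - x0 = pt C.R (t - C.t0) (s - C.s0) := by rw [← pt_sub, h1]
  rw [h2]
  exact norm_pt_le _ _ _

theorem Box.mem_ball {δ h : ℝ} (B : C.Box δ h) {t s : ℝ} (ht : |t - C.t0| < δ)
    (hs : |s - C.s0| < 2 * h) : pt C.R t s ∈ ball x0 C.r := by
  rw [Metric.mem_ball]
  exact (C.dist_x0 t s).trans_lt (by have := B.hr; linarith)

theorem Box.mem_iff {δ h : ℝ} (B : C.Box δ h) {t s : ℝ} (ht : |t - C.t0| < δ)
    (hs : |s - C.s0| < 2 * h) : pt C.R t s ∈ Ω ↔ C.g t < s := by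
  rw [C.mem_iff (B.mem_ball ht hs), R_pt0, R_pt1]

theorem Box.cur_mem {δ h : ℝ} (B : C.Box δ h) (hΩo : IsOpen Ω) (hg0 : C.g C.t0 = C.s0) {t : ℝ}
    (ht : |t - C.t0| < δ) : C.cur t ∈ frontier Ω := by
  have h1 := B.g_bound hg0 ht
  have hh := B.hh
  rw [C.frontier_iff hΩo]
  · simp [cur]
  · exact B.mem_ball ht (by linarith)

theorem Box.eq_cur {δ h : ℝ} (B : C.Box δ h) (hΩo : IsOpen Ω) {y : E2}
    (hy : y ∈ frontier Ω) (ht : |C.R y 0 - C.t0| < δ) (hs : |C.R y 1 - C.s0| < 2 * h) :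
    y = C.cur (C.R y 0) := by
  have h1 : y ∈ ball x0 C.r := by
    have := B.mem_ball ht hs
    rwa [pt_R] at this
  rw [C.frontier_iff hΩo h1] at hy
  unfold cur
  rw [hy, pt_R]

end Chart

end Pool.Agent.Lib.MP_9ebc94_an
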