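import Pool.Agent.Lib.MP_9ebc94_an.TypeAB

/-!
Comparison of the local data.
-/

namespace Pool.Agent.Lib.MP_9ebc94_an

open WithZero Polynomial

/-- numerical consequences of type A -/
structure NumA (S : Set (ℂ[X] × ℝ)) (ρ c : ℂ) : Prop where
  hρ : ρ ≠ 0
  sigma : ∀ s ∈ S, (s.2 : ℂ) = ρ * s.1.natDegree
  cen : ∀ s ∈ S, 2 ≤ s.1.natDegree → cen s.1 = c

/-- numerical consequences of type B -/
structure NumB (S : Set (ℂ[X] × ℝ)) (t W : ℂ) : Prop where
  ht : t ≠ 0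
  eqn : ∀ s ∈ S, starRingEnd ℂ (cen s.1) - (t ^ 2)⁻¹ * cen s.1 - W = -2 * Complex.I / (s.2 * t)

theorem num_incompat {S : Set (ℂ[X] × ℝ)} {ρ c t W : ℂ}
    (hunb : ∀ N : ℕ, ∃ s ∈ S, N ≤ s.1.natDegree) (hσ : ∀ s ∈ S, s.2 ≠ 0)
    (hA : NumA S ρ c) (hB : NumB S t W) : False := by
  obtain ⟨s1, hs1, hn1⟩ := hunb 2
  obtain ⟨s2, hs2, hn2⟩ := hunb (s1.1.natDegree + 1)
  have e1 := hB.eqn s1 hs1
  have e2 := hB.eqn s2 hs2
  rw [hA.cen s1 hs1 hn1] at e1
  rw [hA.cen s2 hs2 (by omega)] at e2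
  rw [e1] at e2
  have h1 : (s1.2 : ℂ) ≠ 0 := by exact_mod_cast hσ s1 hs1
  have h2 : (s2.2 : ℂ) ≠ 0 := by exact_mod_cast hσ s2 hs2
  have ht := hB.ht
  rw [div_eq_div_iff (mul_ne_zero h1 ht) (mul_ne_zero h2 ht)] at e2
  have h3 : (s1.2 : ℂ) = s2.2 := by
    have hI : (-2 * Complex.I : ℂ) ≠ 0 := by simp
    have h4 : (-2 * Complex.I * t) * (s2.2 : ℂ) = (-2 * Complex.I * t) * s1.2 := by
      linear_combination e2
    exact (mul_left_cancel₀ (mul_ne_zero hI ht) h4).symm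
  rw [hA.sigma s1 hs1, hA.sigma s2 hs2] at h3
  have h5 := mul_left_cancel₀ hA.hρ h3
  have h6 : s1.1.natDegree = s2.1.natDegree := by exact_mod_cast h5
  omega

theorem numB_W {S : Set (ℂ[X] × ℝ)} {t W W' : ℂ} (hne : S.Nonempty) (h : NumB S t W)
    (h' : NumB S t W') : W = W' := by
  obtain ⟨s, hs⟩ := hne
  have e1 := h.eqn s hs
  have e2 := h'.eqn s hs
  linear_combination e2 - e1

theorem numB_quad {S : Set (ℂ[X] × ℝ)} {t W : ℂ} (h : NumB S t W) (hσ : ∀ s ∈ S, s.2 ≠ 0)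
    {s s' : ℂ[X] × ℝ} (hs : s ∈ S) (hs' : s' ∈ S) :
    (starRingEnd ℂ (cen s.1) - starRingEnd ℂ (cen s'.1)) * t ^ 2 +
      2 * Complex.I * ((s.2 : ℂ)⁻¹ - (s'.2 : ℂ)⁻¹) * t - (cen s.1 - cen s'.1) = 0 := by
  have e1 := h.eqn s hs
  have e2 := h.eqn s' hs'
  have h1 : (s.2 : ℂ) ≠ 0 := by exact_mod_cast hσ s hs
  have h2 : (s'.2 : ℂ) ≠ 0 := by exact_mod_cast hσ s' hs'
  have ht := h.ht
  have e3 : (starRingEnd ℂ (cen s.1) - starRingEnd ℂ (cen s'.1)) - (t ^ 2)⁻¹ * (cen s.1 - cen s'.1)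
      = -2 * Complex.I / (s.2 * t) - -2 * Complex.I / (s'.2 * t) := by
    linear_combination e1 - e2
  have e4 : t ^ 2 * ((starRingEnd ℂ (cen s.1) - starRingEnd ℂ (cen s'.1)) -
      (t ^ 2)⁻¹ * (cen s.1 - cen s'.1))
      = t ^ 2 * (-2 * Complex.I / (s.2 * t) - -2 * Complex.I / (s'.2 * t)) := by rw [e3]
  field_simp at e4 ⊢
  linear_combination e4

theorem quad_B_ne {s s' : ℂ[X] × ℝ} (hne : s.2 ≠ s'.2) :
    2 * Complex.I * ((s.2 : ℂ)⁻¹ - (s'.2 : ℂ)⁻¹) ≠ 0 := by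
  have h : (s.2 : ℂ)⁻¹ ≠ (s'.2 : ℂ)⁻¹ := by
    intro h
    apply hne
    exact_mod_cast inv_injective h
  exact mul_ne_zero (by simp) (sub_ne_zero.2 h)

theorem numB_three {S : Set (ℂ[X] × ℝ)} {t1 t2 t3 W1 W2 W3 : ℂ} (hσ : ∀ s ∈ S, s.2 ≠ 0)
    (htwo : ∃ s ∈ S, ∃ s' ∈ S, s.2 ≠ s'.2)
    (h1 : NumB S t1 W1) (h2 : NumB S t2 W2) (h3 : NumB S t3 W3) (h12 : t1 ≠ t2) :
    t3 = t1 ∨ t3 = t2 := by
  obtain ⟨s, hs, s', hs', hne⟩ := htwo
  have e1 := numB_quad h1 hσ hs hs'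
  have e2 := numB_quad h2 hσ hs hs'
  have e3 := numB_quad h3 hσ hs hs'
  have hB := quad_B_ne hne
  set A := starRingEnd ℂ (cen s.1) - starRingEnd ℂ (cen s'.1)
  set B := 2 * Complex.I * ((s.2 : ℂ)⁻¹ - (s'.2 : ℂ)⁻¹)
  set E := cen s.1 - cen s'.1
  have f1 : A * (t1 + t2) + B = 0 := by
    apply mul_left_cancel₀ (sub_ne_zero.2 h12)
    linear_combination e1 - e2
  by_contra hcon
  push Not at hcon
  have f2 : A * (t1 + t3) + B = 0 := by
    apply mul_left_cancel₀ (sub_ne_zero.2 hcon.1.symm)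
    linear_combination e1 - e3
  have f3 : A * (t2 - t3) = 0 := by linear_combination f1 - f2
  rcases mul_eq_zero.1 f3 with h | h
  · rw [h, zero_mul, zero_add] at f1
    exact hB f1
  · exact hcon.2 (sub_eq_zero.1 h).symm

theorem numB_sq {S : Set (ℂ[X] × ℝ)} {t1 t2 W1 W2 : ℂ} (hσ : ∀ s ∈ S, s.2 ≠ 0)
    (htwo : ∃ s ∈ S, ∃ s' ∈ S, s.2 ≠ s'.2)
    (h1 : NumB S t1 W1) (h2 : NumB S t2 W2) (h12 : t1 ≠ t2) : (t1 ^ 2)⁻¹ ≠ (t2 ^ 2)⁻¹ := by
  intro h
  have h3 : t1 ^ 2 = t2 ^ 2 := inv_injective h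
  have h4 : t2 = -t1 := by
    rcases sq_eq_sq_iff_eq_or_eq_neg.1 h3 with h | h
    · exact absurd h h12
    · rw [h, neg_neg]
  obtain ⟨s, hs, s', hs', hne⟩ := htwo
  have e1 := numB_quad h1 hσ hs hs'
  have e2 := numB_quad h2 hσ hs hs'
  have hB := quad_B_ne hne
  rw [h4] at e2
  have ht := h1.ht
  have f1 : (2 * Complex.I * ((s.2 : ℂ)⁻¹ - (s'.2 : ℂ)⁻¹)) * t1 = 0 := by
    linear_combination (e1 - e2) / 2
  rcases mul_eq_zero.1 f1 with h | h
  · exact hB h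
  · exact ht h

namespace Place

variable {L : Type*} [Field L] [Algebra ℂ L] {D : Derivation ℂ L L} {z : L} {P : Place L D z}

theorem IsA.num {S : Set (ℂ[X] × ℝ)} {w T : L} {ρ : ℂ} (h : IsA P S w T ρ)
    (hunb : ∀ N : ℕ, ∃ s ∈ S, N ≤ s.1.natDegree) : ∃ c, NumA S ρ c := by
  obtain ⟨s0, hs0, hn0⟩ := hunb 2
  refine ⟨Pool.Agent.Lib.MP_9ebc94_an.cen s0.1, h.hρ, h.sigma, fun s hs hn => ?_⟩
  have h1 := h.cen s hs hn
  have h2 := h.cen s0 hs0 hn0
  by_contra hne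
  have h3 := Valuation.map_sub_lt P.v h1 h2
  have h4 : T - algebraMap ℂ L (Complex.I * ρ) * (z - algebraMap ℂ L (MP_9ebc94_an.cen s.1)) -
      (T - algebraMap ℂ L (Complex.I * ρ) * (z - algebraMap ℂ L (MP_9ebc94_an.cen s0.1))) =
      algebraMap ℂ L ((Complex.I * ρ) * (MP_9ebc94_an.cen s.1 - MP_9ebc94_an.cen s0.1)) := by
    simp only [map_mul, map_sub]
    ring
  rw [h4, P.vC _ (mul_ne_zero (mul_ne_zero Complex.I_ne_zero h.hρ) (sub_ne_zero.2 hne))] at h3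
  exact lt_irrefl _ h3

theorem IsB.num {S : Set (ℂ[X] × ℝ)} {w T : L} {t W : ℂ} (h : IsB P S w T t W) : NumB S t W :=
  ⟨h.ht, h.eqn⟩

theorem IsA.eq {S : Set (ℂ[X] × ℝ)} {w T w' T' : L} {ρ ρ' : ℂ} (h : IsA P S w T ρ)
    (h' : IsA P S w' T' ρ') (hunb : ∀ N : ℕ, ∃ s ∈ S, N ≤ s.1.natDegree) : T = T' := by
  by_contra hne
  obtain ⟨τ, hτ⟩ := exists_exp ((Valuation.ne_zero_iff P.v).2 (sub_ne_zero.2 hne))
  obtain ⟨s, hs, hn⟩ := hunb ((-τ).toNat + 2)
  have h1 := h.bdd s hs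
  have h2 := h'.bdd s hs
  have h3 := (P.v.map_sub _ _).trans (max_le h1 h2)
  have h4 : aeval z (derivative s.1) * T - algebraMap ℂ L (Complex.I * s.2) * aeval z s.1 -
      (aeval z (derivative s.1) * T' - algebraMap ℂ L (Complex.I * s.2) * aeval z s.1) =
      aeval z (derivative s.1) * (T - T') := by ring
  rw [h4, map_mul, v_derivative_eq _ (by omega), hτ, ← exp_add, ← exp_zero, exp_le_exp] at h3
  have h5 := Int.self_le_toNat (-τ)
  have h6 : ((-τ).toNat : ℤ) + 2 ≤ s.1.natDegree := by exact_mod_cast hn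
  have := P.hp
  nlinarith

theorem IsB.eq {S : Set (ℂ[X] × ℝ)} {w T w' T' : L} {t W : ℂ} (h : IsB P S w T t W)
    (h' : IsB P S w' T' t W) (hne : S.Nonempty)
    (hdeg : ∀ s ∈ S, 1 ≤ s.1.natDegree) (hσ : ∀ s ∈ S, s.2 ≠ 0)
    (hE : ∀ s ∈ S, E1 z w T s.1 s.2) (hE' : ∀ s ∈ S, E1 z w' T' s.1 s.2)
    (hD : D w * T ^ 2 = 1) (hD' : D w' * T' ^ 2 = 1) : w = w' ∧ T = T' := by
  have ht := h.ht
  have hT0 : T ≠ 0 := by
    rintro rfl
    simp at hD
  have hT0' : T' ≠ 0 := by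
    rintro rfl
    simp at hD'
  have hvT : P.v T = 1 := by simpa using h.lead.eq ht
  have hvT' : P.v T' = 1 := by simpa using h'.lead.eq ht
  have hsum : P.v (T + T') = 1 := by
    have h1 := h.lead.add h'.lead
    have h2 := h1.eq (by rw [← two_mul]; exact mul_ne_zero two_ne_zero ht)
    simpa using h2
  have hDe : D (w - w') * (T ^ 2 * T' ^ 2) = -((T - T') * (T + T')) := by
    rw [map_sub]
    linear_combination T' ^ 2 * hD - T ^ 2 * hD'
  have hvDe : P.v (D (w - w')) = P.v (T - T') := by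
    have h1 := congrArg P.v hDe
    rw [map_mul, map_mul, map_pow, map_pow, hvT, hvT', Valuation.map_neg, map_mul, hsum] at h1
    simpa using h1
  have hve : P.v (w - w') < 1 := by
    have h1 := h.leadw.sub h'.leadw
    rw [sub_self, lead_zero, mul_zero, exp_zero] at h1
    convert h1 using 2
    ring
  have hw : w = w' := by
    by_contra hww
    have he0 : w - w' ≠ 0 := sub_ne_zero.2 hww
    have hv1 := P.vD (w - w') hve.ne
    rw [hvDe] at hv1
    obtain ⟨⟨f, σ⟩, hs⟩ := hne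
    have hn := hdeg _ hs
    have hσ' := hσ _ hs
    have e1 := hE _ hs
    have e2 := hE' _ hs
    simp only at hn hσ' e1 e2
    unfold E1 at e1 e2
    set n := f.natDegree with hnn
    have hl0 : (t ^ 2)⁻¹ ≠ 0 := inv_ne_zero (pow_ne_zero _ ht)
    have hlw : P.Lead w 1 (t ^ 2)⁻¹ := by
      have h1 := (P.lead_z.const_mul (t ^ 2)⁻¹).add
        (lead_mono (P := P) (x := w - algebraMap ℂ L (t ^ 2)⁻¹ * z) (j := 0) (k := 1) h.leadw.le
          (by norm_num))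
      simpa using h1
    have hlw' : P.Lead w' 1 (t ^ 2)⁻¹ := by
      have h1 := (P.lead_z.const_mul (t ^ 2)⁻¹).add
        (lead_mono (P := P) (x := w' - algebraMap ℂ L (t ^ 2)⁻¹ * z) (j := 0) (k := 1) h'.leadw.le
          (by norm_num))
      simpa using h1
    obtain ⟨G, hG1, hG2⟩ := factor_lead (P := P) (conjP f) n (by rw [natDegree_conjP]) hlw hlw'
    obtain ⟨G', hG1', hG2'⟩ := factor_lead (P := P) (derivative (conjP f)) (n - 1)
      ((natDegree_derivative_le _).trans (by rw [natDegree_conjP])) hlw hlw'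
    have hn0 : (n : ℂ) ≠ 0 := by
      have : n ≠ 0 := by omega
      exact_mod_cast this
    have hlc : f.coeff n ≠ 0 := by
      rw [hnn, coeff_natDegree, Ne, leadingCoeff_eq_zero]
      intro h0
      rw [hnn, h0, natDegree_zero] at hn
      omega
    have hG3 : P.v G = exp (P.p * (n - 1)) := by
      refine hG2.eq (mul_ne_zero (mul_ne_zero hn0 ?_) (pow_ne_zero _ hl0))
      rw [coeff_conjP]
      simpa using hlc
    have hcast : (((n - 1 : ℕ)) : ℤ) = n - 1 := by omega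
    have hG3' : P.v G' ≤ exp (P.p * (n - 2)) := by
      have h1 := hG2'.le
      rw [hcast] at h1
      convert h1 using 3
      ring
    have hfd : P.v (aeval z (derivative f)) = exp (P.p * (n - 1)) := v_derivative_eq f hn
    have hfd' : P.v (aeval w' (derivative (conjP f))) ≤ exp (P.p * (n - 1)) := by
      have h1 := v_aeval_le (P := P) (x := w') (derivative (conjP f)) (n - 1)
        ((natDegree_derivative_le _).trans (by rw [natDegree_conjP])) (by rw [h'.vw])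
      rwa [hcast] at h1
    have hI : Complex.I * σ ≠ 0 := mul_ne_zero Complex.I_ne_zero (by exact_mod_cast hσ')
    -- the difference of the two equations
    have hdiff : algebraMap ℂ L (Complex.I * σ) * ((w - w') * G) =
        aeval z (derivative f) * (T - T') - ((w - w') * G') * T⁻¹ +
          aeval w' (derivative (conjP f)) * ((T - T') * (T⁻¹ * T'⁻¹)) := by
      rw [← hG1, ← hG1']
      have h1 : (T - T') * (T⁻¹ * T'⁻¹) = T'⁻¹ - T⁻¹ := by
        field_simp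
      rw [h1]
      linear_combination e2 - e1
    have hve0 : P.v (w - w') ≠ 0 := (Valuation.ne_zero_iff P.v).2 he0
    have hL : P.v (algebraMap ℂ L (Complex.I * σ) * ((w - w') * G)) =
        P.v (w - w') * exp (P.p * (n - 1)) := by
      rw [map_mul, P.vC _ hI, one_mul, map_mul, hG3]
    have hR1 : P.v (aeval z (derivative f) * (T - T')) ≤ P.v (w - w') * exp (P.p * (n - 2)) := by
      rw [map_mul, hfd, hv1]
      apply le_of_eq
      rw [mul_comm, mul_assoc, ← exp_add]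
      congr 2
      ring
    have hR2 : P.v (((w - w') * G') * T⁻¹) ≤ P.v (w - w') * exp (P.p * (n - 2)) := by
      rw [map_mul, map_mul, map_inv₀, hvT, inv_one, mul_one]
      gcongr
    have hR3 : P.v (aeval w' (derivative (conjP f)) * ((T - T') * (T⁻¹ * T'⁻¹))) ≤
        P.v (w - w') * exp (P.p * (n - 2)) := by
      rw [map_mul, map_mul, map_mul, map_inv₀, map_inv₀, hvT, hvT', inv_one, one_mul, mul_one, hv1]
      calc _ ≤ exp (P.p * (n - 1)) * (P.v (w - w') * exp (-P.p)) := mul_le_mul_left hfd' _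
        _ = _ := by
          rw [mul_comm, mul_assoc, ← exp_add]
          congr 2
          ring
    have hfin : P.v (w - w') * exp (P.p * (n - 1)) ≤ P.v (w - w') * exp (P.p * (n - 2)) := by
      rw [← hL, hdiff]
      exact (P.v.map_add _ _).trans (max_le ((P.v.map_sub _ _).trans (max_le hR1 hR2)) hR3)
    have h1 : exp (P.p * (n - 1 : ℤ)) ≤ exp (P.p * (n - 2 : ℤ)) :=
      le_of_mul_le_mul_left hfin (zero_lt_iff.2 hve0)
    rw [exp_le_exp] at h1
    have := P.hp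
    nlinarith
  refine ⟨hw, ?_⟩
  rw [hw, sub_self, map_zero, map_zero] at hvDe
  exact sub_eq_zero.1 ((Valuation.zero_iff P.v).1 hvDe.symm)

end Place

end Pool.Agent.Lib.MP_9ebc94_an
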