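import Pool.Agent.Lib.MP_9ebc94_an.Branch

/-!
The algebraic core.
-/

set_option linter.unusedSectionVars false

namespace Pool.Agent.Lib.MP_9ebc94_an

open WithZero Polynomial

section Abstract

variable {K L : Type*} [Field K] [Field L] [Algebra ℂ[X] K] [IsFractionRing ℂ[X] K]
  [Algebra K L] [Algebra ℂ[X] L] [IsScalarTower ℂ[X] K L] [Algebra ℂ L] [IsScalarTower ℂ ℂ[X] L]
  {D : Derivation ℂ L L}

theorem type_root {S : Set (ℂ[X] × ℝ)} (hdeg : ∀ s ∈ S, 1 ≤ s.1.natDegree)
    (hσ : ∀ s ∈ S, s.2 ≠ 0) (hunb : ∀ N : ℕ, ∃ s ∈ S, N ≤ s.1.natDegree) {q : ℂ[X][X]}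
    (P : Place L D (algebraMap ℂ[X] L X)) {w T : L} (hR : RootData D S q w T) :
    (∃ ρ, Place.IsA P S w T ρ) ∨ (∃ t W, Place.IsB P S w T t W) := by
  have hne : S.Nonempty := by
    obtain ⟨s, hs, -⟩ := hunb 0
    exact ⟨s, hs⟩
  rcases Place.dichotomy (P := P) hR.DT S hdeg hσ hunb hR.E with ⟨h1, h2⟩ | ⟨h1, h2⟩
  · left
    exact Place.typeA S hne hdeg hσ hR.E h1 h2
  · right
    exact Place.typeB S hne hdeg hσ hR.E hR.DT h1 h2

theorem alg_abs [FiniteDimensional K L] [IsGalois K L] {S : Set (ℂ[X] × ℝ)}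
    (hdeg : ∀ s ∈ S, 1 ≤ s.1.natDegree)
    (hσ : ∀ s ∈ S, s.2 ≠ 0) (hunb : ∀ N : ℕ, ∃ s ∈ S, N ≤ s.1.natDegree)
    (htwo : ∃ s ∈ S, ∃ s' ∈ S, s.2 ≠ s'.2) {q : ℂ[X][X]} (hq : CurveData S q)
    (hirr : Irreducible (q.map (algebraMap ℂ[X] K)))
    (P : Place L D (algebraMap ℂ[X] L X)) {w : L} (hw : aeval w q = 0) :
    (∃ ρ c, NumA S ρ c ∧ q ∣ derivative q + C ((C (Complex.I * ρ) * (X - C c)) ^ 2) * dX q) ∨
    (∃ t W, NumB S t W ∧ q ∣ X - C (C (t ^ 2)⁻¹ * X + C W)) := by
  obtain ⟨s0, hs0, -⟩ := hunb 0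
  have hne : S.Nonempty := ⟨s0, hs0⟩
  have hroot : ∀ g : L ≃ₐ[K] L, aeval (g w) q = 0 := by
    intro g
    rw [← galois_aeval, hw, map_zero]
  have hRD : ∀ g : L ≃ₐ[K] L, RootData D S q (g w) (Tq q s0 (g w)) := fun g =>
    root_data (K := K) D P.Dz hq hirr hs0 (hroot g)
  have hRw : RootData D S q w (Tq q s0 w) := root_data (K := K) D P.Dz hq hirr hs0 hw
  rcases type_root hdeg hσ hunb P hRw with ⟨ρ, hA⟩ | ⟨t, W, hB⟩
  · left
    obtain ⟨c, hc⟩ := hA.num hunb
    have hall : ∀ g : L ≃ₐ[K] L, g w = w := by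
      intro g
      have hTeq : Tq q s0 (g w) = Tq q s0 w := by
        rcases type_root hdeg hσ hunb P (hRD g) with ⟨ρ', hA'⟩ | ⟨t', W', hB'⟩
        · exact (hA.eq hA' hunb).symm
        · exact (num_incompat hunb hσ hc hB'.num).elim
      have hT0 : Tq q s0 w ≠ 0 := by
        intro h
        have := hRw.DT
        rw [h] at this
        simp at this
      have hD0 : D (g w - w) = 0 := by
        have h1 := (hRD g).DT
        rw [hTeq] at h1
        have h2 := hRw.DT
        rw [map_sub]
        apply mul_right_cancel₀ (pow_ne_zero 2 hT0)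
        linear_combination h1 - h2
      obtain ⟨c', hc'⟩ := P.const_of_D_zero hD0
      have h3 : g w = w + algebraMap ℂ L c' := by rw [← hc']; ring
      have h4 := fixed_of_shift (K := K) g w c' h3
      rw [h3, h4, map_zero, add_zero]
    have hK : ∃ k : K, algebraMap K L k = w :=
      (IsGalois.mem_range_algebraMap_iff_fixed w).2 hall
    obtain ⟨c1, hc1, hdvd⟩ := caseA_final hq hirr hRw hA hunb hK
    exact ⟨ρ, c1, hc1, hdvd⟩
  · right
    by_cases hall : ∀ g : L ≃ₐ[K] L, g w = w
    · have hK : ∃ k : K, algebraMap K L k = w :=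
        (IsGalois.mem_range_algebraMap_iff_fixed w).2 hall
      exact ⟨t, W, hB.num, caseB_final hq hirr hRw hB hK⟩
    · exfalso
      push Not at hall
      obtain ⟨g1, hg1⟩ := hall
      have hBg : ∀ g : L ≃ₐ[K] L, ∃ t' W', Place.IsB P S (g w) (Tq q s0 (g w)) t' W' := by
        intro g
        rcases type_root hdeg hσ hunb P (hRD g) with ⟨ρ', hA'⟩ | h
        · obtain ⟨c, hc⟩ := hA'.num hunb
          exact (num_incompat hunb hσ hc hB.num).elim
        · exact h
      obtain ⟨t2, W2, hB2⟩ := hBg g1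
      have ht : t ≠ t2 := by
        rintro rfl
        have hWW := numB_W hne hB.num hB2.num
        subst hWW
        exact hg1 (hB.eq hB2 hne hdeg hσ hRw.E (hRD g1).E hRw.DT (hRD g1).DT).1.symm
      -- every conjugate is one of two
      have hpair : ∀ g : L ≃ₐ[K] L, (g w = w ∨ g w = g1 w) := by
        intro g
        obtain ⟨t3, W3, hB3⟩ := hBg g
        rcases numB_three hσ htwo hB.num hB2.num hB3.num ht with h | h
        · left
          subst h
          have hWW := numB_W hne hB.num hB3.num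
          subst hWW
          exact (hB.eq hB3 hne hdeg hσ hRw.E (hRD g).E hRw.DT (hRD g).DT).1.symm
        · right
          subst h
          have hWW := numB_W hne hB2.num hB3.num
          subst hWW
          exact (hB2.eq hB3 hne hdeg hσ (hRD g1).E (hRD g).E (hRD g1).DT (hRD g).DT).1.symm
      set w2 := g1 w with hw2
      have hpair2 : ∀ g : L ≃ₐ[K] L, (g w = w ∧ g w2 = w2) ∨ (g w = w2 ∧ g w2 = w) := by
        intro g
        have h2 : g w2 = w ∨ g w2 = w2 := hpair (g * g1)
        rcases hpair g with h | h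
        · left
          refine ⟨h, ?_⟩
          rcases h2 with h3 | h3
          · exfalso
            exact hg1 (g.injective (h3.trans h.symm))
          · exact h3
        · right
          refine ⟨h, ?_⟩
          rcases h2 with h3 | h3
          · exact h3
          · exfalso
            exact hg1 (g.injective (h3.trans h.symm))
      have hfix : ∀ F : L → L → L, (∀ g : L ≃ₐ[K] L, g (F w w2) = F (g w) (g w2)) →
          (F w w2 = F w2 w) → ∃ k : K, algebraMap K L k = F w w2 := by
        intro F h1 h2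
        refine (IsGalois.mem_range_algebraMap_iff_fixed _).2 fun g => ?_
        rw [h1]
        rcases hpair2 g with ⟨h3, h4⟩ | ⟨h3, h4⟩
        · rw [h3, h4]
        · rw [h3, h4, h2]
      obtain ⟨kS, hkS⟩ := hfix (fun x y => x + y) (fun g => map_add g _ _) (add_comm _ _)
      obtain ⟨kP, hkP⟩ := hfix (fun x y => x * y) (fun g => map_mul g _ _) (mul_comm _ _)
      obtain ⟨kr, hkr⟩ := hfix (fun x y => Tq q s0 x * Tq q s0 y)
        (fun g => by rw [map_mul, galois_Tq, galois_Tq]) (mul_comm _ _)
      have hd : q.natDegree = 2 := by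
        have h1 : q.natDegree ≤ 2 := by
          have h2 : aeval w (X ^ 2 - C kS * X + C kP : K[X]) = 0 := by
            simp only [map_add, map_sub, map_mul, map_pow, aeval_X, aeval_C]
            rw [hkS, hkP]
            ring
          have h3 := minpoly.dvd K w h2
          have hw' := hw
          rw [aeval_eq_map (K := K)] at hw'
          have h4 := minpoly.eq_of_irreducible hirr hw'
          rw [← h4] at h3
          have h5 := (dvd_mul_right _ _).trans h3
          have h6 : (X ^ 2 - C kS * X + C kP : K[X]).natDegree = 2 := by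
            compute_degree!
          have h7 : (X ^ 2 - C kS * X + C kP : K[X]) ≠ 0 := by
            intro h0
            rw [h0] at h6
            simp at h6
          have h8 := natDegree_le_of_dvd h5 h7
          rw [h6, natDegree_map_eq_of_injective (IsFractionRing.injective ℂ[X] K)] at h8
          exact h8
        have h2 := natDegree_q hq
        have h3 : q.natDegree ≠ 1 := by
          intro h3
          apply hg1
          have h4 := hRw.root
          have h5 := (hRD g1).root
          rw [aeval_deg_one h3] at h4 h5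
          have h6 : algebraMap ℂ[X] L (q.coeff 1) * (w2 - w) = 0 := by
            linear_combination h5 - h4
          have h7 : q.coeff 1 ≠ 0 := by
            intro h0
            have h8 : q.leadingCoeff = 0 := by rw [leadingCoeff, h3, h0]
            rw [leadingCoeff_eq_zero] at h8
            rw [h8] at h3
            simp at h3
          have h8 : algebraMap ℂ[X] L (q.coeff 1) ≠ 0 := fun h => h7 (poly_injective P h)
          exact sub_eq_zero.1 ((mul_eq_zero.1 h6).resolve_left h8)
        omega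
      refine two_branch (K := K) hq hRw (hRD g1) hB hB2 (numB_sq hσ htwo hB.num hB2.num ht) hd
        ⟨kr, hkr⟩ ?_
      intro a κ hκ ha
      have h1 : g1 w2 = w := by
        rcases hpair2 g1 with ⟨h3, -⟩ | ⟨-, h4⟩
        · exact (hg1 h3).elim
        · exact h4
      have h2 := congrArg g1 ha
      rw [galois_poly, map_mul, galois_const, map_sub, h1, ha] at h2
      have h3 : (2 : L) * (algebraMap ℂ L κ * (w - w2)) = 0 := by
        have h4 : algebraMap ℂ L κ * (w - w2) = algebraMap ℂ L κ * (w2 - w) := h2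
        linear_combination h4
      have : CharZero L := charZero_of_injective_algebraMap (algebraMap ℂ L).injective
      have h4 : algebraMap ℂ L κ ≠ 0 := by simpa using hκ
      have h5 : w - w2 ≠ 0 := sub_ne_zero.2 (Ne.symm hg1)
      exact (mul_ne_zero two_ne_zero (mul_ne_zero h4 h5)) h3

end Abstract

theorem alg_core {S : Set (ℂ[X] × ℝ)} (hdeg : ∀ s ∈ S, 1 ≤ s.1.natDegree)
    (hσ : ∀ s ∈ S, s.2 ≠ 0) (hunb : ∀ N : ℕ, ∃ s ∈ S, N ≤ s.1.natDegree)
    (htwo : ∃ s ∈ S, ∃ s' ∈ S, s.2 ≠ s'.2) {q : ℂ[X][X]} (hq : CurveData S q) :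
    (∃ ρ c, NumA S ρ c ∧ q ∣ derivative q + C ((C (Complex.I * ρ) * (X - C c)) ^ 2) * dX q) ∨
    (∃ t W, NumB S t W ∧ q ∣ X - C (C (t ^ 2)⁻¹ * X + C W)) := by
  have hirr := hq.irr
  set qK := q.map (algebraMap ℂ[X] (FractionRing ℂ[X])) with hqK
  have : CharZero (FractionRing ℂ[X]) :=
    charZero_of_injective_algebraMap (IsFractionRing.injective ℂ[X] (FractionRing ℂ[X]))
  have hgal : IsGalois (FractionRing ℂ[X]) qK.SplittingField :=
    IsGalois.of_separable_splitting_field (p := qK) hirr.separable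
  have hdeg0 : qK.degree ≠ 0 := (degree_pos_of_irreducible hirr).ne'
  obtain ⟨w, hw⟩ := Splits.exists_eval_eq_zero (SplittingField.splits qK) (by
    rwa [degree_map])
  rw [eval_map_algebraMap] at hw
  have htower : IsScalarTower ℂ ℂ[X] qK.SplittingField := by
    refine IsScalarTower.of_algebraMap_eq fun c => ?_
    rw [IsScalarTower.algebraMap_apply ℂ (FractionRing ℂ[X]) qK.SplittingField,
      IsScalarTower.algebraMap_apply ℂ[X] (FractionRing ℂ[X]) qK.SplittingField,
      IsScalarTower.algebraMap_apply ℂ ℂ[X] (FractionRing ℂ[X])]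
  have hw' : aeval w q = 0 := by
    rw [aeval_eq_map (K := FractionRing ℂ[X])]
    exact hw
  have hetale := etale (K := FractionRing ℂ[X]) (L := qK.SplittingField)
  obtain ⟨D, hD⟩ := exists_derivation (L := qK.SplittingField)
  have hfin := finite_adjoin (K := FractionRing ℂ[X]) (L := qK.SplittingField)
  obtain ⟨P⟩ := exists_place D (algebraMap ℂ[X] qK.SplittingField X) hD
  exact alg_abs (K := FractionRing ℂ[X]) hdeg hσ hunb htwo hq hirr P hw'

end Pool.Agent.Lib.MP_9ebc94_an
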