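import Pool.Agent.Lib.MP_9ebc94_an.Core

/-!
From an arc to the algebraic data.
-/

namespace Pool.Agent.Lib.MP_9ebc94_an

open Polynomial Set

/-- an arc on which all the equations hold, at the points of a dense set `Z` of parameters -/
structure Arc (S : Set (ℂ[X] × ℝ)) (γ γ' T : ℝ → ℂ) (Z : Set ℝ) (a b : ℝ) : Prop where
  hab : a < b
  cont : ContinuousOn γ (Ioo a b)
  inj : InjOn γ (Ioo a b)
  dense : ∀ c d, a ≤ c → c < d → d ≤ b → ∃ t ∈ Ioo c d, t ∈ Z
  deriv : ∀ t ∈ Ioo a b, t ∈ Z → HasDerivAt γ (γ' t) t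
  norm : ∀ t ∈ Ioo a b, t ∈ Z → ‖T t‖ = 1
  par : ∀ t ∈ Ioo a b, t ∈ Z → ∃ c : ℝ, c ≠ 0 ∧ γ' t = c * T t
  E : ∀ s ∈ S, ∀ t ∈ Ioo a b, t ∈ Z →
    ((derivative s.1).eval (γ t) * T t).im = s.2 * (s.1.eval (γ t)).re

/-- value of a bivariate polynomial at `(z, conj z)` -/
noncomputable def ev (z : ℂ) (G : ℂ[X][X]) : ℂ := evalEval z (starRingEnd ℂ z) G

@[simp] theorem ev_add (z : ℂ) (G H : ℂ[X][X]) : ev z (G + H) = ev z G + ev z H := by simp [ev]
@[simp] theorem ev_sub (z : ℂ) (G H : ℂ[X][X]) : ev z (G - H) = ev z G - ev z H := by simp [ev]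
@[simp] theorem ev_mul (z : ℂ) (G H : ℂ[X][X]) : ev z (G * H) = ev z G * ev z H := by
  simp [ev, evalEval_mul]
@[simp] theorem ev_pow (z : ℂ) (G : ℂ[X][X]) (n : ℕ) : ev z (G ^ n) = ev z G ^ n := by
  simp [ev, evalEval_pow]
@[simp] theorem ev_C (z : ℂ) (p : ℂ[X]) : ev z (C p) = p.eval z := evalEval_C _ _ _
@[simp] theorem ev_mapC (z : ℂ) (p : ℂ[X]) : ev z (p.map C) = p.eval (starRingEnd ℂ z) :=
  evalEval_map_C _ _ _
@[simp] theorem ev_X (z : ℂ) : ev z X = starRingEnd ℂ z := by simp [ev]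
@[simp] theorem ev_zero (z : ℂ) : ev z 0 = 0 := by simp [ev]

theorem ev_dvd {z : ℂ} {q G : ℂ[X][X]} (h : q ∣ G) (hq : ev z q = 0) : ev z G = 0 := by
  obtain ⟨r, rfl⟩ := h
  rw [ev_mul, hq, zero_mul]

theorem eval_conjP (p : ℂ[X]) (z : ℂ) : (conjP p).eval (starRingEnd ℂ z) = starRingEnd ℂ (p.eval z) := by
  rw [conjP, eval_map, eval₂_at_apply]

theorem ev_monomial (z : ℂ) (n : ℕ) (a : ℂ[X]) :
    ev z (monomial n a) = a.eval z * (starRingEnd ℂ z) ^ n := by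
  rw [← C_mul_X_pow_eq_monomial]
  simp

/-- chain rule along a curve -/
theorem hasDerivAt_ev {γ : ℝ → ℂ} {γ'' : ℂ} {t : ℝ} (h : HasDerivAt γ γ'' t) (q : ℂ[X][X]) :
    HasDerivAt (fun t => ev (γ t) q)
      (ev (γ t) (dX q) * γ'' + ev (γ t) (derivative q) * starRingEnd ℂ γ'') t := by
  have hconj : HasDerivAt (fun t => starRingEnd ℂ (γ t)) (starRingEnd ℂ γ'') t := by
    exact (Complex.conjCLE.toContinuousLinearMap.hasFDerivAt (x := γ t)).comp_hasDerivAt t h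
  induction q using Polynomial.induction_on' with
  | add p q hp hq =>
    have h1 : HasDerivAt (fun t => ev (γ t) p + ev (γ t) q) _ t := hp.add hq
    simp only [ev_add, dX_add, derivative_add]
    refine h1.congr_deriv ?_
    ring
  | monomial n a =>
    have h1 : HasDerivAt (fun t => a.eval (γ t)) ((derivative a).eval (γ t) * γ'') t :=
      (a.hasDerivAt (γ t)).comp t h
    have h2 := hconj.pow n
    have h3 : HasDerivAt (fun t => a.eval (γ t) * (starRingEnd ℂ (γ t)) ^ n) _ t := h1.mul h2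
    simp only [ev_monomial, dX_monomial, derivative_monomial]
    refine h3.congr_deriv ?_
    simp only [eval_mul, eval_natCast]
    ring

/-- polynomials vanishing on a piece of the curve -/
def vanI (γ : ℝ → ℂ) (c d : ℝ) : Ideal ℂ[X][X] where
  carrier := {G | ∀ t ∈ Ioo c d, ev (γ t) G = 0}
  add_mem' := by
    intro G H hG hH t ht
    rw [ev_add, hG t ht, hH t ht, add_zero]
  zero_mem' := by
    intro t _
    exact ev_zero _
  smul_mem' := by
    intro G H hH t ht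
    rw [smul_eq_mul, ev_mul, hH t ht, mul_zero]

theorem mem_vanI {γ : ℝ → ℂ} {c d : ℝ} {G : ℂ[X][X]} :
    G ∈ vanI γ c d ↔ ∀ t ∈ Ioo c d, ev (γ t) G = 0 := Iff.rfl

theorem vanI_mono (γ : ℝ → ℂ) {a b c d : ℝ} (hac : a ≤ c) (hdb : d ≤ b) :
    vanI γ a b ≤ vanI γ c d := fun _ hG t ht => hG t ⟨hac.trans_lt ht.1, ht.2.trans_le hdb⟩

theorem exists_max (γ : ℝ → ℂ) {a b : ℝ} (hab : a < b) :
    ∃ a' b', a ≤ a' ∧ a' < b' ∧ b' ≤ b ∧
      ∀ c d, a' ≤ c → c < d → d ≤ b' → vanI γ c d ≤ vanI γ a' b' := by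
  obtain ⟨I, ⟨a', b', h1, h2, h3, rfl⟩, hmax⟩ := WellFounded.has_min
    (wellFounded_gt (α := Ideal ℂ[X][X]))
    {I | ∃ a' b', a ≤ a' ∧ a' < b' ∧ b' ≤ b ∧ I = vanI γ a' b'} ⟨_, a, b, le_rfl, hab, le_rfl, rfl⟩
  refine ⟨a', b', h1, h2, h3, fun c d hc hcd hd => ?_⟩
  have h4 := hmax (vanI γ c d) ⟨c, d, h1.trans hc, hcd, hd.trans h3, rfl⟩
  have h5 := vanI_mono γ hc hd
  by_contra h6
  exact h4 (lt_of_le_of_ne h5 (fun h => h6 h.ge))

theorem continuousOn_ev {γ : ℝ → ℂ} {s : Set ℝ} (hγ : ContinuousOn γ s) (G : ℂ[X][X]) :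
    ContinuousOn (fun t => ev (γ t) G) s := by
  have hconj : ContinuousOn (fun t => starRingEnd ℂ (γ t)) s :=
    Complex.continuous_conj.comp_continuousOn hγ
  induction G using Polynomial.induction_on' with
  | add p q hp hq =>
    simp only [ev_add]
    exact hp.add hq
  | monomial n a =>
    simp only [ev_monomial]
    exact (a.continuous.comp_continuousOn hγ).mul (hconj.pow n)

/-- near a point where `G` does not vanish, there is a small interval on which it does not -/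
theorem exists_sub {γ : ℝ → ℂ} {a b : ℝ} (hγ : ContinuousOn γ (Ioo a b)) {G : ℂ[X][X]}
    (hG : G ∉ vanI γ a b) : ∃ c d, a ≤ c ∧ c < d ∧ d ≤ b ∧ ∀ t ∈ Ioo c d, ev (γ t) G ≠ 0 := by
  rw [mem_vanI] at hG
  push Not at hG
  obtain ⟨t, ht, hne⟩ := hG
  have h1 : ContinuousAt (fun t => ev (γ t) G) t :=
    (continuousOn_ev hγ G).continuousAt (Ioo_mem_nhds ht.1 ht.2)
  have h2 : ∀ᶠ s in nhds t, ev (γ s) G ≠ 0 := h1.eventually_ne hne
  have h3 : ∀ᶠ s in nhds t, s ∈ Ioo a b := Ioo_mem_nhds ht.1 ht.2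
  obtain ⟨ε, hε, hball⟩ := Metric.eventually_nhds_iff_ball.1 (h2.and h3)
  rw [Real.ball_eq_Ioo] at hball
  refine ⟨t - ε / 2, t + ε / 2, ?_, by linarith, ?_, fun s hs => (hball s ⟨by linarith [hs.1], by linarith [hs.2]⟩).1⟩
  · exact (hball (t - ε / 2) ⟨by linarith, by linarith⟩).2.1.le
  · exact (hball (t + ε / 2) ⟨by linarith, by linarith⟩).2.2.le

theorem prime_vanI {γ : ℝ → ℂ} {a b : ℝ} (hab : a < b) (hγ : ContinuousOn γ (Ioo a b))
    (hmax : ∀ c d, a ≤ c → c < d → d ≤ b → vanI γ c d ≤ vanI γ a b) : (vanI γ a b).IsPrime := by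
  refine ⟨?_, ?_⟩
  · intro h
    have h1 : (1 : ℂ[X][X]) ∈ vanI γ a b := by rw [h]; trivial
    have h2 := h1 ((a + b) / 2) ⟨by linarith, by linarith⟩
    have h3 : ev (γ ((a + b) / 2)) 1 = 1 := by simp [ev]
    rw [h3] at h2
    exact one_ne_zero h2
  · intro G H hGH
    by_contra hcon
    push Not at hcon
    obtain ⟨hG, hH⟩ := hcon
    obtain ⟨c, d, hc, hcd, hd, hne⟩ := exists_sub hγ hG
    apply hH
    apply hmax c d hc hcd hd
    intro t ht
    have h1 := hGH t ⟨hc.trans_lt ht.1, ht.2.trans_le hd⟩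
    rw [ev_mul] at h1
    exact (mul_eq_zero.1 h1).resolve_left (hne t ht)

/-- a one-variable polynomial vanishing on infinitely many values -/
theorem poly_zero_of_inj {δ : ℝ → ℂ} {c d : ℝ} (hcd : c < d) (hinj : InjOn δ (Ioo c d))
    {p : ℂ[X]} (hp : ∀ t ∈ Ioo c d, p.eval (δ t) = 0) : p = 0 := by
  apply eq_zero_of_infinite_isRoot
  have h1 : (δ '' Ioo c d).Infinite := (Ioo_infinite hcd).image hinj
  exact h1.mono (by rintro _ ⟨t, ht, rfl⟩; exact hp t ht)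

theorem C_mem_vanI {γ : ℝ → ℂ} {c d : ℝ} (hcd : c < d) (hinj : InjOn γ (Ioo c d))
    {p : ℂ[X]} (hp : C p ∈ vanI γ c d) : p = 0 := by
  apply poly_zero_of_inj hcd hinj
  intro t ht
  have := hp t ht
  rwa [ev_C] at this

theorem mapC_mem_vanI {γ : ℝ → ℂ} {c d : ℝ} (hcd : c < d) (hinj : InjOn γ (Ioo c d))
    {p : ℂ[X]} (hp : p.map C ∈ vanI γ c d) : p = 0 := by
  apply poly_zero_of_inj hcd (δ := fun t => starRingEnd ℂ (γ t))
  · intro x hx y hy hxy
    exact hinj hx hy ((starRingEnd ℂ).injective hxy)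
  intro t ht
  have := hp t ht
  rwa [ev_mapC] at this

/-- the generator of the vanishing ideal -/
theorem exists_gen {I : Ideal ℂ[X][X]} (hI : I.IsPrime) (hbot : I ≠ ⊥)
    (hC : ∀ p : ℂ[X], C p ∈ I → p = 0) :
    ∃ q : ℂ[X][X], q ∈ I ∧ q.IsPrimitive ∧
      Irreducible (q.map (algebraMap ℂ[X] (FractionRing ℂ[X]))) ∧ ∀ G ∈ I, q ∣ G := by
  obtain ⟨q, hqI, hq⟩ := hI.exists_mem_prime_of_ne_bot hbot
  have hq0 : q.natDegree ≠ 0 := by
    intro h
    rw [eq_C_of_natDegree_eq_zero h] at hqI hq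
    rw [hC _ hqI, C_0] at hq
    exact hq.ne_zero rfl
  have hprim := hq.irreducible.isPrimitive hq0
  have hirr := (hprim.irreducible_iff_irreducible_map_fraction_map
    (K := FractionRing ℂ[X])).1 hq.irreducible
  refine ⟨q, hqI, hprim, hirr, fun G hG => ?_⟩
  apply hprim.dvd_of_fraction_map_dvd_fraction_map (K := FractionRing ℂ[X])
  by_contra hnd
  have hcop := (hirr.coprime_iff_not_dvd.2 hnd)
  obtain ⟨u, v, huv⟩ := hcop
  obtain ⟨b1, hb1, h1⟩ := IsLocalization.integerNormalization_spec (nonZeroDivisors ℂ[X]) u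
  obtain ⟨b2, hb2, h2⟩ := IsLocalization.integerNormalization_spec (nonZeroDivisors ℂ[X]) v
  set U := IsLocalization.integerNormalization (nonZeroDivisors ℂ[X]) u
  set V := IsLocalization.integerNormalization (nonZeroDivisors ℂ[X]) v
  have h1' : U.map (algebraMap ℂ[X] (FractionRing ℂ[X])) =
      C (algebraMap ℂ[X] (FractionRing ℂ[X]) b1) * u := by
    rw [← algebraMap_smul (FractionRing ℂ[X]) b1 u, smul_eq_C_mul] at h1
    exact h1
  have h2' : V.map (algebraMap ℂ[X] (FractionRing ℂ[X])) =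
      C (algebraMap ℂ[X] (FractionRing ℂ[X]) b2) * v := by
    rw [← algebraMap_smul (FractionRing ℂ[X]) b2 v, smul_eq_C_mul] at h2
    exact h2
  have h3 : (C b2 * U * q + C b1 * V * G).map (algebraMap ℂ[X] (FractionRing ℂ[X])) =
      (C (b1 * b2)).map (algebraMap ℂ[X] (FractionRing ℂ[X])) := by
    simp only [Polynomial.map_add, Polynomial.map_mul, map_C, h1', h2', map_mul]
    linear_combination (C (algebraMap ℂ[X] (FractionRing ℂ[X]) b1) *
      C (algebraMap ℂ[X] (FractionRing ℂ[X]) b2)) * huv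
  have h4 := map_injective _ (IsFractionRing.injective ℂ[X] (FractionRing ℂ[X])) h3
  have h5 : C (b1 * b2) ∈ I := by
    rw [← h4]
    exact I.add_mem (I.mul_mem_left _ hqI) (I.mul_mem_left _ hG)
  have h6 := hC _ h5
  exact (mul_ne_zero (nonZeroDivisors.ne_zero hb1) (nonZeroDivisors.ne_zero hb2)) h6

end Pool.Agent.Lib.MP_9ebc94_an
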