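import Pool.Agent.Lib.MP_9ebc94_an.Chart

/-!
The length measure on a Lipschitz graph.
-/

namespace Pool.Agent.Lib.MP_9ebc94_an

open MeasureTheory Set Filter Metric
open scoped NNReal ENNReal

section

variable (R : E2 ≃ₗᵢ[ℝ] E2) {g : ℝ → ℝ} {K : ℝ≥0} (hg : LipschitzWith K g)

/-- the graph curve -/
noncomputable def gcur (g : ℝ → ℝ) (t : ℝ) : E2 := pt R t (g t)

include hg in
theorem gcur_lip : LipschitzWith (1 + K) (gcur R g) := by
  apply LipschitzWith.of_dist_le_mul
  intro x y
  rw [dist_eq_norm, gcur, gcur, pt_sub]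
  refine (norm_pt_le _ _ _).trans ?_
  have h1 := hg.dist_le_mul x y
  rw [Real.dist_eq, Real.dist_eq] at *
  push_cast
  rw [add_mul, one_mul]
  linarith

include hg in
theorem gcur_me : MeasurableEmbedding (gcur R g) := by
  apply (gcur_lip R hg).continuous.measurableEmbedding
  intro x y h
  have h1 := congrArg (fun y => R y 0) h
  simpa [gcur] using h1

/-- the speed -/
noncomputable def speed (g : ℝ → ℝ) (t : ℝ) : ℝ := Real.sqrt (1 + (deriv g t) ^ 2)

theorem sqrt_lip (a b : ℝ) : |Real.sqrt (1 + a ^ 2) - Real.sqrt (1 + b ^ 2)| ≤ |a - b| := by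
  have h1 := norm_pt (LinearIsometryEquiv.refl ℝ E2) 1 a
  have h2 := norm_pt (LinearIsometryEquiv.refl ℝ E2) 1 b
  rw [one_pow] at h1 h2
  rw [← h1, ← h2]
  refine (abs_norm_sub_norm_le _ _).trans ?_
  rw [pt_sub, sub_self]
  refine (norm_pt_le _ _ _).trans ?_
  simp

theorem speed_pos (t : ℝ) : 1 ≤ speed g t := by
  unfold speed
  rw [Real.one_le_sqrt]
  nlinarith [sq_nonneg (deriv g t)]

theorem speed_meas : Measurable (speed g) := by
  unfold speed
  exact ((measurable_deriv g).pow_const 2).const_add 1 |>.sqrt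

include hg in
theorem partition_data {ε : ℝ≥0} (hε : ε ≠ 0) :
    ∃ (T : ℕ → Set ℝ) (m : ℕ → ℝ), Pairwise (Function.onFun Disjoint T) ∧
      (∀ n, MeasurableSet (T n)) ∧ (volume (⋃ n, T n)ᶜ = 0) ∧
      (∀ n, ∀ x ∈ T n, ∀ y ∈ T n, |g x - g y - m n * (x - y)| ≤ ε * |x - y|) ∧
      (∀ n, ∀ᵐ x ∂(volume.restrict (T n)), |deriv g x - m n| ≤ ε) := by
  set s := {x | DifferentiableAt ℝ g x} with hs
  have hsm : MeasurableSet s := measurableSet_of_differentiableAt ℝ g
  obtain ⟨T, A, h1, h2, h3, h4, -⟩ := exists_partition_approximatesLinearOn_of_hasFDerivWithinAt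
    g s (fun x => fderiv ℝ g x) (fun x hx => (DifferentiableAt.hasFDerivAt hx).hasFDerivWithinAt)
    (fun _ => ε) (fun _ => hε)
  refine ⟨fun n => s ∩ T n, fun n => A n 1, ?_, fun n => hsm.inter (h2 n), ?_, ?_, ?_⟩
  · intro i j hij
    exact (h1 hij).mono inter_subset_right inter_subset_right
  · have h5 : (⋃ n, s ∩ T n)ᶜ ⊆ sᶜ := by
      rw [← inter_iUnion, compl_subset_compl]
      exact subset_inter le_rfl h3
    refine measure_mono_null h5 ?_
    have h6 := hg.ae_differentiableAt_real
    rw [ae_iff] at h6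
    exact h6
  · intro n x hx y hy
    have h5 := h4 n x hx y hy
    rw [Real.norm_eq_abs, Real.norm_eq_abs] at h5
    have h6 : A n (x - y) = A n 1 * (x - y) := by
      have := (A n).map_smul (x - y) 1
      rw [smul_eq_mul, mul_one, smul_eq_mul] at this
      rw [this, mul_comm]
    rwa [h6] at h5
  · intro n
    have h5 := (h4 n).norm_fderiv_sub_le volume (hsm.inter (h2 n)) (fun x => fderiv ℝ g x)
      (fun x hx => (DifferentiableAt.hasFDerivAt hx.1).hasFDerivWithinAt)
    filter_upwards [h5] with x hx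
    have h6 : deriv g x - A n 1 = (fderiv ℝ g x - A n) 1 := by
      rw [← fderiv_apply_one_eq_deriv]
      rfl
    rw [h6, ← Real.norm_eq_abs]
    have h7 := (fderiv ℝ g x - A n).le_opNorm 1
    rw [norm_one, mul_one] at h7
    exact h7.trans (by exact_mod_cast hx)

/-- two sided estimate of the length on a piece where `g` is almost linear -/
theorem piece_bounds {S : Set ℝ} {m ε : ℝ} (hε0 : 0 ≤ ε) (hε1 : ε < 1)
    (h : ∀ x ∈ S, ∀ y ∈ S, |g x - g y - m * (x - y)| ≤ ε * |x - y|) :
    μH[1] (gcur R g '' S) ≤ ENNReal.ofReal (Real.sqrt (1 + m ^ 2) + ε) * volume S ∧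
    ENNReal.ofReal (Real.sqrt (1 + m ^ 2) - ε) * volume S ≤ μH[1] (gcur R g '' S) := by
  set a := Real.sqrt (1 + m ^ 2) with ha
  have ha1 : 1 ≤ a := by
    rw [ha, Real.one_le_sqrt]
    nlinarith [sq_nonneg m]
  have hdist : ∀ x ∈ S, ∀ y ∈ S, |dist (gcur R g x) (gcur R g y) - a * dist x y| ≤ ε * dist x y := by
    intro x hx y hy
    have h1 : a * dist x y = ‖pt R (x - y) (m * (x - y))‖ := by
      rw [norm_pt, ha, Real.dist_eq, ← Real.sqrt_sq_eq_abs, ← Real.sqrt_mul (by positivity)]
      congr 1
      ring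
    rw [h1, dist_eq_norm, gcur, gcur, pt_sub]
    refine (abs_norm_sub_norm_le _ _).trans ?_
    rw [pt_sub, sub_self]
    refine (norm_pt_le _ _ _).trans ?_
    rw [abs_zero, zero_add, Real.dist_eq]
    exact h x hx y hy
  constructor
  · have h1 : LipschitzOnWith (Real.toNNReal (a + ε)) (gcur R g) S := by
      apply LipschitzOnWith.of_dist_le_mul
      intro x hx y hy
      rw [Real.coe_toNNReal _ (by linarith)]
      have := abs_le.1 (hdist x hx y hy)
      rw [add_mul]
      linarith [this.2]
    have h2 := h1.hausdorffMeasure_image_le (zero_le_one (α := ℝ))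
    rw [ENNReal.rpow_one, hausdorffMeasure_real] at h2
    exact h2
  · have hpos : 0 < a - ε := by linarith
    have h1 : LipschitzOnWith (Real.toNNReal (a - ε)⁻¹) (fun y : E2 => R y 0) (gcur R g '' S) := by
      apply LipschitzOnWith.of_dist_le_mul
      rintro _ ⟨x, hx, rfl⟩ _ ⟨y, hy, rfl⟩
      rw [Real.coe_toNNReal _ (by positivity)]
      simp only [gcur, R_pt0]
      have := abs_le.1 (hdist x hx y hy)
      rw [inv_mul_eq_div, le_div_iff₀ hpos]
      unfold gcur at this
      rw [mul_comm, sub_mul]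
      linarith [this.1]
    have h2 := h1.hausdorffMeasure_image_le (zero_le_one (α := ℝ))
    rw [ENNReal.rpow_one, image_image] at h2
    have h3 : (fun x => (R (gcur R g x)) 0) '' S = S := by
      simp [gcur]
    rw [h3, hausdorffMeasure_real] at h2
    calc ENNReal.ofReal (a - ε) * volume S
        ≤ ENNReal.ofReal (a - ε) * (ENNReal.ofReal (a - ε)⁻¹ * μH[1] (gcur R g '' S)) := by
          gcongr
          exact h2
      _ = μH[1] (gcur R g '' S) := by
          rw [← mul_assoc, ← ENNReal.ofReal_mul hpos.le, mul_inv_cancel₀ hpos.ne',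
            ENNReal.ofReal_one, one_mul]

include hg in
theorem null_image {S : Set ℝ} (hS : volume S = 0) : μH[1] (gcur R g '' S) = 0 := by
  have h1 := (gcur_lip R hg).hausdorffMeasure_image_le (zero_le_one (α := ℝ)) S
  rw [hausdorffMeasure_real, hS, mul_zero] at h1
  exact le_antisymm h1 zero_le

include hg in
theorem len_bounds {B : Set ℝ} (hB : MeasurableSet B) {ε : ℝ≥0} (hε : ε ≠ 0) (hε1 : ε < 1) :
    μH[1] (gcur R g '' B) ≤ (∫⁻ t in B, ENNReal.ofReal (speed g t)) + 2 * ε * volume B ∧
    (∫⁻ t in B, ENNReal.ofReal (speed g t)) ≤ μH[1] (gcur R g '' B) + 2 * ε * volume B := by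
  obtain ⟨T, m, hdisj, hmeas, hnull, hlin, hder⟩ := partition_data hg hε
  have hε0' : (0 : ℝ) ≤ ε := ε.2
  have hε1' : (ε : ℝ) < 1 := by exact_mod_cast hε1
  -- decompose the measure of a set along the partition
  have hdec : ∀ μ : Measure ℝ, μ (⋃ n, T n)ᶜ = 0 → μ B = ∑' n, μ (B ∩ T n) := by
    intro μ hμ
    have h1 : μ B = μ (B ∩ ⋃ n, T n) := by
      refine (measure_inter_conull' ?_).symm
      exact measure_mono_null (fun x hx => hx.2) hμ
    rw [h1, inter_iUnion, measure_iUnion]
    · intro i j hij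
      exact (hdisj hij).mono inter_subset_right inter_subset_right
    · intro n
      exact hB.inter (hmeas n)
  set ν : Measure ℝ := Measure.comap (gcur R g) μH[1] with hν
  have hνapp : ∀ S, ν S = μH[1] (gcur R g '' S) := fun S => (gcur_me R hg).comap_apply _ _
  have hdν := hdec ν (by rw [hνapp]; exact null_image R hg hnull)
  have hdv := hdec volume hnull
  set w : Measure ℝ := volume.withDensity (fun t => ENNReal.ofReal (speed g t)) with hw
  have hwapp : ∀ S, MeasurableSet S → w S = ∫⁻ t in S, ENNReal.ofReal (speed g t) :=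
    fun S hS => withDensity_apply _ hS
  have hdw := hdec w (withDensity_absolutelyContinuous _ _ hnull)
  have hpiece : ∀ n, ν (B ∩ T n) ≤ w (B ∩ T n) + 2 * ε * volume (B ∩ T n) ∧
      w (B ∩ T n) ≤ ν (B ∩ T n) + 2 * ε * volume (B ∩ T n) := by
    intro n
    set a := Real.sqrt (1 + (m n) ^ 2) with ha
    have ha1 : 1 ≤ a := by
      rw [ha, Real.one_le_sqrt]
      nlinarith [sq_nonneg (m n)]
    have hb := piece_bounds (R := R) (S := B ∩ T n) (m := m n) hε0' hε1'
      (fun x hx y hy => hlin n x hx.2 y hy.2)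
    rw [← ha] at hb
    have hae : ∀ᵐ x ∂(volume.restrict (B ∩ T n)), |speed g x - a| ≤ ε := by
      have h1 := ae_restrict_of_ae_restrict_of_subset (inter_subset_right (s := B) (t := T n))
        (hder n)
      filter_upwards [h1] with x hx
      exact (sqrt_lip _ _).trans hx
    rw [hwapp _ (hB.inter (hmeas n)), hνapp]
    constructor
    · calc μH[1] (gcur R g '' (B ∩ T n)) ≤ ENNReal.ofReal (a + ε) * volume (B ∩ T n) := hb.1
        _ = ∫⁻ t in B ∩ T n, ENNReal.ofReal (a + ε) := by rw [setLIntegral_const]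
        _ ≤ ∫⁻ t in B ∩ T n, (ENNReal.ofReal (speed g t) + 2 * ε) := by
          apply lintegral_mono_ae
          filter_upwards [hae] with x hx
          have h2 : (2 * ε : ℝ≥0∞) = ENNReal.ofReal (2 * ε) := by
            rw [ENNReal.ofReal_mul (by norm_num), ENNReal.ofReal_coe_nnreal]
            simp
          rw [h2, ← ENNReal.ofReal_add (by linarith [speed_pos (g := g) x]) (by positivity)]
          apply ENNReal.ofReal_le_ofReal
          linarith [(abs_le.1 hx).1]
        _ = _ := by
          rw [lintegral_add_right _ measurable_const, setLIntegral_const]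
    · calc (∫⁻ t in B ∩ T n, ENNReal.ofReal (speed g t))
        _ ≤ (∫⁻ t in B ∩ T n, (ENNReal.ofReal (a - ε) + 2 * ε)) := by
          apply lintegral_mono_ae
          filter_upwards [hae] with x hx
          have h2 : (2 * ε : ℝ≥0∞) = ENNReal.ofReal (2 * ε) := by
            rw [ENNReal.ofReal_mul (by norm_num), ENNReal.ofReal_coe_nnreal]
            simp
          rw [h2, ← ENNReal.ofReal_add (by linarith) (by positivity)]
          apply ENNReal.ofReal_le_ofReal
          linarith [(abs_le.1 hx).2]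
        _ = ENNReal.ofReal (a - ε) * volume (B ∩ T n) + 2 * ε * volume (B ∩ T n) := by
          rw [lintegral_add_right _ measurable_const, setLIntegral_const, setLIntegral_const]
        _ ≤ _ := by gcongr; exact hb.2
  constructor
  · rw [← hνapp, ← hwapp _ hB, hdν, hdw, hdv, ← ENNReal.tsum_mul_left, ← ENNReal.tsum_add]
    exact ENNReal.tsum_le_tsum fun n => (hpiece n).1
  · rw [← hνapp, ← hwapp _ hB, hdν, hdw, hdv, ← ENNReal.tsum_mul_left, ← ENNReal.tsum_add]
    exact ENNReal.tsum_le_tsum fun n => (hpiece n).2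

include hg in
theorem len_eq {B : Set ℝ} (hB : MeasurableSet B) (hfin : volume B ≠ ∞) :
    μH[1] (gcur R g '' B) = ∫⁻ t in B, ENNReal.ofReal (speed g t) := by
  have key : ∀ x y : ℝ≥0∞, (∀ ε : ℝ≥0, ε ≠ 0 → ε < 1 → x ≤ y + 2 * ε * volume B) → x ≤ y := by
    intro x y h
    apply ENNReal.le_of_forall_pos_le_add
    intro δ hδ _
    set V := (volume B).toNNReal with hV
    have hV' : volume B = V := (ENNReal.coe_toNNReal hfin).symm
    set ε := min (1 / 2) (δ / (2 * V + 1)) with hε
    have hε0 : 0 < ε := lt_min (by norm_num) (by positivity)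
    have h1 := h ε hε0.ne' (lt_of_le_of_lt (min_le_left _ _) (by
      rw [← NNReal.coe_lt_coe]; norm_num))
    refine h1.trans ?_
    gcongr
    rw [hV']
    have h2 : 2 * ε * V ≤ δ := by
      have h3 : ε ≤ δ / (2 * V + 1) := min_le_right _ _
      rw [le_div_iff₀ (by positivity)] at h3
      calc 2 * ε * V = ε * (2 * V) := by ring
        _ ≤ ε * (2 * V + 1) := by gcongr; exact le_self_add
        _ ≤ δ := h3
    exact_mod_cast h2
  apply le_antisymm
  · exact key _ _ fun ε h0 h1 => (len_bounds R hg hB h0 h1).1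
  · exact key _ _ fun ε h0 h1 => (len_bounds R hg hB h0 h1).2

include hg in
theorem comap_eq {I : Set ℝ} (hI : MeasurableSet I) (hfin : volume I ≠ ∞) :
    (Measure.comap (gcur R g) μH[1]).restrict I =
      (volume.restrict I).withDensity (fun t => ((Real.toNNReal (speed g t) : ℝ≥0) : ℝ≥0∞)) := by
  ext B hB
  rw [Measure.restrict_apply hB, (gcur_me R hg).comap_apply,
    len_eq R hg (hB.inter hI) (measure_ne_top_of_subset inter_subset_right hfin),
    withDensity_apply _ hB, Measure.restrict_restrict hB]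
  rfl

include hg in
/-- integrals over the graph -/
theorem integral_curve {I : Set ℝ} (hI : MeasurableSet I) (hfin : volume I ≠ ∞) (F : E2 → ℝ) :
    ∫ y in gcur R g '' I, F y ∂μH[1] = ∫ t in I, speed g t * F (gcur R g t) := by
  have h1 : (μH[1] : Measure E2).restrict (gcur R g '' I) =
      Measure.map (gcur R g) ((Measure.comap (gcur R g) μH[1]).restrict I) := by
    have h2 := (gcur_me R hg).restrict_map (Measure.comap (gcur R g) μH[1]) (gcur R g '' I)
    rw [(gcur_me R hg).map_comap, preimage_image_eq _ (gcur_me R hg).injective,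
      Measure.restrict_restrict_of_subset (image_subset_range _ _)] at h2
    exact h2
  rw [h1, (gcur_me R hg).integral_map, comap_eq R hg hI hfin,
    integral_withDensity_eq_integral_smul (speed_meas.real_toNNReal)]
  apply integral_congr_ae
  filter_upwards with t
  rw [NNReal.smul_def, Real.coe_toNNReal _ (by linarith [speed_pos (g := g) t]), smul_eq_mul]

end

end Pool.Agent.Lib.MP_9ebc94_an
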