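import Pool.Agent.Lib.MP_9ebc94_an.Lower

/-!
Degrees are unbounded; the countable set of eigenpairs.
-/

namespace Pool.Agent.Lib.MP_9ebc94_an

open MeasureTheory Set Filter Metric Polynomial
open scoped NNReal ENNReal ContDiff

variable {Ω : Set E2}

theorem sigma_unbounded' (D : Dom Ω) {x0 : E2} (C : Chart Ω x0)
    (hx0 : x0 ∈ frontier Ω) (hd : Dense2 Ω) {M : ℝ} (hM : 0 ≤ M) :
    ∃ f σ, EigC Ω f σ ∧ M < σ ∧ 0 < bdf Ω f f ∧ 1 ≤ f.natDegree := by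
  obtain ⟨f, σ, hf, h1⟩ := sigma_unbounded D C hx0 hd M
  have h2 : 0 ≤ bdf Ω f f := integral_nonneg fun y => mul_self_nonneg _
  have h3 := hf.ext D f
  have h4 : 0 < en Ω f f := by
    have : 0 ≤ M * bdf Ω f f := mul_nonneg hM h2
    linarith
  have h5 : bdf Ω f f ≠ 0 := by
    intro h
    rw [h3, h, mul_zero] at h4
    exact lt_irrefl _ h4
  have h6 : 0 < bdf Ω f f := lt_of_le_of_ne h2 (Ne.symm h5)
  refine ⟨f, σ, hf, ?_, h6, ?_⟩
  · rw [h3] at h1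
    exact lt_of_mul_lt_mul_right h1 h2
  · by_contra hcon
    have h7 : f.natDegree = 0 := by omega
    rw [natDegree_eq_zero] at h7
    obtain ⟨c, rfl⟩ := h7
    simp [en, dens] at h4

theorem degree_unbounded (D : Dom Ω) {x0 : E2} (C : Chart Ω x0)
    (hx0 : x0 ∈ frontier Ω) (hd : Dense2 Ω) (N : ℕ) :
    ∃ f σ, EigC Ω f σ ∧ 0 < σ ∧ N ≤ f.natDegree ∧ 1 ≤ f.natDegree := by
  by_contra hcon
  push Not at hcon
  set Sg : Set ℝ := {σ | 0 < σ ∧ ∃ f, EigC Ω f σ ∧ 0 < bdf Ω f f ∧ 1 ≤ f.natDegree} with hSg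
  have hinf : Sg.Infinite := by
    apply Set.infinite_of_not_bddAbove
    rintro ⟨M, hM⟩
    obtain ⟨f, σ, hf, h1, h2, h3⟩ := sigma_unbounded' D C hx0 hd (le_max_right M 0)
    have h4 : σ ∈ Sg := ⟨lt_of_le_of_lt (le_max_right _ _) h1, f, hf, h2, h3⟩
    have h5 := hM h4
    linarith [le_max_left M 0]
  have hch : ∀ σ : Sg, ∃ f, EigC Ω f σ.1 ∧ 0 < bdf Ω f f ∧ 1 ≤ f.natDegree := fun σ => σ.2.2
  choose F hF1 hF2 hF3 using hch
  have hdeg : ∀ σ : Sg, F σ ∈ (degreeLT ℂ N).restrictScalars ℝ := by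
    intro σ
    rw [Submodule.restrictScalars_mem, mem_degreeLT]
    by_contra h
    rw [not_lt] at h
    have h1 : N ≤ (F σ).natDegree := by
      have h2 := h.trans degree_le_natDegree
      exact_mod_cast h2
    have := hcon (F σ) σ.1 (hF1 σ) σ.2.1 h1
    have := hF3 σ
    omega
  have hli : LinearIndependent ℝ F := by
    apply LinearMap.BilinForm.linearIndependent_of_iIsOrtho (B := bdB D)
    · intro i j hij
      exact (hF1 i).ortho D (hF1 j) (fun h => hij (Subtype.ext h))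
    · intro i
      exact (hF2 i).ne'
  have hfin : Module.Finite ℝ ((degreeLT ℂ N).restrictScalars ℝ) := by
    have e : (Fin N → ℂ) ≃ₗ[ℝ] degreeLT ℂ N := ((degreeLTEquiv ℂ N).restrictScalars ℝ).symm
    exact Module.Finite.equiv e
  have hli2 : LinearIndependent ℝ (fun σ : Sg =>
      (⟨F σ, hdeg σ⟩ : (degreeLT ℂ N).restrictScalars ℝ)) := by
    apply LinearIndependent.of_comp ((degreeLT ℂ N).restrictScalars ℝ).subtype
    exact hli
  have hfin2 : Finite Sg := hli2.finite_of_isNoetherian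
  exact hinf (Set.toFinite Sg)

theorem exists_S (D : Dom Ω) {x0 : E2} (C : Chart Ω x0)
    (hx0 : x0 ∈ frontier Ω) (hd : Dense2 Ω) :
    ∃ S : Set (ℂ[X] × ℝ), S.Countable ∧ (∀ s ∈ S, EigC Ω s.1 s.2) ∧
      (∀ s ∈ S, 1 ≤ s.1.natDegree) ∧ (∀ s ∈ S, s.2 ≠ 0) ∧ (∀ N, ∃ s ∈ S, N ≤ s.1.natDegree) ∧
      (∃ s ∈ S, ∃ s' ∈ S, s.2 ≠ s'.2) := by
  choose F τ hF1 hF2 hF3 hF4 using degree_unbounded D C hx0 hd
  obtain ⟨f1, σ1, h1, h2, -, h3⟩ := sigma_unbounded' D C hx0 hd le_rfl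
  obtain ⟨f2, σ2, h4, h5, -, h6⟩ := sigma_unbounded' D C hx0 hd h2.le
  refine ⟨Set.range (fun N => (F N, τ N)) ∪ {(f1, σ1), (f2, σ2)}, ?_, ?_, ?_, ?_, ?_, ?_⟩
  · exact (Set.countable_range _).union (Set.toFinite _).countable
  · rintro s (⟨N, rfl⟩ | rfl | rfl)
    · exact hF1 N
    · exact h1
    · exact h4
  · rintro s (⟨N, rfl⟩ | rfl | rfl)
    · exact hF4 N
    · exact h3
    · exact h6
  · rintro s (⟨N, rfl⟩ | rfl | rfl)
    · exact (hF2 N).ne'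
    · exact h2.ne'
    · exact (h2.trans h5).ne'
  · intro N
    exact ⟨_, Or.inl ⟨N, rfl⟩, hF3 N⟩
  · exact ⟨_, Or.inr (Or.inl rfl), _, Or.inr (Or.inr rfl), h5.ne⟩

end Pool.Agent.Lib.MP_9ebc94_an
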