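import Pool.Agent.Lib.MP_9ebc94_an.Harm

/-!
The final statement.
-/

namespace Pool.Agent.Lib.MP_9ebc94_an

open MeasureTheory Set Filter Metric Polynomial
open scoped NNReal ENNReal ContDiff ComplexConjugate

/-- coordinate projections -/
noncomputable def pr (i : Fin 2) : E2 →L[ℝ] ℝ := EuclideanSpace.proj i

theorem pr_apply (i : Fin 2) (y : E2) : pr i y = y i := rfl

theorem hasFDerivAt_evP (P : MvPolynomial (Fin 2) ℝ) (y : E2) :
    HasFDerivAt (evP P) (evP (MvPolynomial.pderiv 0 P) y • pr 0 +
      evP (MvPolynomial.pderiv 1 P) y • pr 1) y := by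
  induction P using MvPolynomial.induction_on with
  | C r =>
    have h1 : evP (MvPolynomial.C r) = fun _ => r := by ext y; simp [evP]
    rw [h1]
    simp only [MvPolynomial.pderiv_C, evP, map_zero, zero_smul, add_zero]
    exact hasFDerivAt_const _ _
  | add p q hp hq =>
    have h1 : evP (p + q) = evP p + evP q := by ext y; simp [evP]
    rw [h1]
    refine (hp.add hq).congr_fderiv ?_
    simp only [evP, map_add, add_smul]
    abel
  | mul_X p i hp =>
    have h1 : evP (p * MvPolynomial.X i) = fun y => evP p y * pr i y := by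
      ext y; simp [evP, pr_apply]
    rw [h1]
    refine (hp.mul (pr i).hasFDerivAt).congr_fderiv ?_
    ext e
    fin_cases i
    · simp [evP, MvPolynomial.pderiv_X, pr_apply]
      ring
    · simp [evP, MvPolynomial.pderiv_X, pr_apply]
      ring

theorem contDiff_evP (P : MvPolynomial (Fin 2) ℝ) : ContDiff ℝ ∞ (evP P) := by
  induction P using MvPolynomial.induction_on with
  | C r =>
    have h1 : evP (MvPolynomial.C r) = fun _ => r := by ext y; simp [evP]
    rw [h1]
    exact contDiff_const
  | add p q hp hq =>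
    have h1 : evP (p + q) = evP p + evP q := by ext y; simp [evP]
    rw [h1]
    exact hp.add hq
  | mul_X p i hp =>
    have h1 : evP (p * MvPolynomial.X i) = fun y => evP p y * pr i y := by
      ext y; simp [evP, pr_apply]
    rw [h1]
    exact hp.mul (pr i).contDiff

/-- frame vectors -/
noncomputable def ex : E2 := pt (LinearIsometryEquiv.refl ℝ E2) 1 0
/-- frame vectors -/
noncomputable def ey : E2 := pt (LinearIsometryEquiv.refl ℝ E2) 0 1

theorem ex_0 : ex 0 = 1 := R_pt0 (LinearIsometryEquiv.refl ℝ E2) 1 0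
theorem ex_1 : ex 1 = 0 := R_pt1 (LinearIsometryEquiv.refl ℝ E2) 1 0
theorem ey_0 : ey 0 = 0 := R_pt0 (LinearIsometryEquiv.refl ℝ E2) 0 1
theorem ey_1 : ey 1 = 1 := R_pt1 (LinearIsometryEquiv.refl ℝ E2) 0 1

theorem fderiv_evP_x (P : MvPolynomial (Fin 2) ℝ) (y : E2) :
    fderiv ℝ (evP P) y ex = evP (MvPolynomial.pderiv 0 P) y := by
  rw [(hasFDerivAt_evP P y).fderiv]
  simp [pr_apply, ex_0, ex_1]

theorem fderiv_evP_y (P : MvPolynomial (Fin 2) ℝ) (y : E2) :
    fderiv ℝ (evP P) y ey = evP (MvPolynomial.pderiv 1 P) y := by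
  rw [(hasFDerivAt_evP P y).fderiv]
  simp [pr_apply, ey_0, ey_1]

theorem parts (P : MvPolynomial (Fin 2) ℝ) {v : E2 → ℝ} (hv : ContDiff ℝ ∞ v)
    (hvs : HasCompactSupport v) (e : E2) :
    ∫ y, evP P y * fderiv ℝ v y e = - ∫ y, fderiv ℝ (evP P) y e * v y := by
  have hP := (contDiff_evP P).continuous
  have hP' : Continuous fun y => fderiv ℝ (evP P) y e :=
    ((contDiff_evP P).continuous_fderiv (by simp)).clm_apply continuous_const
  have hv' : Continuous fun y => fderiv ℝ v y e :=
    (hv.continuous_fderiv (by simp)).clm_apply continuous_const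
  have hvs' : HasCompactSupport fun y => fderiv ℝ v y e := hvs.fderiv_apply ℝ e
  apply integral_mul_fderiv_eq_neg_fderiv_mul_of_integrable
  · exact (hP'.mul hv.continuous).integrable_of_hasCompactSupport hvs.mul_left
  · exact (hP.mul hv').integrable_of_hasCompactSupport hvs'.mul_left
  · exact (hP.mul hv.continuous).integrable_of_hasCompactSupport hvs.mul_left
  · exact fun y _ => (contDiff_evP P).differentiable (by simp) y
  · exact fun y _ => hv.differentiable (by simp) y

theorem harmonic_of_weak {Ω : Set E2} (hΩo : IsOpen Ω) (hne : Ω.Nonempty)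
    {P : MvPolynomial (Fin 2) ℝ} {σ : ℝ}
    (h : ∀ v : E2 → ℝ, ContDiff ℝ 1 v → HasCompactSupport v →
      ∫ y in Ω, inner ℝ (gradient (evP P) y) (gradient v y) =
        σ * ∫ y in frontier Ω, evP P y * v y ∂(Measure.hausdorffMeasure (1 : ℝ))) :
    MvPolynomial.pderiv 0 (MvPolynomial.pderiv 0 P) +
      MvPolynomial.pderiv 1 (MvPolynomial.pderiv 1 P) = 0 := by
  set L := MvPolynomial.pderiv 0 (MvPolynomial.pderiv 0 P) +
      MvPolynomial.pderiv 1 (MvPolynomial.pderiv 1 P) with hL
  have key : ∀ᵐ y ∂(volume : Measure E2), y ∈ Ω → evP L y = 0 := by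
    apply hΩo.ae_eq_zero_of_integral_contDiff_smul_eq_zero
      ((contDiff_evP L).continuous.locallyIntegrable.locallyIntegrableOn _)
    intro v hv1 hv2 hv3
    have h1 := h v (hv1.of_le (by simp)) hv2
    have hout : ∀ y, y ∉ Ω → v y = 0 ∧ fderiv ℝ v y = 0 := by
      intro y hy
      have h2 : y ∉ tsupport v := fun h3 => hy (hv3 h3)
      refine ⟨image_eq_zero_of_notMem_tsupport h2, ?_⟩
      rw [(notMem_tsupport_iff_eventuallyEq.1 h2).fderiv_eq]
      exact (hasFDerivAt_const (0 : ℝ) y).fderiv
    have h2 : ∫ y in frontier Ω, evP P y * v y ∂(Measure.hausdorffMeasure (1 : ℝ)) = 0 := by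
      apply setIntegral_eq_zero_of_forall_eq_zero
      intro y hy
      have h3 : y ∉ Ω := by
        intro h4
        have h5 := hy.2
        rw [hΩo.interior_eq] at h5
        exact h5 h4
      rw [(hout y h3).1, mul_zero]
    rw [h2, mul_zero, setIntegral_eq_integral_of_forall_compl_eq_zero] at h1
    · have h3 : ∀ y, inner ℝ (gradient (evP P) y) (gradient v y) =
          evP (MvPolynomial.pderiv 0 P) y * fderiv ℝ v y ex +
          evP (MvPolynomial.pderiv 1 P) y * fderiv ℝ v y ey := by
        intro y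
        rw [inner_gradient (LinearIsometryEquiv.refl ℝ E2)]
        rw [← fderiv_evP_x, ← fderiv_evP_y]
        rfl
      simp_rw [h3] at h1
      have hi : ∀ (Q : MvPolynomial (Fin 2) ℝ) (e : E2),
          Integrable fun y => evP Q y * fderiv ℝ v y e := by
        intro Q e
        have hv' : Continuous fun y => fderiv ℝ v y e :=
          (hv1.continuous_fderiv (by simp)).clm_apply continuous_const
        have hvs' : HasCompactSupport fun y => fderiv ℝ v y e := hv2.fderiv_apply ℝ e
        exact ((contDiff_evP Q).continuous.mul hv').integrable_of_hasCompactSupport hvs'.mul_left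
      have hi2 : ∀ (Q : MvPolynomial (Fin 2) ℝ), Integrable fun y => evP Q y * v y := by
        intro Q
        exact ((contDiff_evP Q).continuous.mul hv1.continuous).integrable_of_hasCompactSupport
          hv2.mul_left
      rw [integral_add (hi _ _) (hi _ _), parts _ hv1 hv2, parts _ hv1 hv2] at h1
      simp_rw [fderiv_evP_x, fderiv_evP_y] at h1
      have h4 : ∫ y, v y • evP L y =
          (∫ y, evP (MvPolynomial.pderiv 0 (MvPolynomial.pderiv 0 P)) y * v y) +
          ∫ y, evP (MvPolynomial.pderiv 1 (MvPolynomial.pderiv 1 P)) y * v y := by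
        rw [← integral_add (hi2 _) (hi2 _)]
        congr 1
        ext y
        simp only [hL, evP, map_add, smul_eq_mul]
        ring
      rw [h4]
      linarith
    · intro y hy
      unfold gradient
      rw [(hout y hy).2]
      simp
  have key2 : EqOn (evP L) 0 Ω := by
    apply Measure.eqOn_open_of_ae_eq (μ := volume) _ hΩo (contDiff_evP L).continuous.continuousOn
      continuousOn_const
    rw [Filter.EventuallyEq, ae_restrict_iff' hΩo.measurableSet]
    filter_upwards [key] with y hy hy2
    rw [hy hy2]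
    rfl
  obtain ⟨y0, hy0⟩ := hne
  have hcont : Continuous fun x : Fin 2 → ℝ => (WithLp.toLp 2 x : E2) := PiLp.continuous_toLp 2 _
  have hopen := hΩo.preimage hcont
  have hmem : (fun i => y0 i) ∈ (fun x : Fin 2 → ℝ => (WithLp.toLp 2 x : E2)) ⁻¹' Ω := hy0
  obtain ⟨ε, hε, hball⟩ := Metric.isOpen_iff.1 hopen _ hmem
  apply MvPolynomial.funext_set (fun i => Ioo (y0 i - ε) (y0 i + ε))
  · intro i
    exact Set.Ioo_infinite (by linarith)
  · intro x hx
    rw [map_zero]
    have h1 : x ∈ ball (fun i => y0 i) ε := by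
      rw [mem_ball, dist_pi_lt_iff hε]
      intro i
      rw [Real.dist_eq]
      exact Chart.abs_sub_lt_iff_Ioo.2 (hx i (mem_univ i))
    exact key2 (hball h1)

theorem span_conv {Ω : Set E2} (hΩo : IsOpen Ω) (hne : Ω.Nonempty) {Q : MvPolynomial (Fin 2) ℝ}
    (hQ : Q ∈ Submodule.span ℝ
             {P : MvPolynomial (Fin 2) ℝ | ∃ σ : ℝ,
               ∀ v : E2 → ℝ, ContDiff ℝ 1 v → HasCompactSupport v →
                 ∫ y in Ω, inner ℝ (gradient (evP P) y) (gradient v y)
                   = σ * ∫ y in frontier Ω, evP P y * v y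
                       ∂(Measure.hausdorffMeasure (1 : ℝ))}) :
    ∃ q ∈ Submodule.span ℝ {f : ℂ[X] | ∃ σ, EigC Ω f σ}, evP Q = reP q := by
  induction hQ using Submodule.span_induction with
  | mem P hP =>
    obtain ⟨σ, h⟩ := hP
    obtain ⟨f, hf⟩ := exists_poly P (harmonic_of_weak hΩo hne h)
    have hf' : evP P = reP f := funext hf
    refine ⟨f, Submodule.subset_span ⟨σ, ?_⟩, hf'⟩
    intro v hv1 hv2
    have h1 := h v hv1 hv2
    rw [hf'] at h1
    exact h1
  | zero =>
    refine ⟨0, Submodule.zero_mem _, ?_⟩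
    ext y
    simp [evP, reP]
  | add p q _ _ hp hq =>
    obtain ⟨f, hf, hf2⟩ := hp
    obtain ⟨g, hg, hg2⟩ := hq
    refine ⟨f + g, Submodule.add_mem _ hf hg, ?_⟩
    ext y
    have h1 := congrFun hf2 y
    have h2 := congrFun hg2 y
    rw [reP_add, ← h1, ← h2]
    simp [evP]
  | smul r p _ hp =>
    obtain ⟨f, hf, hf2⟩ := hp
    refine ⟨r • f, Submodule.smul_mem _ _ hf, ?_⟩
    ext y
    have h1 := congrFun hf2 y
    rw [reP_smul, ← h1]
    simp [evP, MvPolynomial.smul_eval]

end Pool.Agent.Lib.MP_9ebc94_an
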