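import Pool.Agent.Lib.MP_9ebc94_an.Pointwise

/-!
The Dirichlet form and the boundary form on polynomials.
-/

namespace Pool.Agent.Lib.MP_9ebc94_an

open MeasureTheory Set Filter Metric Polynomial
open scoped NNReal ENNReal ContDiff ComplexConjugate

theorem measure_frontier_lt_top {Ω : Set E2} (hΩo : IsOpen Ω) (hb : Bornology.IsBounded Ω)
    (hch : ∀ x ∈ frontier Ω, Nonempty (Chart Ω x)) :
    (μH[1] : Measure E2) (frontier Ω) < ⊤ := by
  have hc : IsCompact (frontier Ω) :=
    Metric.isCompact_of_isClosed_isBounded isClosed_frontier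
      (hb.closure.subset frontier_subset_closure)
  apply hc.measure_lt_top_of_nhdsWithin
  intro x hx
  obtain ⟨C⟩ := hch x hx
  obtain ⟨δ, h, B, -⟩ := C.exists_box one_pos
  have hδ := B.hδ
  have hh := B.hh
  refine ⟨gcur C.R C.g '' Ioo (C.t0 - δ) (C.t0 + δ), ?_, ?_⟩
  · rw [mem_nhdsWithin]
    refine ⟨{y | |C.R y 0 - C.t0| < δ} ∩ {y | |C.R y 1 - C.s0| < 2 * h}, ?_, ?_, ?_⟩
    · exact (isOpen_lt (C.cont0.sub continuous_const).abs continuous_const).inter
        (isOpen_lt (C.cont1.sub continuous_const).abs continuous_const)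
    · constructor
      · simp [Chart.t0, hδ]
      · simp [Chart.s0, hh]
    · rintro y ⟨⟨h1, h2⟩, hy⟩
      exact ⟨C.R y 0, Chart.abs_sub_lt_iff_Ioo.1 h1, (B.eq_cur hΩo hy h1 h2).symm⟩
  · have h1 := (gcur_lip C.R C.hg).hausdorffMeasure_image_le (zero_le_one (α := ℝ))
      (Ioo (C.t0 - δ) (C.t0 + δ))
    rw [hausdorffMeasure_real, Real.volume_Ioo, ENNReal.rpow_one] at h1
    refine h1.trans_lt ?_
    exact ENNReal.mul_lt_top ENNReal.coe_lt_top ENNReal.ofReal_lt_top

/-- standing assumptions on the domain -/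
structure Dom (Ω : Set E2) : Prop where
  op : IsOpen Ω
  bd : Bornology.IsBounded Ω
  fin : (μH[1] : Measure E2) (frontier Ω) < ⊤

namespace Dom

variable {Ω : Set E2}

theorem exists_bump (D : Dom Ω) : ∃ b : E2 → ℝ, ContDiff ℝ ∞ b ∧ HasCompactSupport b ∧
    ∀ y ∈ closure Ω, b =ᶠ[nhds y] 1 := by
  obtain ⟨r, hr⟩ := D.bd.closure.subset_ball 0
  let b : ContDiffBump (0 : E2) := ⟨max r 1, max r 1 + 1, by positivity, by linarith⟩
  refine ⟨b, b.contDiff, b.hasCompactSupport, ?_⟩
  intro y hy
  apply b.eventuallyEq_one_of_mem_ball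
  exact ball_subset_ball (le_max_left _ _) (hr hy)

theorem int_bulk (D : Dom Ω) {F : E2 → ℝ} (hF : Continuous F) : IntegrableOn F Ω := by
  have hc : IsCompact (closure Ω) :=
    Metric.isCompact_of_isClosed_isBounded isClosed_closure D.bd.closure
  exact (hF.continuousOn.integrableOn_compact hc).mono_set subset_closure

theorem exists_bound (D : Dom Ω) {F : E2 → ℝ} (hF : Continuous F) :
    ∃ M, ∀ y ∈ frontier Ω, ‖F y‖ ≤ M := by
  have hc : IsCompact (frontier Ω) :=
    Metric.isCompact_of_isClosed_isBounded isClosed_frontier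
      (D.bd.closure.subset frontier_subset_closure)
  exact hc.exists_bound_of_continuousOn hF.continuousOn

theorem int_frontier_of_bound (D : Dom Ω) {F : E2 → ℝ} (hF : Measurable F) {M : ℝ}
    (hM : ∀ y ∈ frontier Ω, ‖F y‖ ≤ M) : IntegrableOn F (frontier Ω) μH[1] := by
  apply Measure.integrableOn_of_bounded (M := M) D.fin.ne hF.aestronglyMeasurable
  exact (ae_restrict_iff' isClosed_frontier.measurableSet).2 (Eventually.of_forall hM)

theorem int_frontier (D : Dom Ω) {F : E2 → ℝ} (hF : Continuous F) :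
    IntegrableOn F (frontier Ω) μH[1] := by
  obtain ⟨M, hM⟩ := D.exists_bound hF
  exact D.int_frontier_of_bound hF.measurable hM

end Dom

/-- the density of the Dirichlet form -/
noncomputable def dens (f g : ℂ[X]) (y : E2) : ℝ :=
  ((derivative f).eval (toC y) * conj ((derivative g).eval (toC y))).re

theorem continuous_eval_toC (f : ℂ[X]) : Continuous fun y : E2 => f.eval (toC y) :=
  f.continuous.comp toC.continuous

theorem continuous_reP (f : ℂ[X]) : Continuous (reP f) := (contDiff_reP f).continuous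

theorem continuous_dens (f g : ℂ[X]) : Continuous (dens f g) := by
  unfold dens
  exact Complex.continuous_re.comp ((continuous_eval_toC _).mul
    (Complex.continuous_conj.comp (continuous_eval_toC _)))

theorem toC_pt_refl10 : toC (pt (LinearIsometryEquiv.refl ℝ E2) 1 0) = 1 := by
  have h : pt (LinearIsometryEquiv.refl ℝ E2) 1 0 = !₂[(1 : ℝ), 0] := rfl
  apply Complex.ext
  · rw [toC_re, h]
    simp
  · rw [toC_im, h]
    simp

theorem toC_pt_refl01 : toC (pt (LinearIsometryEquiv.refl ℝ E2) 0 1) = Complex.I := by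
  have h : pt (LinearIsometryEquiv.refl ℝ E2) 0 1 = !₂[(0 : ℝ), 1] := rfl
  apply Complex.ext
  · rw [toC_re, h]
    simp
  · rw [toC_im, h]
    simp

theorem inner_grad_reP (f g : ℂ[X]) (y : E2) :
    inner ℝ (gradient (reP f) y) (gradient (reP g) y) = dens f g y := by
  rw [inner_gradient (LinearIsometryEquiv.refl ℝ E2)]
  simp only [fderiv_reP, toC_pt_refl10, toC_pt_refl01, dens, Complex.mul_re,
    Complex.conj_re, Complex.conj_im, Complex.I_re, Complex.I_im, Complex.one_re, Complex.one_im]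
  ring

/-- Dirichlet form -/
noncomputable def en (Ω : Set E2) (f g : ℂ[X]) : ℝ := ∫ y in Ω, dens f g y

/-- boundary form -/
noncomputable def bdf (Ω : Set E2) (f g : ℂ[X]) : ℝ := ∫ y in frontier Ω, reP f y * reP g y ∂μH[1]

theorem reP_add (f g : ℂ[X]) (y : E2) : reP (f + g) y = reP f y + reP g y := by
  simp [reP]

theorem reP_smul (r : ℝ) (f : ℂ[X]) (y : E2) : reP (r • f) y = r * reP f y := by
  simp [reP, Polynomial.eval_smul]

theorem dens_add (f g k : ℂ[X]) (y : E2) : dens (f + g) k y = dens f k y + dens g k y := by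
  simp [dens]
  ring

theorem dens_smul (r : ℝ) (f k : ℂ[X]) (y : E2) : dens (r • f) k y = r * dens f k y := by
  simp [dens, Polynomial.eval_smul]
  ring

theorem dens_comm (f g : ℂ[X]) (y : E2) : dens f g y = dens g f y := by
  simp [dens]
  ring

theorem en_comm (Ω : Set E2) (f g : ℂ[X]) : en Ω f g = en Ω g f := by
  unfold en
  simp_rw [dens_comm f g]

theorem bdf_comm (Ω : Set E2) (f g : ℂ[X]) : bdf Ω f g = bdf Ω g f := by
  unfold bdf
  simp_rw [mul_comm (reP f _)]

section

variable {Ω : Set E2} (D : Dom Ω)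

include D

theorem en_add (f g k : ℂ[X]) : en Ω (f + g) k = en Ω f k + en Ω g k := by
  unfold en
  rw [← integral_add (D.int_bulk (continuous_dens f k)) (D.int_bulk (continuous_dens g k))]
  simp_rw [dens_add]

theorem bdf_add (f g k : ℂ[X]) : bdf Ω (f + g) k = bdf Ω f k + bdf Ω g k := by
  unfold bdf
  have h1 : IntegrableOn (fun y => reP f y * reP k y) (frontier Ω) μH[1] :=
    D.int_frontier ((continuous_reP f).mul (continuous_reP k))
  have h2 : IntegrableOn (fun y => reP g y * reP k y) (frontier Ω) μH[1] :=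
    D.int_frontier ((continuous_reP g).mul (continuous_reP k))
  rw [← integral_add h1 h2]
  simp_rw [reP_add, add_mul]

omit D

theorem en_smul (Ω : Set E2) (r : ℝ) (f k : ℂ[X]) : en Ω (r • f) k = r * en Ω f k := by
  unfold en
  rw [← integral_const_mul]
  simp_rw [dens_smul]

theorem bdf_smul (Ω : Set E2) (r : ℝ) (f k : ℂ[X]) : bdf Ω (r • f) k = r * bdf Ω f k := by
  unfold bdf
  rw [← integral_const_mul]
  simp_rw [reP_smul, mul_assoc]

/-- the Dirichlet form as a bilinear form -/
noncomputable def enB (D : Dom Ω) : LinearMap.BilinForm ℝ ℂ[X] :=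
  LinearMap.mk₂ ℝ (en Ω) (en_add D) (en_smul Ω)
    (fun f g k => by rw [en_comm, en_add D, en_comm Ω g, en_comm Ω k])
    (fun r f g => by rw [en_comm, en_smul, en_comm Ω g, smul_eq_mul])

/-- the boundary form as a bilinear form -/
noncomputable def bdB (D : Dom Ω) : LinearMap.BilinForm ℝ ℂ[X] :=
  LinearMap.mk₂ ℝ (bdf Ω) (bdf_add D) (bdf_smul Ω)
    (fun f g k => by rw [bdf_comm, bdf_add D, bdf_comm Ω g, bdf_comm Ω k])
    (fun r f g => by rw [bdf_comm, bdf_smul, bdf_comm Ω g, smul_eq_mul])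

theorem enB_apply (D : Dom Ω) (f g : ℂ[X]) : enB D f g = en Ω f g := rfl
theorem bdB_apply (D : Dom Ω) (f g : ℂ[X]) : bdB D f g = bdf Ω f g := rfl

theorem EigC.ext (D : Dom Ω) {f : ℂ[X]} {σ : ℝ} (hf : EigC Ω f σ) (g : ℂ[X]) :
    en Ω f g = σ * bdf Ω f g := by
  obtain ⟨b, hb1, hb2, hb3⟩ := D.exists_bump
  have h1 := hf (fun y => b y * reP g y)
    ((hb1.of_le (by simp)).mul ((contDiff_reP g).of_le (by simp))) hb2.mul_right
  have h2 : ∀ y ∈ closure Ω, (fun y => b y * reP g y) =ᶠ[nhds y] reP g := by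
    intro y hy
    filter_upwards [hb3 y hy] with z hz
    rw [hz]
    simp
  have h3 : ∫ y in Ω, inner ℝ (gradient (reP f) y) (gradient (fun y => b y * reP g y) y) =
      en Ω f g := by
    apply setIntegral_congr_fun D.op.measurableSet
    intro y hy
    have h5 : gradient (fun y => b y * reP g y) y = gradient (reP g) y := by
      unfold gradient
      rw [(h2 y (subset_closure hy)).fderiv_eq]
    change inner ℝ (gradient (reP f) y) (gradient (fun y => b y * reP g y) y) = dens f g y
    rw [h5, inner_grad_reP]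
  have h4 : ∫ y in frontier Ω, reP f y * (b y * reP g y) ∂μH[1] = bdf Ω f g := by
    apply setIntegral_congr_fun isClosed_frontier.measurableSet
    intro y hy
    have h5 : b y * reP g y = reP g y := (h2 y (frontier_subset_closure hy)).eq_of_nhds
    change reP f y * (b y * reP g y) = reP f y * reP g y
    rw [h5]
  rw [h3, h4] at h1
  exact h1

theorem EigC.ortho (D : Dom Ω) {f g : ℂ[X]} {σ τ : ℝ} (hf : EigC Ω f σ) (hg : EigC Ω g τ)
    (hne : σ ≠ τ) : bdf Ω f g = 0 := by
  have h1 := hf.ext D g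
  have h2 := hg.ext D f
  rw [en_comm, h2, bdf_comm] at h1
  have h3 : (σ - τ) * bdf Ω f g = 0 := by linarith
  rcases mul_eq_zero.1 h3 with h | h
  · exact absurd (by linarith) hne
  · exact h

theorem EigC.ortho_en (D : Dom Ω) {f g : ℂ[X]} {σ τ : ℝ} (hf : EigC Ω f σ) (hg : EigC Ω g τ)
    (hne : σ ≠ τ) : en Ω f g = 0 := by
  rw [hf.ext D g, hf.ortho D hg hne, mul_zero]

theorem gradient_reP_add (f g : ℂ[X]) (y : E2) :
    gradient (reP (f + g)) y = gradient (reP f) y + gradient (reP g) y := by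
  have h1 : reP (f + g) = reP f + reP g := by
    ext y
    exact reP_add f g y
  unfold gradient
  rw [h1, fderiv_add (hasFDerivAt_reP f y).differentiableAt (hasFDerivAt_reP g y).differentiableAt,
    map_add]

theorem gradient_reP_smul (r : ℝ) (f : ℂ[X]) (y : E2) :
    gradient (reP (r • f)) y = r • gradient (reP f) y := by
  have h1 : reP (r • f) = fun y => r • reP f y := by
    ext y
    exact reP_smul r f y
  unfold gradient
  rw [h1]
  have h2 : HasFDerivAt (fun y => r • reP f y) (r • fderiv ℝ (reP f) y) y :=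
    ((hasFDerivAt_reP f y).differentiableAt.hasFDerivAt).const_smul r
  rw [h2.fderiv]
  simp

theorem int_grad (f : ℂ[X]) {v : E2 → ℝ} (hv : ContDiff ℝ 1 v) (D : Dom Ω) :
    IntegrableOn (fun y => inner ℝ (gradient (reP f) y) (gradient v y)) Ω := by
  apply D.int_bulk
  have h1 : ∀ y, inner ℝ (gradient (reP f) y) (gradient v y) =
      fderiv ℝ (reP f) y (pt (LinearIsometryEquiv.refl ℝ E2) 1 0) *
        fderiv ℝ v y (pt (LinearIsometryEquiv.refl ℝ E2) 1 0) +
        fderiv ℝ (reP f) y (pt (LinearIsometryEquiv.refl ℝ E2) 0 1) *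
        fderiv ℝ v y (pt (LinearIsometryEquiv.refl ℝ E2) 0 1) := fun y => inner_gradient _ _ _ _
  simp_rw [h1]
  have h2 : Continuous fun y => fderiv ℝ (reP f) y := (contDiff_reP f).continuous_fderiv (by simp)
  have h3 : Continuous fun y => fderiv ℝ v y := hv.continuous_fderiv (by simp)
  exact ((h2.clm_apply continuous_const).mul (h3.clm_apply continuous_const)).add
    ((h2.clm_apply continuous_const).mul (h3.clm_apply continuous_const))

/-- the eigenspace -/
def eigS (D : Dom Ω) (σ : ℝ) : Submodule ℝ ℂ[X] where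
  carrier := {f | EigC Ω f σ}
  zero_mem' := by
    intro v hv1 hv2
    have h1 : reP 0 = fun _ => 0 := by ext y; simp [reP]
    simp [h1, gradient]
  add_mem' := by
    intro f g hf hg v hv1 hv2
    have h1 := hf v hv1 hv2
    have h2 := hg v hv1 hv2
    simp_rw [gradient_reP_add, reP_add, add_mul, inner_add_left]
    have h3 : IntegrableOn (fun y => reP f y * v y) (frontier Ω) μH[1] :=
      D.int_frontier ((continuous_reP f).mul hv1.continuous)
    have h4 : IntegrableOn (fun y => reP g y * v y) (frontier Ω) μH[1] :=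
      D.int_frontier ((continuous_reP g).mul hv1.continuous)
    rw [integral_add (int_grad f hv1 D) (int_grad g hv1 D), integral_add h3 h4, h1, h2, mul_add]
  smul_mem' := by
    intro r f hf v hv1 hv2
    have h1 := hf v hv1 hv2
    simp_rw [gradient_reP_smul, reP_smul, mul_assoc, real_inner_smul_left]
    rw [integral_const_mul, integral_const_mul, h1]
    ring

theorem mem_eigS (D : Dom Ω) {σ : ℝ} {f : ℂ[X]} : f ∈ eigS D σ ↔ EigC Ω f σ := Iff.rfl

theorem energy_upper (D : Dom Ω) {M : ℝ} (hM : ∀ f σ, EigC Ω f σ → en Ω f f ≤ M * bdf Ω f f)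
    {q : ℂ[X]} (hq : q ∈ Submodule.span ℝ {f : ℂ[X] | ∃ σ, EigC Ω f σ}) :
    en Ω q q ≤ M * bdf Ω q q := by
  have h1 : {f : ℂ[X] | ∃ σ, EigC Ω f σ} = ⋃ σ, (eigS D σ : Set ℂ[X]) := by
    ext f
    simp only [Set.mem_ofPred_eq, mem_iUnion, SetLike.mem_coe, mem_eigS]
  rw [h1, ← Submodule.iSup_eq_span, Submodule.mem_iSup_iff_exists_finsupp] at hq
  obtain ⟨F, hF, hsum⟩ := hq
  have hen : ∀ (B : LinearMap.BilinForm ℝ ℂ[X]), (∀ i j, i ≠ j → B (F i) (F j) = 0) →
      B q q = ∑ i ∈ F.support, B (F i) (F i) := by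
    intro B hB
    rw [← hsum]
    simp only [Finsupp.sum, map_sum, LinearMap.sum_apply]
    apply Finset.sum_congr rfl
    intro i hi
    rw [Finset.sum_eq_single i]
    · intro j _ hj
      exact hB _ _ hj
    · intro h
      exact absurd hi h
  have e1 := hen (enB D) (fun i j hij => EigC.ortho_en D (hF i) (hF j) hij)
  have e2 := hen (bdB D) (fun i j hij => EigC.ortho D (hF i) (hF j) hij)
  simp only [enB_apply] at e1
  simp only [bdB_apply] at e2
  rw [e1, e2, Finset.mul_sum]
  exact Finset.sum_le_sum fun i _ => hM _ _ (hF i)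

end

end Pool.Agent.Lib.MP_9ebc94_an
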