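import Pool.Agent.Lib.MP_9ebc94_an.Alg

/-!
Galois descent and the degree one case.
-/

set_option linter.unusedSectionVars false

namespace Pool.Agent.Lib.MP_9ebc94_an

open WithZero Polynomial

section Abstract

variable {K L : Type*} [Field K] [Field L] [Algebra ℂ[X] K] [IsFractionRing ℂ[X] K]
  [Algebra K L] [Algebra ℂ[X] L] [IsScalarTower ℂ[X] K L] [Algebra ℂ L] [IsScalarTower ℂ ℂ[X] L]

theorem galois_aeval (g : L ≃ₐ[K] L) (w : L) (G : ℂ[X][X]) : g (aeval w G) = aeval (g w) G := by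
  rw [aeval_eq_map (K := K) w, aeval_eq_map (K := K) (g w)]
  exact (aeval_algHom_apply (g : L →ₐ[K] L) w _).symm

theorem galois_Tq (g : L ≃ₐ[K] L) (q : ℂ[X][X]) (s : ℂ[X] × ℝ) (w : L) :
    g (Tq q s w) = Tq q s (g w) := by
  rw [Tq, Tq, map_div₀, map_neg, map_mul, galois_aeval, galois_aeval, galois_aeval]

theorem galois_poly (g : L ≃ₐ[K] L) (a : ℂ[X]) : g (algebraMap ℂ[X] L a) = algebraMap ℂ[X] L a := by
  rw [IsScalarTower.algebraMap_apply ℂ[X] K L, g.commutes]

theorem galois_const (g : L ≃ₐ[K] L) (c : ℂ) : g (algebraMap ℂ L c) = algebraMap ℂ L c := by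
  have : algebraMap ℂ L c = algebraMap ℂ[X] L (C c) := by
    rw [algebraMap_eq_aeval, aeval_C]
  rw [this, galois_poly]

theorem fixed_of_shift [FiniteDimensional K L] (g : L ≃ₐ[K] L) (w : L) (c : ℂ)
    (h : g w = w + algebraMap ℂ L c) : c = 0 := by
  have h1 : ∀ m : ℕ, (g ^ m) w = w + m * algebraMap ℂ L c := by
    intro m
    induction m with
    | zero => simp
    | succ m ih =>
      rw [pow_succ', AlgEquiv.mul_apply, ih, map_add, map_mul, map_natCast, galois_const, h]
      push_cast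
      ring
  have h2 := h1 (orderOf g)
  rw [pow_orderOf_eq_one, AlgEquiv.one_apply] at h2
  have h3 : ((orderOf g : ℕ) : L) * algebraMap ℂ L c = 0 := by linear_combination -h2
  have h4 : (orderOf g : ℕ) ≠ 0 := (orderOf_pos g).ne'
  have : CharZero L := charZero_of_injective_algebraMap (algebraMap ℂ L).injective
  have h5 : ((orderOf g : ℕ) : L) ≠ 0 := by exact_mod_cast h4
  have h6 := (mul_eq_zero.1 h3).resolve_left h5
  exact (map_eq_zero (algebraMap ℂ L)).1 h6

theorem deg_one {q : ℂ[X][X]} (hirr : Irreducible (q.map (algebraMap ℂ[X] K))) {w : L}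
    (hw : aeval w q = 0) (hK : ∃ k : K, algebraMap K L k = w) : q.natDegree = 1 := by
  obtain ⟨k, rfl⟩ := hK
  rw [aeval_eq_map (K := K), aeval_algebraMap_apply] at hw
  have h1 : (q.map (algebraMap ℂ[X] K)).IsRoot k := by
    have h2 : (aeval k) (q.map (algebraMap ℂ[X] K)) = 0 := by
      simpa using hw
    rwa [coe_aeval_eq_eval] at h2
  have h3 := degree_eq_one_of_irreducible_of_root hirr h1
  rw [degree_map_eq_of_injective (IsFractionRing.injective ℂ[X] K)] at h3
  exact natDegree_eq_of_degree_eq_some h3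

theorem aeval_deg_one {q : ℂ[X][X]} (hq : q.natDegree = 1) (w : L) :
    aeval w q = algebraMap ℂ[X] L (q.coeff 1) * w + algebraMap ℂ[X] L (q.coeff 0) := by
  conv_lhs => rw [eq_X_add_C_of_natDegree_le_one hq.le]
  simp

variable {D : Derivation ℂ L L} {P : Place L D (algebraMap ℂ[X] L X)}

theorem v_poly {a : ℂ[X]} (ha : a ≠ 0) : P.v (algebraMap ℂ[X] L a) = exp (P.p * a.natDegree) := by
  rw [algebraMap_eq_aeval a, Place.v_aeval_eq_pow a ha, P.vz, ← exp_nsmul]
  · congr 1
    rw [nsmul_eq_mul, mul_comm]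
  · rw [P.vz, ← exp_zero, exp_lt_exp]
    exact P.hp

theorem poly_zero_of_lt {a : ℂ[X]} (h : P.v (algebraMap ℂ[X] L a) < 1) : a = 0 := by
  by_contra ha
  rw [v_poly ha, ← exp_zero, exp_lt_exp] at h
  have := P.hp
  have h1 : 0 ≤ P.p * (a.natDegree : ℤ) := by positivity
  omega

theorem poly_injective (P : Place L D (algebraMap ℂ[X] L X)) {a : ℂ[X]}
    (h : algebraMap ℂ[X] L a = 0) : a = 0 := by
  apply poly_zero_of_lt (P := P)
  rw [h, map_zero]
  exact zero_lt_one

/-- conclusion in type A when everything is rational -/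
theorem caseA_final {S : Set (ℂ[X] × ℝ)} {q : ℂ[X][X]} (hq : CurveData S q)
    (hirr : Irreducible (q.map (algebraMap ℂ[X] K))) {w T : L} (hR : RootData D S q w T) {ρ : ℂ}
    (hA : Place.IsA P S w T ρ) (hunb : ∀ N : ℕ, ∃ s ∈ S, N ≤ s.1.natDegree)
    (hK : ∃ k : K, algebraMap K L k = w) :
    ∃ c, NumA S ρ c ∧ q ∣ derivative q + C ((C (Complex.I * ρ) * (X - C c)) ^ 2) * dX q := by
  obtain ⟨c, hc⟩ := hA.num hunb
  refine ⟨c, hc, ?_⟩
  have hd := deg_one hirr hR.root hK
  set a1 := q.coeff 1 with ha1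
  set a0 := q.coeff 0 with ha0
  have hroot := hR.root
  rw [aeval_deg_one hd, ← ha1, ← ha0] at hroot
  have hder : derivative q = C a1 := by
    conv_lhs => rw [eq_X_add_C_of_natDegree_le_one hd.le]
    simp [ha1]
  have hdX : aeval w (dX q) = algebraMap ℂ[X] L (derivative a1) * w +
      algebraMap ℂ[X] L (derivative a0) := by
    have h1 := chain_rule D P.Dz w q
    rw [aeval_deg_one hd, map_add, Derivation.leibniz, D_algebraMap D P.Dz, D_algebraMap D P.Dz,
      hder, aeval_C, ← ha1, ← ha0] at h1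
    simp only [smul_eq_mul] at h1
    linear_combination -h1
  have hd1 : a1.natDegree ≤ 1 := (hq.degX 1).trans hd.le
  have hd0 : a0.natDegree ≤ 1 := (hq.degX 0).trans hd.le
  have e1 : a1 = C (a1.coeff 1) * X + C (a1.coeff 0) := eq_X_add_C_of_natDegree_le_one hd1
  have e0 : a0 = C (a0.coeff 1) * X + C (a0.coeff 0) := eq_X_add_C_of_natDegree_le_one hd0
  set α := a1.coeff 1
  set β := a1.coeff 0
  set γ := a0.coeff 1
  set δ := a0.coeff 0
  have ha10 : a1 ≠ 0 := by
    intro h0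
    have h1 : q.leadingCoeff = 0 := by rw [leadingCoeff, hd, ← ha1, h0]
    rw [leadingCoeff_eq_zero] at h1
    rw [h1] at hd
    simp at hd
  have ha10' : algebraMap ℂ[X] L a1 ≠ 0 := fun h => ha10 (poly_injective P h)
  have hder1 : derivative a1 = C α := by rw [e1]; simp
  have hder0 : derivative a0 = C γ := by rw [e0]; simp
  rw [hder1, hder0] at hdX
  have hquad := hR.quad
  rw [hder, aeval_C] at hquad
  -- multiply by a1
  have hk : algebraMap ℂ[X] L a1 * aeval w (dX q) = algebraMap ℂ[X] L (C (γ * β - α * δ)) := by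
    rw [hdX]
    have h1 : algebraMap ℂ[X] L a1 * (algebraMap ℂ[X] L (C α) * w + algebraMap ℂ[X] L (C γ)) =
        algebraMap ℂ[X] L (C α) * (algebraMap ℂ[X] L a1 * w + algebraMap ℂ[X] L a0) +
          algebraMap ℂ[X] L (C γ * a1 - C α * a0) := by
      rw [map_sub, map_mul, map_mul]; ring
    rw [h1, hroot, mul_zero, zero_add, e1, e0]
    congr 1
    simp only [C_mul, C_sub]
    ring
  have hT2 : T ^ 2 * algebraMap ℂ[X] L (C (γ * β - α * δ)) = -(algebraMap ℂ[X] L a1) ^ 2 := by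
    rw [← hk]
    linear_combination algebraMap ℂ[X] L a1 * hquad
  have hκ : γ * β - α * δ ≠ 0 := by
    intro h0
    rw [h0, C_0, map_zero, mul_zero] at hT2
    exact ha10' (pow_eq_zero_iff (two_ne_zero) |>.1 (neg_eq_zero.1 hT2.symm))
  obtain ⟨μ, hμ⟩ := IsAlgClosed.exists_pow_nat_eq (-(γ * β - α * δ)⁻¹) (n := 2) (by norm_num)
  have hT3 : T ^ 2 = (algebraMap ℂ[X] L (C μ * a1)) ^ 2 := by
    rw [map_mul, mul_pow, ← map_pow, ← C_pow, hμ]
    have h1 : algebraMap ℂ[X] L (C (γ * β - α * δ)) ≠ 0 := fun h =>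
      hκ (C_eq_zero.1 (poly_injective P h))
    apply mul_right_cancel₀ h1
    rw [hT2]
    have h2 : algebraMap ℂ[X] L (C (-(γ * β - α * δ)⁻¹)) *
        algebraMap ℂ[X] L (C (γ * β - α * δ)) = -1 := by
      rw [← map_mul, ← C_mul, neg_mul, inv_mul_cancel₀ hκ]
      simp
    linear_combination (-(algebraMap ℂ[X] L a1) ^ 2) * h2
  have hT4 : ∃ ν : ℂ, T = algebraMap ℂ[X] L (C ν * a1) := by
    rcases sq_eq_sq_iff_eq_or_eq_neg.1 hT3 with h | h
    · exact ⟨μ, h⟩
    · exact ⟨-μ, by rw [h, C_neg, neg_mul, map_neg]⟩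
  obtain ⟨ν, hν⟩ := hT4
  -- T is the expected linear polynomial
  have hTlin : T = algebraMap ℂ[X] L (C (Complex.I * ρ) * (X - C c)) := by
    obtain ⟨s, hs, hn⟩ := hunb 2
    have h1 := hA.cen s hs hn
    rw [hc.cen s hs hn] at h1
    have h2 : T - algebraMap ℂ L (Complex.I * ρ) * (algebraMap ℂ[X] L X - algebraMap ℂ L c) =
        algebraMap ℂ[X] L (C ν * a1 - C (Complex.I * ρ) * (X - C c)) := by
      rw [hν]
      simp only [map_sub, map_mul]
      rw [algebraMap_eq_aeval (C (Complex.I : ℂ)), algebraMap_eq_aeval (C ρ),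
        algebraMap_eq_aeval (C c), aeval_C, aeval_C, aeval_C]
    rw [h2] at h1
    have h3 := poly_zero_of_lt h1
    rw [hν, sub_eq_zero.1 h3]
  apply dvd_of_aeval (K := K) hq.prim hirr hR.root
  rw [map_add, map_mul, aeval_C, map_pow, ← hTlin]
  linear_combination hR.quad

/-- conclusion in type B when everything is rational -/
theorem caseB_final {S : Set (ℂ[X] × ℝ)} {q : ℂ[X][X]} (hq : CurveData S q)
    (hirr : Irreducible (q.map (algebraMap ℂ[X] K))) {w T : L} (hR : RootData D S q w T) {t W : ℂ}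
    (hB : Place.IsB P S w T t W) (hK : ∃ k : K, algebraMap K L k = w) :
    q ∣ X - C (C (t ^ 2)⁻¹ * X + C W) := by
  have hd := deg_one hirr hR.root hK
  set a1 := q.coeff 1 with ha1
  set a0 := q.coeff 0 with ha0
  have hroot := hR.root
  rw [aeval_deg_one hd, ← ha1, ← ha0] at hroot
  have hd1 : a1.natDegree ≤ 1 := (hq.degX 1).trans hd.le
  have hd0 : a0.natDegree ≤ 1 := (hq.degX 0).trans hd.le
  have ha10 : a1 ≠ 0 := by
    intro h0
    have h1 : q.leadingCoeff = 0 := by rw [leadingCoeff, hd, ← ha1, h0]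
    rw [leadingCoeff_eq_zero] at h1
    rw [h1] at hd
    simp at hd
  have hw0 : w ≠ 0 := by
    rintro rfl
    have := hB.vw
    rw [map_zero] at this
    exact exp_ne_zero this.symm
  have ha10' : algebraMap ℂ[X] L a1 ≠ 0 := fun h => ha10 (poly_injective P h)
  have ha00 : a0 ≠ 0 := by
    intro h0
    rw [h0, map_zero, add_zero] at hroot
    exact (mul_ne_zero ha10' hw0) hroot
  have h1 : algebraMap ℂ[X] L a1 * w = -algebraMap ℂ[X] L a0 := by linear_combination hroot
  have h2 := congrArg P.v h1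
  rw [map_mul, Valuation.map_neg, v_poly ha10, v_poly ha00, hB.vw, ← exp_add, exp_inj] at h2
  have h3 : (a1.natDegree : ℤ) + 1 = a0.natDegree := by
    have := P.hp
    have h4 : P.p * ((a1.natDegree : ℤ) + 1) = P.p * a0.natDegree := by linarith
    exact mul_left_cancel₀ this.ne' h4
  have h4 : a1.natDegree = 0 := by omega
  obtain ⟨κ, hκ⟩ := natDegree_eq_zero.1 h4
  have hκ0 : κ ≠ 0 := by
    rintro rfl
    apply ha10
    rw [← hκ, C_0]
  have hw : w = algebraMap ℂ[X] L (-(C κ⁻¹ * a0)) := by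
    have h5 : algebraMap ℂ[X] L (C κ) ≠ 0 := by rw [hκ]; exact ha10'
    apply mul_left_cancel₀ h5
    rw [← map_mul]
    have h6 : C κ * -(C κ⁻¹ * a0) = -a0 := by
      rw [mul_neg, ← mul_assoc, ← C_mul, mul_inv_cancel₀ hκ0, C_1, one_mul]
    rw [h6, hκ, h1, map_neg]
  have h5 := hB.leadw
  unfold Place.Lead at h5
  have h6 : w - algebraMap ℂ L (t ^ 2)⁻¹ * algebraMap ℂ[X] L X -
      algebraMap ℂ L W * (algebraMap ℂ[X] L X) ^ (0 : ℤ) =
      algebraMap ℂ[X] L (-(C κ⁻¹ * a0) - (C (t ^ 2)⁻¹ * X + C W)) := by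
    rw [map_sub, ← hw, map_add, map_mul, algebraMap_eq_aeval (C (t ^ 2)⁻¹),
      algebraMap_eq_aeval (C W), aeval_C, aeval_C]
    simp only [zpow_zero, mul_one]
    ring
  rw [h6, mul_zero, exp_zero] at h5
  have h7 := poly_zero_of_lt h5
  apply dvd_of_aeval (K := K) hq.prim hirr hR.root
  rw [map_sub, aeval_X, aeval_C, ← sub_eq_zero.1 h7, ← hw, sub_self]

end Abstract

end Pool.Agent.Lib.MP_9ebc94_an
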