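import Mathlib

/-!
Integration by parts above a graph.
-/

namespace Pool.Agent.Lib.MP_9ebc94_an

open MeasureTheory Set Filter

/-- cut-off data -/
structure Cut (φ φ' χ χ' : ℝ → ℝ) (t0 s0 δ h : ℝ) : Prop where
  φd : ∀ t, HasDerivAt φ (φ' t) t
  φc : Continuous φ'
  χd : ∀ s, HasDerivAt χ (χ' s) s
  χc : Continuous χ'
  φ0 : ∀ t, δ ≤ |t - t0| → φ t = 0 ∧ φ' t = 0
  χ1 : ∀ s, |s - s0| ≤ h → χ s = 1 ∧ χ' s = 0
  χ0 : ∀ s, 2 * h ≤ |s - s0| → χ s = 0 ∧ χ' s = 0

theorem hasCompactSupport_of_box {G : ℝ × ℝ → ℝ} {t0 s0 δ h : ℝ}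
    (h1 : ∀ p : ℝ × ℝ, δ ≤ |p.1 - t0| → G p = 0) (h2 : ∀ p : ℝ × ℝ, h ≤ |p.2 - s0| → G p = 0) :
    HasCompactSupport G := by
  apply HasCompactSupport.intro ((isCompact_Icc (a := t0 - δ) (b := t0 + δ)).prod
    (isCompact_Icc (a := s0 - h) (b := s0 + h)))
  rintro ⟨t, s⟩ hts
  by_contra hne
  apply hts
  constructor
  · have h3 : |t - t0| < δ := by
      by_contra hcon
      exact hne (h1 (t, s) (not_lt.1 hcon))
    rw [abs_lt] at h3
    exact ⟨by simp only; linarith, by simp only; linarith⟩
  · have h3 : |s - s0| < h := by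
      by_contra hcon
      exact hne (h2 (t, s) (not_lt.1 hcon))
    rw [abs_lt] at h3
    exact ⟨by simp only; linarith, by simp only; linarith⟩

theorem green {F Ft Fs : ℝ → ℝ → ℝ} (hFt : ∀ t s, HasDerivAt (fun t => F t s) (Ft t s) t)
    (hFs : ∀ t s, HasDerivAt (fun s => F t s) (Fs t s) s)
    (hFc : Continuous fun p : ℝ × ℝ => F p.1 p.2)
    (hFtc : Continuous fun p : ℝ × ℝ => Ft p.1 p.2)
    (hFsc : Continuous fun p : ℝ × ℝ => Fs p.1 p.2)
    {g : ℝ → ℝ} (hg : Continuous g) {φ φ' χ χ' : ℝ → ℝ} {t0 s0 δ h : ℝ} (hh : 0 < h)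
    (hcut : Cut φ φ' χ χ' t0 s0 δ h) (hgb : ∀ t, |t - t0| < δ → |g t - s0| < h) :
    ∫ p : ℝ × ℝ, ({p : ℝ × ℝ | g p.1 < p.2}.indicator
      (fun p => Fs p.1 p.2 * φ' p.1 * χ p.2 - Ft p.1 p.2 * φ p.1 * χ' p.2) p) =
      - ∫ t, φ' t * F t (g t) := by
  have hφcont : Continuous φ := continuous_iff_continuousAt.2 fun t => (hcut.φd t).continuousAt
  have hχcont : Continuous χ := continuous_iff_continuousAt.2 fun t => (hcut.χd t).continuousAt
  have hφ'c := hcut.φc
  have hχ'c := hcut.χc
  set G1 : ℝ × ℝ → ℝ := fun p => Fs p.1 p.2 * φ' p.1 * χ p.2 + F p.1 p.2 * φ' p.1 * χ' p.2 with hG1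
  set G2 : ℝ × ℝ → ℝ := fun p => Ft p.1 p.2 * φ p.1 * χ' p.2 + F p.1 p.2 * φ' p.1 * χ' p.2 with hG2
  have hG1c : Continuous G1 := by
    rw [hG1]
    exact ((hFsc.mul (hφ'c.comp continuous_fst)).mul (hχcont.comp continuous_snd)).add
      ((hFc.mul (hφ'c.comp continuous_fst)).mul (hχ'c.comp continuous_snd))
  have hG2c : Continuous G2 := by
    rw [hG2]
    exact ((hFtc.mul (hφcont.comp continuous_fst)).mul (hχ'c.comp continuous_snd)).add
      ((hFc.mul (hφ'c.comp continuous_fst)).mul (hχ'c.comp continuous_snd))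
  have hG1s : HasCompactSupport G1 := by
    apply hasCompactSupport_of_box (t0 := t0) (s0 := s0) (δ := δ) (h := 2 * h)
    · intro p hp
      simp [hG1, (hcut.φ0 p.1 hp).2]
    · intro p hp
      simp [hG1, (hcut.χ0 p.2 hp).1, (hcut.χ0 p.2 hp).2]
  have hG2s : HasCompactSupport G2 := by
    apply hasCompactSupport_of_box (t0 := t0) (s0 := s0) (δ := δ) (h := 2 * h)
    · intro p hp
      simp [hG2, (hcut.φ0 p.1 hp).1, (hcut.φ0 p.1 hp).2]
    · intro p hp
      simp [hG2, (hcut.χ0 p.2 hp).2]
  have hG1i : Integrable G1 := hG1c.integrable_of_hasCompactSupport hG1s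
  have hG2i : Integrable G2 := hG2c.integrable_of_hasCompactSupport hG2s
  have hUo : IsOpen {p : ℝ × ℝ | g p.1 < p.2} :=
    isOpen_lt (hg.comp continuous_fst) continuous_snd
  have hUm : MeasurableSet {p : ℝ × ℝ | g p.1 < p.2} := hUo.measurableSet
  have hsplit : ∀ p : ℝ × ℝ, ({p : ℝ × ℝ | g p.1 < p.2}.indicator
      (fun p => Fs p.1 p.2 * φ' p.1 * χ p.2 - Ft p.1 p.2 * φ p.1 * χ' p.2) p) =
      {p : ℝ × ℝ | g p.1 < p.2}.indicator G1 p - {p : ℝ × ℝ | g p.1 < p.2}.indicator G2 p := by
    intro p
    by_cases hp : p ∈ {p : ℝ × ℝ | g p.1 < p.2}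
    · rw [indicator_of_mem hp, indicator_of_mem hp, indicator_of_mem hp]
      simp only [hG1, hG2]
      ring
    · rw [indicator_of_notMem hp, indicator_of_notMem hp, indicator_of_notMem hp, sub_zero]
  simp_rw [hsplit]
  rw [integral_sub (hG1i.indicator hUm) (hG2i.indicator hUm)]
  have e2 : ∫ p : ℝ × ℝ, {p : ℝ × ℝ | g p.1 < p.2}.indicator G2 p = 0 := by
    have h1 : ∀ p : ℝ × ℝ, {p : ℝ × ℝ | g p.1 < p.2}.indicator G2 p =
        {p : ℝ × ℝ | s0 < p.2}.indicator G2 p := by
      rintro ⟨t, s⟩
      by_cases hz : G2 (t, s) = 0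
      · simp only [indicator, hz, ite_self]
      · have ht : |t - t0| < δ := by
          by_contra hcon
          apply hz
          have := hcut.φ0 t (not_lt.1 hcon)
          simp [hG2, this.1, this.2]
        have hs : h < |s - s0| := by
          by_contra hcon
          apply hz
          have := hcut.χ1 s (not_lt.1 hcon)
          simp [hG2, this.2]
        have hgt := abs_lt.1 (hgb t ht)
        have hiff : g t < s ↔ s0 < s := by
          rcases lt_abs.1 hs with h3 | h3
          · constructor
            · intro _; linarith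
            · intro _; linarith [hgt.2]
          · constructor
            · intro h4; linarith [hgt.1]
            · intro h4; linarith
        simp only [indicator, Set.mem_ofPred_eq, hiff]
    simp_rw [h1]
    have hVm : MeasurableSet {p : ℝ × ℝ | s0 < p.2} :=
      (isOpen_lt continuous_const continuous_snd).measurableSet
    rw [Measure.volume_eq_prod, integral_prod_symm _ (hG2i.indicator hVm)]
    have h2 : ∀ s : ℝ, ∫ t : ℝ, {p : ℝ × ℝ | s0 < p.2}.indicator G2 (t, s) = 0 := by
      intro s
      by_cases hs : s0 < s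
      · have h3 : ∀ t, {p : ℝ × ℝ | s0 < p.2}.indicator G2 (t, s) = G2 (t, s) := by
          intro t
          exact indicator_of_mem (by exact hs) _
        simp_rw [h3]
        have hder : ∀ t, HasDerivAt (fun t => F t s * φ t * χ' s) (G2 (t, s)) t := by
          intro t
          have h4 := ((hFt t s).mul (hcut.φd t)).mul_const (χ' s)
          refine h4.congr_deriv ?_
          simp only [hG2]
          ring
        have hev : ∀ t, δ ≤ |t - t0| → F t s * φ t * χ' s = 0 := by
          intro t ht
          simp [(hcut.φ0 t ht).1]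
        have hbot : Tendsto (fun t => F t s * φ t * χ' s) atBot (nhds 0) := by
          apply tendsto_const_nhds.congr'
          filter_upwards [eventually_le_atBot (t0 - |δ|)] with t ht
          refine (hev t ?_).symm
          rw [abs_of_nonpos (by linarith [abs_nonneg δ])]
          linarith [le_abs_self δ]
        have htop : Tendsto (fun t => F t s * φ t * χ' s) atTop (nhds 0) := by
          apply tendsto_const_nhds.congr'
          filter_upwards [eventually_ge_atTop (t0 + |δ|)] with t ht
          refine (hev t ?_).symm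
          rw [abs_of_nonneg (by linarith [abs_nonneg δ])]
          linarith [le_abs_self δ]
        have hint : Integrable fun t => G2 (t, s) := by
          apply Continuous.integrable_of_hasCompactSupport
          · exact hG2c.comp (by fun_prop)
          · apply HasCompactSupport.intro (isCompact_Icc (a := t0 - δ) (b := t0 + δ))
            intro t ht
            have : δ ≤ |t - t0| := by
              by_contra hcon
              apply ht
              rw [not_le, abs_lt] at hcon
              exact ⟨by linarith, by linarith⟩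
            simp [hG2, (hcut.φ0 t this).1, (hcut.φ0 t this).2]
        rw [integral_of_hasDerivAt_of_tendsto hder hint hbot htop, sub_zero]
      · have h3 : ∀ t, {p : ℝ × ℝ | s0 < p.2}.indicator G2 (t, s) = 0 := by
          intro t
          exact indicator_of_notMem (by exact hs) _
        simp_rw [h3]
        exact integral_zero _ _
    simp_rw [h2]
    exact integral_zero _ _
  have e1 : ∫ p : ℝ × ℝ, {p : ℝ × ℝ | g p.1 < p.2}.indicator G1 p = - ∫ t, φ' t * F t (g t) := by
    rw [Measure.volume_eq_prod, integral_prod _ (hG1i.indicator hUm), ← integral_neg]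
    congr 1
    ext t
    have h3 : ∀ s, {p : ℝ × ℝ | g p.1 < p.2}.indicator G1 (t, s) =
        (Ioi (g t)).indicator (fun s => G1 (t, s)) s := by
      intro s
      simp only [indicator, Set.mem_ofPred_eq, mem_Ioi]
    simp_rw [h3]
    rw [integral_indicator measurableSet_Ioi]
    have hder : ∀ s, HasDerivAt (fun s => F t s * φ' t * χ s) (G1 (t, s)) s := by
      intro s
      have h4 := ((hFs t s).mul_const (φ' t)).mul (hcut.χd s)
      refine h4.congr_deriv ?_
      simp only [hG1]
    have htop : Tendsto (fun s => F t s * φ' t * χ s) atTop (nhds 0) := by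
      apply tendsto_const_nhds.congr'
      filter_upwards [eventually_ge_atTop (s0 + 2 * h)] with s hs
      have : 2 * h ≤ |s - s0| := by
        rw [abs_of_nonneg (by linarith)]
        linarith
      simp [(hcut.χ0 s this).1]
    have hint : Integrable fun s => G1 (t, s) := by
      apply Continuous.integrable_of_hasCompactSupport
      · exact hG1c.comp (by fun_prop)
      · apply HasCompactSupport.intro (isCompact_Icc (a := s0 - 2 * h) (b := s0 + 2 * h))
        intro s hs
        have : 2 * h ≤ |s - s0| := by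
          by_contra hcon
          apply hs
          rw [not_le, abs_lt] at hcon
          exact ⟨by linarith, by linarith⟩
        simp [hG1, (hcut.χ0 s this).1, (hcut.χ0 s this).2]
    rw [integral_Ioi_of_hasDerivAt_of_tendsto (hder _).continuousAt.continuousWithinAt
      (fun s _ => hder s) hint.integrableOn htop, zero_sub]
    congr 1
    by_cases ht : |t - t0| < δ
    · rw [(hcut.χ1 (g t) (hgb t ht).le).1]
      ring
    · rw [(hcut.φ0 t (not_lt.1 ht)).2]
      ring
  rw [e1, e2, sub_zero]

end Pool.Agent.Lib.MP_9ebc94_an
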