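import Pool.Agent.Lib.MP_9ebc94_an.Topo

/-!
Polynomial eigenfunctions are real parts of complex polynomials.
-/

namespace Pool.Agent.Lib.MP_9ebc94_an

open MeasureTheory Set Filter Metric Polynomial
open scoped NNReal ENNReal ContDiff ComplexConjugate

theorem pderiv_comm01 (P : MvPolynomial (Fin 2) ℝ) :
    MvPolynomial.pderiv 0 (MvPolynomial.pderiv 1 P) =
      MvPolynomial.pderiv 1 (MvPolynomial.pderiv 0 P) := by
  have h : ⁅(MvPolynomial.pderiv 0 : Derivation ℝ (MvPolynomial (Fin 2) ℝ) (MvPolynomial (Fin 2) ℝ)),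
      (MvPolynomial.pderiv 1 : Derivation ℝ (MvPolynomial (Fin 2) ℝ) (MvPolynomial (Fin 2) ℝ))⁆ =
      0 := by
    apply MvPolynomial.derivation_ext
    intro i
    rw [Derivation.commutator_apply]
    fin_cases i <;> simp [MvPolynomial.pderiv_X]
  have h1 := congrArg (fun D => D P) h
  simp only [Derivation.commutator_apply, Derivation.coe_zero, Pi.zero_apply] at h1
  exact sub_eq_zero.1 h1

theorem hasDerivAt_aeval (P : MvPolynomial (Fin 2) ℝ) {a b : ℂ → ℂ} {a' b' z : ℂ}
    (ha : HasDerivAt a a' z) (hb : HasDerivAt b b' z) :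
    HasDerivAt (fun z => MvPolynomial.aeval ![a z, b z] P)
      (MvPolynomial.aeval ![a z, b z] (MvPolynomial.pderiv 0 P) * a' +
        MvPolynomial.aeval ![a z, b z] (MvPolynomial.pderiv 1 P) * b') z := by
  induction P using MvPolynomial.induction_on with
  | C r =>
    simp only [MvPolynomial.aeval_C, MvPolynomial.pderiv_C, map_zero, zero_mul, add_zero]
    exact hasDerivAt_const _ _
  | add p q hp hq =>
    simp only [map_add]
    refine (hp.add hq).congr_deriv ?_
    ring
  | mul_X p i hp =>
    have hX : HasDerivAt (fun z => ![a z, b z] i)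
        (MvPolynomial.aeval ![a z, b z]
          (MvPolynomial.pderiv 0 (MvPolynomial.X i : MvPolynomial (Fin 2) ℝ)) * a' +
        MvPolynomial.aeval ![a z, b z]
          (MvPolynomial.pderiv 1 (MvPolynomial.X i : MvPolynomial (Fin 2) ℝ)) * b') z := by
      fin_cases i
      · simpa [MvPolynomial.pderiv_X, Pi.single_apply] using ha
      · simpa [MvPolynomial.pderiv_X, Pi.single_apply] using hb
    simp only [map_mul, MvPolynomial.aeval_X, Derivation.leibniz, smul_eq_mul, map_add]
    refine (hp.mul hX).congr_deriv ?_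
    ring

/-- holomorphic extension -/
noncomputable def ext2 (P : MvPolynomial (Fin 2) ℝ) (z w : ℂ) : ℂ :=
  MvPolynomial.aeval ![(z + w) / 2, (z - w) / (2 * Complex.I)] P

theorem ext2_dz (P : MvPolynomial (Fin 2) ℝ) (z w : ℂ) :
    HasDerivAt (fun z => ext2 P z w) (ext2 (MvPolynomial.pderiv 0 P) z w / 2 +
      ext2 (MvPolynomial.pderiv 1 P) z w / (2 * Complex.I)) z := by
  have h1 : HasDerivAt (fun z : ℂ => (z + w) / 2) (1 / 2) z :=
    ((hasDerivAt_id z).add_const w).div_const 2
  have h2 : HasDerivAt (fun z : ℂ => (z - w) / (2 * Complex.I)) (1 / (2 * Complex.I)) z :=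
    ((hasDerivAt_id z).sub_const w).div_const (2 * Complex.I)
  refine (hasDerivAt_aeval P h1 h2).congr_deriv ?_
  simp only [ext2]
  ring

theorem ext2_dw (P : MvPolynomial (Fin 2) ℝ) (z w : ℂ) :
    HasDerivAt (fun w => ext2 P z w) (ext2 (MvPolynomial.pderiv 0 P) z w / 2 -
      ext2 (MvPolynomial.pderiv 1 P) z w / (2 * Complex.I)) w := by
  have h1 : HasDerivAt (fun w : ℂ => (z + w) / 2) (1 / 2) w :=
    ((hasDerivAt_id w).const_add z).div_const 2
  have h2 : HasDerivAt (fun w : ℂ => (z - w) / (2 * Complex.I)) (-1 / (2 * Complex.I)) w :=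
    ((hasDerivAt_id w).const_sub z).div_const (2 * Complex.I)
  refine (hasDerivAt_aeval P h1 h2).congr_deriv ?_
  simp only [ext2]
  ring

theorem ext2_split (P : MvPolynomial (Fin 2) ℝ)
    (hP : MvPolynomial.pderiv 0 (MvPolynomial.pderiv 0 P) +
      MvPolynomial.pderiv 1 (MvPolynomial.pderiv 1 P) = 0) (z w : ℂ) :
    ext2 P z w = ext2 P z 0 + ext2 P 0 w - ext2 P 0 0 := by
  set G : ℂ → ℂ → ℂ := fun z w => ext2 (MvPolynomial.pderiv 0 P) z w / 2 -
      ext2 (MvPolynomial.pderiv 1 P) z w / (2 * Complex.I) with hG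
  have hI : Complex.I * Complex.I = -1 := Complex.I_mul_I
  have hGz : ∀ z w, HasDerivAt (fun z => G z w) 0 z := by
    intro z w
    have h1 := ((ext2_dz (MvPolynomial.pderiv 0 P) z w).div_const 2).sub
      ((ext2_dz (MvPolynomial.pderiv 1 P) z w).div_const (2 * Complex.I))
    refine h1.congr_deriv ?_
    have h2 : ext2 (MvPolynomial.pderiv 0 (MvPolynomial.pderiv 0 P)) z w +
        ext2 (MvPolynomial.pderiv 1 (MvPolynomial.pderiv 1 P)) z w = 0 := by
      unfold ext2
      rw [← map_add, hP, map_zero]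
    rw [pderiv_comm01]
    have e : (1 : ℂ) / (2 * Complex.I) * (1 / (2 * Complex.I)) = -1 / 4 := by
      have hI0 := Complex.I_ne_zero
      field_simp
      rw [Complex.I_sq]
      norm_num
    linear_combination (1 / 4) * h2 -
      ext2 (MvPolynomial.pderiv 1 (MvPolynomial.pderiv 1 P)) z w * e
  have hGc : ∀ z w, G z w = G 0 w := by
    intro z w
    exact is_const_of_deriv_eq_zero (fun z => (hGz z w).differentiableAt)
      (fun z => (hGz z w).deriv) z 0
  have hHw : ∀ w, HasDerivAt (fun w => ext2 P z w - ext2 P 0 w) 0 w := by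
    intro w
    refine ((ext2_dw P z w).sub (ext2_dw P 0 w)).congr_deriv ?_
    have := hGc z w
    simp only [hG] at this
    rw [this, sub_self]
  have h3 := is_const_of_deriv_eq_zero (fun w => (hHw w).differentiableAt)
      (fun w => (hHw w).deriv) w 0
  linear_combination h3

/-- the evaluation of a real polynomial on the plane -/
noncomputable def evP (P : MvPolynomial (Fin 2) ℝ) (y : E2) : ℝ :=
  MvPolynomial.eval (fun i => y i) P

theorem ext2_conj (P : MvPolynomial (Fin 2) ℝ) (z w : ℂ) :
    conj (ext2 P z w) = ext2 P (conj w) (conj z) := by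
  unfold ext2
  induction P using MvPolynomial.induction_on with
  | C r => simp
  | add p q hp hq => simp only [map_add, hp, hq]
  | mul_X p i hp =>
    simp only [map_mul, hp, MvPolynomial.aeval_X]
    congr 1
    have h2 : conj (2 : ℂ) = 2 := map_ofNat _ _
    fin_cases i
    · simp [h2]
      ring
    · simp [h2]
      ring

theorem evP_eq (P : MvPolynomial (Fin 2) ℝ) (y : E2) :
    (evP P y : ℂ) = ext2 P (toC y) (conj (toC y)) := by
  unfold ext2 evP
  have h0 : (toC y + conj (toC y)) / 2 = (y 0 : ℂ) := by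
    rw [Complex.add_conj, toC_re]
    push_cast
    ring
  have h1 : (toC y - conj (toC y)) / (2 * Complex.I) = (y 1 : ℂ) := by
    rw [Complex.sub_conj, toC_im]
    have := Complex.I_ne_zero
    push_cast
    field_simp
  rw [h0, h1]
  induction P using MvPolynomial.induction_on with
  | C r => simp
  | add p q hp hq => simp only [map_add, Complex.ofReal_add, hp, hq]
  | mul_X p i hp =>
    simp only [map_mul, MvPolynomial.aeval_X, MvPolynomial.eval_X, Complex.ofReal_mul, hp]
    congr 1
    fin_cases i <;> simp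

theorem exists_poly (P : MvPolynomial (Fin 2) ℝ)
    (hP : MvPolynomial.pderiv 0 (MvPolynomial.pderiv 0 P) +
      MvPolynomial.pderiv 1 (MvPolynomial.pderiv 1 P) = 0) :
    ∃ f : ℂ[X], ∀ y, evP P y = reP f y := by
  set A : ℂ[X] := MvPolynomial.aeval ![C (1 / 2) * X, C (1 / (2 * Complex.I)) * X] P with hA
  have hAz : ∀ z : ℂ, A.eval z = ext2 P z 0 := by
    intro z
    rw [hA]
    unfold ext2
    rw [add_zero, sub_zero]
    clear_value A
    clear hA hP
    induction P using MvPolynomial.induction_on with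
    | C r =>
      simp only [MvPolynomial.aeval_C]
      rw [Polynomial.algebraMap_apply]
      simp
    | add p q hp hq => simp only [map_add, eval_add, hp, hq]
    | mul_X p i hp =>
      simp only [map_mul, MvPolynomial.aeval_X, eval_mul, hp]
      congr 1
      fin_cases i
      · change eval z (C (1 / 2) * X) = z / 2
        rw [eval_mul, eval_C, eval_X]
        ring
      · change eval z (C (1 / (2 * Complex.I)) * X) = z / (2 * Complex.I)
        rw [eval_mul, eval_C, eval_X]
        ring
  refine ⟨2 * A - C (ext2 P 0 0), ?_⟩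
  intro y
  have h1 := evP_eq P y
  rw [ext2_split P hP] at h1
  have h2 : ext2 P 0 (conj (toC y)) = conj (ext2 P (toC y) 0) := by
    rw [ext2_conj, map_zero]
  rw [h2] at h1
  have h3 := congrArg Complex.re h1
  rw [Complex.ofReal_re] at h3
  rw [h3]
  unfold reP
  rw [eval_sub, eval_mul, eval_C, hAz]
  simp
  ring

end Pool.Agent.Lib.MP_9ebc94_an
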