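import Pool.Agent.Lib.MP_9ebc94_an.Form

/-!
Energy needed for a jump on the boundary curve.
-/

namespace Pool.Agent.Lib.MP_9ebc94_an

open MeasureTheory Set Filter Metric Polynomial
open scoped NNReal ENNReal ContDiff

/-- a cut-off of width `ε` around `a`, equal to `1` on `|s-a| ≤ h0 ε`, zero beyond `2 h0 ε` -/
theorem exists_scaled {h0 : ℝ} (hh0 : 0 < h0) : ∃ D : ℝ, 0 < D ∧ ∀ a ε : ℝ, 0 < ε →
    ∃ χ : ℝ → ℝ, ContDiff ℝ ∞ χ ∧ (∀ s, 0 ≤ χ s ∧ χ s ≤ 1) ∧ (∀ s, |deriv χ s| ≤ D / ε) ∧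
    (∀ s, |s - a| ≤ h0 * ε → χ s = 1 ∧ deriv χ s = 0) ∧
    (∀ s, 2 * (h0 * ε) ≤ |s - a| → χ s = 0 ∧ deriv χ s = 0) := by
  let b : ContDiffBump (0 : ℝ) := ⟨h0, 2 * h0, hh0, by linarith⟩
  have hbC : ContDiff ℝ ∞ (b : ℝ → ℝ) := b.contDiff
  have hbc : Continuous (deriv (b : ℝ → ℝ)) := hbC.continuous_deriv (by simp)
  obtain ⟨D, hD⟩ := (b.hasCompactSupport.deriv).exists_bound_of_continuous hbc
  refine ⟨max D 1, by positivity, ?_⟩
  intro a ε hε
  have hder : ∀ s, HasDerivAt (fun s => b ((s - a) / ε)) (deriv b ((s - a) / ε) / ε) s := by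
    intro s
    have h1 : HasDerivAt (fun s => (s - a) / ε) (1 / ε) s :=
      ((hasDerivAt_id s).sub_const a).div_const ε
    have h2 : HasDerivAt b (deriv b ((s - a) / ε)) ((s - a) / ε) :=
      (hbC.differentiable (by simp) _).hasDerivAt
    have h3 := h2.comp s h1
    refine h3.congr_deriv ?_
    ring
  refine ⟨fun s => b ((s - a) / ε), ?_, ?_, ?_, ?_, ?_⟩
  · exact b.contDiff.comp ((contDiff_id.sub contDiff_const).div_const ε)
  · intro s
    exact ⟨b.nonneg, b.le_one⟩
  · intro s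
    rw [(hder s).deriv, abs_div, abs_of_pos hε]
    gcongr
    exact (hD _).trans (le_max_left _ _)
  · intro s hs
    have h1 : |(s - a) / ε| ≤ h0 := by
      rw [abs_div, abs_of_pos hε, div_le_iff₀ hε]
      exact hs
    have h2 : b ((s - a) / ε) = 1 := b.one_of_mem_closedBall (by
      rwa [mem_closedBall, Real.dist_eq, sub_zero])
    refine ⟨h2, ?_⟩
    rw [(hder s).deriv]
    have h3 : deriv b ((s - a) / ε) = 0 := by
      apply IsLocalMax.deriv_eq_zero
      filter_upwards with x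
      rw [h2]
      exact b.le_one
    rw [h3, zero_div]
  · intro s hs
    have h1 : 2 * h0 ≤ |(s - a) / ε| := by
      rw [abs_div, abs_of_pos hε, le_div_iff₀ hε]
      linarith
    have h2 : b ((s - a) / ε) = 0 := b.zero_of_le_dist (by
      rw [Real.dist_eq, sub_zero]; exact h1)
    refine ⟨h2, ?_⟩
    rw [(hder s).deriv]
    have h3 : deriv b ((s - a) / ε) = 0 := by
      apply IsLocalMin.deriv_eq_zero
      filter_upwards with x
      rw [h2]
      exact b.nonneg
    rw [h3, zero_div]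

/-- the part of the box above the graph -/
def hbox (g : ℝ → ℝ) (t1 ε w : ℝ) : Set (ℝ × ℝ) :=
  {p | |p.1 - t1| < ε ∧ |p.2 - g t1| < w ∧ g p.1 < p.2}

theorem hbox_open {g : ℝ → ℝ} (hg : Continuous g) (t1 ε w : ℝ) : IsOpen (hbox g t1 ε w) := by
  have h1 : hbox g t1 ε w = {p | |p.1 - t1| < ε} ∩ ({p | |p.2 - g t1| < w} ∩
    {p | g p.1 < p.2}) := rfl
  rw [h1]
  exact (isOpen_lt (by fun_prop) continuous_const).inter
    ((isOpen_lt (by fun_prop) continuous_const).inter
    (isOpen_lt (hg.comp continuous_fst) continuous_snd))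

theorem hbox_vol (g : ℝ → ℝ) (t1 : ℝ) {ε w : ℝ} (hε : 0 < ε) :
    volume (hbox g t1 ε w) ≤ ENNReal.ofReal (4 * ε * w) := by
  have h1 : hbox g t1 ε w ⊆ Ioo (t1 - ε) (t1 + ε) ×ˢ Ioo (g t1 - w) (g t1 + w) := by
    rintro p ⟨h1, h2, -⟩
    exact ⟨Chart.abs_sub_lt_iff_Ioo.1 h1, Chart.abs_sub_lt_iff_Ioo.1 h2⟩
  refine (measure_mono h1).trans ?_
  rw [Measure.volume_eq_prod, Measure.prod_prod, Real.volume_Ioo, Real.volume_Ioo,
    ← ENNReal.ofReal_mul (by linarith)]
  apply ENNReal.ofReal_le_ofReal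
  ring_nf
  rfl

theorem jump (K : ℝ≥0) : ∃ κ : ℝ, 0 < κ ∧ ∀ (F Ft Fs : ℝ → ℝ → ℝ),
    (∀ t s, HasDerivAt (fun t => F t s) (Ft t s) t) →
    (∀ t s, HasDerivAt (fun s => F t s) (Fs t s) s) →
    (Continuous fun p : ℝ × ℝ => F p.1 p.2) → (Continuous fun p : ℝ × ℝ => Ft p.1 p.2) →
    (Continuous fun p : ℝ × ℝ => Fs p.1 p.2) → ∀ (g : ℝ → ℝ), LipschitzWith K g →
    ∀ t1 ε : ℝ, 0 < ε →
    ∫ t in Ioo (t1 - ε) (t1 + ε), (F t (g t) - (Iic t1).indicator 1 t) ^ 2 ≤ κ * ε →
    κ ≤ ∫ p in hbox g t1 ε (2 * ((K + 1) * ε)), ((Fs p.1 p.2) ^ 2 + (Ft p.1 p.2) ^ 2) := by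
  obtain ⟨D1, hD1, hφ⟩ := exists_scaled (h0 := 1 / 2) (by norm_num)
  obtain ⟨D2, hD2, hχ⟩ := exists_scaled (h0 := (K : ℝ) + 1) (by positivity)
  set D := max D1 D2 with hD
  have hD0 : 0 < D := lt_max_of_lt_left hD1
  set L : ℝ := (K : ℝ) + 1 with hL
  have hL1 : 1 ≤ L := by rw [hL]; linarith [K.2]
  set κ' := 32 * D ^ 2 * L with hκ'
  have hκ'0 : 0 < κ' := by positivity
  refine ⟨min (1 / (8 * D ^ 2)) (1 / (2 * κ')), by positivity, ?_⟩
  intro F Ft Fs hFt hFs hFc hFtc hFsc g hg t1 ε hε hclose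
  obtain ⟨φ, hφ1, hφ2, hφ3, hφ4, hφ5⟩ := hφ t1 ε hε
  obtain ⟨χ, hχ1, hχ2, hχ3, hχ4, hχ5⟩ := hχ (g t1) ε hε
  have hφc' : Continuous (deriv φ) := hφ1.continuous_deriv (by simp)
  have hχc' : Continuous (deriv χ) := hχ1.continuous_deriv (by simp)
  have hφd : ∀ t, HasDerivAt φ (deriv φ t) t := fun t => (hφ1.differentiable (by simp) t).hasDerivAt
  have hφb : ∀ t, |deriv φ t| ≤ D / ε := fun t => (hφ3 t).trans (by gcongr; exact le_max_left _ _)
  have hχb : ∀ t, |deriv χ t| ≤ D / ε := fun t => (hχ3 t).trans (by gcongr; exact le_max_right _ _)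
  have hφ0 : ∀ t, ε ≤ |t - t1| → φ t = 0 ∧ deriv φ t = 0 := by
    intro t ht
    exact hφ5 t (by linarith)
  have hcut : Cut φ (deriv φ) χ (deriv χ) t1 (g t1) ε (L * ε) := by
    refine ⟨hφd, hφc', fun s => (hχ1.differentiable (by simp) s).hasDerivAt, hχc', hφ0, hχ4, hχ5⟩
  have hgc := hg.continuous
  have hgb : ∀ t, |t - t1| < ε → |g t - g t1| < L * ε := by
    intro t ht
    have h1 := hg.dist_le_mul t t1
    rw [Real.dist_eq, Real.dist_eq] at h1
    have h2 : (K : ℝ) * |t - t1| ≤ K * ε := mul_le_mul_of_nonneg_left ht.le K.2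
    rw [hL]
    nlinarith
  have hgreen := green hFt hFs hFc hFtc hFsc hgc (by positivity) hcut hgb
  set I := Ioo (t1 - ε) (t1 + ε) with hI
  -- the integral of the jump
  have hjump : ∫ t in I, deriv φ t * (Iic t1).indicator 1 t = 1 := by
    have h1 : ∫ t in Iic t1, deriv φ t = φ t1 - 0 := by
      apply integral_Iic_of_hasDerivAt_of_tendsto (hφd t1).continuousAt.continuousWithinAt
        (fun t _ => hφd t)
      · apply (hφc'.integrable_of_hasCompactSupport ?_).integrableOn
        apply HasCompactSupport.intro (isCompact_Icc (a := t1 - ε) (b := t1 + ε))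
        intro t ht
        refine (hφ0 t ?_).2
        by_contra hcon
        rw [not_le, Chart.abs_sub_lt_iff_Ioo] at hcon
        exact ht (Ioo_subset_Icc_self hcon)
      · apply tendsto_const_nhds.congr'
        filter_upwards [eventually_le_atBot (t1 - ε)] with t ht
        symm
        refine (hφ0 t ?_).1
        rw [abs_of_nonpos (by linarith)]
        linarith
    rw [(hφ4 t1 (by rw [sub_self, abs_zero]; positivity)).1, sub_zero] at h1
    rw [← h1, ← integral_indicator measurableSet_Ioo, ← integral_indicator measurableSet_Iic]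
    congr 1
    ext t
    by_cases ht : t ∈ I
    · rw [indicator_of_mem ht]
      by_cases ht1 : t ∈ Iic t1
      · rw [indicator_of_mem ht1, indicator_of_mem ht1, Pi.one_apply, mul_one]
      · rw [indicator_of_notMem ht1, indicator_of_notMem ht1, mul_zero]
    · rw [indicator_of_notMem ht]
      have h2 : deriv φ t = 0 := by
        refine (hφ0 t ?_).2
        by_contra hcon
        rw [not_le, Chart.abs_sub_lt_iff_Ioo] at hcon
        exact ht hcon
      by_cases ht1 : t ∈ Iic t1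
      · rw [indicator_of_mem ht1, h2]
      · rw [indicator_of_notMem ht1]
  have hright : ∫ t, deriv φ t * F t (g t) = ∫ t in I, deriv φ t * F t (g t) := by
    rw [setIntegral_eq_integral_of_forall_compl_eq_zero]
    intro t ht
    have h2 : deriv φ t = 0 := by
      refine (hφ0 t ?_).2
      by_contra hcon
      rw [not_le, Chart.abs_sub_lt_iff_Ioo] at hcon
      exact ht hcon
    rw [h2, zero_mul]
  have hFg : Continuous fun t => F t (g t) := hFc.comp (continuous_id.prodMk hgc)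
  have hi1 : IntegrableOn (fun t => deriv φ t * F t (g t)) I :=
    ((hφc'.mul hFg).continuousOn.integrableOn_compact (isCompact_Icc (a := t1 - ε)
      (b := t1 + ε))).mono_set Ioo_subset_Icc_self
  have hind : ∀ {u : ℝ → ℝ}, Continuous u → IntegrableOn (fun t => u t * (Iic t1).indicator 1 t) I := by
    intro u hu
    have h1 : (fun t => u t * (Iic t1).indicator 1 t) = (Iic t1).indicator u := by
      ext t
      by_cases ht1 : t ∈ Iic t1
      · rw [indicator_of_mem ht1, indicator_of_mem ht1, Pi.one_apply, mul_one]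
      · rw [indicator_of_notMem ht1, indicator_of_notMem ht1, mul_zero]
    rw [h1]
    apply IntegrableOn.indicator _ measurableSet_Iic
    exact (hu.continuousOn.integrableOn_compact (isCompact_Icc (a := t1 - ε)
      (b := t1 + ε))).mono_set Ioo_subset_Icc_self
  have hi2 : IntegrableOn (fun t => deriv φ t * (Iic t1).indicator 1 t) I := hind hφc'
  have hi3 : IntegrableOn (fun t => (F t (g t) - (Iic t1).indicator 1 t) ^ 2) I := by
    have h1 : (fun t => (F t (g t) - (Iic t1).indicator 1 t) ^ 2) =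
        fun t => (F t (g t)) ^ 2 + (1 - 2 * F t (g t)) * (Iic t1).indicator 1 t := by
      ext t
      by_cases ht1 : t ∈ Iic t1
      · rw [indicator_of_mem ht1, Pi.one_apply]
        ring
      · rw [indicator_of_notMem ht1]
        ring
    rw [h1]
    apply IntegrableOn.add
    · exact ((hFg.pow 2).continuousOn.integrableOn_compact (isCompact_Icc (a := t1 - ε)
        (b := t1 + ε))).mono_set Ioo_subset_Icc_self
    · exact hind (by fun_prop)
  have hdiff : |(∫ t in I, deriv φ t * F t (g t)) - 1| ≤ 1 / 2 := by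
    rw [← hjump, ← integral_sub hi1 hi2, ← Real.norm_eq_abs]
    refine (norm_integral_le_integral_norm _).trans ?_
    have h1 : ∫ t in I, ‖deriv φ t * F t (g t) - deriv φ t * (Iic t1).indicator 1 t‖ ≤
        ∫ t in I, ((2 * D ^ 2 / ε) * (F t (g t) - (Iic t1).indicator 1 t) ^ 2 + 1 / (8 * ε)) := by
      apply setIntegral_mono_on (hi1.sub hi2).norm
      · exact (hi3.const_mul _).add (integrableOn_const (by simp [I]))
      · exact measurableSet_Ioo
      · intro t _
        simp only [Pi.sub_apply]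
        rw [← mul_sub, norm_mul, Real.norm_eq_abs, Real.norm_eq_abs]
        set x := F t (g t) - (Iic t1).indicator 1 t
        calc |deriv φ t| * |x| ≤ (D / ε) * |x| := by gcongr; exact hφb t
          _ ≤ (2 * D ^ 2 / ε) * x ^ 2 + 1 / (8 * ε) := by
            rw [← sq_abs x]
            have h2 : 0 ≤ (4 * D * |x| - 1) ^ 2 / (8 * ε) := by positivity
            have h3 : (4 * D * |x| - 1) ^ 2 / (8 * ε) =
                2 * D ^ 2 / ε * |x| ^ 2 + 1 / (8 * ε) - D / ε * |x| := by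
              field_simp
              ring
            linarith
    refine h1.trans ?_
    rw [integral_add (hi3.const_mul _) (integrableOn_const (by simp [I])), integral_const_mul]
    have h2 : ∫ _t in I, 1 / (8 * ε) = 1 / 4 := by
      rw [setIntegral_const, hI]
      simp only [measureReal_def, Real.volume_Ioo, smul_eq_mul]
      rw [ENNReal.toReal_ofReal (by linarith)]
      field_simp
      ring
    rw [h2]
    have h3 : (2 * D ^ 2 / ε) * ∫ t in I, (F t (g t) - (Iic t1).indicator 1 t) ^ 2 ≤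
        (2 * D ^ 2 / ε) * (1 / (8 * D ^ 2) * ε) := by
      apply mul_le_mul_of_nonneg_left _ (by positivity)
      refine hclose.trans ?_
      gcongr
      exact min_le_left _ _
    have h4 : (2 * D ^ 2 / ε) * (1 / (8 * D ^ 2) * ε) = 1 / 4 := by
      field_simp
      norm_num
    linarith
  have hlow : 1 / 2 ≤ |∫ t in I, deriv φ t * F t (g t)| := by
    have h1 := abs_le.1 hdiff
    rw [abs_of_nonneg (by linarith [h1.1])]
    linarith [h1.1]
  -- the bulk term
  set H := hbox g t1 ε (2 * (L * ε)) with hH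
  have hHm : MeasurableSet H := (hbox_open hgc _ _ _).measurableSet
  have hHv := hbox_vol g t1 hε (w := 2 * (L * ε))
  have hHv' : volume H ≠ ⊤ := (hHv.trans_lt ENNReal.ofReal_lt_top).ne
  have hcompact : IsCompact (Icc (t1 - ε) (t1 + ε) ×ˢ Icc (g t1 - 2 * (L * ε)) (g t1 + 2 * (L * ε))) :=
    isCompact_Icc.prod isCompact_Icc
  have hHsub : H ⊆ Icc (t1 - ε) (t1 + ε) ×ˢ Icc (g t1 - 2 * (L * ε)) (g t1 + 2 * (L * ε)) := by
    rintro p ⟨h1, h2, -⟩
    exact ⟨Ioo_subset_Icc_self (Chart.abs_sub_lt_iff_Ioo.1 h1),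
      Ioo_subset_Icc_self (Chart.abs_sub_lt_iff_Ioo.1 h2)⟩
  have hHi : ∀ {u : ℝ × ℝ → ℝ}, Continuous u → IntegrableOn u H := fun hu =>
    (hu.continuousOn.integrableOn_compact hcompact).mono_set hHsub
  have hφcont := hφ1.continuous
  have hχcont := hχ1.continuous
  have hbulk : ∫ p : ℝ × ℝ, ({p : ℝ × ℝ | g p.1 < p.2}.indicator
      (fun p => Fs p.1 p.2 * deriv φ p.1 * χ p.2 - Ft p.1 p.2 * φ p.1 * deriv χ p.2) p) =
      ∫ p in H, (Fs p.1 p.2 * deriv φ p.1 * χ p.2 - Ft p.1 p.2 * φ p.1 * deriv χ p.2) := by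
    rw [← integral_indicator hHm]
    congr 1
    ext p
    by_cases hp : p ∈ {p : ℝ × ℝ | g p.1 < p.2}
    · rw [indicator_of_mem hp]
      by_cases hp2 : p ∈ H
      · rw [indicator_of_mem hp2]
      · rw [indicator_of_notMem hp2]
        have h1 : ¬ (|p.1 - t1| < ε ∧ |p.2 - g t1| < 2 * (L * ε)) := fun h => hp2 ⟨h.1, h.2, hp⟩
        rw [not_and_or, not_lt, not_lt] at h1
        rcases h1 with h | h
        · rw [(hφ0 _ h).1, (hφ0 _ h).2]
          ring
        · rw [(hχ5 _ h).1, (hχ5 _ h).2]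
          ring
    · rw [indicator_of_notMem hp, indicator_of_notMem]
      exact fun h => hp h.2.2
  have hcont1 : Continuous fun p : ℝ × ℝ =>
      Fs p.1 p.2 * deriv φ p.1 * χ p.2 - Ft p.1 p.2 * φ p.1 * deriv χ p.2 := by
    exact ((hFsc.mul (hφc'.comp continuous_fst)).mul (hχcont.comp continuous_snd)).sub
      ((hFtc.mul (hφcont.comp continuous_fst)).mul (hχc'.comp continuous_snd))
  have hcont2 : Continuous fun p : ℝ × ℝ => (Fs p.1 p.2) ^ 2 + (Ft p.1 p.2) ^ 2 :=
    (hFsc.pow 2).add (hFtc.pow 2)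
  have hup : |∫ p in H, (Fs p.1 p.2 * deriv φ p.1 * χ p.2 - Ft p.1 p.2 * φ p.1 * deriv χ p.2)| ≤
      (κ' / 2) * (∫ p in H, ((Fs p.1 p.2) ^ 2 + (Ft p.1 p.2) ^ 2)) + 1 / 4 := by
    rw [← Real.norm_eq_abs]
    refine (norm_integral_le_integral_norm _).trans ?_
    have h1 : ∫ p in H, ‖Fs p.1 p.2 * deriv φ p.1 * χ p.2 - Ft p.1 p.2 * φ p.1 * deriv χ p.2‖ ≤
        ∫ p in H, ((κ' / 2) * ((Fs p.1 p.2) ^ 2 + (Ft p.1 p.2) ^ 2) + 1 / (32 * L * ε ^ 2)) := by
      apply setIntegral_mono_on (hHi hcont1).norm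
      · exact ((hHi hcont2).const_mul _).add (integrableOn_const hHv')
      · exact hHm
      · intro p _
        refine (norm_sub_le _ _).trans ?_
        rw [norm_mul, norm_mul, norm_mul, norm_mul]
        simp only [Real.norm_eq_abs]
        have e1 : |Fs p.1 p.2| * |deriv φ p.1| * |χ p.2| ≤ |Fs p.1 p.2| * (D / ε) * 1 := by
          gcongr
          · exact hφb _
          · rw [abs_of_nonneg (hχ2 _).1]; exact (hχ2 _).2
        have e2 : |Ft p.1 p.2| * |φ p.1| * |deriv χ p.2| ≤ |Ft p.1 p.2| * 1 * (D / ε) := by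
          gcongr
          · rw [abs_of_nonneg (hφ2 _).1]; exact (hφ2 _).2
          · exact hχb _
        have e3 : ∀ x : ℝ, |x| * (D / ε) ≤ (κ' / 2) * x ^ 2 + 1 / (64 * L * ε ^ 2) := by
          intro x
          rw [← sq_abs x]
          have h2 : 0 ≤ (32 * D * L * ε * |x| - 1) ^ 2 / (64 * L * ε ^ 2) := by positivity
          have h3 : (32 * D * L * ε * |x| - 1) ^ 2 / (64 * L * ε ^ 2) =
              κ' / 2 * |x| ^ 2 + 1 / (64 * L * ε ^ 2) - |x| * (D / ε) := by
            rw [hκ']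
            field_simp
            ring
          linarith
        have e4 := e3 (Fs p.1 p.2)
        have e5 := e3 (Ft p.1 p.2)
        have e6 : 1 / (32 * L * ε ^ 2) = 1 / (64 * L * ε ^ 2) + 1 / (64 * L * ε ^ 2) := by
          field_simp
          norm_num
        rw [e6]
        nlinarith
    refine h1.trans ?_
    rw [integral_add ((hHi hcont2).const_mul _) (integrableOn_const hHv'), integral_const_mul]
    have h2 : ∫ _p in H, 1 / (32 * L * ε ^ 2) ≤ 1 / 4 := by
      rw [setIntegral_const, smul_eq_mul]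
      have h3 : volume.real H ≤ 4 * ε * (2 * (L * ε)) := by
        rw [measureReal_def]
        exact ENNReal.toReal_le_of_le_ofReal (by positivity) hHv
      calc volume.real H * (1 / (32 * L * ε ^ 2))
        _ ≤ 4 * ε * (2 * (L * ε)) * (1 / (32 * L * ε ^ 2)) := by gcongr
        _ = 1 / 4 := by
          field_simp
          norm_num
    linarith
  rw [hbulk, hright] at hgreen
  rw [hgreen, abs_neg] at hup
  have hfin : 1 / 4 ≤ (κ' / 2) * (∫ p in H, ((Fs p.1 p.2) ^ 2 + (Ft p.1 p.2) ^ 2)) := by linarith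
  refine (min_le_right _ _).trans ?_
  rw [div_le_iff₀ (by positivity)]
  linarith

end Pool.Agent.Lib.MP_9ebc94_an
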