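import Pool.Agent.Lib.MP_9ebc94_an.Place

/-!
Leading coefficients at a place.
-/

namespace Pool.Agent.Lib.MP_9ebc94_an

open WithZero

namespace Place

variable {L : Type*} [Field L] [Algebra ℂ L] {D : Derivation ℂ L L} {z : L} (P : Place L D z)

/-- `x = c z^j + (lower order)` -/
def Lead (x : L) (j : ℤ) (c : ℂ) : Prop := P.v (x - algebraMap ℂ L c * z ^ j) < exp (P.p * j)

include P in
theorem z0 : z ≠ 0 := by
  rintro rfl
  have := P.vz
  rw [map_zero] at this
  exact exp_ne_zero this.symm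

theorem v_zpow (j : ℤ) : P.v (z ^ j) = exp (P.p * j) := by
  rw [map_zpow₀, P.vz, ← exp_zsmul, smul_eq_mul, mul_comm]

theorem v_const_le (c : ℂ) : P.v (algebraMap ℂ L c) ≤ 1 := by
  by_cases hc : c = 0
  · subst hc; simp
  · exact (P.vC c hc).le

theorem exp_lt {j k : ℤ} (h : j < k) : exp (P.p * j) < exp (P.p * k) := by
  rw [exp_lt_exp]
  exact mul_lt_mul_of_pos_left h P.hp

theorem exp_le {j k : ℤ} (h : j ≤ k) : exp (P.p * j) ≤ exp (P.p * k) := by
  rw [exp_le_exp]
  exact mul_le_mul_of_nonneg_left h P.hp.le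

theorem exp_mul' (j k : ℤ) : exp (P.p * j) * exp (P.p * k) = exp (P.p * (j + k)) := by
  rw [← exp_add, mul_add]

theorem v_term_le (c : ℂ) (j : ℤ) : P.v (algebraMap ℂ L c * z ^ j) ≤ exp (P.p * j) := by
  rw [map_mul, v_zpow]
  exact mul_le_of_le_one_left' (P.v_const_le c)

variable {P}

theorem Lead.le {x : L} {j : ℤ} {c : ℂ} (h : P.Lead x j c) : P.v x ≤ exp (P.p * j) := by
  have h1 : x = (x - algebraMap ℂ L c * z ^ j) + algebraMap ℂ L c * z ^ j := by ring
  rw [h1]
  exact (P.v.map_add _ _).trans (max_le (le_of_lt h) (P.v_term_le c j))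

theorem Lead.eq {x : L} {j : ℤ} {c : ℂ} (h : P.Lead x j c) (hc : c ≠ 0) :
    P.v x = exp (P.p * j) := by
  have h1 : x = (x - algebraMap ℂ L c * z ^ j) + algebraMap ℂ L c * z ^ j := by ring
  have h2 : P.v (algebraMap ℂ L c * z ^ j) = exp (P.p * j) := by
    rw [map_mul, v_zpow, P.vC c hc, one_mul]
  have h3 : P.v (x - algebraMap ℂ L c * z ^ j) < P.v (algebraMap ℂ L c * z ^ j) := by
    rw [h2]; exact h
  rw [h1, Valuation.map_add_eq_of_lt_right P.v h3, h2]

theorem lead_zero {x : L} {j : ℤ} : P.Lead x j 0 ↔ P.v x < exp (P.p * j) := by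
  simp [Lead]

theorem Lead.unique {x : L} {j : ℤ} {c d : ℂ} (h : P.Lead x j c) (h' : P.Lead x j d) : c = d := by
  by_contra hne
  have h1 : algebraMap ℂ L (c - d) * z ^ j =
      (x - algebraMap ℂ L d * z ^ j) - (x - algebraMap ℂ L c * z ^ j) := by
    rw [map_sub]; ring
  have h2 : P.v (algebraMap ℂ L (c - d) * z ^ j) = exp (P.p * j) := by
    rw [map_mul, v_zpow, P.vC _ (sub_ne_zero.2 hne), one_mul]
  have h3 : P.v (algebraMap ℂ L (c - d) * z ^ j) < exp (P.p * j) := by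
    rw [h1]
    exact Valuation.map_sub_lt P.v h' h
  rw [h2] at h3
  exact lt_irrefl _ h3

theorem exists_lead {x : L} {j : ℤ} (h : P.v x ≤ exp (P.p * j)) : ∃ c, P.Lead x j c := by
  have hz := P.z0
  have h1 : P.v (x * z ^ (-j)) ≤ 1 := by
    rw [map_mul, v_zpow]
    calc P.v x * exp (P.p * -j) ≤ exp (P.p * j) * exp (P.p * -j) := by gcongr
      _ = 1 := by rw [P.exp_mul']; simp
  obtain ⟨c, hc⟩ := P.res _ h1
  refine ⟨c, ?_⟩
  have h2 : x - algebraMap ℂ L c * z ^ j = (x * z ^ (-j) - algebraMap ℂ L c) * z ^ j := by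
    rw [sub_mul, mul_assoc, ← zpow_add₀ hz]; simp
  rw [Lead, h2, map_mul, v_zpow]
  calc P.v (x * z ^ (-j) - algebraMap ℂ L c) * exp (P.p * j) < 1 * exp (P.p * j) := by
        exact mul_lt_mul_of_pos_right hc (by simp)
    _ = exp (P.p * j) := one_mul _

theorem Lead.add {x y : L} {j : ℤ} {c d : ℂ} (hx : P.Lead x j c) (hy : P.Lead y j d) :
    P.Lead (x + y) j (c + d) := by
  have h1 : x + y - algebraMap ℂ L (c + d) * z ^ j =
      (x - algebraMap ℂ L c * z ^ j) + (y - algebraMap ℂ L d * z ^ j) := by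
    rw [map_add]; ring
  rw [Lead, h1]
  exact Valuation.map_add_lt P.v hx hy

theorem Lead.neg {x : L} {j : ℤ} {c : ℂ} (hx : P.Lead x j c) : P.Lead (-x) j (-c) := by
  have h1 : -x - algebraMap ℂ L (-c) * z ^ j = -(x - algebraMap ℂ L c * z ^ j) := by
    rw [map_neg]; ring
  rw [Lead, h1, Valuation.map_neg]
  exact hx

theorem Lead.sub {x y : L} {j : ℤ} {c d : ℂ} (hx : P.Lead x j c) (hy : P.Lead y j d) :
    P.Lead (x - y) j (c - d) := by
  rw [sub_eq_add_neg, sub_eq_add_neg]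
  exact hx.add hy.neg

theorem Lead.mul {x y : L} {j k : ℤ} {c d : ℂ} (hx : P.Lead x j c) (hy : P.Lead y k d) :
    P.Lead (x * y) (j + k) (c * d) := by
  have hz := P.z0
  have h1 : x * y - algebraMap ℂ L (c * d) * z ^ (j + k) =
      (x - algebraMap ℂ L c * z ^ j) * y +
        (algebraMap ℂ L c * z ^ j) * (y - algebraMap ℂ L d * z ^ k) := by
    rw [map_mul, zpow_add₀ hz]; ring
  rw [Lead, h1, ← P.exp_mul']
  refine Valuation.map_add_lt P.v ?_ ?_
  · rw [map_mul]
    calc _ ≤ P.v (x - algebraMap ℂ L c * z ^ j) * exp (P.p * k) := mul_le_mul_right hy.le _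
      _ < _ := mul_lt_mul_of_pos_right hx (by simp)
  · rw [map_mul]
    calc _ ≤ exp (P.p * j) * P.v (y - algebraMap ℂ L d * z ^ k) :=
          mul_le_mul_left (P.v_term_le c j) _
      _ < _ := mul_lt_mul_of_pos_left hy (by simp)

variable (P) in
theorem lead_const (c : ℂ) : P.Lead (algebraMap ℂ L c) 0 c := by
  simp [Lead]

variable (P) in
theorem lead_z : P.Lead z 1 1 := by
  simp [Lead]

theorem Lead.const_mul {x : L} {j : ℤ} {c : ℂ} (hx : P.Lead x j c) (d : ℂ) :
    P.Lead (algebraMap ℂ L d * x) j (d * c) := by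
  simpa using (P.lead_const d).mul hx

theorem Lead.pow {x : L} {j : ℤ} {c : ℂ} (hx : P.Lead x j c) (n : ℕ) :
    P.Lead (x ^ n) (n * j) (c ^ n) := by
  induction n with
  | zero => simpa using P.lead_const 1
  | succ n ih =>
    have := ih.mul hx
    rw [← pow_succ, ← pow_succ] at this
    convert this using 1
    push_cast; ring

theorem Lead.inv {x : L} {j : ℤ} {c : ℂ} (hx : P.Lead x j c) (hc : c ≠ 0) :
    P.Lead x⁻¹ (-j) c⁻¹ := by
  have hz := P.z0
  have hvx := hx.eq hc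
  have hx0 : x ≠ 0 := by
    rintro rfl
    rw [map_zero] at hvx
    exact exp_ne_zero hvx.symm
  have hc' : algebraMap ℂ L c ≠ 0 := by simpa using hc
  have h1 : x⁻¹ - algebraMap ℂ L c⁻¹ * z ^ (-j) =
      -(x - algebraMap ℂ L c * z ^ j) * (x⁻¹ * (algebraMap ℂ L c⁻¹ * z ^ (-j))) := by
    rw [map_inv₀, zpow_neg]
    have : z ^ j ≠ 0 := zpow_ne_zero _ hz
    field_simp
    ring
  have h2 : P.v (x⁻¹ * (algebraMap ℂ L c⁻¹ * z ^ (-j))) = exp (P.p * (-j + -j)) := by
    rw [map_mul, map_mul, v_zpow, P.vC _ (inv_ne_zero hc), map_inv₀, hvx, ← exp_neg, one_mul,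
      ← P.exp_mul']
    congr 2
    ring
  rw [Lead, h1, map_mul, Valuation.map_neg, h2]
  calc _ < exp (P.p * j) * exp (P.p * (-j + -j)) := mul_lt_mul_of_pos_right hx (by simp)
    _ = _ := by rw [P.exp_mul']; congr 2; ring

theorem lead_mono {x : L} {j k : ℤ} (h : P.v x ≤ exp (P.p * j)) (hjk : j < k) :
    P.Lead x k 0 := lead_zero.2 (h.trans_lt (P.exp_lt hjk))

theorem Lead.sum {ι : Type*} (s : Finset ι) (x : ι → L) (c : ι → ℂ) (j : ℤ)
    (h : ∀ i ∈ s, P.Lead (x i) j (c i)) : P.Lead (∑ i ∈ s, x i) j (∑ i ∈ s, c i) := by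
  classical
  induction s using Finset.induction_on with
  | empty => simp [lead_zero]
  | insert a s ha ih =>
    rw [Finset.sum_insert ha, Finset.sum_insert ha]
    exact (h a (Finset.mem_insert_self _ _)).add (ih fun i hi => h i (Finset.mem_insert_of_mem hi))

variable (P) in
theorem vD_lt {x : L} (hx : P.v x ≤ 1) : P.v (D x) < exp (-P.p) := by
  obtain ⟨c, hc⟩ := P.res x hx
  have h1 : D x = D (x - algebraMap ℂ L c) := by
    rw [map_sub, Derivation.map_algebraMap, sub_zero]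
  rw [h1, P.vD _ hc.ne]
  calc _ < 1 * exp (-P.p) := mul_lt_mul_of_pos_right hc (by simp)
    _ = _ := one_mul _

theorem Lead.deriv {x : L} {j : ℤ} {c : ℂ} (hx : P.Lead x j c) :
    P.Lead (D x) (j - 1) (j * c) := by
  have hz := P.z0
  set r := x - algebraMap ℂ L c * z ^ j with hr
  have hxr : x = algebraMap ℂ L c * z ^ j + r := by rw [hr]; ring
  have h1 : D x - algebraMap ℂ L (j * c) * z ^ (j - 1) = D r := by
    conv_lhs => rw [hxr]
    rw [map_add, Derivation.leibniz, Derivation.leibniz_zpow, Derivation.map_algebraMap, P.Dz]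
    simp only [smul_eq_mul, zsmul_eq_mul, map_mul, map_intCast]
    ring
  have hr' : P.v r < exp (P.p * j) := hx
  have h2 : exp (P.p * (j - 1)) = exp (P.p * j) * exp (-P.p) := by
    rw [← exp_add]; congr 1; ring
  rw [Lead, h1, h2]
  by_cases hr1 : P.v r = 1
  · have h3 := P.vD_lt hr1.le
    rw [hr1] at hr'
    calc _ < exp (-P.p) := h3
      _ = 1 * exp (-P.p) := (one_mul _).symm
      _ ≤ _ := mul_le_mul_left hr'.le _
  · rw [P.vD _ hr1]
    exact mul_lt_mul_of_pos_right hr' (by simp)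

end Place

end Pool.Agent.Lib.MP_9ebc94_an
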