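import Pool.Agent.Lib.MP_9ebc94_an.Lead

/-!
Local analysis at infinity of the equation `f'(z) T - f*'(w) / T = i σ (f(z) + f*(w))`.
-/

namespace Pool.Agent.Lib.MP_9ebc94_an

open WithZero Polynomial

/-- conjugate the coefficients -/
noncomputable def conjP (f : ℂ[X]) : ℂ[X] := f.map (starRingEnd ℂ)

theorem natDegree_conjP (f : ℂ[X]) : (conjP f).natDegree = f.natDegree :=
  natDegree_map_eq_of_injective (RingHom.injective _) f

theorem coeff_conjP (f : ℂ[X]) (n : ℕ) : (conjP f).coeff n = starRingEnd ℂ (f.coeff n) := by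
  rw [conjP, coeff_map]

theorem derivative_conjP (f : ℂ[X]) : derivative (conjP f) = conjP (derivative f) := by
  rw [conjP, derivative_map, conjP]

theorem conjP_conjP (f : ℂ[X]) : conjP (conjP f) = f := by
  ext n
  simp [coeff_conjP]

/-- the basic equation -/
def E1 {L : Type*} [Field L] [Algebra ℂ L] (z w T : L) (f : ℂ[X]) (σ : ℝ) : Prop :=
  aeval z (derivative f) * T - aeval w (derivative (conjP f)) * T⁻¹ =
    algebraMap ℂ L (Complex.I * σ) * (aeval z f + aeval w (conjP f))

/-- centroid of the roots -/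
noncomputable def cen (f : ℂ[X]) : ℂ := -f.coeff (f.natDegree - 1) / (f.natDegree * f.leadingCoeff)

namespace Place

variable {L : Type*} [Field L] [Algebra ℂ L] {D : Derivation ℂ L L} {z : L} {P : Place L D z}

theorem aeval_eq_sum (f : ℂ[X]) (n : ℕ) (hn : f.natDegree ≤ n) (x : L) :
    aeval x f = ∑ i ∈ Finset.range (n + 1), algebraMap ℂ L (f.coeff i) * x ^ i := by
  rw [aeval_eq_sum_range' (Nat.lt_succ_of_le hn)]
  simp [Algebra.smul_def]

theorem aeval_lead (f : ℂ[X]) (n : ℕ) (hn : f.natDegree ≤ n) {x : L} {ξ : ℂ}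
    (hx : P.Lead x 1 ξ) : P.Lead (aeval x f) n (f.coeff n * ξ ^ n) := by
  rw [aeval_eq_sum f n hn, Finset.sum_range_succ]
  have h1 : P.Lead (∑ i ∈ Finset.range n, algebraMap ℂ L (f.coeff i) * x ^ i) n 0 := by
    have := Lead.sum (P := P) (Finset.range n) (fun i => algebraMap ℂ L (f.coeff i) * x ^ i)
      (fun _ => 0) n (by
        intro i hi
        have h2 := (hx.pow i).const_mul (f.coeff i)
        rw [Finset.mem_range] at hi
        refine lead_mono (j := i) ?_ (by exact_mod_cast hi)
        simpa using h2.le)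
    simpa using this
  have h2 := (hx.pow n).const_mul (f.coeff n)
  simpa using h1.add (by simpa using h2)

theorem v_aeval_le {x : L} (f : ℂ[X]) (n : ℕ) (hn : f.natDegree ≤ n) (hx : P.v x ≤ exp P.p) :
    P.v (aeval x f) ≤ exp (P.p * n) := by
  obtain ⟨ξ, hξ⟩ := P.exists_lead (x := x) (j := 1) (by simpa using hx)
  exact (aeval_lead f n hn hξ).le

theorem v_aeval_le_one {x : L} (f : ℂ[X]) (hx : P.v x ≤ 1) : P.v (aeval x f) ≤ 1 := by
  rw [aeval_eq_sum f _ le_rfl]
  refine Valuation.map_sum_le _ fun i _ => ?_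
  rw [map_mul, map_pow]
  exact mul_le_one' (P.v_const_le _) (pow_le_one' hx _)

theorem v_aeval_le_pow {x : L} (f : ℂ[X]) (n : ℕ) (hn : f.natDegree ≤ n) (hx : 1 ≤ P.v x) :
    P.v (aeval x f) ≤ P.v x ^ n := by
  rw [aeval_eq_sum f n hn]
  refine Valuation.map_sum_le _ fun i hi => ?_
  rw [map_mul, map_pow]
  rw [Finset.mem_range] at hi
  exact (mul_le_of_le_one_left' (P.v_const_le _)).trans (pow_le_pow_right₀ hx (by omega))

theorem v_aeval_eq_pow {x : L} (f : ℂ[X]) (hf : f ≠ 0) (hx : 1 < P.v x) :
    P.v (aeval x f) = P.v x ^ f.natDegree := by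
  by_cases h0 : f.natDegree = 0
  · obtain ⟨c, hc⟩ := natDegree_eq_zero.1 h0
    rw [← hc, aeval_C, natDegree_C, pow_zero, P.vC]
    rintro rfl
    apply hf
    rw [← hc, C_0]
  · have h1 := eraseLead_add_C_mul_X_pow f
    have h2 : P.v (aeval x (C f.leadingCoeff * X ^ f.natDegree)) = P.v x ^ f.natDegree := by
      rw [map_mul, aeval_C, map_pow, aeval_X, map_mul, map_pow,
        P.vC _ (leadingCoeff_ne_zero.2 hf), one_mul]
    have h3 : P.v (aeval x f.eraseLead) < P.v x ^ f.natDegree := by
      refine (v_aeval_le_pow f.eraseLead (f.natDegree - 1) (eraseLead_natDegree_le f) hx.le).trans_lt ?_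
      exact pow_lt_pow_right₀ hx (by omega)
    conv_lhs => rw [← h1]
    rw [map_add, Valuation.map_add_eq_of_lt_right P.v (by rw [h2]; exact h3), h2]

variable (P) in
theorem v_Isigma {σ : ℝ} (hσ : σ ≠ 0) : P.v (algebraMap ℂ L (Complex.I * σ)) = 1 := by
  apply P.vC
  simp [hσ]

theorem dichotomy {w T : L} (hDw : D w * T ^ 2 = 1) (S : Set (ℂ[X] × ℝ))
    (hdeg : ∀ s ∈ S, 1 ≤ s.1.natDegree) (hσ : ∀ s ∈ S, s.2 ≠ 0)
    (hunb : ∀ N : ℕ, ∃ s ∈ S, N ≤ s.1.natDegree)
    (hE : ∀ s ∈ S, E1 z w T s.1 s.2) :
    (P.v w ≤ 1 ∧ P.v T = exp P.p) ∨ (P.v w = exp P.p ∧ P.v T = 1) := by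
  have hT0 : T ≠ 0 := by
    rintro rfl
    simp at hDw
  obtain ⟨τ, hτ⟩ := exists_exp ((Valuation.ne_zero_iff P.v).2 hT0)
  have hp := P.hp
  by_cases hw : P.v w ≤ 1
  · left
    refine ⟨hw, ?_⟩
    obtain ⟨⟨f, σ⟩, hs, hn⟩ := hunb ((-τ).toNat + 1)
    have hE' := hE _ hs
    have hd := hdeg _ hs
    have hs' := hσ _ hs
    simp only at hE' hd hs' hn
    unfold E1 at hE'
    have hf0 : f ≠ 0 := by
      rintro rfl
      simp at hd
    have hz1 : 1 < P.v z := by
      rw [P.vz, ← exp_zero, exp_lt_exp]; exact hp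
    have h1 : P.v (aeval z f) = exp (P.p * f.natDegree) := by
      rw [v_aeval_eq_pow f hf0 hz1, P.vz, ← exp_nsmul]
      congr 1
      simp [mul_comm]
    have h2 : P.v (aeval w (conjP f)) ≤ 1 := v_aeval_le_one _ hw
    have h3 : P.v (aeval z f + aeval w (conjP f)) = exp (P.p * f.natDegree) := by
      rw [Valuation.map_add_eq_of_lt_left, h1]
      rw [h1]
      refine h2.trans_lt ?_
      rw [← exp_zero, exp_lt_exp]
      positivity
    have hf'0 : derivative f ≠ 0 := by
      intro h
      have := derivative_eq_zero.1 h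
      omega
    have h4 : P.v (aeval z (derivative f) * T) = exp (P.p * (f.natDegree - 1 : ℤ) + τ) := by
      rw [map_mul, v_aeval_eq_pow _ hf'0 hz1, P.vz, ← exp_nsmul, hτ, ← exp_add,
        natDegree_derivative]
      congr 2
      rw [nsmul_eq_mul]
      push_cast [Nat.cast_sub hd]
      ring
    have h5 : P.v (aeval w (derivative (conjP f)) * T⁻¹) ≤ exp (-τ) := by
      rw [map_mul, map_inv₀, hτ, ← exp_neg]
      exact mul_le_of_le_one_left' (v_aeval_le_one _ hw)
    have h6 : P.v (algebraMap ℂ L (Complex.I * σ) * (aeval z f + aeval w (conjP f))) =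
        exp (P.p * f.natDegree) := by
      rw [map_mul, P.v_Isigma hs', one_mul, h3]
    rw [← hE'] at h6
    have h7 : -τ < P.p * f.natDegree := by
      have h8 := Int.self_le_toNat (-τ)
      have h9 : ((-τ).toNat : ℤ) + 1 ≤ f.natDegree := by exact_mod_cast hn
      nlinarith
    have h8 : P.v (aeval z (derivative f) * T) = exp (P.p * f.natDegree) := by
      have h9 : aeval z (derivative f) * T = (aeval z (derivative f) * T -
        aeval w (derivative (conjP f)) * T⁻¹) + aeval w (derivative (conjP f)) * T⁻¹ := by ring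
      rw [h9, Valuation.map_add_eq_of_lt_left, h6]
      rw [h6]
      exact h5.trans_lt (exp_lt_exp.2 h7)
    rw [h4, exp_inj] at h8
    rw [hτ, exp_inj]
    linarith
  · right
    push Not at hw
    have hw0 : w ≠ 0 := by
      rintro rfl
      simp at hw
    obtain ⟨m, hm⟩ := exists_exp ((Valuation.ne_zero_iff P.v).2 hw0)
    have hm0 : 0 < m := by
      rw [hm, ← exp_zero, exp_lt_exp] at hw
      exact hw
    have h1 := P.vD w hw.ne'
    have h2 : m - P.p + 2 * τ = 0 := by
      have h3 := congrArg P.v hDw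
      rw [map_mul, h1, map_one, hm, map_pow, hτ, ← exp_add, ← exp_nsmul, ← exp_add, ← exp_zero,
        exp_inj] at h3
      rw [← h3, nsmul_eq_mul]
      push_cast
      ring
    have hmp : m = P.p := by
      obtain ⟨⟨f, σ⟩, hs, -⟩ := hunb 0
      have hE' := hE _ hs
      have hd := hdeg _ hs
      have hs' := hσ _ hs
      simp only at hE' hd hs'
      unfold E1 at hE'
      have hf0 : f ≠ 0 := by
        rintro rfl
        simp at hd
      have hcf0 : conjP f ≠ 0 := by
        intro h
        have := natDegree_conjP f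
        rw [h, natDegree_zero] at this
        omega
      have hz1 : 1 < P.v z := by
        rw [P.vz, ← exp_zero, exp_lt_exp]; exact hp
      have h3 : P.v (aeval z f) = exp (P.p * f.natDegree) := by
        rw [v_aeval_eq_pow f hf0 hz1, P.vz, ← exp_nsmul]
        congr 1
        simp [mul_comm]
      have h4 : P.v (aeval w (conjP f)) = exp (m * f.natDegree) := by
        rw [v_aeval_eq_pow _ hcf0 hw, hm, ← exp_nsmul, natDegree_conjP]
        congr 1
        simp [mul_comm]
      have h5 : P.v (aeval z (derivative f) * T) ≤ exp (P.p * (f.natDegree - 1 : ℤ) + τ) := by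
        rw [map_mul, exp_add, hτ]
        gcongr
        have := v_aeval_le_pow (P := P) (x := z) (derivative f) (f.natDegree - 1)
          (natDegree_derivative_le f) hz1.le
        rw [P.vz, ← exp_nsmul] at this
        refine this.trans_eq ?_
        congr 1
        rw [nsmul_eq_mul]
        push_cast [Nat.cast_sub hd]
        ring
      have h6 : P.v (aeval w (derivative (conjP f)) * T⁻¹) ≤
          exp (m * (f.natDegree - 1 : ℤ) - τ) := by
        rw [map_mul, sub_eq_add_neg, exp_add, map_inv₀, hτ, ← exp_neg]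
        gcongr
        have := v_aeval_le_pow (P := P) (x := w) (derivative (conjP f)) (f.natDegree - 1)
          ((natDegree_derivative_le _).trans (by rw [natDegree_conjP])) hw.le
        rw [hm, ← exp_nsmul] at this
        refine this.trans_eq ?_
        congr 1
        rw [nsmul_eq_mul]
        push_cast [Nat.cast_sub hd]
        ring
      have h7 : P.v (algebraMap ℂ L (Complex.I * σ) * (aeval z f + aeval w (conjP f))) =
          P.v (aeval z f + aeval w (conjP f)) := by
        rw [map_mul, P.v_Isigma hs', one_mul]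
      have h8 : P.v (aeval z f + aeval w (conjP f)) ≤
          max (exp (P.p * (f.natDegree - 1 : ℤ) + τ)) (exp (m * (f.natDegree - 1 : ℤ) - τ)) := by
        rw [← h7, ← hE']
        exact (P.v.map_sub _ _).trans (max_le_max h5 h6)
      have hd' : (1 : ℤ) ≤ f.natDegree := by exact_mod_cast hd
      by_contra hne
      rcases lt_or_gt_of_ne hne with hlt | hgt
      · have h9 : P.v (aeval z f + aeval w (conjP f)) = exp (P.p * f.natDegree) := by
          rw [Valuation.map_add_eq_of_lt_left, h3]
          rw [h3, h4, exp_lt_exp]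
          nlinarith
        rw [h9] at h8
        rcases le_max_iff.1 h8 with h | h
        · rw [exp_le_exp] at h
          nlinarith
        · rw [exp_le_exp] at h
          nlinarith
      · have h9 : P.v (aeval z f + aeval w (conjP f)) = exp (m * f.natDegree) := by
          rw [Valuation.map_add_eq_of_lt_right, h4]
          rw [h3, h4, exp_lt_exp]
          nlinarith
        rw [h9] at h8
        rcases le_max_iff.1 h8 with h | h
        · rw [exp_le_exp] at h
          nlinarith
        · rw [exp_le_exp] at h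
          nlinarith
    refine ⟨by rw [hm, hmp], ?_⟩
    have : τ = 0 := by omega
    rw [hτ, this, exp_zero]

end Place

end Pool.Agent.Lib.MP_9ebc94_an
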