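import Pool.Agent.Lib.MP_9ebc94_an.Jump

/-!
Many jumps need a lot of energy; unboundedness of the eigenvalues.
-/

namespace Pool.Agent.Lib.MP_9ebc94_an

open MeasureTheory Set Filter Metric Polynomial
open scoped NNReal ENNReal ContDiff

theorem hasDerivAt_pt_fst (R : E2 ≃ₗᵢ[ℝ] E2) (q : ℂ[X]) (t s : ℝ) :
    HasDerivAt (fun t => reP q (pt R t s)) (fderiv ℝ (reP q) (pt R t s) (pt R 1 0)) t := by
  have h1 : HasDerivAt (fun t => pt R t s) (pt R 1 0) t := by
    have h2 : (fun t => pt R t s) = fun t : ℝ => t • pt R 1 0 + s • pt R 0 1 := by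
      ext1 t; exact pt_eq _ _ _
    rw [h2]
    simpa using ((hasDerivAt_id t).smul_const (pt R 1 0)).add_const (s • pt R 0 1)
  exact (hasFDerivAt_reP q (pt R t s)).differentiableAt.hasFDerivAt.comp_hasDerivAt t h1

theorem hasDerivAt_pt_snd (R : E2 ≃ₗᵢ[ℝ] E2) (q : ℂ[X]) (t s : ℝ) :
    HasDerivAt (fun s => reP q (pt R t s)) (fderiv ℝ (reP q) (pt R t s) (pt R 0 1)) s := by
  have h1 : HasDerivAt (fun s => pt R t s) (pt R 0 1) s := by
    have h2 : (fun s => pt R t s) = fun s : ℝ => s • pt R 0 1 + t • pt R 1 0 := by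
      ext1 s; rw [pt_eq, add_comm]
    rw [h2]
    simpa using ((hasDerivAt_id s).smul_const (pt R 0 1)).add_const (t • pt R 1 0)
  exact (hasFDerivAt_reP q (pt R t s)).differentiableAt.hasFDerivAt.comp_hasDerivAt s h1

theorem dens_self (R : E2 ≃ₗᵢ[ℝ] E2) (q : ℂ[X]) (y : E2) :
    dens q q y = (fderiv ℝ (reP q) y (pt R 0 1)) ^ 2 + (fderiv ℝ (reP q) y (pt R 1 0)) ^ 2 := by
  rw [← inner_grad_reP, inner_gradient R]
  ring

theorem dens_self_nonneg (q : ℂ[X]) (y : E2) : 0 ≤ dens q q y := by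
  rw [dens_self (LinearIsometryEquiv.refl ℝ E2)]
  positivity

/-- centres of the sub-boxes -/
noncomputable def ctr (a ε : ℝ) (j : ℕ) : ℝ := a + (2 * j + 1) * ε

theorem energy_lower {Ω : Set E2} (D : Dom Ω) {x0 : E2} (C : Chart Ω x0) (hx0 : x0 ∈ frontier Ω) :
    ∃ κ : ℝ, 0 < κ ∧ ∃ n0 : ℕ, ∀ n : ℕ, n0 ≤ n → ∃ (A : Set E2) (η : ℝ), MeasurableSet A ∧ 0 < η ∧
      ∀ q : ℂ[X], ∫ y in frontier Ω, (A.indicator 1 y - reP q y) ^ 2 ∂μH[1] ≤ η →
        n * κ ≤ en Ω q q := by
  have hg0 := C.g_t0 D.op hx0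
  obtain ⟨δ, h, B, -⟩ := C.exists_box one_pos
  have hδ := B.hδ
  have hh := B.hh
  obtain ⟨κ, hκ, hjump⟩ := jump C.K
  have hptc : Continuous fun p : ℝ × ℝ => pt C.R p.1 p.2 := by
    unfold pt
    fun_prop
  obtain ⟨n0, hn0⟩ := exists_nat_gt ((C.K + 1) * δ / h)
  refine ⟨κ, hκ, n0 + 1, ?_⟩
  intro n hn
  have hn1 : (1 : ℝ) ≤ n := by
    have : 1 ≤ n := by omega
    exact_mod_cast this
  have hnpos : (0 : ℝ) < n := by linarith
  set ε := δ / (2 * n) with hε
  have hε0 : 0 < ε := by positivity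
  have hε2 : 2 * n * ε = δ := by
    rw [hε]
    field_simp
  have hεh : 2 * ((C.K + 1) * ε) ≤ h := by
    have h1 : ((C.K : ℝ) + 1) * δ / h < n := lt_of_lt_of_le hn0 (by
      have : n0 ≤ n := by omega
      exact_mod_cast this)
    rw [div_lt_iff₀ hh] at h1
    have h2 : n * (2 * ((C.K + 1) * ε)) ≤ n * h := by
      calc n * (2 * ((C.K + 1) * ε)) = (C.K + 1) * (2 * n * ε) := by ring
        _ = (C.K + 1) * δ := by rw [hε2]
        _ ≤ n * h := h1.le
    exact le_of_mul_le_mul_left h2 hnpos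
  set c : ℕ → ℝ := ctr C.t0 ε with hc
  have hcl : ∀ j : ℕ, C.t0 ≤ c j - ε := by
    intro j
    simp only [hc, ctr]
    have : (0 : ℝ) ≤ j := by positivity
    nlinarith
  have hcr : ∀ j ∈ Finset.range n, c j + ε ≤ C.t0 + δ := by
    intro j hj
    have h1 : (j : ℝ) + 1 ≤ n := by
      have : j + 1 ≤ n := by
        have := Finset.mem_range.1 hj
        omega
      exact_mod_cast this
    simp only [hc, ctr]
    nlinarith
  have hcj : ∀ i j : ℕ, i < j → c i + ε ≤ c j - ε := by
    intro i j hij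
    have h1 : (i : ℝ) + 1 ≤ j := by
      have : i + 1 ≤ j := by omega
      exact_mod_cast this
    simp only [hc, ctr]
    nlinarith
  set U : Set ℝ := ⋃ j ∈ Finset.range n, Icc (c j - ε) (c j) with hU
  have hUm : MeasurableSet U := by
    apply Finset.measurableSet_biUnion
    intro j _
    exact measurableSet_Icc
  set A : Set E2 := gcur C.R C.g '' U with hA
  have hAm : MeasurableSet A := (gcur_me C.R C.hg).measurableSet_image.2 hUm
  refine ⟨A, κ * ε, hAm, by positivity, ?_⟩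
  intro q hq
  -- on the `j`-th interval, `A` is the part to the left of the centre
  have hUj : ∀ j ∈ Finset.range n, ∀ t ∈ Ioo (c j - ε) (c j + ε),
      A.indicator (1 : E2 → ℝ) (gcur C.R C.g t) = (Iic (c j)).indicator (1 : ℝ → ℝ) t := by
    intro j hj t ht
    have h1 : gcur C.R C.g t ∈ A ↔ t ∈ Iic (c j) := by
      rw [hA, (gcur_me C.R C.hg).injective.mem_set_image]
      simp only [hU, mem_iUnion, exists_prop, mem_Icc, mem_Iic]
      constructor
      · rintro ⟨i, hi, h2, h3⟩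
        by_contra hcon
        push Not at hcon
        rcases lt_trichotomy i j with h4 | h4 | h4
        · have := hcj i j h4
          linarith
        · rw [h4] at h3
          linarith
        · have := hcj j i h4
          linarith [ht.2]
      · intro h2
        exact ⟨j, hj, ht.1.le, h2⟩
    by_cases h2 : t ∈ Iic (c j)
    · rw [indicator_of_mem h2, indicator_of_mem (h1.2 h2), Pi.one_apply, Pi.one_apply]
    · rw [indicator_of_notMem h2, indicator_of_notMem (fun h3 => h2 (h1.1 h3))]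
  have hIsub : ∀ j ∈ Finset.range n, ∀ t, |t - c j| < ε → |t - C.t0| < δ := by
    intro j hj t ht
    rw [abs_lt] at ht ⊢
    have h1 := hcl j
    have h2 := hcr j hj
    constructor <;> linarith [ht.1, ht.2]
  have hAi : Measurable fun y => (A.indicator (1 : E2 → ℝ) y - reP q y) ^ 2 :=
    ((measurable_const.indicator hAm).sub (continuous_reP q).measurable).pow_const 2
  obtain ⟨Mq, hMq⟩ := D.exists_bound (continuous_reP q)
  have hAint : IntegrableOn (fun y => (A.indicator (1 : E2 → ℝ) y - reP q y) ^ 2)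
      (frontier Ω) μH[1] := by
    apply D.int_frontier_of_bound hAi (M := (1 + Mq) ^ 2)
    intro y hy
    rw [norm_pow]
    have h2 : ‖A.indicator (1 : E2 → ℝ) y‖ ≤ 1 := by
      by_cases h3 : y ∈ A
      · rw [indicator_of_mem h3]; simp
      · rw [indicator_of_notMem h3]; simp
    have h3 := norm_sub_le (A.indicator (1 : E2 → ℝ) y) (reP q y)
    have h4 := hMq y hy
    apply pow_le_pow_left₀ (norm_nonneg _)
    linarith
  have hboxE : ∀ j ∈ Finset.range n, κ ≤ ∫ p in hbox C.g (c j) ε (2 * ((C.K + 1) * ε)),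
      dens q q (pt C.R p.1 p.2) := by
    intro j hj
    have h1 := hjump (fun t s => reP q (pt C.R t s))
      (fun t s => fderiv ℝ (reP q) (pt C.R t s) (pt C.R 1 0))
      (fun t s => fderiv ℝ (reP q) (pt C.R t s) (pt C.R 0 1))
      (fun t s => hasDerivAt_pt_fst C.R q t s) (fun t s => hasDerivAt_pt_snd C.R q t s)
      ((continuous_reP q).comp hptc)
      ((((contDiff_reP q).continuous_fderiv (by simp)).comp hptc).clm_apply continuous_const)
      ((((contDiff_reP q).continuous_fderiv (by simp)).comp hptc).clm_apply continuous_const)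
      C.g C.hg (c j) ε hε0
    have h2 : ∀ p : ℝ × ℝ, dens q q (pt C.R p.1 p.2) =
        (fderiv ℝ (reP q) (pt C.R p.1 p.2) (pt C.R 0 1)) ^ 2 +
        (fderiv ℝ (reP q) (pt C.R p.1 p.2) (pt C.R 1 0)) ^ 2 := fun p => dens_self C.R q _
    simp_rw [h2]
    apply h1
    refine le_trans ?_ hq
    have hsub : gcur C.R C.g '' Ioo (c j - ε) (c j + ε) ⊆ frontier Ω := by
      rintro _ ⟨t, ht, rfl⟩
      exact B.cur_mem D.op hg0 (hIsub j hj t (Chart.abs_sub_lt_iff_Ioo.2 ht))
    have h3 : ∫ y in gcur C.R C.g '' Ioo (c j - ε) (c j + ε),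
        (A.indicator (1 : E2 → ℝ) y - reP q y) ^ 2 ∂μH[1] ≤
        ∫ y in frontier Ω, (A.indicator (1 : E2 → ℝ) y - reP q y) ^ 2 ∂μH[1] := by
      apply setIntegral_mono_set hAint
      · exact Eventually.of_forall fun y => sq_nonneg _
      · exact hsub.eventuallyLE
    refine le_trans ?_ h3
    rw [integral_curve C.R C.hg measurableSet_Ioo (by simp)]
    have hm1 : Measurable fun t => (A.indicator (1 : E2 → ℝ) (gcur C.R C.g t) -
        reP q (gcur C.R C.g t)) ^ 2 := hAi.comp (gcur_lip C.R C.hg).continuous.measurable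
    have hb1 : ∀ t ∈ Ioo (c j - ε) (c j + ε), ‖(A.indicator (1 : E2 → ℝ) (gcur C.R C.g t) -
        reP q (gcur C.R C.g t)) ^ 2‖ ≤ (1 + Mq) ^ 2 := by
      intro t ht
      rw [norm_pow]
      have h2 : ‖A.indicator (1 : E2 → ℝ) (gcur C.R C.g t)‖ ≤ 1 := by
        by_cases h3 : gcur C.R C.g t ∈ A
        · rw [indicator_of_mem h3]; simp
        · rw [indicator_of_notMem h3]; simp
      have h3 := norm_sub_le (A.indicator (1 : E2 → ℝ) (gcur C.R C.g t)) (reP q (gcur C.R C.g t))
      have h4 := hMq _ (hsub ⟨t, ht, rfl⟩)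
      apply pow_le_pow_left₀ (norm_nonneg _)
      linarith
    apply setIntegral_mono_on
    · refine Measure.integrableOn_of_bounded (M := (1 + Mq) ^ 2) (by simp) ?_ ?_
      · apply Measurable.aestronglyMeasurable
        exact (((continuous_reP q).comp (gcur_lip C.R C.hg).continuous).measurable.sub
          (measurable_const.indicator measurableSet_Iic)).pow_const 2
      · refine (ae_restrict_iff' measurableSet_Ioo).2 (Eventually.of_forall ?_)
        intro t ht
        have h5 := hb1 t ht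
        rw [hUj j hj t ht] at h5
        rw [← neg_sub, neg_sq]
        exact h5
    · refine Measure.integrableOn_of_bounded (M := (1 + C.K) * (1 + Mq) ^ 2) (by simp) ?_ ?_
      · exact (speed_meas.mul hm1).aestronglyMeasurable
      · refine (ae_restrict_iff' measurableSet_Ioo).2 (Eventually.of_forall ?_)
        intro t ht
        rw [norm_mul]
        gcongr
        · rw [Real.norm_eq_abs, abs_of_nonneg (by linarith [speed_pos (g := C.g) t])]
          exact speed_le C.hg t
        · exact hb1 t ht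
    · exact measurableSet_Ioo
    · intro t ht
      rw [hUj j hj t ht]
      have h5 := speed_pos (g := C.g) t
      have h6 := sq_nonneg ((Iic (c j)).indicator (1 : ℝ → ℝ) t - reP q (gcur C.R C.g t))
      have h7 : (reP q (pt C.R t (C.g t)) - (Iic (c j)).indicator (1 : ℝ → ℝ) t) ^ 2 =
          ((Iic (c j)).indicator (1 : ℝ → ℝ) t - reP q (gcur C.R C.g t)) ^ 2 := by
        unfold gcur
        ring
      rw [h7]
      nlinarith
  -- sum over the boxes
  set H : ℕ → Set (ℝ × ℝ) := fun j => hbox C.g (c j) ε (2 * ((C.K + 1) * ε)) with hH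
  have hHm : ∀ j, MeasurableSet (H j) := fun j => (hbox_open C.cont_g _ _ _).measurableSet
  have hHsub : ∀ j ∈ Finset.range n, H j ⊆ (fun p : ℝ × ℝ => pt C.R p.1 p.2) ⁻¹' Ω := by
    rintro j hj p ⟨h1, h2, h3⟩
    have h4 := hIsub j hj p.1 h1
    have h5 : |p.2 - C.s0| < 2 * h := by
      have h6 : |c j - C.t0| < δ := hIsub j hj (c j) (by rw [sub_self, abs_zero]; exact hε0)
      have h7 := B.g_bound hg0 h6
      calc |p.2 - C.s0| = |(p.2 - C.g (c j)) + (C.g (c j) - C.s0)| := by congr 1; ring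
        _ ≤ |p.2 - C.g (c j)| + |C.g (c j) - C.s0| := abs_add_le _ _
        _ < 2 * h := by linarith
    exact (B.mem_iff h4 h5).2 h3
  have hint : IntegrableOn (fun p : ℝ × ℝ => dens q q (pt C.R p.1 p.2))
      ((fun p : ℝ × ℝ => pt C.R p.1 p.2) ⁻¹' Ω) :=
    ((pt_mp C.R).integrableOn_comp_preimage (pt_me C.R)).2 (D.int_bulk (continuous_dens q q))
  have htot : ∫ p in (fun p : ℝ × ℝ => pt C.R p.1 p.2) ⁻¹' Ω, dens q q (pt C.R p.1 p.2) =
      en Ω q q := (pt_mp C.R).setIntegral_preimage_emb (pt_me C.R) _ _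
  have hdisj : Pairwise (Function.onFun Disjoint H) := by
    have h1 : ∀ i j : ℕ, i < j → Disjoint (H i) (H j) := by
      intro i j hij
      rw [Set.disjoint_left]
      rintro p ⟨h1, -, -⟩ ⟨h2, -, -⟩
      have h3 := hcj i j hij
      rw [abs_lt] at h1 h2
      linarith [h1.2, h2.1]
    intro i j hij
    rcases lt_or_gt_of_ne hij with h2 | h2
    · exact h1 i j h2
    · exact (h1 j i h2).symm
  have hsum : ∑ j ∈ Finset.range n, ∫ p in H j, dens q q (pt C.R p.1 p.2) ≤ en Ω q q := by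
    rw [← htot, ← integral_biUnion_finset]
    · apply setIntegral_mono_set hint
      · exact Eventually.of_forall fun p => dens_self_nonneg q _
      · exact (iUnion₂_subset hHsub).eventuallyLE
    · intro j _
      exact hHm j
    · exact hdisj.set_pairwise _
    · intro j hj
      exact hint.mono_set (hHsub j hj)
  refine le_trans ?_ hsum
  calc (n : ℝ) * κ = ∑ _j ∈ Finset.range n, κ := by simp
    _ ≤ _ := Finset.sum_le_sum hboxE

/-- The density hypothesis. -/
def Dense2 (Ω : Set E2) : Prop :=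
  ∀ g : E2 → ℝ, MemLp g 2 ((μH[1] : Measure E2).restrict (frontier Ω)) → ∀ ε : ℝ, 0 < ε →
    ∃ q ∈ Submodule.span ℝ {f : ℂ[X] | ∃ σ, EigC Ω f σ},
      eLpNorm (fun y => g y - reP q y) 2 ((μH[1] : Measure E2).restrict (frontier Ω)) <
        ENNReal.ofReal ε

theorem sigma_unbounded {Ω : Set E2} (D : Dom Ω) {x0 : E2} (C : Chart Ω x0)
    (hx0 : x0 ∈ frontier Ω) (hd : Dense2 Ω) (M : ℝ) :
    ∃ f σ, EigC Ω f σ ∧ M * bdf Ω f f < en Ω f f := by
  by_contra hcon
  push Not at hcon
  obtain ⟨κ, hκ, n0, hlow⟩ := energy_lower D C hx0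
  set μ := (μH[1] : Measure E2).restrict (frontier Ω) with hμ
  have hfinμ : IsFiniteMeasure μ := ⟨by rw [hμ, Measure.restrict_apply_univ]; exact D.fin⟩
  set ℓ := μ.real univ with hℓ
  have hℓ0 : 0 ≤ ℓ := measureReal_nonneg
  have hbdf : ∀ f, 0 ≤ bdf Ω f f := fun f => integral_nonneg fun y => mul_self_nonneg _
  set M' := max M 0 with hM'
  have hM'0 : 0 ≤ M' := le_max_right _ _
  have hup : ∀ q ∈ Submodule.span ℝ {f : ℂ[X] | ∃ σ, EigC Ω f σ}, en Ω q q ≤ M' * bdf Ω q q := by
    intro q hq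
    apply energy_upper D _ hq
    intro f σ hf
    refine (hcon f σ hf).trans ?_
    exact mul_le_mul_of_nonneg_right (le_max_left _ _) (hbdf f)
  obtain ⟨n1, hn1⟩ := exists_nat_gt (M' * (2 * ℓ + 2) / κ)
  obtain ⟨A, η, hAm, hη, hA⟩ := hlow (max n0 n1) (le_max_left _ _)
  set g : E2 → ℝ := A.indicator 1 with hg
  have hgm : Measurable g := measurable_const.indicator hAm
  have hgb : ∀ y, ‖g y‖ ≤ 1 := by
    intro y
    by_cases h3 : y ∈ A
    · rw [hg, indicator_of_mem h3]; simp
    · rw [hg, indicator_of_notMem h3]; simp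
  have hgL : MemLp g 2 μ :=
    MemLp.of_bound hgm.aestronglyMeasurable 1 (Eventually.of_forall hgb)
  set ε := min 1 (Real.sqrt η) with hε
  have hε0 : 0 < ε := lt_min one_pos (Real.sqrt_pos.2 hη)
  obtain ⟨q, hq, hq2⟩ := hd g hgL ε hε0
  obtain ⟨Mq, hMq⟩ := D.exists_bound (continuous_reP q)
  have hqL : MemLp (reP q) 2 μ := by
    apply MemLp.of_bound (continuous_reP q).aestronglyMeasurable Mq
    exact (ae_restrict_iff' isClosed_frontier.measurableSet).2 (Eventually.of_forall hMq)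
  have hdL : MemLp (fun y => g y - reP q y) 2 μ := hgL.sub hqL
  have hsq : ∫ y, (g y - reP q y) ^ 2 ∂μ < ε ^ 2 := by
    rw [hdL.eLpNorm_eq_integral_rpow_norm (by norm_num) (by norm_num),
      ENNReal.ofReal_lt_ofReal_iff hε0] at hq2
    simp only [ENNReal.toReal_ofNat, Real.rpow_two, Real.norm_eq_abs, sq_abs] at hq2
    have h1 : 0 ≤ ∫ y, (g y - reP q y) ^ 2 ∂μ := integral_nonneg fun y => sq_nonneg _
    have h2 : ((∫ y, (g y - reP q y) ^ 2 ∂μ) ^ (2 : ℝ)⁻¹) ^ 2 = ∫ y, (g y - reP q y) ^ 2 ∂μ := by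
      rw [← Real.rpow_natCast, ← Real.rpow_mul h1]
      norm_num
    rw [← h2]
    exact pow_lt_pow_left₀ hq2 (Real.rpow_nonneg h1 _) two_ne_zero
  have hsq1 : ∫ y, (g y - reP q y) ^ 2 ∂μ ≤ 1 := by
    refine hsq.le.trans ?_
    have : ε ≤ 1 := min_le_left _ _
    nlinarith
  have hsq2 : ∫ y, (g y - reP q y) ^ 2 ∂μ ≤ η := by
    refine hsq.le.trans ?_
    have h1 : ε ≤ Real.sqrt η := min_le_right _ _
    calc ε ^ 2 ≤ (Real.sqrt η) ^ 2 := by gcongr
      _ = η := Real.sq_sqrt hη.le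
  have h1 := hA q hsq2
  have h2 := hup q hq
  have h3 : bdf Ω q q ≤ 2 * ℓ + 2 := by
    have h4 : Integrable (fun y => (g y - reP q y) ^ 2) μ := hdL.integrable_sq
    have h5 : bdf Ω q q ≤ ∫ y, (2 + 2 * (g y - reP q y) ^ 2) ∂μ := by
      apply integral_mono (D.int_frontier ((continuous_reP q).mul (continuous_reP q)))
        ((integrable_const _).add (h4.const_mul 2))
      intro y
      have h6 : (g y) ^ 2 ≤ 1 := by
        have := hgb y
        rw [Real.norm_eq_abs] at this
        rw [← sq_abs]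
        nlinarith [abs_nonneg (g y)]
      change reP q y * reP q y ≤ 2 + 2 * (g y - reP q y) ^ 2
      nlinarith [sq_nonneg (2 * g y - reP q y)]
    rw [integral_add (integrable_const _) (h4.const_mul 2), integral_const, integral_const_mul,
      smul_eq_mul] at h5
    rw [← hℓ] at h5
    linarith
  have h4 : (n1 : ℝ) * κ ≤ M' * (2 * ℓ + 2) := by
    calc (n1 : ℝ) * κ ≤ ((max n0 n1 : ℕ) : ℝ) * κ := by
          gcongr
          exact le_max_right _ _
      _ ≤ en Ω q q := h1
      _ ≤ M' * bdf Ω q q := h2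
      _ ≤ _ := by gcongr
  rw [div_lt_iff₀ hκ] at hn1
  linarith

end Pool.Agent.Lib.MP_9ebc94_an
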