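import Mathlib

/-!
Places over `z = ∞` of a finite extension of `ℂ(z)`, with the compatibility of the derivation.
-/

namespace Pool.Agent.Lib.MP_9ebc94_an

open WithZero IsDedekindDomain

/-- A place of the field `L` at which `z` has a pole, compatible with the derivation `D = d/dz`.
The valuation is written multiplicatively: large values mean poles. -/
structure Place (L : Type*) [Field L] [Algebra ℂ L] (D : Derivation ℂ L L) (z : L) where
  v : Valuation L ℤᵐ⁰
  p : ℤ
  hp : 0 < p
  vz : v z = exp p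
  vC : ∀ c : ℂ, c ≠ 0 → v (algebraMap ℂ L c) = 1
  res : ∀ x, v x ≤ 1 → ∃ c : ℂ, v (x - algebraMap ℂ L c) < 1
  vD : ∀ x, v x ≠ 1 → v (D x) = v x * exp (-p)
  Dz : D z = 1

section Existence

variable {L : Type*} [Field L] [Algebra ℂ L]

theorem z_ne_zero (D : Derivation ℂ L L) (z : L) (hz : D z = 1) : z ≠ 0 := by
  rintro rfl
  simp at hz

theorem D_inv (D : Derivation ℂ L L) (z : L) (hz : D z = 1) : D z⁻¹ = -(z⁻¹) ^ 2 := by
  rw [Derivation.leibniz_inv, hz]
  simp

theorem not_algebraic_inv (D : Derivation ℂ L L) (z : L) (hz : D z = 1) (c : ℂ) :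
    z⁻¹ ≠ algebraMap ℂ L c := by
  intro h
  have h1 := D_inv D z hz
  rw [h, Derivation.map_algebraMap] at h1
  have h2 : (algebraMap ℂ L c) ^ 2 = 0 := by
    rw [eq_comm, neg_eq_zero] at h1
    exact h1
  have h3 : algebraMap ℂ L c = 0 := by simpa using h2
  rw [h3] at h
  exact z_ne_zero D z hz (inv_eq_zero.1 h)

/-- an element algebraic over `ℂ` is a constant -/
theorem const_of_isAlgebraic {x : L} (h : IsAlgebraic ℂ x) : ∃ c : ℂ, x = algebraMap ℂ L c := by
  have hd := IsAlgClosed.degree_eq_one_of_irreducible ℂ (minpoly.irreducible h.isIntegral)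
  obtain ⟨c, hc⟩ := minpoly.mem_range_of_degree_eq_one ℂ x hd
  exact ⟨c, hc.symm⟩

theorem aeval_inv_ne_zero (D : Derivation ℂ L L) (z : L) (hz : D z = 1) (P : Polynomial ℂ)
    (hP : P ≠ 0) : Polynomial.aeval z⁻¹ P ≠ 0 := by
  intro h
  obtain ⟨c, hc⟩ := const_of_isAlgebraic (x := z⁻¹) ⟨P, hP, h⟩
  exact not_algebraic_inv D z hz c hc

/-- the polynomial subring `ℂ[x]` of `L` -/
noncomputable abbrev polyRing (x : L) : Subalgebra ℂ L := Algebra.adjoin ℂ {x}

theorem mem_polyRing {x a : L} (ha : a ∈ polyRing x) : ∃ P : Polynomial ℂ, Polynomial.aeval x P = a := by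
  rw [polyRing, Algebra.adjoin_singleton_eq_range_aeval] at ha
  obtain ⟨P, hP⟩ := ha
  exact ⟨P, hP⟩

theorem aeval_mem_polyRing (x : L) (P : Polynomial ℂ) : Polynomial.aeval x P ∈ polyRing x := by
  rw [polyRing, Algebra.adjoin_singleton_eq_range_aeval]
  exact ⟨P, rfl⟩

instance isPrincipal_polyRing (x : L) : IsPrincipalIdealRing (polyRing x) := by
  have h : Function.Surjective ((Polynomial.aeval (R := ℂ) (⟨x, Algebra.self_mem_adjoin_singleton ℂ x⟩ : polyRing x)).toRingHom) := by
    rintro ⟨a, ha⟩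
    obtain ⟨P, rfl⟩ := mem_polyRing ha
    refine ⟨P, ?_⟩
    apply Subtype.ext
    simp
  exact IsPrincipalIdealRing.of_surjective _ h

/-- the derivation maps `ℂ[1/z]` to itself -/
theorem D_polyRing (D : Derivation ℂ L L) (z : L) (hz : D z = 1) {a : L} (ha : a ∈ polyRing z⁻¹) :
    D a ∈ polyRing z⁻¹ := by
  obtain ⟨P, rfl⟩ := mem_polyRing ha
  rw [Derivation.map_aeval, D_inv D z hz]
  have : Polynomial.aeval z⁻¹ (Polynomial.derivative P * -(Polynomial.X) ^ 2) ∈ polyRing z⁻¹ :=
    aeval_mem_polyRing _ _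
  simpa using this

open scoped IntermediateField.algebraAdjoinAdjoin in
theorem not_isIntegral (D : Derivation ℂ L L) (z : L) (hz : D z = 1) :
    ¬ IsIntegral (polyRing z⁻¹) z := by
  intro hint
  have hz0 := z_ne_zero D z hz
  have hzK : z ∈ IntermediateField.adjoin ℂ {z⁻¹} := by
    have h1 : z⁻¹ ∈ IntermediateField.adjoin ℂ {z⁻¹} :=
      IntermediateField.mem_adjoin_simple_self ℂ z⁻¹
    have h2 := (IntermediateField.adjoin ℂ {z⁻¹}).inv_mem h1
    rwa [inv_inv] at h2
  have h3 : IsIntegral (polyRing z⁻¹) (⟨z, hzK⟩ : IntermediateField.adjoin ℂ {z⁻¹}) := by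
    rw [← isIntegral_algebraMap_iff (A := IntermediateField.adjoin ℂ {z⁻¹}) (B := L)
      (FaithfulSMul.algebraMap_injective _ _)]
    exact hint
  obtain ⟨⟨a, ha⟩, hy⟩ := IsIntegrallyClosed.algebraMap_eq_of_integral h3
  have hya : a = z := congrArg Subtype.val hy
  obtain ⟨Q, hQ⟩ := mem_polyRing ha
  have h4 : Polynomial.aeval z⁻¹ (Polynomial.X * Q - 1) = 0 := by
    rw [map_sub, map_mul, Polynomial.aeval_X, hQ, hya, inv_mul_cancel₀ hz0, map_one, sub_self]
  refine aeval_inv_ne_zero D z hz _ ?_ h4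
  intro h5
  have h6 := congrArg (Polynomial.eval 0) h5
  simp at h6

/-- the prime over `x = 0` used to define the place -/
theorem exists_prime (D : Derivation ℂ L L) (z : L) (hz : D z = 1) :
    ∃ P : Ideal (integralClosure (polyRing z⁻¹) L), P.IsMaximal ∧ P ≠ ⊥ ∧
      (algebraMap (polyRing z⁻¹) (integralClosure (polyRing z⁻¹) L)
        ⟨z⁻¹, Algebra.self_mem_adjoin_singleton ℂ z⁻¹⟩) ∈ P := by
  set x := z⁻¹ with hx
  have hz0 := z_ne_zero D z hz
  have hx0 : x ≠ 0 := inv_ne_zero hz0
  set X : polyRing x := ⟨x, Algebra.self_mem_adjoin_singleton ℂ x⟩ with hX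
  set Y := algebraMap (polyRing x) (integralClosure (polyRing x) L) X with hY
  have hYx : (algebraMap (integralClosure (polyRing x) L) L) Y = x := rfl
  have hY0 : Y ≠ 0 := by
    intro h
    rw [h, map_zero] at hYx
    exact hx0 hYx.symm
  have hspan : Ideal.span {Y} ≠ ⊤ := by
    intro h
    rw [Ideal.span_singleton_eq_top] at h
    obtain ⟨b, hb⟩ := h.exists_right_inv
    have hbz : (algebraMap (integralClosure (polyRing x) L) L) b = z := by
      have h1 := congrArg (algebraMap (integralClosure (polyRing x) L) L) hb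
      rw [map_mul, map_one, hYx] at h1
      have h2 : x * z = 1 := inv_mul_cancel₀ hz0
      exact mul_left_cancel₀ hx0 (h1.trans h2.symm)
    have hint : IsIntegral (polyRing x) z := by
      rw [← hbz]
      exact b.2
    exact not_isIntegral D z hz hint
  obtain ⟨P, hP, hle⟩ := Ideal.exists_le_maximal _ hspan
  have hmem : Y ∈ P := hle (Ideal.mem_span_singleton_self Y)
  refine ⟨P, hP, ?_, hmem⟩
  rintro rfl
  exact hY0 (by simpa using hmem)

end Existence

section Compat

variable {L : Type*} [Field L] [Algebra ℂ L]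

theorem lt_one_iff {a : ℤᵐ⁰} : a < 1 ↔ a ≤ exp (-1) := by
  induction a using expRecOn with
  | zero => simp
  | exp a =>
    rw [← exp_zero, exp_lt_exp, exp_le_exp]
    omega

theorem exists_exp {a : ℤᵐ⁰} (ha : a ≠ 0) : ∃ n : ℤ, a = exp n := ⟨log a, (exp_log ha).symm⟩

theorem taylor (D : Derivation ℂ L L) (v : Valuation L ℤᵐ⁰) (t : L) (ht : v t = exp (-1))
    (res : ∀ x, v x ≤ 1 → ∃ c : ℂ, v (x - algebraMap ℂ L c) < 1) (n : ℕ) :
    ∀ y, v y ≤ 1 → ∃ u w, v u ≤ 1 ∧ v w ≤ 1 ∧ D y = u * D t + t ^ n * D w := by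
  have ht0 : t ≠ 0 := by
    rintro rfl
    rw [map_zero] at ht
    exact exp_ne_zero ht.symm
  have htle : v t ≤ 1 := by
    rw [ht, ← exp_zero, exp_le_exp]; omega
  induction n with
  | zero => intro y hy; exact ⟨0, y, by simp, hy, by simp⟩
  | succ n ih =>
    intro y hy
    obtain ⟨u, w, hu, hw, h⟩ := ih y hy
    obtain ⟨c, hc⟩ := res w hw
    set w' := (w - algebraMap ℂ L c) / t with hw'
    have hw2 : w = algebraMap ℂ L c + t * w' := by
      rw [hw']
      field_simp
      ring
    have hw1 : v w' ≤ 1 := by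
      have h1 : w - algebraMap ℂ L c = t * w' := by
        rw [hw']
        field_simp
      rw [h1, map_mul, ht, lt_one_iff] at hc
      calc v w' = exp 1 * (exp (-1) * v w') := by
            rw [← mul_assoc, ← exp_add]; simp
        _ ≤ exp 1 * exp (-1) := by gcongr
        _ = 1 := by rw [← exp_add]; simp
    refine ⟨u + t ^ n * w', w', ?_, hw1, ?_⟩
    · refine (v.map_add _ _).trans (max_le hu ?_)
      rw [map_mul, map_pow]
      exact mul_le_one' (pow_le_one' htle n) hw1
    · rw [h]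
      conv_lhs => rw [hw2]
      rw [map_add, Derivation.map_algebraMap, Derivation.leibniz]
      simp only [smul_eq_mul]
      ring

theorem v_intCast (v : Valuation L ℤᵐ⁰) (vC : ∀ c : ℂ, c ≠ 0 → v (algebraMap ℂ L c) = 1) (m : ℤ)
    (hm : m ≠ 0) : v (m : L) = 1 := by
  have := vC (m : ℂ) (by exact_mod_cast hm)
  rwa [map_intCast] at this

theorem compat (D : Derivation ℂ L L) (v : Valuation L ℤᵐ⁰) (t z : L) (ht : v t = exp (-1))
    (vC : ∀ c : ℂ, c ≠ 0 → v (algebraMap ℂ L c) = 1)
    (res : ∀ x, v x ≤ 1 → ∃ c : ℂ, v (x - algebraMap ℂ L c) < 1) (M : ℤ)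
    (hM : ∀ y, v y ≤ 1 → v (D y) ≤ exp M) (hz : D z = 1) (p : ℤ) (hp : 0 < p) (vz : v z = exp p)
    (x : L) (hx : v x ≠ 1) : v (D x) = v x * exp (-p) := by
  have ht0 : t ≠ 0 := by
    rintro rfl
    rw [map_zero] at ht
    exact exp_ne_zero ht.symm
  have hz0 := z_ne_zero D z hz
  have hbound : ∀ y, v y ≤ 1 → ∀ n : ℕ, v (D y) ≤ max (v (D t)) (exp (M - n)) := by
    intro y hy n
    obtain ⟨u, w, hu, hw, h⟩ := taylor D v t ht res n y hy
    rw [h]
    refine (v.map_add _ _).trans (max_le_max ?_ ?_)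
    · rw [map_mul]
      exact mul_le_of_le_one_left' hu
    · rw [map_mul, map_pow, ht, ← exp_nsmul, sub_eq_neg_add, exp_add]
      have h1 : exp (n • (-1 : ℤ)) = exp (-(n : ℤ)) := by simp
      rw [h1]
      exact mul_le_mul_right (hM w hw) _
  have hDt : D t ≠ 0 := by
    intro h0
    have h1 : v z⁻¹ ≤ 1 := by
      rw [map_inv₀, vz, ← exp_neg, ← exp_zero, exp_le_exp]; omega
    have h2 : ∀ n : ℕ, v (D z⁻¹) ≤ exp (M - n) := by
      intro n
      have := hbound _ h1 n
      rwa [h0, map_zero, max_eq_right zero_le] at this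
    rw [D_inv D z hz, Valuation.map_neg, map_pow, map_inv₀, vz, ← exp_neg, ← exp_nsmul] at h2
    have h3 := h2 (M + 2 * p + 1).toNat
    rw [exp_le_exp, nsmul_eq_mul] at h3
    push_cast at h3
    have h4 := Int.self_le_toNat (M + 2 * p + 1)
    omega
  obtain ⟨e, he⟩ := exists_exp ((Valuation.ne_zero_iff v).2 hDt)
  have hO : ∀ y, v y ≤ 1 → v (D y) ≤ v (D t) := by
    intro y hy
    have h1 := hbound y hy (M - e).toNat
    rw [he] at h1 ⊢
    refine h1.trans (max_le le_rfl ?_)
    rw [exp_le_exp]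
    have := Int.self_le_toNat (M - e)
    omega
  have hmain : ∀ y : L, v y ≠ 1 → v (D y) = v y * exp 1 * v (D t) := by
    intro y hy
    by_cases hy0 : y = 0
    · subst hy0; simp
    obtain ⟨m, hm⟩ := exists_exp ((Valuation.ne_zero_iff v).2 hy0)
    have hm0 : m ≠ 0 := by
      rintro rfl
      exact hy hm
    set u := y * t ^ m with hu
    have hvu : v u = 1 := by
      rw [hu, map_mul, hm, map_zpow₀, ht, ← exp_zsmul, ← exp_add, ← exp_zero]
      congr 1
      simp
    have hyu : y = t ^ (-m) * u := by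
      rw [hu, mul_comm y, ← mul_assoc, ← zpow_add₀ ht0]
      simp
    have hDy : D y = (-m : ℤ) * t ^ (-m - 1) * u * D t + t ^ (-m) * D u := by
      conv_lhs => rw [hyu]
      rw [Derivation.leibniz, Derivation.leibniz_zpow]
      simp only [smul_eq_mul, zsmul_eq_mul]
      ring
    have h1 : v ((-m : ℤ) * t ^ (-m - 1) * u * D t) = exp (m + 1) * v (D t) := by
      rw [map_mul, map_mul, map_mul, v_intCast v vC _ (neg_ne_zero.2 hm0), hvu, map_zpow₀, ht,
        ← exp_zsmul, one_mul, mul_one]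
      congr 2
      simp
      ring
    have h2 : v (t ^ (-m) * D u) ≤ exp m * v (D t) := by
      rw [map_mul, map_zpow₀, ht, ← exp_zsmul]
      have : (-m) • (-1 : ℤ) = m := by simp
      rw [this]
      exact mul_le_mul_right (hO u hvu.le) _
    have h3 : v (t ^ (-m) * D u) < v ((-m : ℤ) * t ^ (-m - 1) * u * D t) := by
      refine lt_of_le_of_lt h2 ?_
      rw [h1, he, ← exp_add, ← exp_add, exp_lt_exp]
      omega
    rw [hDy, Valuation.map_add_eq_of_lt_left v h3, h1, hm, exp_add]
  have hvz1 : v z ≠ 1 := by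
    rw [vz, Ne, exp_eq_one]; omega
  have hz2 := hmain z hvz1
  rw [hz, map_one, vz] at hz2
  have he2 : exp 1 * v (D t) = exp (-p) := by
    have : exp p * (exp 1 * v (D t)) = exp p * exp (-p) := by
      rw [← mul_assoc, ← hz2, ← exp_add, add_neg_cancel, exp_zero]
    exact mul_left_cancel₀ exp_ne_zero this
  rw [hmain x hx, mul_assoc, he2]

end Compat

section Residue

theorem residue {A B : Type*} [CommRing A] [CommRing B] [Algebra ℂ A] [Algebra A B]
    [Algebra.IsIntegral A B] (X : A) (hX : ∀ a : A, ∃ Q : Polynomial ℂ, a = Polynomial.aeval X Q)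
    (P : Ideal B) [hP : P.IsPrime] (hx : algebraMap A B X ∈ P) (b : B) :
    ∃ c : ℂ, b - algebraMap A B (algebraMap ℂ A c) ∈ P := by
  set π : A →+* B ⧸ P := (Ideal.Quotient.mk P).comp (algebraMap A B) with hπ
  set ι : ℂ →+* B ⧸ P := π.comp (algebraMap ℂ A) with hι
  have hπX : π X = 0 := by
    rw [hπ, RingHom.comp_apply]
    exact Ideal.Quotient.eq_zero_iff_mem.2 hx
  have hrange : ∀ a : A, π a ∈ Set.range ι := by
    intro a
    obtain ⟨Q, hQ⟩ := hX a
    refine ⟨Q.coeff 0, ?_⟩
    have h2 : Polynomial.aeval X Q = X * Polynomial.aeval X Q.divX +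
        algebraMap ℂ A (Q.coeff 0) := by
      conv_lhs => rw [← Polynomial.divX_mul_X_add Q]
      rw [map_add, map_mul, Polynomial.aeval_X, Polynomial.aeval_C, mul_comm]
    rw [hQ, h2, map_add, map_mul, hπX, zero_mul, zero_add]
    rfl
  have hint : ∀ y : B ⧸ P, ι.IsIntegralElem y := by
    intro y
    obtain ⟨b', rfl⟩ := Ideal.Quotient.mk_surjective y
    obtain ⟨q, hqm, hq0⟩ := Algebra.IsIntegral.isIntegral (R := A) b'
    have hlift : q.map π ∈ Polynomial.lifts ι := by
      rw [Polynomial.lifts_iff_coeff_lifts]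
      intro n
      rw [Polynomial.coeff_map]
      exact hrange _
    obtain ⟨q0, hq1, -, hq2⟩ := Polynomial.lifts_and_natDegree_eq_and_monic hlift (hqm.map π)
    refine ⟨q0, hq2, ?_⟩
    rw [← Polynomial.eval_map, hq1, Polynomial.eval_map, hπ]
    have := congrArg (Ideal.Quotient.mk P) hq0
    rwa [Polynomial.hom_eval₂, map_zero] at this
  let _ : Algebra ℂ (B ⧸ P) := ι.toAlgebra
  have : Algebra.IsIntegral ℂ (B ⧸ P) := ⟨hint⟩
  obtain ⟨c, hc⟩ := (IsAlgClosed.algebraMap_bijective_of_isIntegral (k := ℂ)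
    (K := B ⧸ P)).2 (Ideal.Quotient.mk P b)
  refine ⟨c, ?_⟩
  rw [← Ideal.Quotient.eq_zero_iff_mem, map_sub, ← hc]
  exact sub_self _

theorem place_aux {A B L : Type*} [CommRing A] [CommRing B] [IsDedekindDomain B] [Field L]
    [Algebra ℂ A] [Algebra A B] [Algebra B L] [IsFractionRing B L] [Algebra ℂ L]
    [Algebra.IsIntegral A B] [Module.Finite A B]
    (X : A) (hX : ∀ a : A, ∃ Q : Polynomial ℂ, a = Polynomial.aeval X Q)
    (hC : ∀ c : ℂ, algebraMap B L (algebraMap A B (algebraMap ℂ A c)) = algebraMap ℂ L c)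
    (D : Derivation ℂ L L) (z : L) (hz : D z = 1)
    (hXz : algebraMap B L (algebraMap A B X) = z⁻¹)
    (hDA : ∀ a : A, ∃ a' : A, D (algebraMap B L (algebraMap A B a)) =
      algebraMap B L (algebraMap A B a'))
    (V : HeightOneSpectrum B) (hV : algebraMap A B X ∈ V.asIdeal) :
    Nonempty (Place L D z) := by
  classical
  have hz0 := z_ne_zero D z hz
  set v := V.valuation L with hv
  have hvx : v z⁻¹ < 1 := by
    rw [← hXz]
    exact (V.valuation_lt_one_iff_mem _).2 hV
  have hvz0 : v z ≠ 0 := (Valuation.ne_zero_iff v).2 hz0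
  obtain ⟨p, hp⟩ := exists_exp hvz0
  have hp0 : 0 < p := by
    rw [map_inv₀, hp, ← exp_neg, ← exp_zero, exp_lt_exp] at hvx
    omega
  have hvC : ∀ c : ℂ, c ≠ 0 → v (algebraMap ℂ L c) = 1 := by
    intro c hc
    have h1 : ∀ c : ℂ, v (algebraMap ℂ L c) ≤ 1 := by
      intro c
      rw [← hC]
      exact V.valuation_le_one _
    have h2 := h1 c⁻¹
    rw [map_inv₀, map_inv₀] at h2
    have h3 : v (algebraMap ℂ L c) ≠ 0 := (Valuation.ne_zero_iff v).2 (by simpa using hc)
    exact le_antisymm (h1 c) ((inv_le_one₀ (zero_lt_iff.2 h3)).1 h2)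
  have hres : ∀ x, v x ≤ 1 → ∃ c : ℂ, v (x - algebraMap ℂ L c) < 1 := by
    intro x hx
    obtain ⟨b, hb⟩ := V.exists_valuation_sub_lt_of_integer hx 1
    have := V.isPrime
    obtain ⟨c, hc⟩ := residue X hX V.asIdeal hV b
    refine ⟨c, ?_⟩
    have h1 : x - algebraMap ℂ L c = -(algebraMap B L b - x) +
        algebraMap B L (b - algebraMap A B (algebraMap ℂ A c)) := by
      rw [map_sub, hC]; ring
    rw [h1]
    refine Valuation.map_add_lt v ?_ ?_
    · rw [Valuation.map_neg]
      simpa using hb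
    · exact (V.valuation_lt_one_iff_mem _).2 hc
  obtain ⟨t, ht⟩ := V.valuation_exists_uniformizer L
  have hM : ∃ M : ℤ, ∀ y, v y ≤ 1 → v (D y) ≤ exp M := by
    have hB : ∃ M : ℤ, ∀ b : B, v (D (algebraMap B L b)) ≤ exp M := by
      obtain ⟨S, hS⟩ := (Module.Finite.fg_top : (⊤ : Submodule A B).FG)
      have h1 : ∃ M : ℤ, 0 ≤ M ∧ ∀ s ∈ S, v (D (algebraMap B L s)) ≤ exp M := by
        clear hS
        induction S using Finset.induction_on with
        | empty => exact ⟨0, le_rfl, by simp⟩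
        | insert a S ha ih =>
          obtain ⟨M, hM0, hM⟩ := ih
          have h2 : ∃ m : ℤ, v (D (algebraMap B L a)) ≤ exp m := by
            by_cases h : v (D (algebraMap B L a)) = 0
            · exact ⟨0, by rw [h]; exact zero_le⟩
            · obtain ⟨m, hm⟩ := exists_exp h
              exact ⟨m, hm.le⟩
          obtain ⟨m, hm⟩ := h2
          refine ⟨max m M, le_max_of_le_right hM0, fun s hs => ?_⟩
          rw [Finset.mem_insert] at hs
          rcases hs with rfl | hs
          · exact hm.trans (exp_le_exp.2 (le_max_left _ _))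
          · exact (hM s hs).trans (exp_le_exp.2 (le_max_right _ _))
      obtain ⟨M, hM0, hM⟩ := h1
      refine ⟨M, fun b => ?_⟩
      have hb : b ∈ Submodule.span A (S : Set B) := by rw [hS]; trivial
      induction hb using Submodule.span_induction with
      | mem x hx => exact hM x hx
      | zero => simp
      | add x y _ _ hx hy =>
        rw [map_add, map_add]
        exact (v.map_add _ _).trans (max_le hx hy)
      | smul a x _ hx =>
        obtain ⟨a', ha'⟩ := hDA a
        rw [Algebra.smul_def, map_mul, Derivation.leibniz, ha']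
        simp only [smul_eq_mul]
        refine (v.map_add _ _).trans (max_le ?_ ?_)
        · rw [map_mul]
          exact (mul_le_of_le_one_left' (V.valuation_le_one _)).trans hx
        · rw [map_mul]
          refine (mul_le_one' (V.valuation_le_one _) (V.valuation_le_one _)).trans ?_
          rw [← exp_zero, exp_le_exp]
          exact hM0
    obtain ⟨M, hM⟩ := hB
    refine ⟨M, fun y hy => ?_⟩
    obtain ⟨n, d, hnd⟩ := V.exists_primeCompl_mul_eq_of_integer y hy
    have hd1 : v (algebraMap B L d) = 1 := V.valuation_eq_one_iff_notMem.2 d.2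
    have h1 : D y * algebraMap B L d = D (algebraMap B L n) - y * D (algebraMap B L d) := by
      rw [← hnd, Derivation.leibniz]
      simp only [smul_eq_mul]
      ring
    have h2 : v (D y) = v (D y * algebraMap B L d) := by rw [map_mul, hd1, mul_one]
    rw [h2, h1]
    refine (v.map_sub _ _).trans (max_le (hM _) ?_)
    rw [map_mul]
    exact (mul_le_of_le_one_left' hy).trans (hM _)
  obtain ⟨M, hM⟩ := hM
  have hvD : ∀ x, v x ≠ 1 → v (D x) = v x * exp (-p) := fun x hx =>
    compat D v t z ht hvC hres M hM hz p hp0 hp x hx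
  exact ⟨⟨v, p, hp0, hp, hvC, hres, hvD, hz⟩⟩


open scoped IntermediateField.algebraAdjoinAdjoin in
theorem exists_place {L : Type*} [Field L] [Algebra ℂ L] (D : Derivation ℂ L L) (z : L) (hz : D z = 1)
    [FiniteDimensional (IntermediateField.adjoin ℂ {z⁻¹}) L] : Nonempty (Place L D z) := by
  classical
  have hprime := exists_prime D z hz
  set x := z⁻¹ with hx
  obtain ⟨P, hPmax, hPbot, hPmem⟩ := hprime
  have hz0 := z_ne_zero D z hz
  have hx0 : x ≠ 0 := inv_ne_zero hz0
  have : CharZero (IntermediateField.adjoin ℂ {x}) := inferInstance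
  have : Algebra.IsSeparable (IntermediateField.adjoin ℂ {x}) L := inferInstance
  have hDed : IsDedekindDomain (integralClosure (polyRing x) L) :=
    integralClosure.isDedekindDomain (polyRing x) (IntermediateField.adjoin ℂ {x}) L
  have hFrac : IsFractionRing (integralClosure (polyRing x) L) L :=
    IsIntegralClosure.isFractionRing_of_finite_extension (polyRing x)
      (IntermediateField.adjoin ℂ {x}) L (integralClosure (polyRing x) L)
  have hFin : Module.Finite (polyRing x) (integralClosure (polyRing x) L) :=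
    IsIntegralClosure.finite (polyRing x) (IntermediateField.adjoin ℂ {x}) L
      (integralClosure (polyRing x) L)
  have : Algebra.IsIntegral (polyRing x) (integralClosure (polyRing x) L) := inferInstance
  refine place_aux (A := polyRing x) (B := integralClosure (polyRing x) L)
    ⟨x, Algebra.self_mem_adjoin_singleton ℂ x⟩ ?_ ?_ D z hz rfl ?_ ⟨P, hPmax.isPrime, hPbot⟩ hPmem
  · intro a
    obtain ⟨Q, hQ⟩ := mem_polyRing a.2
    refine ⟨Q, ?_⟩
    apply Subtype.ext
    rw [← hQ]
    simp
  · intro c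
    rfl
  · intro a
    exact ⟨⟨D a, D_polyRing D z hz a.2⟩, rfl⟩

end Residue

end Pool.Agent.Lib.MP_9ebc94_an
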