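import Pool.Agent.Lib.MP_9ebc94_an.Bdry

/-!
The pointwise equation almost everywhere on the boundary curve, and the arcs.
-/

namespace Pool.Agent.Lib.MP_9ebc94_an

open MeasureTheory Set Filter Metric Polynomial
open scoped NNReal ENNReal ContDiff

theorem hasDerivAt_gcur (R : E2 ≃ₗᵢ[ℝ] E2) {g : ℝ → ℝ} {t : ℝ} (hg : DifferentiableAt ℝ g t) :
    HasDerivAt (gcur R g) (pt R 1 (deriv g t)) t := by
  have h2 : gcur R g = fun t : ℝ => t • pt R 1 0 + g t • pt R 0 1 := by
    ext1 t; exact pt_eq _ _ _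
  rw [h2, pt_eq R 1 (deriv g t)]
  exact ((hasDerivAt_id t).smul_const (pt R 1 0)).add (hg.hasDerivAt.smul_const (pt R 0 1))

theorem lineDeriv_one (F : ℝ → ℝ) (t : ℝ) : lineDeriv ℝ F t 1 = deriv F t := by
  unfold lineDeriv
  simp only [smul_eq_mul, mul_one]
  rw [deriv_comp_const_add, add_zero]

theorem lineDeriv_neg_one (F : ℝ → ℝ) (t : ℝ) (hF : DifferentiableAt ℝ F t) :
    lineDeriv ℝ F t (-1) = - deriv F t := by
  rw [hF.lineDeriv_eq_fderiv, map_neg, ← fderiv_apply_one_eq_deriv]

theorem speed_le {g : ℝ → ℝ} {K : ℝ≥0} (hg : LipschitzWith K g) (t : ℝ) :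
    speed g t ≤ 1 + K := by
  unfold speed
  have h1 : |deriv g t| ≤ K := by
    have := norm_deriv_le_of_lipschitz (x₀ := t) hg
    rwa [Real.norm_eq_abs] at this
  apply Real.sqrt_le_iff.2
  have hK : (0 : ℝ) ≤ K := K.2
  refine ⟨by linarith, ?_⟩
  have h2 := sq_abs (deriv g t)
  nlinarith [abs_nonneg (deriv g t)]

namespace Chart

variable {Ω : Set E2} {x0 : E2} {C : Chart Ω x0}

theorem ae_eq (hΩo : IsOpen Ω) (hg0 : C.g C.t0 = C.s0) {δ h : ℝ} (B : C.Box δ h)
    {ε : ℝ} (hε : ε = 1 ∨ ε = -1)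
    (hfr : toC (pt C.R 0 1) = ε * Complex.I * toC (pt C.R 1 0)) {f : ℂ[X]} {σ : ℝ}
    (hE : EigC Ω f σ) :
    ∀ᵐ t, t ∈ Ioo (C.t0 - δ) (C.t0 + δ) → DifferentiableAt ℝ C.g t →
      ε * ((derivative f).eval (toC (gcur C.R C.g t)) * toC (pt C.R 1 (deriv C.g t))).im =
        σ * (speed C.g t * reP f (gcur C.R C.g t)) := by
  let b : ContDiffBump x0 := ⟨C.r, 2 * C.r, C.hr, by linarith [C.hr]⟩
  have hbsupp : HasCompactSupport (b : E2 → ℝ) := b.hasCompactSupport
  have hb1 : ∀ y ∈ ball x0 C.r, b y = 1 := fun y hy =>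
    b.one_of_mem_closedBall (ball_subset_closedBall hy)
  have hcur : ∀ t ∈ Ioo (C.t0 - δ) (C.t0 + δ), gcur C.R C.g t ∈ ball x0 C.r := by
    intro t ht
    have h1 := abs_sub_lt_iff_Ioo.2 ht
    have h2 := B.g_bound hg0 h1
    exact B.mem_ball h1 (by have := B.hh; linarith)
  set V : E2 → ℝ := fun y => b y * imP f y with hV
  set Q : E2 → ℝ := fun y => b y * reP f y with hQ
  have hVc : ContDiff ℝ ∞ V := b.contDiff.mul (contDiff_imP f)
  have hQc : ContDiff ℝ ∞ Q := b.contDiff.mul (contDiff_reP f)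
  have hVs : HasCompactSupport V := hbsupp.mul_right
  have hQs : HasCompactSupport Q := hbsupp.mul_right
  obtain ⟨L1, hL1⟩ := ContDiff.lipschitzWith_of_hasCompactSupport hVs hVc (by simp)
  have hGlip : LipschitzWith (L1 * (1 + C.K)) (fun t => V (gcur C.R C.g t)) :=
    hL1.comp (gcur_lip C.R C.hg)
  set G : ℝ → ℝ := fun t => V (gcur C.R C.g t) with hG
  obtain ⟨M, hM⟩ := hQs.exists_bound_of_continuous hQc.continuous
  set H : ℝ → ℝ := fun t => ε * deriv G t - σ * (speed C.g t * Q (gcur C.R C.g t)) with hH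
  have hHm : Measurable H := by
    refine ((measurable_deriv G).const_mul ε).sub ((speed_meas.mul ?_).const_mul σ)
    exact (hQc.continuous.comp (gcur_lip C.R C.hg).continuous).measurable
  have hHb : ∀ t, ‖H t‖ ≤ |ε| * (L1 * (1 + C.K)) + |σ| * ((1 + C.K) * M) := by
    intro t
    rw [hH]
    refine (norm_sub_le _ _).trans (add_le_add ?_ ?_)
    · rw [norm_mul, Real.norm_eq_abs]
      gcongr
      have := norm_deriv_le_of_lipschitz (x₀ := t) hGlip
      simpa using this
    · rw [norm_mul, norm_mul, Real.norm_eq_abs]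
      gcongr
      · rw [Real.norm_eq_abs, abs_of_nonneg (by linarith [speed_pos (g := C.g) t])]
        exact speed_le C.hg t
      · exact hM _
  have hHi : LocallyIntegrable H := by
    have h1 : MemLp H ⊤ volume := memLp_top_of_bound hHm.aestronglyMeasurable _
      (Eventually.of_forall hHb)
    exact h1.locallyIntegrable le_top
  have key : ∀ᵐ t, t ∈ Ioo (C.t0 - δ) (C.t0 + δ) → H t = 0 := by
    apply isOpen_Ioo.ae_eq_zero_of_integral_contDiff_smul_eq_zero (hHi.locallyIntegrableOn _)
    intro φ hφ hφs hφt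
    obtain ⟨D, hD⟩ := ContDiff.lipschitzWith_of_hasCompactSupport hφs hφ (by simp)
    have h1 := LipschitzWith.integral_lineDeriv_mul_eq (μ := volume) hGlip hD hφs 1
    simp_rw [lineDeriv_one] at h1
    have h2 : ∀ t, lineDeriv ℝ φ t (-1) = - deriv φ t := fun t =>
      lineDeriv_neg_one φ t (hφ.differentiable (by simp) t)
    simp_rw [h2] at h1
    have h3 := weak_curve hΩo hg0 B hε hfr hE hφ hφt
    have hout : ∀ t, t ∉ Ioo (C.t0 - δ) (C.t0 + δ) → φ t = 0 ∧ deriv φ t = 0 := by
      intro t ht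
      have h4 : t ∉ tsupport φ := fun h5 => ht (hφt h5)
      refine ⟨image_eq_zero_of_notMem_tsupport h4, ?_⟩
      rw [(notMem_tsupport_iff_eventuallyEq.1 h4).deriv_eq]
      simp
    have h4 : ∫ t, deriv φ t * imP f (gcur C.R C.g t) = ∫ t, deriv φ t * G t := by
      congr 1
      ext t
      by_cases ht : t ∈ Ioo (C.t0 - δ) (C.t0 + δ)
      · simp only [hG, hV, hb1 _ (hcur t ht), one_mul]
      · rw [(hout t ht).2, zero_mul, zero_mul]
    have h5 : ∫ t in Ioo (C.t0 - δ) (C.t0 + δ), speed C.g t * (reP f (gcur C.R C.g t) * φ t) =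
        ∫ t, φ t * (speed C.g t * Q (gcur C.R C.g t)) := by
      rw [← integral_indicator measurableSet_Ioo]
      congr 1
      ext t
      by_cases ht : t ∈ Ioo (C.t0 - δ) (C.t0 + δ)
      · rw [indicator_of_mem ht]
        simp only [hQ, hb1 _ (hcur t ht), one_mul]
        ring
      · rw [indicator_of_notMem ht, (hout t ht).1, zero_mul]
    have hi1 : Integrable fun t => φ t * (ε * deriv G t) := by
      have h6 : LocallyIntegrable (fun t => ε * deriv G t) := by
        have h7 : MemLp (fun t => ε * deriv G t) ⊤ volume :=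
          memLp_top_of_bound ((measurable_deriv G).const_mul ε).aestronglyMeasurable
            (|ε| * (L1 * (1 + C.K))) (Eventually.of_forall fun t => by
              rw [norm_mul, Real.norm_eq_abs]
              gcongr
              have := norm_deriv_le_of_lipschitz (x₀ := t) hGlip
              simpa using this)
        exact h7.locallyIntegrable le_top
      exact h6.integrable_smul_left_of_hasCompactSupport hφ.continuous hφs
    have hi2 : Integrable fun t => φ t * (σ * (speed C.g t * Q (gcur C.R C.g t))) := by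
      have h6 : LocallyIntegrable (fun t => σ * (speed C.g t * Q (gcur C.R C.g t))) := by
        have h7 : MemLp (fun t => σ * (speed C.g t * Q (gcur C.R C.g t))) ⊤ volume :=
          memLp_top_of_bound ((speed_meas.mul (hQc.continuous.comp
            (gcur_lip C.R C.hg).continuous).measurable).const_mul σ).aestronglyMeasurable
            (|σ| * ((1 + C.K) * M)) (Eventually.of_forall fun t => by
              rw [norm_mul, norm_mul, Real.norm_eq_abs]
              gcongr
              · rw [Real.norm_eq_abs, abs_of_nonneg (by linarith [speed_pos (g := C.g) t])]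
                exact speed_le C.hg t
              · exact hM _)
        exact h7.locallyIntegrable le_top
      exact h6.integrable_smul_left_of_hasCompactSupport hφ.continuous hφs
    have h6 : ∫ t, φ t • H t = (∫ t, φ t * (ε * deriv G t)) -
        ∫ t, φ t * (σ * (speed C.g t * Q (gcur C.R C.g t))) := by
      rw [← integral_sub hi1 hi2]
      congr 1
      ext t
      simp only [hH, smul_eq_mul]
      ring
    rw [h6]
    have h7 : ∫ t, φ t * (ε * deriv G t) = ε * ∫ t, deriv G t * φ t := by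
      rw [← integral_const_mul]
      congr 1
      ext t
      ring
    have h8 : ∫ t, φ t * (σ * (speed C.g t * Q (gcur C.R C.g t))) =
        σ * ∫ t, φ t * (speed C.g t * Q (gcur C.R C.g t)) := by
      rw [← integral_const_mul]
      congr 1
      ext t
      ring
    have h9 : ∫ t, - deriv φ t * G t = - ∫ t, deriv φ t * G t := by
      rw [← integral_neg]
      congr 1
      ext t
      ring
    rw [h7, h8, ← h5, ← h3, h4, h1, h9]
    ring
  filter_upwards [key] with t ht hmem hdiff
  have h1 := ht hmem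
  have h2 : deriv G t = ((derivative f).eval (toC (gcur C.R C.g t)) *
      toC (pt C.R 1 (deriv C.g t))).im := by
    have h3 : G =ᶠ[nhds t] fun t => imP f (gcur C.R C.g t) := by
      filter_upwards [Ioo_mem_nhds hmem.1 hmem.2] with s hs
      simp only [hG, hV, hb1 _ (hcur s hs), one_mul]
    rw [h3.deriv_eq]
    have h4 : HasDerivAt (fun t => imP f (gcur C.R C.g t))
        (fderiv ℝ (imP f) (gcur C.R C.g t) (pt C.R 1 (deriv C.g t))) t :=
      (hasFDerivAt_imP f _).differentiableAt.hasFDerivAt.comp_hasDerivAt t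
        (hasDerivAt_gcur C.R hdiff)
    rw [h4.deriv, fderiv_imP]
  simp only [hH, h2] at h1
  have h5 : Q (gcur C.R C.g t) = reP f (gcur C.R C.g t) := by
    simp only [hQ, hb1 _ (hcur t hmem), one_mul]
  rw [h5] at h1
  linarith

theorem exists_arc (C : Chart Ω x0) (hΩo : IsOpen Ω) (hx0 : x0 ∈ frontier Ω)
    {S : Set (ℂ[X] × ℝ)} (hS : S.Countable) (hE : ∀ s ∈ S, EigC Ω s.1 s.2) {η : ℝ} (hη : 0 < η) :
    ∃ (γ γ' T : ℝ → ℂ) (Z : Set ℝ) (a b : ℝ), Arc S γ γ' T Z a b ∧
      ∀ t ∈ Ioo a b, ∃ y ∈ frontier Ω, dist y x0 < η ∧ toC y = γ t := by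
  have hg0 := C.g_t0 hΩo hx0
  obtain ⟨δ, h, B, hδη⟩ := C.exists_box hη
  obtain ⟨ε, hε, hfr⟩ := frame C.R
  have hδ := B.hδ
  set I := Ioo (C.t0 - δ) (C.t0 + δ) with hI
  set Z : Set ℝ := {t | DifferentiableAt ℝ C.g t ∧ ∀ s ∈ S,
    ε * ((derivative s.1).eval (toC (gcur C.R C.g t)) * toC (pt C.R 1 (deriv C.g t))).im =
        s.2 * (speed C.g t * reP s.1 (gcur C.R C.g t))} with hZ
  have hae : ∀ᵐ t, t ∈ I → t ∈ Z := by
    have h1 := C.hg.ae_differentiableAt_real
    have h2 : ∀ᵐ t, ∀ s ∈ S, t ∈ I → DifferentiableAt ℝ C.g t →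
      ε * ((derivative s.1).eval (toC (gcur C.R C.g t)) * toC (pt C.R 1 (deriv C.g t))).im =
        s.2 * (speed C.g t * reP s.1 (gcur C.R C.g t)) := by
      rw [ae_ball_iff hS]
      intro s hs
      exact ae_eq hΩo hg0 B hε hfr (hE s hs)
    filter_upwards [h1, h2] with t ht1 ht2 ht3
    exact ⟨ht1, fun s hs => ht2 s hs ht3 ht1⟩
  have hε0 : ε ≠ 0 := by rcases hε with h | h <;> rw [h] <;> norm_num
  have hε1 : |ε| = 1 := by rcases hε with h | h <;> rw [h] <;> norm_num
  have hsp : ∀ t, speed C.g t ≠ 0 := fun t => by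
    have := speed_pos (g := C.g) t
    exact ne_of_gt (by linarith)
  refine ⟨fun t => toC (gcur C.R C.g t), fun t => toC (pt C.R 1 (deriv C.g t)),
    fun t => ((ε / speed C.g t : ℝ) : ℂ) * toC (pt C.R 1 (deriv C.g t)), Z,
    C.t0 - δ, C.t0 + δ, ?_, ?_⟩
  · refine ⟨by linarith, ?_, ?_, ?_, ?_, ?_, ?_, ?_⟩
    · exact (toC.continuous.comp (gcur_lip C.R C.hg).continuous).continuousOn
    · intro x _ y _ hxy
      exact (gcur_me C.R C.hg).injective (toC.injective hxy)
    · intro c d hc hcd hd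
      by_contra hcon
      push Not at hcon
      have h1 : Ioo c d ⊆ {t | ¬ (t ∈ I → t ∈ Z)} := by
        intro t ht
        simp only [Set.mem_ofPred_eq, Classical.not_imp]
        exact ⟨⟨hc.trans_lt ht.1, ht.2.trans_le hd⟩, hcon t ht⟩
      have h2 : volume (Ioo c d) = 0 := measure_mono_null h1 (ae_iff.1 hae)
      rw [Real.volume_Ioo, ENNReal.ofReal_eq_zero] at h2
      linarith
    · intro t _ htZ
      exact (toC.toContinuousLinearEquiv : E2 →L[ℝ] ℂ).hasFDerivAt.comp_hasDerivAt t
        (hasDerivAt_gcur C.R htZ.1)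
    · intro t _ _
      rw [norm_mul, LinearIsometryEquiv.norm_map, norm_pt, Complex.norm_real, Real.norm_eq_abs,
        abs_div, hε1, abs_of_nonneg (by linarith [speed_pos (g := C.g) t]), one_pow]
      exact div_mul_cancel₀ _ (hsp t)
    · intro t _ _
      refine ⟨ε * speed C.g t, mul_ne_zero hε0 (hsp t), ?_⟩
      rw [← mul_assoc, ← Complex.ofReal_mul]
      have h1 : ε * speed C.g t * (ε / speed C.g t) = 1 := by
        have h2 : ε * ε = 1 := by rcases hε with h | h <;> rw [h] <;> norm_num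
        field_simp [hsp t]
        linarith
      rw [h1]
      simp
    · intro s hs t _ htZ
      have h1 := htZ.2 s hs
      have h2 : (derivative s.1).eval (toC (gcur C.R C.g t)) *
          (((ε / speed C.g t : ℝ) : ℂ) * toC (pt C.R 1 (deriv C.g t))) =
          ((ε / speed C.g t : ℝ) : ℂ) * ((derivative s.1).eval (toC (gcur C.R C.g t)) *
            toC (pt C.R 1 (deriv C.g t))) := by ring
      rw [h2, Complex.im_ofReal_mul]
      have h3 : ε / speed C.g t * ((derivative s.1).eval (toC (gcur C.R C.g t)) *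
            toC (pt C.R 1 (deriv C.g t))).im = (ε * ((derivative s.1).eval (toC (gcur C.R C.g t)) *
            toC (pt C.R 1 (deriv C.g t))).im) / speed C.g t := by ring
      rw [h3, h1]
      unfold reP
      field_simp [hsp t]
  · intro t ht
    have h1 := abs_sub_lt_iff_Ioo.2 ht
    refine ⟨gcur C.R C.g t, B.cur_mem hΩo hg0 h1, ?_, rfl⟩
    have h2 := C.dist_x0 t (C.g t)
    have h3 := B.g_bound hg0 h1
    have h4 := B.hh
    unfold gcur
    linarith

end Chart

end Pool.Agent.Lib.MP_9ebc94_an
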