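import Pool.Agent.Lib.MP_9ebc94_an.Deg

/-!
From the local to the global statement.
-/

namespace Pool.Agent.Lib.MP_9ebc94_an

open MeasureTheory Set Filter Metric Polynomial
open scoped NNReal ENNReal ContDiff ComplexConjugate

variable {Ω : Set E2}

theorem pre_frontier {t s : Set E2} (ht : IsPreconnected t) (h1 : (t ∩ s).Nonempty)
    (h2 : (t ∩ sᶜ).Nonempty) : (t ∩ frontier s).Nonempty := by
  by_contra hcon
  have hout : ∀ z ∈ t, z ∉ frontier s := fun z hz h => hcon ⟨z, hz, h⟩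
  have h3 := ht (interior s) (closure s)ᶜ isOpen_interior isClosed_closure.isOpen_compl ?_ ?_ ?_
  · obtain ⟨z, -, hz1, hz2⟩ := h3
    exact hz2 (subset_closure (interior_subset hz1))
  · intro z hz
    by_contra h
    rw [mem_union, not_or, mem_compl_iff, not_not] at h
    exact hout z hz ⟨h.2, h.1⟩
  · obtain ⟨z, hz, hzs⟩ := h1
    refine ⟨z, hz, ?_⟩
    by_contra h
    exact hout z hz ⟨subset_closure hzs, h⟩
  · obtain ⟨z, hz, hzs⟩ := h2
    refine ⟨z, hz, ?_⟩
    intro h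
    exact hout z hz ⟨h, fun h4 => hzs (interior_subset h4)⟩

theorem ray_hits (hb : Bornology.IsBounded Ω) {p u : E2} (hp : p ∈ Ω) (hu : u ≠ 0) :
    ∃ s : ℝ, 0 ≤ s ∧ p + s • u ∈ frontier Ω := by
  by_contra hcon
  push Not at hcon
  set ray : Set E2 := (fun s : ℝ => p + s • u) '' Ici 0 with hray
  have hpre : IsPreconnected ray := by
    apply isPreconnected_Ici.image
    fun_prop
  have h1 : (ray ∩ Ω).Nonempty := ⟨p, ⟨0, self_mem_Ici, by simp⟩, hp⟩
  have h2 : ray ⊆ Ω := by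
    by_contra h3
    rw [Set.not_subset] at h3
    obtain ⟨z, hz1, hz2⟩ := h3
    obtain ⟨w, ⟨s, hs, rfl⟩, hw2⟩ := pre_frontier hpre h1 ⟨z, hz1, hz2⟩
    exact hcon s hs hw2
  obtain ⟨M, hM⟩ := hb.exists_norm_le
  have hu0 : 0 < ‖u‖ := norm_pos_iff.2 hu
  have hM0 : 0 ≤ M := (norm_nonneg p).trans (hM p hp)
  set s := (M + ‖p‖ + 1) / ‖u‖ with hs
  have hs0 : 0 ≤ s := by positivity
  have h3 := hM (p + s • u) (h2 ⟨s, hs0, rfl⟩)
  have h4 : ‖s • u‖ ≤ ‖p + s • u‖ + ‖p‖ := by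
    have : s • u = (p + s • u) - p := by abel
    calc ‖s • u‖ = ‖(p + s • u) - p‖ := by rw [← this]
      _ ≤ _ := norm_sub_le _ _
  rw [norm_smul, Real.norm_eq_abs, abs_of_nonneg hs0, hs, div_mul_cancel₀ _ hu0.ne'] at h4
  linarith

theorem eq_ball (hΩo : IsOpen Ω) (hb : Bornology.IsBounded Ω) (hne : Ω.Nonempty) {c : E2} {r : ℝ}
    (hr : 0 < r) (hfr : frontier Ω ⊆ sphere c r) : Ω = ball c r := by
  have h1 : ∀ p ∈ Ω, dist p c ≤ r := by
    intro p hp
    by_contra hcon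
    push Not at hcon
    have hu : p - c ≠ 0 := by
      intro h
      rw [sub_eq_zero] at h
      rw [h, dist_self] at hcon
      linarith
    obtain ⟨s, hs, h2⟩ := ray_hits hb hp hu
    have h3 := hfr h2
    rw [mem_sphere, dist_eq_norm] at h3
    have h4 : p + s • (p - c) - c = (1 + s) • (p - c) := by
      rw [add_smul, one_smul]; abel
    rw [h4, norm_smul, Real.norm_eq_abs, abs_of_nonneg (by linarith), ← dist_eq_norm] at h3
    nlinarith
  have h2 : Ω ⊆ ball c r := by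
    intro p hp
    rw [mem_ball]
    apply lt_of_le_of_ne (h1 p hp)
    intro h
    obtain ⟨ε, hε, hball⟩ := Metric.isOpen_iff.1 hΩo p hp
    have h3 : p + (ε / (2 * r)) • (p - c) ∈ Ω := by
      apply hball
      rw [mem_ball, dist_eq_norm, add_sub_cancel_left, norm_smul, Real.norm_eq_abs,
        abs_of_nonneg (by positivity), ← dist_eq_norm, h]
      have : ε / (2 * r) * r = ε / 2 := by field_simp
      rw [this]
      linarith
    have h4 := h1 _ h3
    rw [dist_eq_norm] at h4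
    have h5 : p + (ε / (2 * r)) • (p - c) - c = (1 + ε / (2 * r)) • (p - c) := by
      rw [add_smul, one_smul]; abel
    rw [h5, norm_smul, Real.norm_eq_abs, abs_of_nonneg (by positivity), ← dist_eq_norm, h] at h4
    have h6 : 0 < ε / (2 * r) := by positivity
    nlinarith
  apply Subset.antisymm h2
  by_contra h3
  rw [Set.not_subset] at h3
  obtain ⟨z, hz1, hz2⟩ := h3
  obtain ⟨p, hp⟩ := hne
  obtain ⟨w, hw1, hw2⟩ := pre_frontier (convex_ball c r).isPreconnected
    ⟨p, h2 hp, hp⟩ ⟨z, hz1, hz2⟩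
  have h4 := hfr hw2
  rw [mem_sphere] at h4
  rw [mem_ball] at hw1
  linarith

theorem exists_off {U : Set E2} (hU : IsOpen U) (hne : U.Nonempty) (l W : ℂ) :
    (U ∩ {y | conj (toC y) ≠ l * toC y + W}).Nonempty := by
  by_contra hcon
  rw [Set.not_nonempty_iff_eq_empty] at hcon
  have h1 : ∀ y ∈ U, conj (toC y) = l * toC y + W := by
    intro y hy
    by_contra h
    have : y ∈ U ∩ {y | conj (toC y) ≠ l * toC y + W} := ⟨hy, h⟩
    rw [hcon] at this
    exact this
  obtain ⟨y0, hy0⟩ := hne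
  obtain ⟨ε, hε, hball⟩ := Metric.isOpen_iff.1 hU y0 hy0
  have h2 : ∀ z : ℂ, ‖z‖ = 1 → conj z = l * z := by
    intro z hz
    have h3 : y0 + (ε / 2) • toC.symm z ∈ U := by
      apply hball
      rw [mem_ball, dist_eq_norm, add_sub_cancel_left, norm_smul, Real.norm_eq_abs,
        abs_of_nonneg (by positivity), LinearIsometryEquiv.norm_map, hz]
      linarith
    have h4 := h1 _ h3
    have h5 := h1 _ hy0
    rw [map_add, map_smul, LinearIsometryEquiv.apply_symm_apply, map_add, h5,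
      Complex.real_smul, map_mul, Complex.conj_ofReal] at h4
    have h6 : ((ε / 2 : ℝ) : ℂ) ≠ 0 := by
      rw [Complex.ofReal_ne_zero]
      positivity
    apply mul_left_cancel₀ h6
    linear_combination h4
  have h3 := h2 1 (by simp)
  have h4 := h2 Complex.I (by simp)
  rw [map_one, mul_one] at h3
  rw [← h3, Complex.conj_I, one_mul] at h4
  have h5 := congrArg Complex.im h4
  simp at h5
  norm_num at h5

theorem off_open (l W : ℂ) : IsOpen {y : E2 | conj (toC y) ≠ l * toC y + W} := by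
  apply isOpen_ne_fun
  · exact Complex.continuous_conj.comp toC.continuous
  · exact (continuous_const.mul toC.continuous).add continuous_const

theorem not_two_lines (hΩo : IsOpen Ω) (hb : Bornology.IsBounded Ω) (hne : Ω.Nonempty)
    {l1 W1 l2 W2 u : ℂ} (hu : u ≠ 0) (hul : conj u = l1 * u)
    (hfr : ∀ y ∈ frontier Ω, conj (toC y) = l1 * toC y + W1 ∨ conj (toC y) = l2 * toC y + W2) :
    False := by
  have h1 := exists_off hΩo hne l1 W1
  obtain ⟨p, ⟨hp0, hp1⟩, hp2⟩ := exists_off (hΩo.inter (off_open l1 W1)) h1 l2 W2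
  rw [Set.mem_ofPred_eq] at hp1 hp2
  set v : E2 := toC.symm u with hv
  have hv0 : v ≠ 0 := by
    intro h
    apply hu
    have := congrArg toC h
    rwa [hv, LinearIsometryEquiv.apply_symm_apply, map_zero] at this
  have hline : ∀ s : ℝ, toC (p + s • v) = toC p + s * u := by
    intro s
    rw [map_add, map_smul, hv, LinearIsometryEquiv.apply_symm_apply, Complex.real_smul]
  have hno1 : ∀ s : ℝ, conj (toC (p + s • v)) ≠ l1 * toC (p + s • v) + W1 := by
    intro s h
    rw [hline, map_add, map_mul, Complex.conj_ofReal, hul] at h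
    apply hp1
    linear_combination h
  obtain ⟨s1, hs1, h2⟩ := ray_hits hb hp0 hv0
  obtain ⟨s2, hs2, h3⟩ := ray_hits hb hp0 (neg_ne_zero.2 hv0)
  have h4 : p + s2 • -v = p + (-s2) • v := by simp
  rw [h4] at h3
  have h5 := (hfr _ h2).resolve_left (hno1 _)
  have h6 := (hfr _ h3).resolve_left (hno1 _)
  rw [hline, map_add, map_mul, Complex.conj_ofReal] at h5 h6
  push_cast at h6
  have h7 : ((s1 + s2 : ℝ) : ℂ) * (conj u - l2 * u) = 0 := by
    push_cast
    linear_combination h5 - h6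
  rcases mul_eq_zero.1 h7 with h | h
  · rw [Complex.ofReal_eq_zero] at h
    have h8 : s1 = 0 := by linarith
    rw [h8] at h5
    apply hp2
    push_cast at h5
    linear_combination h5
  · apply hp2
    linear_combination h5 - s1 * h

theorem frontier_nonempty (hb : Bornology.IsBounded Ω) (hne : Ω.Nonempty) :
    (frontier Ω).Nonempty := by
  obtain ⟨p, hp⟩ := hne
  have hv : (pt (LinearIsometryEquiv.refl ℝ E2) 1 0) ≠ 0 := by
    intro h
    have := congrArg norm h
    rw [norm_pt] at this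
    simp at this
  obtain ⟨s, -, h⟩ := ray_hits hb hp hv
  exact ⟨_, h⟩

theorem main_disk (D : Dom Ω) (hne : Ω.Nonempty)
    (hch : ∀ x ∈ frontier Ω, Nonempty (Chart Ω x)) (hd : Dense2 Ω) :
    ∃ c r, Ω = ball c r := by
  obtain ⟨z0, hz0⟩ := frontier_nonempty D.bd hne
  obtain ⟨C0⟩ := hch z0 hz0
  obtain ⟨S, hSc, hSE, hdeg, hσ, hunb, htwo⟩ := exists_S D C0 hz0 hd
  have key : ∀ x ∈ frontier Ω, ∀ η : ℝ, 0 < η → ∃ y, dist y x < η ∧
      ((∃ ρ c, NumA S ρ c ∧ ‖ρ‖ * ‖toC y - c‖ = 1) ∨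
      (∃ τ W, NumB S τ W ∧ conj (toC y) = (τ ^ 2)⁻¹ * toC y + W ∧
        ∃ u ≠ 0, conj u = (τ ^ 2)⁻¹ * u)) := by
    intro x hx η hη
    obtain ⟨C⟩ := hch x hx
    obtain ⟨γ, γ', T, Z, a, b, A, hA⟩ := C.exists_arc D.op hx hSc hSE hη
    rcases arc_core hdeg hσ hunb htwo A with ⟨ρ, c, hN, t, ht, h1⟩ | ⟨τ, W, hN, t, ht, h1, h2⟩
    · obtain ⟨y, -, hy1, hy2⟩ := hA t ht
      refine ⟨y, hy1, Or.inl ⟨ρ, c, hN, ?_⟩⟩
      rw [hy2, h1]
    · obtain ⟨y, -, hy1, hy2⟩ := hA t ht
      refine ⟨y, hy1, Or.inr ⟨τ, W, hN, ?_, h2⟩⟩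
      rw [hy2, h1]
  by_cases hA : ∃ ρ c, NumA S ρ c
  · obtain ⟨ρ, c, hN⟩ := hA
    obtain ⟨s, hs, hs2⟩ := hunb 2
    have huniq : ∀ ρ' c', NumA S ρ' c' → ρ' = ρ ∧ c' = c := by
      intro ρ' c' hN'
      constructor
      · have h1 := hN.sigma s hs
        have h2 := hN'.sigma s hs
        have h3 : (s.1.natDegree : ℂ) ≠ 0 := by
          have : s.1.natDegree ≠ 0 := by omega
          exact_mod_cast this
        apply mul_right_cancel₀ h3
        rw [← h1, ← h2]
      · rw [← hN.cen s hs hs2, ← hN'.cen s hs hs2]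
    have hρ : 0 < ‖ρ‖ := norm_pos_iff.2 hN.hρ
    refine ⟨toC.symm c, ‖ρ‖⁻¹, ?_⟩
    apply eq_ball D.op D.bd hne (by positivity)
    intro x hx
    have hcl : IsClosed {y : E2 | ‖ρ‖ * ‖toC y - c‖ = 1} := by
      apply isClosed_eq
      · exact continuous_const.mul ((toC.continuous.sub continuous_const).norm)
      · exact continuous_const
    have hmem : x ∈ closure {y : E2 | ‖ρ‖ * ‖toC y - c‖ = 1} := by
      rw [Metric.mem_closure_iff]
      intro η hη
      obtain ⟨y, hy1, hy2 | hy2⟩ := key x hx η hη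
      · obtain ⟨ρ', c', hN', hy3⟩ := hy2
        obtain ⟨rfl, rfl⟩ := huniq ρ' c' hN'
        exact ⟨y, hy3, by rwa [dist_comm]⟩
      · obtain ⟨τ, W, hNB, -⟩ := hy2
        exact (num_incompat hunb hσ hN hNB).elim
    rw [hcl.closure_eq, Set.mem_ofPred_eq] at hmem
    rw [mem_sphere, dist_eq_norm]
    have h1 : ‖x - toC.symm c‖ = ‖toC x - c‖ := by
      rw [← toC.norm_map (x - toC.symm c), map_sub, LinearIsometryEquiv.apply_symm_apply]
    rw [h1]
    field_simp
    rw [mul_comm]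
    exact hmem
  · exfalso
    have key2 : ∀ x ∈ frontier Ω, ∀ η : ℝ, 0 < η → ∃ y, dist y x < η ∧
      (∃ τ W, NumB S τ W ∧ conj (toC y) = (τ ^ 2)⁻¹ * toC y + W ∧
        ∃ u ≠ 0, conj u = (τ ^ 2)⁻¹ * u) := by
      intro x hx η hη
      obtain ⟨y, hy1, hy2 | hy2⟩ := key x hx η hη
      · obtain ⟨ρ, c, hN, -⟩ := hy2
        exact (hA ⟨ρ, c, hN⟩).elim
      · exact ⟨y, hy1, hy2⟩
    obtain ⟨y1, -, τ1, W1, hN1, -, u1, hu1, hu2⟩ := key2 z0 hz0 1 one_pos
    obtain ⟨s0, hs0, -⟩ := hunb 0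
    have hSne : S.Nonempty := ⟨s0, hs0⟩
    obtain ⟨τ2, W2, hall⟩ : ∃ τ2 W2, ∀ τ W, NumB S τ W →
        (τ = τ1 ∧ W = W1) ∨ (τ = τ2 ∧ W = W2) := by
      by_cases hex : ∃ τ W, NumB S τ W ∧ τ ≠ τ1
      · obtain ⟨τ2, W2, hN2, hne2⟩ := hex
        refine ⟨τ2, W2, ?_⟩
        intro τ W hN
        rcases numB_three hσ htwo hN1 hN2 hN (Ne.symm hne2) with rfl | rfl
        · exact Or.inl ⟨rfl, numB_W hSne hN hN1⟩
        · exact Or.inr ⟨rfl, numB_W hSne hN hN2⟩
      · push Not at hex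
        refine ⟨τ1, W1, ?_⟩
        intro τ W hN
        have h1 := hex τ W hN
        subst h1
        exact Or.inl ⟨rfl, numB_W hSne hN hN1⟩
    apply not_two_lines D.op D.bd hne hu1 hu2 (W1 := W1) (l2 := (τ2 ^ 2)⁻¹) (W2 := W2)
    intro x hx
    have hcl : IsClosed {y : E2 | conj (toC y) = (τ1 ^ 2)⁻¹ * toC y + W1 ∨
        conj (toC y) = (τ2 ^ 2)⁻¹ * toC y + W2} := by
      apply IsClosed.union
      · apply isClosed_eq
        · exact Complex.continuous_conj.comp toC.continuous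
        · exact (continuous_const.mul toC.continuous).add continuous_const
      · apply isClosed_eq
        · exact Complex.continuous_conj.comp toC.continuous
        · exact (continuous_const.mul toC.continuous).add continuous_const
    have hmem : x ∈ closure {y : E2 | conj (toC y) = (τ1 ^ 2)⁻¹ * toC y + W1 ∨
        conj (toC y) = (τ2 ^ 2)⁻¹ * toC y + W2} := by
      rw [Metric.mem_closure_iff]
      intro η hη
      obtain ⟨y, hy1, τ, W, hN, hy2, -⟩ := key2 x hx η hη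
      refine ⟨y, ?_, by rwa [dist_comm]⟩
      rcases hall τ W hN with ⟨rfl, rfl⟩ | ⟨rfl, rfl⟩
      · exact Or.inl hy2
      · exact Or.inr hy2
    rw [hcl.closure_eq] at hmem
    exact hmem

end Pool.Agent.Lib.MP_9ebc94_an
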