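import Pool.Agent.Lib.MP_9ebc94_an.Local

/-!
The two types of behaviour at infinity.
-/

namespace Pool.Agent.Lib.MP_9ebc94_an

open WithZero Polynomial

theorem cen_conjP (f : ℂ[X]) : cen (conjP f) = starRingEnd ℂ (cen f) := by
  unfold cen
  rw [natDegree_conjP, coeff_conjP, leadingCoeff, natDegree_conjP, coeff_conjP]
  simp

theorem coeff_cen (f : ℂ[X]) (hn : 1 ≤ f.natDegree) :
    f.coeff (f.natDegree - 1) = -(cen f * (f.natDegree * f.leadingCoeff)) := by
  unfold cen
  have h1 : (f.natDegree : ℂ) ≠ 0 := by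
    have : f.natDegree ≠ 0 := by omega
    exact_mod_cast this
  have h2 : f.leadingCoeff ≠ 0 := by
    rw [Ne, leadingCoeff_eq_zero]
    rintro rfl
    simp at hn
  field_simp

/-- remainder after removing the two leading orders -/
noncomputable def remP (f : ℂ[X]) : ℂ[X] :=
  f - C f.leadingCoeff * (X - C (cen f)) ^ f.natDegree

theorem remP_coeff_natDegree (f : ℂ[X]) : (remP f).coeff f.natDegree = 0 := by
  rw [remP, coeff_sub, coeff_C_mul]
  have : ((X - C (cen f)) ^ f.natDegree).coeff f.natDegree = 1 := by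
    have h1 : ((X - C (cen f)) ^ f.natDegree).natDegree = f.natDegree := by
      rw [natDegree_pow, natDegree_X_sub_C, mul_one]
    have h2 : ((X - C (cen f)) ^ f.natDegree).Monic := (monic_X_sub_C _).pow _
    have h3 := h2.coeff_natDegree
    rwa [h1] at h3
  rw [this, mul_one]
  simp

theorem remP_natDegree (f : ℂ[X]) (hn : 1 ≤ f.natDegree) :
    (remP f).natDegree ≤ f.natDegree - 1 := by
  have h1 : (remP f).natDegree ≤ f.natDegree := by
    rw [remP]
    refine (natDegree_sub_le _ _).trans (max_le le_rfl ?_)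
    refine (natDegree_C_mul_le _ _).trans ?_
    rw [natDegree_pow, natDegree_X_sub_C, mul_one]
  by_contra h
  have h2 : (remP f).natDegree = f.natDegree := by omega
  have h3 := remP_coeff_natDegree f
  rw [← h2] at h3
  have h4 : remP f = 0 := leadingCoeff_eq_zero.1 h3
  rw [h4, natDegree_zero] at h
  omega

theorem remP_coeff (f : ℂ[X]) (hn : 1 ≤ f.natDegree) : (remP f).coeff (f.natDegree - 1) = 0 := by
  rw [remP, coeff_sub, coeff_C_mul, coeff_cen f hn, sub_eq_add_neg X, ← C_neg,
    coeff_X_add_C_pow]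
  have h1 : f.natDegree - (f.natDegree - 1) = 1 := by omega
  have h2 : f.natDegree.choose (f.natDegree - 1) = f.natDegree := by
    rw [Nat.choose_symm hn, Nat.choose_one_right]
  rw [h1, h2]
  ring

/-- `n f - (X - cen) f'` has degree at most `n - 2` -/
theorem euler_natDegree (f : ℂ[X]) (hn : 2 ≤ f.natDegree) :
    (C (f.natDegree : ℂ) * f - (X - C (cen f)) * derivative f).natDegree ≤ f.natDegree - 2 := by
  rw [natDegree_le_iff_coeff_eq_zero]
  intro N hN
  obtain ⟨M, rfl⟩ : ∃ M, N = M + 1 := ⟨N - 1, by omega⟩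
  rw [sub_mul, coeff_sub, coeff_sub, coeff_C_mul, coeff_C_mul, coeff_X_mul, coeff_derivative,
    coeff_derivative]
  by_cases h1 : M + 1 = f.natDegree
  · have h2 : f.coeff (M + 1 + 1) = 0 := coeff_eq_zero_of_natDegree_lt (by omega)
    rw [h2, ← h1]
    push_cast
    ring
  · by_cases h3 : M + 1 + 1 = f.natDegree
    · have h4 := coeff_cen f (by omega)
      have h5 : f.coeff f.natDegree = f.leadingCoeff := rfl
      have h6 : f.natDegree - 1 = M + 1 := by omega
      rw [h6] at h4
      rw [h4, h3, h5]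
      have h7 : (f.natDegree : ℂ) = M + 1 + 1 := by rw [← h3]; push_cast; ring
      rw [h7]
      push_cast
      ring
    · have h2 : f.coeff (M + 1 + 1) = 0 := coeff_eq_zero_of_natDegree_lt (by omega)
      have h4 : f.coeff (M + 1) = 0 := coeff_eq_zero_of_natDegree_lt (by omega)
      rw [h2, h4]
      ring

namespace Place

variable {L : Type*} [Field L] [Algebra ℂ L] {D : Derivation ℂ L L} {z : L} {P : Place L D z}

theorem rem_lead (f : ℂ[X]) (hn : 1 ≤ f.natDegree) {x : L} {ξ : ℂ} (hx : P.Lead x 1 ξ) :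
    P.Lead (aeval x f - algebraMap ℂ L f.leadingCoeff * (x - algebraMap ℂ L (cen f)) ^ f.natDegree)
      (f.natDegree - 1) 0 := by
  have h := aeval_lead (remP f) (f.natDegree - 1) (remP_natDegree f hn) hx
  rw [remP_coeff f hn, zero_mul] at h
  have h2 : aeval x (remP f) = aeval x f -
      algebraMap ℂ L f.leadingCoeff * (x - algebraMap ℂ L (cen f)) ^ f.natDegree := by
    rw [remP]
    simp
  rw [h2] at h
  convert h using 1
  push_cast [Nat.cast_sub hn]
  ring

/-- factor out `x - y` from `g(x) - g(y)` -/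
theorem factor_lead (g : ℂ[X]) (n : ℕ) (hn : g.natDegree ≤ n) {x y : L} {ξ : ℂ}
    (hx : P.Lead x 1 ξ) (hy : P.Lead y 1 ξ) :
    ∃ G : L, aeval x g - aeval y g = (x - y) * G ∧
      P.Lead G (n - 1) (n * g.coeff n * ξ ^ (n - 1)) := by
  refine ⟨∑ i ∈ Finset.range (n + 1), algebraMap ℂ L (g.coeff i) *
    ∑ j ∈ Finset.range i, x ^ j * y ^ (i - 1 - j), ?_, ?_⟩
  · rw [aeval_eq_sum g n hn, aeval_eq_sum g n hn, ← Finset.sum_sub_distrib, Finset.mul_sum]
    refine Finset.sum_congr rfl fun i _ => ?_
    rw [← mul_sub, ← geom_sum₂_mul]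
    ring
  · have h1 : ∀ i : ℕ, P.Lead (∑ j ∈ Finset.range i, x ^ j * y ^ (i - 1 - j)) (i - 1)
        (i * ξ ^ (i - 1)) := by
      intro i
      have h2 := Lead.sum (P := P) (Finset.range i) (fun j => x ^ j * y ^ (i - 1 - j))
        (fun _ => ξ ^ (i - 1)) (i - 1) (by
          intro j hj
          rw [Finset.mem_range] at hj
          have h3 := (hx.pow j).mul (hy.pow (i - 1 - j))
          rw [← pow_add] at h3
          have h4 : j + (i - 1 - j) = i - 1 := by omega
          rw [h4] at h3
          convert h3 using 1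
          have h5 : ((i - 1 - j : ℕ) : ℤ) = i - 1 - j := by omega
          rw [h5]
          ring)
      simpa using h2
    rw [Finset.sum_range_succ]
    have h2 : P.Lead (∑ i ∈ Finset.range n, algebraMap ℂ L (g.coeff i) *
        ∑ j ∈ Finset.range i, x ^ j * y ^ (i - 1 - j)) (n - 1) 0 := by
      have h3 := Lead.sum (P := P) (Finset.range n) (fun i => algebraMap ℂ L (g.coeff i) *
        ∑ j ∈ Finset.range i, x ^ j * y ^ (i - 1 - j)) (fun _ => 0) (n - 1) (by
          intro i hi
          rw [Finset.mem_range] at hi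
          refine lead_mono (j := i - 1) ((h1 i).const_mul (g.coeff i)).le ?_
          omega)
      simpa using h3
    have h3 := h2.add ((h1 n).const_mul (g.coeff n))
    convert h3 using 1
    ring

theorem v_derivative_eq (f : ℂ[X]) (hn : 1 ≤ f.natDegree) :
    P.v (aeval z (derivative f)) = exp (P.p * (f.natDegree - 1)) := by
  have h1 := aeval_lead (P := P) (derivative f) (f.natDegree - 1) (natDegree_derivative_le f) P.lead_z
  have h2 : (derivative f).coeff (f.natDegree - 1) ≠ 0 := by
    rw [coeff_derivative]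
    have h3 : f.natDegree - 1 + 1 = f.natDegree := by omega
    rw [h3]
    have h4 : f.coeff f.natDegree ≠ 0 := by
      rw [coeff_natDegree, Ne, leadingCoeff_eq_zero]
      rintro rfl
      simp at hn
    have h5 : ((f.natDegree - 1 : ℕ) : ℂ) + 1 ≠ 0 := by
      exact_mod_cast Nat.succ_ne_zero (f.natDegree - 1)
    exact mul_ne_zero h4 h5
  have h3 := h1.eq (by simpa using h2)
  rw [h3]
  congr 1
  push_cast [Nat.cast_sub hn]
  ring

theorem const_of_D_zero (P : Place L D z) {x : L} (hx : D x = 0) :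
    ∃ c : ℂ, x = algebraMap ℂ L c := by
  have key : ∀ y : L, D y = 0 → P.v y ≠ 1 → y = 0 := by
    intro y hy hy1
    have h := P.vD y hy1
    rw [hy, map_zero] at h
    have h2 := (mul_eq_zero.1 h.symm).resolve_right exp_ne_zero
    exact (Valuation.zero_iff P.v).1 h2
  by_cases h1 : P.v x = 1
  · obtain ⟨c, hc⟩ := P.res x h1.le
    refine ⟨c, ?_⟩
    have := key (x - algebraMap ℂ L c) (by rw [map_sub, hx, Derivation.map_algebraMap, sub_zero]) hc.ne
    exact sub_eq_zero.1 this
  · exact ⟨0, by rw [key x hx h1, map_zero]⟩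

/-- type A data -/
structure IsA (P : Place L D z) (S : Set (ℂ[X] × ℝ)) (w T : L) (ρ : ℂ) : Prop where
  vw : P.v w ≤ 1
  hρ : ρ ≠ 0
  lead : P.Lead T 1 (Complex.I * ρ)
  sigma : ∀ s ∈ S, (s.2 : ℂ) = ρ * s.1.natDegree
  cen : ∀ s ∈ S, 2 ≤ s.1.natDegree →
    P.v (T - algebraMap ℂ L (Complex.I * ρ) * (z - algebraMap ℂ L (cen s.1))) < 1
  bdd : ∀ s ∈ S, P.v (aeval z (derivative s.1) * T -
    algebraMap ℂ L (Complex.I * s.2) * aeval z s.1) ≤ 1

theorem typeA {w T : L} (S : Set (ℂ[X] × ℝ)) (hne : S.Nonempty)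
    (hdeg : ∀ s ∈ S, 1 ≤ s.1.natDegree) (hσ : ∀ s ∈ S, s.2 ≠ 0)
    (hE : ∀ s ∈ S, E1 z w T s.1 s.2) (hw : P.v w ≤ 1) (hT : P.v T = exp P.p) :
    ∃ ρ, IsA P S w T ρ := by
  obtain ⟨τ, hτ⟩ := P.exists_lead (x := T) (j := 1) (by rw [hT]; simp)
  have hbdd : ∀ s ∈ S, P.v (aeval z (derivative s.1) * T -
      algebraMap ℂ L (Complex.I * s.2) * aeval z s.1) ≤ 1 := by
    intro s hs
    have h1 := hE s hs
    unfold E1 at h1
    have h2 : aeval z (derivative s.1) * T - algebraMap ℂ L (Complex.I * s.2) * aeval z s.1 =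
        aeval w (derivative (conjP s.1)) * T⁻¹ +
          algebraMap ℂ L (Complex.I * s.2) * aeval w (conjP s.1) := by
      linear_combination h1
    rw [h2]
    refine (P.v.map_add _ _).trans (max_le ?_ ?_)
    · rw [map_mul, map_inv₀, hT]
      refine mul_le_one' (v_aeval_le_one _ hw) ?_
      rw [← exp_neg, ← exp_zero, exp_le_exp]
      have := P.hp
      omega
    · rw [map_mul]
      exact mul_le_one' (P.v_const_le _) (v_aeval_le_one _ hw)
  have hlc : ∀ s ∈ S, s.1.leadingCoeff ≠ 0 := by
    intro s hs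
    rw [Ne, leadingCoeff_eq_zero]
    intro h
    have := hdeg s hs
    rw [h] at this
    simp at this
  have hsig : ∀ s ∈ S, s.1.natDegree * τ = Complex.I * s.2 := by
    intro s hs
    have hn := hdeg s hs
    have h1 := aeval_lead (P := P) (derivative s.1) (s.1.natDegree - 1)
      (natDegree_derivative_le s.1) P.lead_z
    have h2 := h1.mul hτ
    have h3 := (aeval_lead (P := P) s.1 s.1.natDegree le_rfl P.lead_z).const_mul
      (Complex.I * s.2)
    have h4 : ((s.1.natDegree - 1 : ℕ) : ℤ) + 1 = s.1.natDegree := by omega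
    rw [h4] at h2
    have h5 := h2.sub h3
    have h6 : P.Lead (aeval z (derivative s.1) * T -
      algebraMap ℂ L (Complex.I * s.2) * aeval z s.1) s.1.natDegree 0 := by
      refine lead_mono (j := 0) (by simpa using hbdd s hs) ?_
      omega
    have h7 := h5.unique h6
    rw [coeff_derivative, one_pow, one_pow, mul_one, mul_one, sub_eq_zero] at h7
    have h8 : s.1.natDegree - 1 + 1 = s.1.natDegree := by omega
    have h9 : ((s.1.natDegree - 1 : ℕ) : ℂ) + 1 = s.1.natDegree := by exact_mod_cast h8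
    rw [h8, h9, coeff_natDegree] at h7
    have h10 := hlc s hs
    apply mul_left_cancel₀ h10
    linear_combination h7
  obtain ⟨s0, hs0⟩ := hne
  have hτ0 : τ ≠ 0 := by
    rintro rfl
    have h1 := hsig s0 hs0
    rw [mul_zero] at h1
    have h2 := hσ s0 hs0
    simp at h1
    exact h2 h1
  have hI : Complex.I * (-Complex.I * τ) = τ := by
    rw [← mul_assoc, mul_neg, Complex.I_mul_I]; ring
  refine ⟨-Complex.I * τ, hw, by simp [hτ0], by rw [hI]; exact hτ, ?_, ?_, hbdd⟩
  · intro s hs
    have h1 := hsig s hs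
    apply mul_left_cancel₀ Complex.I_ne_zero
    rw [← h1, ← mul_assoc, hI]
    ring
  · intro s hs hn
    rw [hI]
    have h1 := hsig s hs
    have h2 := hbdd s hs
    have h3 := euler_natDegree s.1 hn
    set g := C (s.1.natDegree : ℂ) * s.1 - (X - C (cen s.1)) * derivative s.1 with hg
    have h4 : P.v (aeval z g) ≤ exp (P.p * ((s.1.natDegree - 2 : ℕ) : ℤ)) :=
      v_aeval_le _ _ h3 (by rw [P.vz])
    have h5 : aeval z g = algebraMap ℂ L s.1.natDegree * aeval z s.1 -
        (z - algebraMap ℂ L (cen s.1)) * aeval z (derivative s.1) := by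
      rw [hg]; simp
    have h6 : aeval z (derivative s.1) * (algebraMap ℂ L s.1.natDegree *
        (T - algebraMap ℂ L τ * (z - algebraMap ℂ L (cen s.1)))) =
        algebraMap ℂ L s.1.natDegree * (aeval z (derivative s.1) * T -
          algebraMap ℂ L (Complex.I * s.2) * aeval z s.1) +
          algebraMap ℂ L (Complex.I * s.2) * aeval z g := by
      rw [h5, ← h1, map_mul]
      ring
    have h7 : P.v (aeval z (derivative s.1) * (algebraMap ℂ L s.1.natDegree *
        (T - algebraMap ℂ L τ * (z - algebraMap ℂ L (cen s.1))))) ≤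
        exp (P.p * ((s.1.natDegree - 2 : ℕ) : ℤ)) := by
      rw [h6]
      refine (P.v.map_add _ _).trans (max_le ?_ ?_)
      · rw [map_mul]
        refine (mul_le_one' (P.v_const_le _) h2).trans ?_
        rw [← exp_zero, exp_le_exp]
        have := P.hp
        positivity
      · rw [map_mul]
        exact (mul_le_of_le_one_left' (P.v_const_le _)).trans h4
    have h8 : (s.1.natDegree : ℂ) ≠ 0 := by
      have : s.1.natDegree ≠ 0 := by omega
      exact_mod_cast this
    rw [map_mul, v_derivative_eq _ (by omega), map_mul, P.vC _ h8, one_mul] at h7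
    have h9 : P.v (T - algebraMap ℂ L τ * (z - algebraMap ℂ L (cen s.1))) ≤ exp (-P.p) := by
      set V := P.v (T - algebraMap ℂ L τ * (z - algebraMap ℂ L (cen s.1)))
      calc V = exp (-(P.p * (s.1.natDegree - 1))) * (exp (P.p * (s.1.natDegree - 1)) * V) := by
            rw [← mul_assoc, ← exp_add, neg_add_cancel, exp_zero, one_mul]
        _ ≤ exp (-(P.p * (s.1.natDegree - 1))) * exp (P.p * ((s.1.natDegree - 2 : ℕ) : ℤ)) := by
            gcongr
        _ = exp (-P.p) := by
            rw [← exp_add]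
            congr 1
            push_cast [Nat.cast_sub hn]
            ring
    refine h9.trans_lt ?_
    rw [← exp_zero, exp_lt_exp]
    have := P.hp
    omega

/-- type B data; `t` is the limit of `T` and `W` the constant of the asymptote -/
structure IsB (P : Place L D z) (S : Set (ℂ[X] × ℝ)) (w T : L) (t W : ℂ) : Prop where
  vw : P.v w = exp P.p
  ht : t ≠ 0
  lead : P.Lead T 0 t
  leadw : P.Lead (w - algebraMap ℂ L (t ^ 2)⁻¹ * z) 0 W
  eqn : ∀ s ∈ S, starRingEnd ℂ (cen s.1) - (t ^ 2)⁻¹ * cen s.1 - W = -2 * Complex.I / (s.2 * t)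

theorem typeB {w T : L} (S : Set (ℂ[X] × ℝ)) (hne : S.Nonempty)
    (hdeg : ∀ s ∈ S, 1 ≤ s.1.natDegree) (hσ : ∀ s ∈ S, s.2 ≠ 0)
    (hE : ∀ s ∈ S, E1 z w T s.1 s.2) (hDw : D w * T ^ 2 = 1)
    (hw : P.v w = exp P.p) (hT : P.v T = 1) :
    ∃ t W, IsB P S w T t W := by
  obtain ⟨t, ht⟩ := P.exists_lead (x := T) (j := 0) (by rw [hT]; simp)
  obtain ⟨l, hl⟩ := P.exists_lead (x := w) (j := 1) (by rw [hw]; simp)
  have ht0 : t ≠ 0 := by
    rintro rfl
    rw [lead_zero, hT] at ht
    simp at ht
  have hlt : l * t ^ 2 = 1 := by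
    have h1 := hl.deriv.mul (ht.pow 2)
    rw [hDw] at h1
    have h2 : P.Lead (1 : L) 0 1 := by simpa using P.lead_const 1
    have h3 := h2.unique (by simpa using h1)
    rw [← h3]
  have hl0 : l ≠ 0 := by
    rintro rfl
    simp at hlt
  have hlt' : l = (t ^ 2)⁻¹ := eq_inv_of_mul_eq_one_left hlt
  have key : ∀ s ∈ S, P.Lead (w - algebraMap ℂ L l * z) 0
      (starRingEnd ℂ (cen s.1) - l * cen s.1 + 2 * Complex.I / (s.2 * t)) := by
    intro s hs
    have hn := hdeg s hs
    have hs' := hσ s hs
    have hE' := hE s hs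
    obtain ⟨f, σ⟩ := s
    simp only at hn hs' hE' ⊢
    unfold E1 at hE'
    have hn0 : (f.natDegree : ℂ) ≠ 0 := by
      have : f.natDegree ≠ 0 := by omega
      exact_mod_cast this
    have hσ0 : (σ : ℂ) ≠ 0 := by exact_mod_cast hs'
    have hlc : f.leadingCoeff ≠ 0 := by
      rw [Ne, leadingCoeff_eq_zero]
      rintro rfl
      simp at hn
    have hcast : (((f.natDegree - 1 : ℕ)) : ℤ) = f.natDegree - 1 := by omega
    set c := f.leadingCoeff with hc
    set cb := starRingEnd ℂ c with hcb
    have hcb' : (conjP f).leadingCoeff = cb := by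
      rw [leadingCoeff, natDegree_conjP, coeff_conjP]
      rfl
    have hcb0 : cb ≠ 0 := by rw [hcb]; simpa using hlc
    set n := f.natDegree with hnn
    set Φ := aeval z f + aeval w (conjP f) with hΦ
    -- leading order of Φ
    have hΦn : P.Lead Φ n (c + cb * l ^ n) := by
      have h1 := aeval_lead f n le_rfl P.lead_z
      have h2 := aeval_lead (conjP f) n (natDegree_conjP f).le hl
      have h3 := h1.add h2
      rw [one_pow, mul_one, coeff_conjP] at h3
      exact h3
    have hD1 : P.Lead (aeval z (derivative f)) (n - 1) (n * c) := by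
      have h1 := aeval_lead (P := P) (derivative f) (n - 1) (natDegree_derivative_le f) P.lead_z
      rw [coeff_derivative, one_pow, mul_one, Nat.sub_add_cancel hn, hcast] at h1
      have h2 : (((n - 1 : ℕ)) : ℂ) + 1 = n := by exact_mod_cast Nat.sub_add_cancel hn
      rw [h2] at h1
      rw [mul_comm (n : ℂ)]
      exact h1
    have hD2 : P.Lead (aeval w (derivative (conjP f))) (n - 1) (n * cb * l ^ (n - 1)) := by
      have h1 := aeval_lead (P := P) (derivative (conjP f)) (n - 1)
        ((natDegree_derivative_le _).trans (by rw [natDegree_conjP])) hl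
      rw [coeff_derivative, Nat.sub_add_cancel hn, hcast, coeff_conjP] at h1
      have h2 : (((n - 1 : ℕ)) : ℂ) + 1 = n := by exact_mod_cast Nat.sub_add_cancel hn
      rw [h2] at h1
      rw [mul_comm (n : ℂ)]
      exact h1
    have hLHS : P.Lead (aeval z (derivative f) * T - aeval w (derivative (conjP f)) * T⁻¹)
        (n - 1) (n * c * t - n * cb * l ^ (n - 1) * t⁻¹) := by
      have h1 := (hD1.mul ht).sub ((hD2.mul (ht.inv ht0)))
      simpa using h1
    have hI0 : Complex.I * σ ≠ 0 := mul_ne_zero Complex.I_ne_zero hσ0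
    have hvΦ : P.v Φ ≤ exp (P.p * (n - 1)) := by
      have h1 := hLHS.le
      rw [hE', map_mul, P.vC _ hI0, one_mul] at h1
      exact h1
    have hc1 : c + cb * l ^ n = 0 := by
      have h1 : P.Lead Φ n 0 := lead_mono hvΦ (by omega)
      exact hΦn.unique h1
    obtain ⟨φ, hφ⟩ := P.exists_lead hvΦ
    have hφ1 : n * c * t - n * cb * l ^ (n - 1) * t⁻¹ = Complex.I * σ * φ := by
      have h1 := hφ.const_mul (Complex.I * σ)
      rw [← hE'] at h1
      exact hLHS.unique h1
    -- expansion
    have hzl : P.Lead (z - algebraMap ℂ L (cen f)) 1 1 := by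
      have h1 := P.lead_z.sub (lead_mono (P := P) (x := algebraMap ℂ L (cen f)) (j := 0) (k := 1)
        (by simpa using P.v_const_le _) (by norm_num))
      simpa using h1
    have hlz : P.Lead (algebraMap ℂ L l * (z - algebraMap ℂ L (cen f))) 1 l := by
      simpa using hzl.const_mul l
    have hwl : P.Lead (w - algebraMap ℂ L (starRingEnd ℂ (cen f))) 1 l := by
      have h1 := hl.sub (lead_mono (P := P) (x := algebraMap ℂ L (starRingEnd ℂ (cen f))) (j := 0)
        (k := 1) (by simpa using P.v_const_le _) (by norm_num))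
      simpa using h1
    obtain ⟨G, hG1, hG2⟩ := factor_lead (P := P) (X ^ n) n (by simp) hwl hlz
    simp only [map_pow, aeval_X, coeff_X_pow_self, mul_one] at hG1 hG2
    have hr1 := rem_lead (P := P) f hn P.lead_z
    have hr2 := rem_lead (P := P) (conjP f) (by rw [natDegree_conjP]; exact hn) hl
    rw [cen_conjP, natDegree_conjP, hcb'] at hr2
    have hmain : P.Lead (algebraMap ℂ L cb * ((w - algebraMap ℂ L (starRingEnd ℂ (cen f)) -
        algebraMap ℂ L l * (z - algebraMap ℂ L (cen f))) * G)) (n - 1) φ := by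
      have h1 := (hφ.sub hr1).sub hr2
      rw [sub_zero, sub_zero] at h1
      convert h1 using 1
      rw [← hG1, hΦ]
      have h2 : c = - (cb * l ^ n) := by linear_combination hc1
      rw [← hnn, mul_pow, ← map_pow, ← hc, h2]
      simp only [map_neg, map_mul]
      ring
    set y := w - algebraMap ℂ L (starRingEnd ℂ (cen f)) -
        algebraMap ℂ L l * (z - algebraMap ℂ L (cen f)) with hy
    have hGlead : (n : ℂ) * l ^ (n - 1) ≠ 0 := mul_ne_zero hn0 (pow_ne_zero _ hl0)
    have hvy : P.v y ≤ exp (P.p * 0) := by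
      have h1 := hmain.le
      rw [map_mul, P.vC _ hcb0, one_mul, map_mul, hG2.eq hGlead] at h1
      rw [mul_zero, exp_zero]
      calc P.v y = P.v y * exp (P.p * (n - 1)) * exp (-(P.p * (n - 1))) := by
            rw [mul_assoc, ← exp_add, add_neg_cancel, exp_zero, mul_one]
        _ ≤ exp (P.p * (n - 1)) * exp (-(P.p * (n - 1))) := by gcongr
        _ = 1 := by rw [← exp_add, add_neg_cancel, exp_zero]
    obtain ⟨y0, hy0⟩ := P.exists_lead hvy
    have hy1 : cb * (y0 * (n * l ^ (n - 1))) = φ := by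
      have h1 := (hy0.mul hG2).const_mul cb
      rw [zero_add] at h1
      exact h1.unique hmain
    have hy2 : y0 = 2 * Complex.I / (σ * t) := by
      have h1 : l ^ n = l * l ^ (n - 1) := by
        conv_lhs => rw [← Nat.sub_add_cancel hn]
        rw [pow_succ]; ring
      rw [h1] at hc1
      have h2 : cb * l ^ (n - 1) = - (c * t ^ 2) := by
        have h3 : t ^ 2 * (c + cb * (l * l ^ (n - 1))) = 0 := by rw [hc1, mul_zero]
        linear_combination h3 - cb * l ^ (n - 1) * hlt
      rw [← hy1] at hφ1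
      have h3 : (n : ℂ) * c * t - n * (cb * l ^ (n - 1)) * t⁻¹ =
          Complex.I * σ * (y0 * n * (cb * l ^ (n - 1))) := by
        linear_combination hφ1
      rw [h2] at h3
      field_simp at h3
      have h4 : (1 + 1 : ℂ) = - (Complex.I * σ * y0 * t) := by
        linear_combination h3
      rw [eq_div_iff (mul_ne_zero hσ0 ht0)]
      linear_combination (-Complex.I) * h4 + y0 * σ * t * Complex.I_mul_I
    have h1 : w - algebraMap ℂ L l * z = y + algebraMap ℂ L (starRingEnd ℂ (cen f) - l * cen f) := by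
      rw [hy]
      simp only [map_sub, map_mul]
      ring
    rw [h1, ← hy2, add_comm _ y0]
    exact hy0.add (P.lead_const _)
  obtain ⟨s0, hs0⟩ := hne
  refine ⟨t, _, hw, ht0, ht, by rw [← hlt']; exact key s0 hs0, ?_⟩
  intro s hs
  have h1 := (key s hs).unique (key s0 hs0)
  rw [← h1, ← hlt']
  ring

end Place

end Pool.Agent.Lib.MP_9ebc94_an
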