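import Pool.Agent.Lib.MP_9ebc94_an.CurveMeas
import Pool.Agent.Lib.MP_9ebc94_an.ArcCore

/-!
The weak equation in a chart.
-/

namespace Pool.Agent.Lib.MP_9ebc94_an

open MeasureTheory Set Filter Metric Polynomial
open scoped NNReal ENNReal ContDiff

/-- identification of the plane with `ℂ` -/
noncomputable def toC : E2 ≃ₗᵢ[ℝ] ℂ := Complex.orthonormalBasisOneI.repr.symm

theorem toC_symm_apply (z : ℂ) : toC.symm z = !₂[z.re, z.im] := by
  unfold toC
  rw [LinearIsometryEquiv.symm_symm]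
  ext i
  fin_cases i <;> simp

theorem toC_re (y : E2) : (toC y).re = y 0 := by
  have h := congrArg (fun z : E2 => z 0) (toC_symm_apply (toC y))
  simp at h
  exact h.symm

theorem toC_im (y : E2) : (toC y).im = y 1 := by
  have h := congrArg (fun z : E2 => z 1) (toC_symm_apply (toC y))
  simp at h
  exact h.symm

theorem toC_pt (R : E2 ≃ₗᵢ[ℝ] E2) (t s : ℝ) :
    toC (pt R t s) = t * toC (pt R 1 0) + s * toC (pt R 0 1) := by
  rw [pt_eq, map_add, map_smul, map_smul]
  simp

theorem frame (R : E2 ≃ₗᵢ[ℝ] E2) :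
    ∃ ε : ℝ, (ε = 1 ∨ ε = -1) ∧ toC (pt R 0 1) = ε * Complex.I * toC (pt R 1 0) := by
  set a := toC (pt R 1 0) with ha
  set b := toC (pt R 0 1) with hb
  have hna : ‖a‖ = 1 := by rw [ha, LinearIsometryEquiv.norm_map, norm_pt]; simp
  have hnb : ‖b‖ = 1 := by rw [hb, LinearIsometryEquiv.norm_map, norm_pt]; simp
  have hnab : ‖a + b‖ ^ 2 = 2 := by
    have h1 : a + b = toC (pt R 1 1) := by
      rw [toC_pt R 1 1, ← ha, ← hb]; simp
    rw [h1, LinearIsometryEquiv.norm_map, norm_pt, Real.sq_sqrt (by norm_num)]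
    norm_num
  have h1 : a.re ^ 2 + a.im ^ 2 = 1 := by
    have := Complex.sq_norm a
    rw [hna, Complex.normSq_apply] at this
    nlinarith
  have h2 : b.re ^ 2 + b.im ^ 2 = 1 := by
    have := Complex.sq_norm b
    rw [hnb, Complex.normSq_apply] at this
    nlinarith
  have h3 : (a.re + b.re) ^ 2 + (a.im + b.im) ^ 2 = 2 := by
    have := Complex.sq_norm (a + b)
    rw [hnab, Complex.normSq_apply] at this
    simp only [Complex.add_re, Complex.add_im] at this
    nlinarith
  have h4 : a.re * b.re + a.im * b.im = 0 := by nlinarith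
  set d := a.re * b.im - a.im * b.re with hd
  have h5 : d ^ 2 = 1 := by
    have : d ^ 2 + (a.re * b.re + a.im * b.im) ^ 2 =
        (a.re ^ 2 + a.im ^ 2) * (b.re ^ 2 + b.im ^ 2) := by rw [hd]; ring
    rw [h4, h1, h2] at this
    linarith
  have h6 : d = 1 ∨ d = -1 := by
    have h7 : (d - 1) * (d + 1) = 0 := by linear_combination h5
    rcases mul_eq_zero.1 h7 with h | h
    · left; linarith
    · right; linarith
  refine ⟨d, h6, ?_⟩
  apply Complex.ext
  · simp only [Complex.mul_re, Complex.ofReal_re, Complex.ofReal_im, Complex.I_re, Complex.I_im,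
      Complex.mul_im]
    rw [hd]
    linear_combination (-b.re) * h1 + a.re * h4
  · simp only [Complex.mul_re, Complex.ofReal_re, Complex.ofReal_im, Complex.I_re, Complex.I_im,
      Complex.mul_im]
    rw [hd]
    linear_combination (-b.im) * h1 + a.im * h4

theorem inner_gradient (R : E2 ≃ₗᵢ[ℝ] E2) (F G : E2 → ℝ) (y : E2) :
    inner ℝ (gradient F y) (gradient G y) =
      fderiv ℝ F y (pt R 1 0) * fderiv ℝ G y (pt R 1 0) +
        fderiv ℝ F y (pt R 0 1) * fderiv ℝ G y (pt R 0 1) := by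
  set b : OrthonormalBasis (Fin 2) ℝ E2 := (EuclideanSpace.basisFun (Fin 2) ℝ).map R.symm with hb
  have hb0 : b 0 = pt R 1 0 := by
    rw [hb, OrthonormalBasis.map_apply, EuclideanSpace.basisFun_apply]
    unfold pt
    congr 1
    ext i
    fin_cases i <;> simp
  have hb1 : b 1 = pt R 0 1 := by
    rw [hb, OrthonormalBasis.map_apply, EuclideanSpace.basisFun_apply]
    unfold pt
    congr 1
    ext i
    fin_cases i <;> simp
  have hgr : ∀ (H : E2 → ℝ) (e : E2), inner ℝ (gradient H y) e = fderiv ℝ H y e := by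
    intro H e
    unfold gradient
    rw [InnerProductSpace.toDual_symm_apply]
  rw [← b.sum_inner_mul_inner, Fin.sum_univ_two, hb0, hb1, hgr, hgr,
    real_inner_comm (gradient G y) (pt R 1 0), real_inner_comm (gradient G y) (pt R 0 1), hgr, hgr]

/-- the harmonic polynomial attached to `f` -/
noncomputable def reP (f : ℂ[X]) (y : E2) : ℝ := (f.eval (toC y)).re
/-- its conjugate -/
noncomputable def imP (f : ℂ[X]) (y : E2) : ℝ := (f.eval (toC y)).im

theorem hasFDerivAt_evalC (f : ℂ[X]) (y : E2) :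
    HasFDerivAt (fun y : E2 => f.eval (toC y))
      (((derivative f).eval (toC y)) • (toC.toContinuousLinearEquiv : E2 →L[ℝ] ℂ)) y := by
  have h1 : HasFDerivAt (fun y : E2 => toC y) (toC.toContinuousLinearEquiv : E2 →L[ℝ] ℂ) y :=
    (toC.toContinuousLinearEquiv : E2 →L[ℝ] ℂ).hasFDerivAt
  have h2 := (f.hasDerivAt (toC y)).comp_hasFDerivAt_of_eq y h1 rfl
  exact h2

theorem hasFDerivAt_reP (f : ℂ[X]) (y : E2) :
    HasFDerivAt (reP f) (Complex.reCLM.comp
      (((derivative f).eval (toC y)) • (toC.toContinuousLinearEquiv : E2 →L[ℝ] ℂ))) y :=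
  Complex.reCLM.hasFDerivAt.comp y (hasFDerivAt_evalC f y)

theorem hasFDerivAt_imP (f : ℂ[X]) (y : E2) :
    HasFDerivAt (imP f) (Complex.imCLM.comp
      (((derivative f).eval (toC y)) • (toC.toContinuousLinearEquiv : E2 →L[ℝ] ℂ))) y :=
  Complex.imCLM.hasFDerivAt.comp y (hasFDerivAt_evalC f y)

theorem fderiv_reP (f : ℂ[X]) (y e : E2) :
    fderiv ℝ (reP f) y e = ((derivative f).eval (toC y) * toC e).re := by
  rw [(hasFDerivAt_reP f y).fderiv]
  rfl

theorem fderiv_imP (f : ℂ[X]) (y e : E2) :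
    fderiv ℝ (imP f) y e = ((derivative f).eval (toC y) * toC e).im := by
  rw [(hasFDerivAt_imP f y).fderiv]
  rfl

theorem contDiff_evalC (f : ℂ[X]) : ContDiff ℝ ∞ (fun y : E2 => f.eval (toC y)) := by
  have h1 : ContDiff ℝ ∞ (fun y : E2 => toC y) :=
    (toC.toContinuousLinearEquiv : E2 →L[ℝ] ℂ).contDiff
  have h2 : ContDiff ℂ ∞ (fun z : ℂ => f.eval z) := f.differentiable.contDiff
  exact (h2.restrict_scalars ℝ).comp h1

theorem contDiff_reP (f : ℂ[X]) : ContDiff ℝ ∞ (reP f) :=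
  Complex.reCLM.contDiff.comp (contDiff_evalC f)

theorem contDiff_imP (f : ℂ[X]) : ContDiff ℝ ∞ (imP f) :=
  Complex.imCLM.contDiff.comp (contDiff_evalC f)

/-- weak Steklov equation for `Re f` -/
def EigC (Ω : Set E2) (f : ℂ[X]) (σ : ℝ) : Prop :=
  ∀ v : E2 → ℝ, ContDiff ℝ 1 v → HasCompactSupport v →
    ∫ y in Ω, inner ℝ (gradient (reP f) y) (gradient v y) =
      σ * ∫ y in frontier Ω, reP f y * v y ∂(Measure.hausdorffMeasure (1 : ℝ))

end Pool.Agent.Lib.MP_9ebc94_an
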